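import Pool.Agent.Work.MP_3892ce_static.Interface
import Pool.Agent.Work.MP_b5407d_gt.Slice

/-! # Melzak's problem, static method: the Prekopa-Leindler inequality on the line -/

set_option autoImplicit false

open MeasureTheory Set
open scoped ENNReal Pointwise

namespace Pool.Agent.Work.MP_3892ce_static

namespace PL1

/-- one-dimensional Brunn-Minkowski for measurable sets -/
theorem bm_meas (t : ℝ) (h0 : 0 < t) (h1 : t < 1) (A B C : Set ℝ) (hA : MeasurableSet A)
    (hB : MeasurableSet B) (hAn : A.Nonempty) (hBn : B.Nonempty)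
    (hC : ∀ a ∈ A, ∀ b ∈ B, (1 - t) * a + t * b ∈ C) :
    ENNReal.ofReal (1 - t) * volume A + ENNReal.ofReal t * volume B ≤ volume C := by
  have key : ∀ K ⊆ A, IsCompact K → K.Nonempty → ∀ L ⊆ B, IsCompact L → L.Nonempty →
      ENNReal.ofReal (1 - t) * volume K + ENNReal.ofReal t * volume L ≤ volume C := by
    intro K hK hKc hKn L hL hLc hLn
    have h := Pool.Agent.Work.MP_b5407d_gt.one_dim ((1 - t) • K) (t • L) (hKc.smul _)
      hKn.smul_set (hLc.smul _) hLn.smul_set
    rw [Measure.addHaar_smul_of_nonneg volume (by linarith : 0 ≤ 1 - t),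
      Measure.addHaar_smul_of_nonneg volume h0.le] at h
    simp only [Module.finrank_self, pow_one] at h
    refine h.trans (measure_mono ?_)
    rintro _ ⟨_, ⟨a, ha, rfl⟩, _, ⟨b, hb, rfl⟩, rfl⟩
    exact hC a (hK ha) b (hL hb)
  have key2 : ∀ K ⊆ A, IsCompact K → ∀ L ⊆ B, IsCompact L →
      ENNReal.ofReal (1 - t) * volume K + ENNReal.ofReal t * volume L ≤ volume C := by
    obtain ⟨a, ha⟩ := hAn
    obtain ⟨b, hb⟩ := hBn
    intro K hK hKc L hL hLc
    refine le_trans ?_ (key (insert a K) (insert_subset ha hK) (hKc.insert a)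
      (insert_nonempty _ _) (insert b L) (insert_subset hb hL) (hLc.insert b)
      (insert_nonempty _ _))
    gcongr
    · exact subset_insert _ _
    · exact subset_insert _ _
  have stepA : ∀ L ⊆ B, IsCompact L →
      ENNReal.ofReal (1 - t) * volume A + ENNReal.ofReal t * volume L ≤ volume C := by
    intro L hL hLc
    have hfin : ENNReal.ofReal t * volume L ≠ ∞ :=
      ENNReal.mul_ne_top ENNReal.ofReal_ne_top hLc.measure_lt_top.ne
    have hle : ENNReal.ofReal t * volume L ≤ volume C := by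
      have := key2 ∅ (empty_subset _) isCompact_empty L hL hLc
      simpa using this
    have h2 : ENNReal.ofReal (1 - t) * volume A ≤ volume C - ENNReal.ofReal t * volume L := by
      rw [hA.measure_eq_iSup_isCompact]
      simp_rw [ENNReal.mul_iSup]
      refine iSup_le fun K => iSup_le fun hK => iSup_le fun hKc => ?_
      exact ENNReal.le_sub_of_add_le_right hfin (key2 K hK hKc L hL hLc)
    calc _ ≤ volume C - ENNReal.ofReal t * volume L + ENNReal.ofReal t * volume L := by gcongr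
      _ = volume C := tsub_add_cancel_of_le hle
  by_cases hAt : ENNReal.ofReal (1 - t) * volume A = ∞
  · have h2 := stepA ∅ (empty_subset _) isCompact_empty
    rw [hAt] at h2
    have : volume C = ∞ := by simpa using h2
    rw [this]
    exact le_top
  · have hle : ENNReal.ofReal (1 - t) * volume A ≤ volume C := by
      have h2 := stepA ∅ (empty_subset _) isCompact_empty
      simpa using h2
    have h2 : ENNReal.ofReal t * volume B ≤ volume C - ENNReal.ofReal (1 - t) * volume A := by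
      rw [hB.measure_eq_iSup_isCompact]
      simp_rw [ENNReal.mul_iSup]
      refine iSup_le fun L => iSup_le fun hL => iSup_le fun hLc => ?_
      exact ENNReal.le_sub_of_add_le_left hAt (stepA L hL hLc)
    calc _ ≤ ENNReal.ofReal (1 - t) * volume A +
          (volume C - ENNReal.ofReal (1 - t) * volume A) := by gcongr
      _ = volume C := add_tsub_cancel_of_le hle

/-- weighted inequality between the means -/
theorem amgm (t : ℝ) (h0 : 0 < t) (h1 : t < 1) (a b : ℝ≥0∞) :
    a ^ (1 - t) * b ^ t ≤ ENNReal.ofReal (1 - t) * a + ENNReal.ofReal t * b := by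
  have ht1 : ENNReal.ofReal (1 - t) ≠ 0 := by
    rw [Ne, ENNReal.ofReal_eq_zero]; linarith
  have ht0 : ENNReal.ofReal t ≠ 0 := by
    rw [Ne, ENNReal.ofReal_eq_zero]; linarith
  by_cases ha : a = ∞
  · rw [ha, ENNReal.mul_top ht1]; simp
  by_cases hb : b = ∞
  · rw [hb, ENNReal.mul_top ht0]; simp
  lift a to NNReal using ha
  lift b to NNReal using hb
  have := NNReal.geom_mean_le_arith_mean2_weighted (Real.toNNReal (1 - t)) (Real.toNNReal t) a b
    (by rw [← Real.toNNReal_add (by linarith) h0.le]; simp)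
  rw [Real.coe_toNNReal _ (by linarith : (0:ℝ) ≤ 1 - t), Real.coe_toNNReal _ h0.le] at this
  rw [← ENNReal.coe_rpow_of_nonneg _ (by linarith : (0:ℝ) ≤ 1 - t),
    ← ENNReal.coe_rpow_of_nonneg _ h0.le]
  unfold ENNReal.ofReal
  exact_mod_cast this

theorem layer (F : ℝ → ℝ≥0∞) (hF : Measurable F) (hF1 : ∀ x, F x ≤ 1) :
    ∫⁻ x, F x = ∫⁻ s in Ioi (0 : ℝ), volume {x | ENNReal.ofReal s < F x} := by
  have hne : ∀ x, F x ≠ ∞ := fun x => ((hF1 x).trans_lt ENNReal.one_lt_top).ne
  have h := lintegral_eq_lintegral_meas_lt (volume : Measure ℝ) (f := fun x => (F x).toReal)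
    (Filter.Eventually.of_forall fun x => ENNReal.toReal_nonneg) hF.ennreal_toReal.aemeasurable
  have h2 : ∀ x, ENNReal.ofReal (F x).toReal = F x := fun x => ENNReal.ofReal_toReal (hne x)
  simp_rw [h2] at h
  rw [h]
  refine setLIntegral_congr_fun measurableSet_Ioi fun s hs => ?_
  congr 1
  ext x
  simp only [mem_ofPred_eq]
  rw [ENNReal.ofReal_lt_iff_lt_toReal (le_of_lt hs) (hne x)]

/-- the normalised case -/
theorem pl_norm (t : ℝ) (h0 : 0 < t) (h1 : t < 1) (f g h : ℝ → ℝ≥0∞) (hf : Measurable f)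
    (hg : Measurable g) (hh : Measurable h) (hf1 : ∀ x, f x ≤ 1) (hg1 : ∀ x, g x ≤ 1)
    (hfs : ∀ s : ℝ≥0∞, s < 1 → ∃ x, s < f x) (hgs : ∀ s : ℝ≥0∞, s < 1 → ∃ x, s < g x)
    (H : ∀ x y, f x ^ (1 - t) * g y ^ t ≤ h ((1 - t) * x + t * y)) :
    ENNReal.ofReal (1 - t) * (∫⁻ x, f x) + ENNReal.ofReal t * (∫⁻ x, g x) ≤ ∫⁻ x, h x := by
  have h1t : 0 < 1 - t := by linarith
  calc ENNReal.ofReal (1 - t) * (∫⁻ x, f x) + ENNReal.ofReal t * (∫⁻ x, g x)
      = ENNReal.ofReal (1 - t) * (∫⁻ s in Ioi (0 : ℝ), volume {x | ENNReal.ofReal s < f x}) +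
        ENNReal.ofReal t * (∫⁻ s in Ioi (0 : ℝ), volume {x | ENNReal.ofReal s < g x}) := by
        rw [layer f hf hf1, layer g hg hg1]
    _ ≤ (∫⁻ s in Ioi (0 : ℝ), ENNReal.ofReal (1 - t) * volume {x | ENNReal.ofReal s < f x}) +
        (∫⁻ s in Ioi (0 : ℝ), ENNReal.ofReal t * volume {x | ENNReal.ofReal s < g x}) :=
        add_le_add (lintegral_const_mul_le _ _) (lintegral_const_mul_le _ _)
    _ ≤ ∫⁻ s in Ioi (0 : ℝ), (ENNReal.ofReal (1 - t) * volume {x | ENNReal.ofReal s < f x} +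
        ENNReal.ofReal t * volume {x | ENNReal.ofReal s < g x}) := le_lintegral_add _ _
    _ ≤ ∫⁻ s in Ioi (0 : ℝ), volume {x | ENNReal.ofReal s < min (h x) 1} := by
        refine setLIntegral_mono' measurableSet_Ioi fun s hs => ?_
        by_cases hs1 : s < 1
        · have hs1' : ENNReal.ofReal s < 1 := by
            rw [ENNReal.ofReal_lt_one]; exact hs1
          apply bm_meas t h0 h1 _ _ _ (measurableSet_lt measurable_const hf)
            (measurableSet_lt measurable_const hg) (hfs _ hs1') (hgs _ hs1')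
          intro a ha b hb
          simp only [mem_ofPred_eq] at ha hb ⊢
          refine lt_min ?_ hs1'
          refine lt_of_lt_of_le ?_ (H a b)
          have e : ENNReal.ofReal s =
              ENNReal.ofReal s ^ (1 - t) * ENNReal.ofReal s ^ t := by
            rw [← ENNReal.rpow_add_of_nonneg _ _ h1t.le h0.le]
            simp
          rw [e]
          exact ENNReal.mul_lt_mul (ENNReal.rpow_lt_rpow ha h1t) (ENNReal.rpow_lt_rpow hb h0)
        · have hs1' : 1 ≤ ENNReal.ofReal s := by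
            rw [ENNReal.one_le_ofReal]; linarith
          have e1 : {x | ENNReal.ofReal s < f x} = ∅ := by
            ext x; simp only [mem_ofPred_eq, mem_empty_iff_false, iff_false, not_lt]
            exact (hf1 x).trans hs1'
          have e2 : {x | ENNReal.ofReal s < g x} = ∅ := by
            ext x; simp only [mem_ofPred_eq, mem_empty_iff_false, iff_false, not_lt]
            exact (hg1 x).trans hs1'
          rw [e1, e2]
          simp
    _ = ∫⁻ x, min (h x) 1 := (layer (fun x => min (h x) 1) (hh.min measurable_const)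
        (fun x => min_le_right _ _)).symm
    _ ≤ ∫⁻ x, h x := lintegral_mono fun x => min_le_left _ _

/-- the bounded case -/
theorem pl_bdd (t : ℝ) (h0 : 0 < t) (h1 : t < 1) (f g h : ℝ → ℝ≥0∞) (hf : Measurable f)
    (hg : Measurable g) (hh : Measurable h) (N : ℝ≥0∞) (hN : N ≠ ∞) (hfN : ∀ x, f x ≤ N)
    (hgN : ∀ x, g x ≤ N)
    (H : ∀ x y, f x ^ (1 - t) * g y ^ t ≤ h ((1 - t) * x + t * y)) :
    (∫⁻ x, f x) ^ (1 - t) * (∫⁻ x, g x) ^ t ≤ ∫⁻ x, h x := by
  have h1t : 0 < 1 - t := by linarith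
  set F := ⨆ x, f x with hFdef
  set G := ⨆ x, g x with hGdef
  have hFt : F ≠ ∞ := ((iSup_le hfN).trans_lt hN.lt_top).ne
  have hGt : G ≠ ∞ := ((iSup_le hgN).trans_lt hN.lt_top).ne
  have hfF : ∀ x, f x ≤ F := fun x => le_iSup f x
  have hgG : ∀ x, g x ≤ G := fun x => le_iSup g x
  by_cases hF0 : F = 0
  · have : ∀ x, f x = 0 := fun x => by
      have := hfF x; rw [hF0] at this; simpa using this
    simp [this, ENNReal.zero_rpow_of_pos h1t]
  by_cases hG0 : G = 0
  · have : ∀ x, g x = 0 := fun x => by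
      have := hgG x; rw [hG0] at this; simpa using this
    simp [this, ENNReal.zero_rpow_of_pos h0]
  set D := F ^ (1 - t) * G ^ t with hD
  have hD0 : D ≠ 0 := by
    rw [hD]
    exact mul_ne_zero (by simp [ENNReal.rpow_eq_zero_iff, hF0, hFt])
      (by simp [ENNReal.rpow_eq_zero_iff, hG0, hGt])
  have hDt : D ≠ ∞ := by
    rw [hD]
    exact ENNReal.mul_ne_top (ENNReal.rpow_ne_top_of_nonneg h1t.le hFt)
      (ENNReal.rpow_ne_top_of_nonneg h0.le hGt)
  have hDinv : D⁻¹ = (F⁻¹) ^ (1 - t) * (G⁻¹) ^ t := by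
    rw [hD, ENNReal.mul_inv, ENNReal.inv_rpow, ENNReal.inv_rpow]
    · left; simp [ENNReal.rpow_eq_zero_iff, hF0, hFt]
    · left; exact ENNReal.rpow_ne_top_of_nonneg h1t.le hFt
  have key := pl_norm t h0 h1 (fun x => f x * F⁻¹) (fun x => g x * G⁻¹) (fun x => h x * D⁻¹)
    (hf.mul_const _) (hg.mul_const _) (hh.mul_const _)
    (fun x => by
      rw [← div_eq_mul_inv]; exact ENNReal.div_le_of_le_mul (by simpa using hfF x))
    (fun x => by
      rw [← div_eq_mul_inv]; exact ENNReal.div_le_of_le_mul (by simpa using hgG x))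
    (fun s hs => by
      have h2 : s * F < F := by
        calc s * F < 1 * F := (ENNReal.mul_lt_mul_iff_left hF0 hFt).2 hs
          _ = F := one_mul _
      obtain ⟨x, hx⟩ := lt_iSup_iff.1 h2
      refine ⟨x, ?_⟩
      rw [← div_eq_mul_inv]
      exact (ENNReal.lt_div_iff_mul_lt (Or.inl hF0) (Or.inl hFt)).2 hx)
    (fun s hs => by
      have h2 : s * G < G := by
        calc s * G < 1 * G := (ENNReal.mul_lt_mul_iff_left hG0 hGt).2 hs
          _ = G := one_mul _
      obtain ⟨x, hx⟩ := lt_iSup_iff.1 h2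
      refine ⟨x, ?_⟩
      rw [← div_eq_mul_inv]
      exact (ENNReal.lt_div_iff_mul_lt (Or.inl hG0) (Or.inl hGt)).2 hx)
    (fun x y => by
      show (f x * F⁻¹) ^ (1 - t) * (g y * G⁻¹) ^ t ≤ h ((1 - t) * x + t * y) * D⁻¹
      rw [ENNReal.mul_rpow_of_nonneg _ _ h1t.le, ENNReal.mul_rpow_of_nonneg _ _ h0.le, hDinv]
      calc f x ^ (1 - t) * F⁻¹ ^ (1 - t) * (g y ^ t * G⁻¹ ^ t)
          = (f x ^ (1 - t) * g y ^ t) * (F⁻¹ ^ (1 - t) * G⁻¹ ^ t) := by ring
        _ ≤ _ := by gcongr; exact H x y)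
  have key2 := (amgm t h0 h1 _ _).trans key
  rw [lintegral_mul_const _ hf, lintegral_mul_const _ hg, lintegral_mul_const _ hh,
    ENNReal.mul_rpow_of_nonneg _ _ h1t.le, ENNReal.mul_rpow_of_nonneg _ _ h0.le] at key2
  have key3 : ((∫⁻ x, f x) ^ (1 - t) * (∫⁻ x, g x) ^ t) * D⁻¹ ≤ (∫⁻ x, h x) * D⁻¹ := by
    refine le_trans (le_of_eq ?_) key2
    rw [hDinv]; ring
  have hDi0 : D⁻¹ ≠ 0 := ENNReal.inv_ne_zero.2 hDt
  have hDit : D⁻¹ ≠ ∞ := ENNReal.inv_ne_top.2 hD0
  exact (ENNReal.mul_le_mul_iff_left hDi0 hDit).1 key3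

end PL1

open PL1 in
/-- Prekopa-Leindler on the line -/
theorem blk_PL1 : Stmt_PL1 := by
  intro t h0 h1 f g h hf hg hh H
  have h1t : 0 < 1 - t := by linarith
  by_cases hf0 : ∫⁻ x, f x = 0
  · rw [hf0, ENNReal.zero_rpow_of_pos h1t]; simp
  by_cases hg0 : ∫⁻ x, g x = 0
  · rw [hg0, ENNReal.zero_rpow_of_pos h0]; simp
  have hmono : ∀ F : ℝ → ℝ≥0∞, Measurable F →
      Filter.Tendsto (fun N : ℕ => ∫⁻ x, min (F x) N) Filter.atTop (nhds (∫⁻ x, F x)) := by
    intro F hF
    apply lintegral_tendsto_of_tendsto_of_monotone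
    · exact fun n => (hF.min measurable_const).aemeasurable
    · refine Filter.Eventually.of_forall fun x n m hnm => ?_
      exact min_le_min le_rfl (by exact_mod_cast hnm)
    · refine Filter.Eventually.of_forall fun x => ?_
      have : Filter.Tendsto (fun n : ℕ => min (F x) (n : ℝ≥0∞)) Filter.atTop
          (nhds (min (F x) ∞)) := tendsto_const_nhds.min ENNReal.tendsto_nat_nhds_top
      simpa using this
  have hlim : Filter.Tendsto (fun N : ℕ => (∫⁻ x, min (f x) N) ^ (1 - t) *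
      (∫⁻ x, min (g x) N) ^ t) Filter.atTop
      (nhds ((∫⁻ x, f x) ^ (1 - t) * (∫⁻ x, g x) ^ t)) := by
    apply ENNReal.Tendsto.mul
    · exact ((ENNReal.continuous_rpow_const (y := 1 - t)).tendsto _).comp (hmono f hf)
    · left; simp [ENNReal.rpow_eq_zero_iff, hf0, not_lt.2 h1t.le]
    · exact ((ENNReal.continuous_rpow_const (y := t)).tendsto _).comp (hmono g hg)
    · left; simp [ENNReal.rpow_eq_zero_iff, hg0, not_lt.2 h0.le]
  refine le_of_tendsto' hlim fun N => ?_
  apply pl_bdd t h0 h1 _ _ h (hf.min measurable_const) (hg.min measurable_const) hh N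
    (ENNReal.natCast_ne_top N) (fun x => min_le_right _ _) (fun x => min_le_right _ _)
  intro x y
  refine le_trans ?_ (H x y)
  gcongr
  · exact min_le_left _ _
  · exact min_le_left _ _

end Pool.Agent.Work.MP_3892ce_static
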