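import Pool.Agent.Work.MP_3892ce_static.Interface

/-! # Melzak's problem, static method: the Prekopa-Leindler inequality in `ℝ^d` -/

set_option autoImplicit false

open MeasureTheory Set
open scoped ENNReal Pointwise

namespace Pool.Agent.Work.MP_3892ce_static

namespace PLN

theorem measurable_cons (d : ℕ) :
    Measurable (fun p : ℝ × (Fin d → ℝ) => (Fin.cons p.1 p.2 : Fin (d + 1) → ℝ)) := by
  rw [measurable_pi_iff]
  intro i
  refine Fin.cases ?_ (fun j => ?_) i
  · simpa using measurable_fst
  · simp only [Fin.cons_succ]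
    exact (measurable_pi_apply j).comp measurable_snd

theorem fubini (d : ℕ) (f : (Fin (d + 1) → ℝ) → ℝ≥0∞) (hf : Measurable f) :
    ∫⁻ x, f x = ∫⁻ a : ℝ, ∫⁻ y : Fin d → ℝ, f (Fin.cons a y) := by
  have hmp := volume_preserving_piFinSuccAbove (fun _ : Fin (d + 1) => ℝ) 0
  have e1 : ∫⁻ x, f x = ∫⁻ p : ℝ × (Fin d → ℝ), f (Fin.cons p.1 p.2) := by
    have h2 := hmp.lintegral_comp (hf.comp (measurable_cons d))
    refine Eq.trans ?_ h2
    refine lintegral_congr fun x => ?_
    show f x = f _
    congr 1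
    funext i
    refine Fin.cases ?_ (fun j => ?_) i
    · rfl
    · rfl
  rw [e1, Measure.volume_eq_prod,
    lintegral_prod (fun p : ℝ × (Fin d → ℝ) => f (Fin.cons p.1 p.2))
      (hf.comp (measurable_cons d)).aemeasurable]

theorem measurable_slice (d : ℕ) (f : (Fin (d + 1) → ℝ) → ℝ≥0∞) (hf : Measurable f) :
    Measurable fun a : ℝ => ∫⁻ y : Fin d → ℝ, f (Fin.cons a y) :=
  Measurable.lintegral_prod_right' (f := fun p : ℝ × (Fin d → ℝ) => f (Fin.cons p.1 p.2))
    (hf.comp (measurable_cons d))

end PLN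

open PLN in
/-- Prekopa-Leindler in `ℝ^d` -/
theorem blk_PLN (h1 : Stmt_PL1) : Stmt_PLN := by
  intro d
  induction d with
  | zero =>
    intro t h0 h1 f g h hf hg hh H
    rw [volume_pi, Measure.pi_of_empty, lintegral_dirac' _ hf, lintegral_dirac' _ hg,
      lintegral_dirac' _ hh]
    refine (H _ _).trans (le_of_eq ?_)
    congr 1
    exact Subsingleton.elim _ _
  | succ d ih =>
    intro t ht0 ht1 f g h hf hg hh H
    rw [fubini d f hf, fubini d g hg, fubini d h hh]
    apply h1 t ht0 ht1 _ _ _ (measurable_slice d f hf) (measurable_slice d g hg)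
      (measurable_slice d h hh)
    intro a b
    have mc : ∀ a : ℝ, Measurable (fun y : Fin d → ℝ => (Fin.cons a y : Fin (d + 1) → ℝ)) :=
      fun a => (measurable_cons d).comp measurable_prodMk_left
    apply ih t ht0 ht1 _ _ _ (hf.comp (mc a)) (hg.comp (mc b))
      (hh.comp (mc ((1 - t) * a + t * b)))
    intro x y
    refine (H _ _).trans (le_of_eq ?_)
    show h _ = h _
    congr 1
    funext i
    refine Fin.cases ?_ (fun j => ?_) i
    · simp
    · simp

end Pool.Agent.Work.MP_3892ce_static
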