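import Pool.Agent.Work.MP_3892ce_static.Interface

/-! # Melzak's problem, static method: statements of the blocks, second part
(general weights, sharp vertices, filling of vertices) -/

set_option autoImplicit false

open MeasureTheory Set
open scoped ENNReal Pointwise

namespace Pool.Agent.Work.MP_3892ce_static

/-- outer unit normal, in the coordinates of the frame of the facet `i`, of the edge between the
facets `i` and `j` -/
noncomputable def nu {ι : Type} (n : ι → E 3) (U : ι → (E 2 →ₗᵢ[ℝ] E 3)) (i j : ι) : E 2 :=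
  (‖LinearMap.adjoint (U i).toLinearMap (n j)‖)⁻¹ • LinearMap.adjoint (U i).toLinearMap (n j)

/-- `STATN`: unit normals, the planar closing relation, and the static inequality with arbitrary
(also negative) weights `h i j + h j i = 1` -/
def Stmt_STATN : Prop :=
  ∀ (ι : Type) [Fintype ι] [DecidableEq ι] (n : ι → E 3) (b : ι → ℝ)
    (U : ι → (E 2 →ₗᵢ[ℝ] E 3)), (∀ i, Frame (n i) (U i)) → Irr n b →
    (∀ i j, 0 < len n b i j → ‖nu n U i j‖ = 1) ∧
    (∀ i, ∑ j, len n b i j • nu n U i j = 0) ∧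
    ∀ (K : ι → Set (E 2)) (h : ι → ι → ℝ), (∀ i j, i ≠ j → h i j + h j i = 1) →
      (∀ i, IsCompact (K i)) → (∀ i, (K i).Nonempty) →
      (∀ i, ∀ y ∈ K i, ∀ j, 0 < len n b i j → inner ℝ (nu n U i j) y ≤ h i j) →
      ∑ i, 2 * √(area (HP n b) (n i) (U i) (b i) * (volume (K i)).toReal) ≤ L n b

/-- area of a segment, `0` if the chord misses the disc -/
noncomputable def sg (r d : ℝ) : ℝ := if d < r then seg r d else 0

/-- `AR1`: a disc cut by half-planes at different distances -/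
def Stmt_AR1 : Prop :=
  ∀ (ι : Type) (s : Finset ι) (ν : ι → E 2) (d : ι → ℝ) (r : ℝ), (∀ j ∈ s, ‖ν j‖ = 1) →
    (∀ j ∈ s, 0 ≤ d j) → 0 < r →
    Real.pi * r ^ 2 - ∑ j ∈ s, sg r (d j) ≤
      (volume {y : E 2 | ‖y‖ ≤ r ∧ ∀ j ∈ s, inner ℝ (ν j) y ≤ d j}).toReal

/-- gain at a corner with angle at least `g` between the two normals, from radius `r` to `w` -/
noncomputable def extra (r w d1 d2 g : ℝ) : ℝ :=
  ((w ^ 2 - r ^ 2) * g + seg r d1 + seg r d2 - seg w d1 - seg w d2) / 2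

/-- `AR2`: the same with a known angle between two of the normals, `j1` and `j2`, no other normal
being in the open cone between them. In the cone the radius is `w`, outside it is `r`; if another
half-plane cuts the additional region, then it makes one of the half-planes `j1, j2` superfluous
inside the disc of radius `r`. -/
def Stmt_AR2 : Prop :=
  ∀ (ι : Type) [DecidableEq ι] (s : Finset ι) (ν : ι → E 2) (d : ι → ℝ) (r w g : ℝ) (j1 j2 : ι),
    (∀ j ∈ s, ‖ν j‖ = 1) → (∀ j ∈ s, 0 ≤ d j) → 0 < r → r ≤ w → j1 ∈ s → j2 ∈ s → j1 ≠ j2 →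
    d j1 < r → d j2 < r → 0 ≤ g → g ≤ Real.pi → inner ℝ (ν j1) (ν j2) ≤ Real.cos g →
    Real.arccos (d j1 / w) + Real.arccos (d j2 / w) ≤ g →
    (∀ j ∈ s, j ≠ j1 → j ≠ j2 →
      ¬ ∃ a b : ℝ, 0 < a ∧ 0 < b ∧ ν j = a • ν j1 + b • ν j2) →
    ∀ e : ℝ, e ≤ extra r w (d j1) (d j2) g → e ≤ seg r (d j1) → e ≤ seg r (d j2) →
    Real.pi * r ^ 2 - ∑ j ∈ s, sg r (d j) + e ≤
      (volume {y : E 2 | ‖y‖ ≤ w ∧ ∀ j ∈ s, inner ℝ (ν j) y ≤ d j}).toReal

/-- `RAD7`: facets `0, 1, 2, 3, 4` with all pairs adjacent except perhaps `{3, 4}`; then no facet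
`5` is adjacent to `3` and to `4` -/
def Stmt_RAD7 : Prop :=
  ∀ (ι : Type) (n : ι → E 3) (b : ι → ℝ), (∃ x, ∀ i, inner ℝ (n i) x < b i) →
    ∀ s : Fin 6 → ι, Function.Injective s →
      ¬ ((∀ i j : Fin 6, i < j → j ≠ 5 → ¬ (i = 3 ∧ j = 4) → Adj n b (s i) (s j)) ∧
        Adj n b (s 3) (s 5) ∧ Adj n b (s 4) (s 5))

/-- `FAMG`: the inequality of a family. `m` are the named facets, `h` the weights between them,
`w a` the weight of a named facet against the others, `W a` a lower bound of the area of the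
set used in the facet `a`, `t` the coefficient of the other facets. -/
def Stmt_FAMG : Prop :=
  ∀ (ι : Type) [Fintype ι] [DecidableEq ι] (n : ι → E 3) (b : ι → ℝ)
    (U : ι → (E 2 →ₗᵢ[ℝ] E 3)), (∀ i, Frame (n i) (U i)) → Irr n b →
    ∀ (k : ℕ) (m : Fin k → ι), Function.Injective m →
    ∀ (h : Fin k → Fin k → ℝ) (w W : Fin k → ℝ) (t : ℝ), (∀ a b, a ≠ b → h a b + h b a = 1) →
      (∀ a b, 0 ≤ h a b) → (∀ a, 0 < w a) → (∀ a, 0 ≤ W a) → 0 ≤ t →
      (∀ a, W a ≤ (volume {y : E 2 | ‖y‖ ≤ w a ∧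
        ∀ c, 0 < len n b (m a) (m c) → inner ℝ (nu n U (m a) (m c)) y ≤ h a c}).toReal) →
      (∀ i, i ∉ Set.range m →
        ((∀ a, 0 < len n b i (m a) → w a ≤ 1) ∧
          t ^ 2 ≤ 4 * (Real.pi / 4 - ∑ a, if 0 < len n b i (m a) then sg (1 / 2) (1 - w a) else 0))
        ∨ ∃ (a0 : Fin k) (x ρ : ℝ), 0 < len n b i (m a0) ∧ w a0 = 1 + x ∧ 0 ≤ x ∧ 0 ≤ ρ ∧
          (∀ a, a ≠ a0 → 0 < len n b i (m a) → x + 2 * ρ ≤ 1 - w a) ∧ x + 2 * ρ ≤ 1 / 2 ∧
          t ≤ 2 * √Real.pi * ρ) →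
      ∑ a, 2 * √(area (HP n b) (n (m a)) (U (m a)) (b (m a)) * W a) +
        t * ∑ i with i ∉ Set.range m, √(area (HP n b) (n i) (U i) (b i)) ≤ L n b

/-- the nine pairs of the triangular prism: `0, 1, 2` quadrilaterals, `3, 4` triangles -/
def NinePairs {ι : Type} (n : ι → E 3) (b : ι → ℝ) (m : Fin 5 → ι) : Prop :=
  ∀ i j : Fin 5, i < j → ¬ (i = 3 ∧ j = 4) → Adj n b (m i) (m j)

/-- `CONE5`: if the five half-spaces of the nine pairs have a bounded intersection, then at the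
corner `(t, i, j)` (`t` a triangle, `i, j` quadrilaterals) of each of the three facets no other
normal of a named facet is in the open cone of the two normals at the corner -/
def Stmt_CONE5 : Prop :=
  ∀ (ι : Type) [Fintype ι] [DecidableEq ι] (n : ι → E 3) (b : ι → ℝ)
    (U : ι → (E 2 →ₗᵢ[ℝ] E 3)), (∀ i, Frame (n i) (U i)) → Irr n b →
    ∀ m : Fin 5 → ι, Function.Injective m → NinePairs n b m →
      Bornology.IsBounded (HP (fun k => n (m k)) (fun k => b (m k))) →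
      ∀ t i j : Fin 5, (t = 3 ∨ t = 4) → i ≤ 2 → j ≤ 2 → i ≠ j →
      ∀ p q r k : Fin 5, ({p, q, r} : Finset (Fin 5)) = {t, i, j} → k ≠ p → k ≠ q → k ≠ r →
        0 < len n b (m p) (m k) →
        ¬ ∃ α β : ℝ, 0 < α ∧ 0 < β ∧
          nu n U (m p) (m k) = α • nu n U (m p) (m q) + β • nu n U (m p) (m r)

/-- `FILL`: filling the vertices. `Q` is the intersection of the five half-spaces of the nine
pairs. Either `L` does not increase when all vertices of `Q` are filled, or some vertex of `Q`,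
where `P` has further facets, is sharp. -/
def Stmt_FILL : Prop :=
  ∀ (ι : Type) [Fintype ι] [DecidableEq ι] (n : ι → E 3) (b : ι → ℝ)
    (U : ι → (E 2 →ₗᵢ[ℝ] E 3)), (∀ i, Frame (n i) (U i)) → Irr n b →
    ∀ m : Fin 5 → ι, Function.Injective m → NinePairs n b m →
      Bornology.IsBounded (HP (fun k => n (m k)) (fun k => b (m k))) →
      Irr (fun k => n (m k)) (fun k => b (m k)) ∧
      (L (fun k => n (m k)) (fun k => b (m k)) ≤ L n b ∨
      ∃ t i j : Fin 5, (t = 3 ∨ t = 4) ∧ i < j ∧ j ≤ 2 ∧ ∃ α β γ : ℝ, 0 ≤ α ∧ 0 ≤ β ∧ 0 ≤ γ ∧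
        ‖β • nu n U (m t) (m i) + γ • nu n U (m t) (m j)‖ +
        ‖α • nu n U (m i) (m j) + β • nu n U (m i) (m t)‖ +
        ‖α • nu n U (m j) (m i) + γ • nu n U (m j) (m t)‖ < α + β + γ)

/-- `UNB`: if the named half-spaces have an unbounded intersection and the other facets have small
area, then the isoperimetric quotient is large -/
def Stmt_UNB : Prop :=
  ∀ (ι : Type) [Fintype ι] [DecidableEq ι] (n : ι → E 3) (b : ι → ℝ) (U : ι → (E 2 →ₗᵢ[ℝ] E 3)),
    (∀ i, Frame (n i) (U i)) → Irr n b → ∀ M : Finset ι,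
    ¬ Bornology.IsBounded (HP (fun k : M => n k) (fun k : M => b k)) →
    ∀ S T : ℝ, S = ∑ i, area (HP n b) (n i) (U i) (b i) →
      T = ∑ i with i ∉ M, area (HP n b) (n i) (U i) (b i) →
      4 * Real.pi * (volume (HP n b)).toReal ^ 2 ≤ T * S ^ 2

/-- chord: `‖a ν + b ν'‖` where `⟪ν, ν'⟫ = 2 s^2 - 1` -/
noncomputable def chord (a b s : ℝ) : ℝ := √((a - b) ^ 2 + 4 * a * b * s ^ 2)

/-- `TRI`: a vertex which is not sharp. `s0`: triangle, between the edges `β, γ`; `s1` between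
`α, β`; `s2` between `α, γ` (sines of half the face angles). -/
def Stmt_TRI : Prop :=
  ∀ s0 s1 s2 : ℝ, s0 ≤ 1 → s1 ≤ 1 → s2 ≤ 1 → 3 / 10 ≤ s0 → 47 / 100 ≤ s1 → 47 / 100 ≤ s2 →
    (s0 ≤ 9 / 25 ∨ s1 ≤ 1 / 2 ∨ s2 ≤ 1 / 2 → 303 / 200 ≤ s0 + s1 + s2) →
    151 / 100 ≤ s0 + s1 + s2 →
    ∀ α β γ : ℝ, 0 ≤ α → 0 ≤ β → 0 ≤ γ →
      α + β + γ ≤ chord β γ s0 + chord α β s1 + chord α γ s2

/-- `NUCH`: the norms in `FILL` are chords; adjacent named facets have unit normals -/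
def Stmt_NUCH : Prop :=
  ∀ (a b : ℝ) (ν ν' : E 2), ‖ν‖ = 1 → ‖ν'‖ = 1 →
    ‖a • ν + b • ν'‖ = chord a b (√((1 + inner ℝ ν ν') / 2))

/-- `ZLE`: the total edge length is at most the sum over all pairs of facets -/
def Stmt_ZLE : Prop :=
  ∀ (ι : Type) [Fintype ι] [DecidableEq ι] (n : ι → E 3) (b : ι → ℝ), Irr n b →
    Pool.Agent.Work.MP_3892ce_gt.zeta1 (HP n b) ≤ ENNReal.ofReal (L n b)

end Pool.Agent.Work.MP_3892ce_static
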