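import Pool.Agent.Work.MP_3892ce_static.BRBbase

/-! # Melzak's problem, static method: blocks BRB0 and BRB1 -/

set_option autoImplicit false

open MeasureTheory Set

namespace Pool.Agent.Work.MP_3892ce_static

namespace BRB

theorem dg_le_card {ι : Type} [Fintype ι] [DecidableEq ι] (n : ι → E 3) (b : ι → ℝ)
    (s : Fin 6 → ι) (J : Finset (Fin 6)) (i : ι) : dg n b s J i ≤ J.card :=
  Finset.card_filter_le _ _

/-- indicator of adjacency -/
noncomputable def ad {ι : Type} [DecidableEq ι] (n : ι → E 3) (b : ι → ℝ) (i j : ι) : ℕ :=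
  if 0 < len n b i j then 1 else 0

theorem ad_le {ι : Type} [DecidableEq ι] (n : ι → E 3) (b : ι → ℝ) (i j : ι) : ad n b i j ≤ 1 := by
  unfold ad
  split_ifs <;> simp

theorem ad_self {ι : Type} [DecidableEq ι] (n : ι → E 3) (b : ι → ℝ) (i : ι) : ad n b i i = 0 := by
  unfold ad
  rw [len_self, if_neg (lt_irrefl _)]

theorem ad_symm {ι : Type} [DecidableEq ι] (n : ι → E 3) (b : ι → ℝ) (i j : ι) :
    ad n b i j = ad n b j i := by
  unfold ad
  rw [len_symm]

theorem dg_eq {ι : Type} [Fintype ι] [DecidableEq ι] (n : ι → E 3) (b : ι → ℝ)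
    (s : Fin 6 → ι) (J : Finset (Fin 6)) (i : ι) : dg n b s J i = ∑ a ∈ J, ad n b i (s a) := by
  unfold dg ad
  rw [Finset.card_filter]

end BRB

open BRB in
theorem blk_BRB0 (hTWO : Stmt_TWO) : Stmt_BRB0 := by
  intro ι _ _ n b U hU hI s hs
  refine ⟨?_, ?_⟩
  · -- no named facets
    have h := hTWO ι n b U hU hI ∅ 1 (fun _ => 1 / 2) le_rfl (by simp) (by
      intro i _
      norm_num)
    refine le_trans ?_ h
    have h1 : ∀ i, √Real.pi * ra n b U i = 2 * √(area (HP n b) (n i) (U i) (b i) *
        Wd (1 / 2) (if i ∈ (∅ : Finset ι) then 1 / 2 else 1 - 1)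
          ((∅ : Finset ι).filter (fun j => 0 < len n b i j)).card) := by
      intro i
      have e1 : Wd (1 / 2) (if i ∈ (∅ : Finset ι) then 1 / 2 else 1 - 1)
          ((∅ : Finset ι).filter (fun j => 0 < len n b i j)).card = Real.pi * (1 / 2) ^ 2 := by
        unfold Wd
        simp
      rw [e1, Real.sqrt_mul (by unfold area; exact ENNReal.toReal_nonneg), Real.sqrt_mul
        Real.pi_pos.le, Real.sqrt_sq (by norm_num)]
      unfold ra
      ring
    rw [← Finset.sum_congr rfl fun i _ => h1 i, ← Finset.mul_sum]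
    refine mul_le_mul_of_nonneg_left (le_of_eq ?_) (Real.sqrt_nonneg _)
    rw [← Finset.sum_add_sum_compl (Finset.univ.image s) (fun i => ra n b U i),
      Finset.sum_image fun a _ c _ h => hs.1 h, Fin.sum_univ_six]
    unfold rest
    congr 2
    ext i
    simp
  · intro w C T hw hC hT
    have h := fam hTWO hU hI hs.1 {0, 1, 2} hw hC hT (K := 3) (by norm_num)
      (fun i _ => (dg_le_card n b s _ i).trans (by decide))
    refine le_trans ?_ h
    rw [Fin.sum_univ_six]
    have hd : ∀ a, dg n b s {0, 1, 2} (s a) ≤ 3 := fun a => (dg_le_card n b s _ _).trans (by decide)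
    have hd2 : ∀ a ∈ ({0, 1, 2} : Finset (Fin 6)), dg n b s {0, 1, 2} (s a) ≤ 2 := by
      intro a ha
      rw [dg_eq]
      have h0 := ad_self n b (s a)
      simp only [Finset.mem_insert, Finset.mem_singleton] at ha
      rcases ha with rfl | rfl | rfl
      · rw [Finset.sum_insert (by decide), Finset.sum_insert (by decide), Finset.sum_singleton]
        have := ad_le n b (s 0) (s 1)
        have := ad_le n b (s 0) (s 2)
        omega
      · rw [Finset.sum_insert (by decide), Finset.sum_insert (by decide), Finset.sum_singleton]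
        have := ad_le n b (s 1) (s 0)
        have := ad_le n b (s 1) (s 2)
        omega
      · rw [Finset.sum_insert (by decide), Finset.sum_insert (by decide), Finset.sum_singleton]
        have := ad_le n b (s 2) (s 1)
        have := ad_le n b (s 2) (s 0)
        omega
    have hCm : ∀ d ≤ 2, C 2 ≤ C d := by
      intro d hd
      have h1 := hC.2.1 0 (by norm_num)
      have h2 := hC.2.1 1 (by norm_num)
      interval_cases d <;> norm_num at * <;> linarith
    have hTm : ∀ k ≤ 3, T 3 ≤ T k := by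
      intro k hk
      have h1 := hT.2.1 0 (by norm_num)
      have h2 := hT.2.1 1 (by norm_num)
      have h3 := hT.2.1 2 (by norm_num)
      interval_cases k <;> norm_num at * <;> linarith
    have r0 := mul_le_mul_of_nonneg_right (hCm _ (hd2 0 (by decide))) (ra_nonneg n b U (s 0))
    have r1 := mul_le_mul_of_nonneg_right (hCm _ (hd2 1 (by decide))) (ra_nonneg n b U (s 1))
    have r2 := mul_le_mul_of_nonneg_right (hCm _ (hd2 2 (by decide))) (ra_nonneg n b U (s 2))
    have r3 := mul_le_mul_of_nonneg_right (hTm _ (hd 3)) (ra_nonneg n b U (s 3))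
    have r4 := mul_le_mul_of_nonneg_right (hTm _ (hd 4)) (ra_nonneg n b U (s 4))
    have r5 := mul_le_mul_of_nonneg_right (hTm _ (hd 5)) (ra_nonneg n b U (s 5))
    rw [if_pos (by decide), if_pos (by decide), if_pos (by decide), if_neg (by decide),
      if_neg (by decide), if_neg (by decide)]
    linarith

open BRB in
theorem blk_BRB1 (hTWO : Stmt_TWO) (hRAD5 : Stmt_RAD5) (hADJ : Stmt_ADJ) : Stmt_BRB1 := by
  intro ι _ _ n b U hU hI s hs hK4 hfive w C T hw hC hT
  -- adjacency numbers
  have a01 : ad n b (s 0) (s 1) = 1 := if_pos (hK4 0 1 (by decide) (by decide))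
  have a02 : ad n b (s 0) (s 2) = 1 := if_pos (hK4 0 2 (by decide) (by decide))
  have a03 : ad n b (s 0) (s 3) = 1 := if_pos (hK4 0 3 (by decide) (by decide))
  have a12 : ad n b (s 1) (s 2) = 1 := if_pos (hK4 1 2 (by decide) (by decide))
  have a13 : ad n b (s 1) (s 3) = 1 := if_pos (hK4 1 3 (by decide) (by decide))
  have a23 : ad n b (s 2) (s 3) = 1 := if_pos (hK4 2 3 (by decide) (by decide))
  have hout : ∀ i, (∀ a : Fin 6, a < 4 → i ≠ s a) →
      ad n b i (s 0) + ad n b i (s 1) + ad n b i (s 2) + ad n b i (s 3) ≤ 3 := by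
    intro i _
    by_contra hcon
    have l0 := ad_le n b i (s 0)
    have l1 := ad_le n b i (s 1)
    have l2 := ad_le n b i (s 2)
    have l3 := ad_le n b i (s 3)
    have hpos : ∀ j, ad n b i j = 1 → 0 < len n b i j := by
      intro j hj
      unfold ad at hj
      split_ifs at hj with h
      exact h
    exact noK5 hRAD5 hADJ hI (hK4 0 1 (by decide) (by decide)) (hK4 0 2 (by decide) (by decide))
      (hK4 0 3 (by decide) (by decide)) (hK4 1 2 (by decide) (by decide))
      (hK4 1 3 (by decide) (by decide)) (hK4 2 3 (by decide) (by decide))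
      (hpos _ (by omega)) (hpos _ (by omega)) (hpos _ (by omega)) (hpos _ (by omega))
  have hne : ∀ i j : Fin 6, i ≠ j → s i ≠ s j := fun i j h h' => h (hs.1 h')
  have h5 := hout (s 5) (fun a ha => hne _ _ (by rintro rfl; exact absurd ha (by decide)))
  have h4 : ad n b (s 4) (s 0) + ad n b (s 4) (s 1) + ad n b (s 4) (s 2) + ad n b (s 4) (s 3) ≤ 2 := by
    obtain ⟨i, j, hij, hj, hi4, hj4⟩ := hfive
    have l0 := ad_le n b (s 4) (s 0)
    have l1 := ad_le n b (s 4) (s 1)
    have l2 := ad_le n b (s 4) (s 2)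
    have l3 := ad_le n b (s 4) (s 3)
    have hz : ∀ a, ¬ 0 < len n b (s a) (s 4) → ad n b (s 4) (s a) = 0 := by
      intro a h
      rw [ad_symm]
      exact if_neg h
    have z1 := hz _ hi4
    have z2 := hz _ hj4
    fin_cases i <;> fin_cases j <;> simp_all <;> omega
  have s04 := ad_symm n b (s 4) (s 0)
  have s14 := ad_symm n b (s 4) (s 1)
  have s24 := ad_symm n b (s 4) (s 2)
  have s34 := ad_symm n b (s 4) (s 3)
  have s05 := ad_symm n b (s 5) (s 0)
  have s15 := ad_symm n b (s 5) (s 1)
  have s25 := ad_symm n b (s 5) (s 2)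
  have s35 := ad_symm n b (s 5) (s 3)
  have s45 := ad_symm n b (s 5) (s 4)
  have s10 := ad_symm n b (s 1) (s 0)
  have s20 := ad_symm n b (s 2) (s 0)
  have s30 := ad_symm n b (s 3) (s 0)
  have s21 := ad_symm n b (s 2) (s 1)
  have s31 := ad_symm n b (s 3) (s 1)
  have s32 := ad_symm n b (s 3) (s 2)
  have l04 := ad_le n b (s 0) (s 4)
  have l14 := ad_le n b (s 1) (s 4)
  have l24 := ad_le n b (s 2) (s 4)
  have l34 := ad_le n b (s 3) (s 4)
  have l05 := ad_le n b (s 0) (s 5)
  have l15 := ad_le n b (s 1) (s 5)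
  have l25 := ad_le n b (s 2) (s 5)
  have l35 := ad_le n b (s 3) (s 5)
  have l45 := ad_le n b (s 4) (s 5)
  have z0 := ad_self n b (s 0)
  have z1 := ad_self n b (s 1)
  have z2 := ad_self n b (s 2)
  have z3 := ad_self n b (s 3)
  have z4 := ad_self n b (s 4)
  have z5 := ad_self n b (s 5)
  -- coefficients
  have c1 := hC.2.1 0 (by norm_num)
  have c2 := hC.2.1 1 (by norm_num)
  have c3 := hC.2.1 2 (by norm_num)
  have c4 := hC.2.1 3 (by norm_num)
  have c5 := hC.2.1 4 (by norm_num)
  have v1 := hC.2.2.1 0 (by norm_num)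
  have v2 := hC.2.2.1 1 (by norm_num)
  have v3 := hC.2.2.1 2 (by norm_num)
  have v4 := hC.2.2.1 3 (by norm_num)
  norm_num at c1 c2 c3 c4 c5 v1 v2 v3 v4
  have t1 := hT.2.1 0 (by norm_num)
  have t2 := hT.2.1 1 (by norm_num)
  have t3 := hT.2.1 2 (by norm_num)
  have t4 := hT.2.1 3 (by norm_num)
  have t5 := hT.2.1 4 (by norm_num)
  have t6 := hT.2.1 5 (by norm_num)
  norm_num at t1 t2 t3 t4 t5 t6
  have hC2 : ∀ d ≤ 2, C 2 ≤ C d := by
    intro d hd
    interval_cases d <;> linarith
  have hC3 : ∀ d ≤ 3, C 3 ≤ C d := by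
    intro d hd
    interval_cases d <;> linarith
  have hC4 : ∀ d ≤ 4, C 4 ≤ C d := by
    intro d hd
    interval_cases d <;> linarith
  have hC5 : ∀ d ≤ 5, C 5 ≤ C d := by
    intro d hd
    interval_cases d <;> linarith
  have hT3 : ∀ k ≤ 3, T 3 ≤ T k := by
    intro k hk
    interval_cases k <;> linarith
  have hT4 : ∀ k ≤ 4, T 4 ≤ T k := by
    intro k hk
    interval_cases k <;> linarith
  have x0 := ra_nonneg n b U (s 0)
  have x1 := ra_nonneg n b U (s 1)
  have x2 := ra_nonneg n b U (s 2)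
  have x3 := ra_nonneg n b U (s 3)
  have x4 := ra_nonneg n b U (s 4)
  have x5 := ra_nonneg n b U (s 5)
  have y01 := ra_anti hs (show (0 : Fin 6) ≤ 1 by decide)
  have y12 := ra_anti hs (show (1 : Fin 6) ≤ 2 by decide)
  have y23 := ra_anti hs (show (2 : Fin 6) ≤ 3 by decide)
  have y34 := ra_anti hs (show (3 : Fin 6) ≤ 4 by decide)
  have y45 := ra_anti hs (show (4 : Fin 6) ≤ 5 by decide)
  have sum4 : ∀ i, dg n b s {0, 1, 2, 3} i =
      ad n b i (s 0) + ad n b i (s 1) + ad n b i (s 2) + ad n b i (s 3) := by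
    intro i
    rw [dg_eq, Finset.sum_insert (by decide), Finset.sum_insert (by decide),
      Finset.sum_insert (by decide), Finset.sum_singleton]
    ring
  have sum5 : ∀ i, dg n b s {0, 1, 2, 3, 4} i = ad n b i (s 0) + ad n b i (s 1) + ad n b i (s 2) +
      ad n b i (s 3) + ad n b i (s 4) := by
    intro i
    rw [dg_eq, Finset.sum_insert (by decide), Finset.sum_insert (by decide),
      Finset.sum_insert (by decide), Finset.sum_insert (by decide), Finset.sum_singleton]
    ring
  have sum6 : ∀ i, dg n b s Finset.univ i = ad n b i (s 0) + ad n b i (s 1) + ad n b i (s 2) +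
      ad n b i (s 3) + ad n b i (s 4) + ad n b i (s 5) := by
    intro i
    rw [dg_eq, Fin.sum_univ_six]
  refine ⟨?_, ?_, ?_⟩
  · have h := fam hTWO hU hI hs.1 {0, 1, 2, 3} hw hC hT (K := 3) (by norm_num)
      (fun i hi => by rw [sum4]; exact hout i fun a _ => hi a)
    refine le_trans ?_ h
    rw [Fin.sum_univ_six]
    rw [if_pos (by decide), if_pos (by decide), if_pos (by decide), if_pos (by decide),
      if_neg (by decide), if_neg (by decide)]
    have r0 := mul_le_mul_of_nonneg_right (hC3 (dg n b s {0, 1, 2, 3} (s 0)) (by rw [sum4]; omega)) x0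
    have r1 := mul_le_mul_of_nonneg_right (hC3 (dg n b s {0, 1, 2, 3} (s 1)) (by rw [sum4]; omega)) x1
    have r2 := mul_le_mul_of_nonneg_right (hC3 (dg n b s {0, 1, 2, 3} (s 2)) (by rw [sum4]; omega)) x2
    have r3 := mul_le_mul_of_nonneg_right (hC3 (dg n b s {0, 1, 2, 3} (s 3)) (by rw [sum4]; omega)) x3
    have r4 := mul_le_mul_of_nonneg_right (hT3 (dg n b s {0, 1, 2, 3} (s 4)) (by rw [sum4]; omega)) x4
    have r5 := mul_le_mul_of_nonneg_right (hT3 (dg n b s {0, 1, 2, 3} (s 5)) (by rw [sum4]; omega)) x5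
    linarith
  · have h := fam hTWO hU hI hs.1 {0, 1, 2, 3, 4} hw hC hT (K := 4) (by norm_num)
      (fun i hi => by
        rw [sum5]
        have h1 := hout i fun a _ => hi a
        have h2 := ad_le n b i (s 4)
        omega)
    refine le_trans ?_ h
    rw [Fin.sum_univ_six]
    rw [if_pos (by decide), if_pos (by decide), if_pos (by decide), if_pos (by decide),
      if_pos (by decide), if_neg (by decide)]
    have d0 : dg n b s {0, 1, 2, 3, 4} (s 0) = 3 + ad n b (s 0) (s 4) := by rw [sum5]; omega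
    have d1 : dg n b s {0, 1, 2, 3, 4} (s 1) = 3 + ad n b (s 1) (s 4) := by rw [sum5]; omega
    have d2 : dg n b s {0, 1, 2, 3, 4} (s 2) = 3 + ad n b (s 2) (s 4) := by rw [sum5]; omega
    have d3 : dg n b s {0, 1, 2, 3, 4} (s 3) = 3 + ad n b (s 3) (s 4) := by rw [sum5]; omega
    have r4 := mul_le_mul_of_nonneg_right
      (hC2 (dg n b s {0, 1, 2, 3, 4} (s 4)) (by rw [sum5]; omega)) x4
    have r5 := mul_le_mul_of_nonneg_right
      (hT4 (dg n b s {0, 1, 2, 3, 4} (s 5)) (by rw [sum5]; omega)) x5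
    have key : C 4 * ra n b U (s 0) + C 4 * ra n b U (s 1) + C 3 * ra n b U (s 2) +
        C 3 * ra n b U (s 3) + 0 * ra n b U (s 4) + 0 * ra n b U (s 5) ≤
        C (3 + ad n b (s 0) (s 4)) * ra n b U (s 0) + C (3 + ad n b (s 1) (s 4)) * ra n b U (s 1) +
        C (3 + ad n b (s 2) (s 4)) * ra n b U (s 2) + C (3 + ad n b (s 3) (s 4)) * ra n b U (s 3) +
        0 * ra n b U (s 4) + 0 * ra n b U (s 5) := by
      have hsum : ad n b (s 0) (s 4) + ad n b (s 1) (s 4) + ad n b (s 2) (s 4) +
        ad n b (s 3) (s 4) ≤ 2 := by omega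
      generalize ad n b (s 0) (s 4) = e0 at *
      generalize ad n b (s 1) (s 4) = e1 at *
      generalize ad n b (s 2) (s 4) = e2 at *
      generalize ad n b (s 3) (s 4) = e3 at *
      apply abel x5 y45 y34 y23 y12 y01 <;>
        (clear sum4 sum5 sum6 hout h h4 h5 r4 r5 d0 d1 d2 d3
         interval_cases e0 <;> interval_cases e1 <;> interval_cases e2 <;> interval_cases e3 <;>
          first | omega | (norm_num; linarith) | (norm_num))
    rw [d0, d1, d2, d3]
    linarith
  · have h := fam hTWO hU hI hs.1 Finset.univ hw hC hT (K := 5) (by norm_num)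
      (fun i hi => by
        rw [sum6]
        have h1 := hout i fun a _ => hi a
        have h2 := ad_le n b i (s 4)
        have h3 := ad_le n b i (s 5)
        omega)
    refine le_trans ?_ h
    rw [Fin.sum_univ_six]
    rw [if_pos (Finset.mem_univ _), if_pos (Finset.mem_univ _), if_pos (Finset.mem_univ _),
      if_pos (Finset.mem_univ _), if_pos (Finset.mem_univ _), if_pos (Finset.mem_univ _)]
    have d0 : dg n b s Finset.univ (s 0) = 3 + ad n b (s 0) (s 4) + ad n b (s 0) (s 5) := by
      rw [sum6]; omega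
    have d1 : dg n b s Finset.univ (s 1) = 3 + ad n b (s 1) (s 4) + ad n b (s 1) (s 5) := by
      rw [sum6]; omega
    have d2 : dg n b s Finset.univ (s 2) = 3 + ad n b (s 2) (s 4) + ad n b (s 2) (s 5) := by
      rw [sum6]; omega
    have d3 : dg n b s Finset.univ (s 3) = 3 + ad n b (s 3) (s 4) + ad n b (s 3) (s 5) := by
      rw [sum6]; omega
    have d4 : dg n b s Finset.univ (s 4) ≤ 3 := by rw [sum6]; omega
    have d5 : dg n b s Finset.univ (s 5) ≤ 4 := by rw [sum6]; omega
    have line : ∀ d : ℕ, 3 ≤ d → d ≤ 5 → C 5 + (5 - (d : ℝ)) * (C 4 - C 5) ≤ C d := by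
      intro d h3 h5
      interval_cases d <;> norm_num <;> linarith
    have q0 := line _ (show 3 ≤ dg n b s Finset.univ (s 0) by omega) (by omega)
    have q1 := line _ (show 3 ≤ dg n b s Finset.univ (s 1) by omega) (by omega)
    have q2 := line _ (show 3 ≤ dg n b s Finset.univ (s 2) by omega) (by omega)
    have q3 := line _ (show 3 ≤ dg n b s Finset.univ (s 3) by omega) (by omega)
    have q4 := hC3 _ d4
    have q5 := hC4 _ d5
    have p0 := hC5 (dg n b s Finset.univ (s 0)) (by omega)
    have p1 := hC5 (dg n b s Finset.univ (s 1)) (by omega)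
    have s3 : (dg n b s Finset.univ (s 0) : ℝ) + dg n b s Finset.univ (s 1) +
        dg n b s Finset.univ (s 2) ≤ 14 := by
      have : dg n b s Finset.univ (s 0) + dg n b s Finset.univ (s 1) +
        dg n b s Finset.univ (s 2) ≤ 14 := by omega
      exact_mod_cast this
    have s4 : (dg n b s Finset.univ (s 0) : ℝ) + dg n b s Finset.univ (s 1) +
        dg n b s Finset.univ (s 2) + dg n b s Finset.univ (s 3) ≤ 17 := by
      have : dg n b s Finset.univ (s 0) + dg n b s Finset.univ (s 1) +
        dg n b s Finset.univ (s 2) + dg n b s Finset.univ (s 3) ≤ 17 := by omega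
      exact_mod_cast this
    have hδ : 0 ≤ C 4 - C 5 := by linarith
    have m3 := mul_nonneg hδ (sub_nonneg.2 s3)
    have m4 := mul_nonneg hδ (sub_nonneg.2 s4)
    have key : C 5 * ra n b U (s 0) + C 5 * ra n b U (s 1) + C 4 * ra n b U (s 2) +
        (2 * C 4 - C 5) * ra n b U (s 3) + C 3 * ra n b U (s 4) + C 4 * ra n b U (s 5) ≤
        C (dg n b s Finset.univ (s 0)) * ra n b U (s 0) +
        C (dg n b s Finset.univ (s 1)) * ra n b U (s 1) +
        C (dg n b s Finset.univ (s 2)) * ra n b U (s 2) +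
        C (dg n b s Finset.univ (s 3)) * ra n b U (s 3) +
        C (dg n b s Finset.univ (s 4)) * ra n b U (s 4) +
        C (dg n b s Finset.univ (s 5)) * ra n b U (s 5) := by
      apply abel x5 y45 y34 y23 y12 y01 <;> linarith
    linarith

end Pool.Agent.Work.MP_3892ce_static
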