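import Pool.Agent.Work.MP_3892ce_static.Interface4

/-! # Melzak's problem, static method, block `BRB2`: the families of case B, second sub-case

`two_level`: the two-level bound in terms of the coefficient sequences `C`, `T`.
`family`: with `C` convex, `C d ≥ C (m-1) + (m-1-d) (C (m-2) - C (m-1))`, and the sum of
`(m-1-d_a) x_a` is the sum over the missing pairs of the two `x`. -/

set_option autoImplicit false

open MeasureTheory Set

namespace Pool.Agent.Work.MP_3892ce_static
namespace BRB2

lemma len_symm {ι : Type} [DecidableEq ι] (n : ι → E 3) (b : ι → ℝ) (i j : ι) :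
    len n b i j = len n b j i := by
  unfold len
  by_cases h : i = j
  · rw [if_pos h, if_pos h.symm]
  · rw [if_neg h, if_neg (Ne.symm h), inter_comm]

lemma len_self {ι : Type} [DecidableEq ι] (n : ι → E 3) (b : ι → ℝ) (i : ι) :
    len n b i i = 0 := by
  unfold len; simp

section
variable {ι : Type} [Fintype ι] [DecidableEq ι] {n : ι → E 3} {b : ι → ℝ}
  {U : ι → (E 2 →ₗᵢ[ℝ] E 3)}

omit [Fintype ι] [DecidableEq ι] in
lemma ra_nonneg (i : ι) : 0 ≤ ra n b U i := Real.sqrt_nonneg _

omit [Fintype ι] [DecidableEq ι] in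
lemma two_sqrt_mul (i : ι) {c W : ℝ} (h : c ≤ 2 * √W) :
    c * ra n b U i ≤ 2 * √(area (HP n b) (n i) (U i) (b i) * W) := by
  have h0 : 0 ≤ area (HP n b) (n i) (U i) (b i) := ENNReal.toReal_nonneg
  rw [Real.sqrt_mul h0]
  have := mul_le_mul_of_nonneg_right h (ra_nonneg (n := n) (b := b) (U := U) i)
  unfold ra at this ⊢
  linarith

/-- the two-level bound in the form used for the families -/
lemma two_level (hTWO : Stmt_TWO) (hU : ∀ i, Frame (n i) (U i)) (hI : Irr n b)
    {w : ℝ} {C T : ℕ → ℝ} (hw : w ≤ 1) (hC : CB w C) (hT : TB w T) (M : Finset ι)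
    (hM : M.card ≤ 6) :
    ∑ i ∈ M, C ((M.filter (fun j => 0 < len n b i j)).card) * ra n b U i +
      T M.card * ∑ i with i ∉ M, ra n b U i ≤ L n b := by
  classical
  have hd : ∀ i ∈ M, (M.filter (fun j => 0 < len n b i j)).card ≤ 5 := by
    intro i hi
    have h1 : M.filter (fun j => 0 < len n b i j) ⊆ M.erase i := by
      intro j hj
      rw [Finset.mem_filter] at hj
      rw [Finset.mem_erase]
      refine ⟨?_, hj.1⟩
      rintro rfl
      rw [len_self] at hj
      exact lt_irrefl _ hj.2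
    have h2 := Finset.card_le_card h1
    rw [Finset.card_erase_of_mem hi] at h2
    omega
  have hk : ∀ i, (M.filter (fun j => 0 < len n b i j)).card ≤ M.card :=
    fun i => Finset.card_filter_le _ _
  have hTanti : ∀ k l : ℕ, k ≤ l → l ≤ 6 → T l ≤ T k := by
    intro k l hkl hl
    induction l with
    | zero => rw [Nat.le_zero.1 hkl]
    | succ l ih =>
      rcases Nat.lt_or_ge k (l + 1) with h | h
      · exact (hT.2.1 l (by omega)).trans (ih (by omega) (by omega))
      · rw [Nat.le_antisymm hkl h]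
  have hex : ∀ i, ∃ r : ℝ, (i ∈ M → 1 / 2 ≤ r ∧ r ≤ w ∧
        C ((M.filter (fun j => 0 < len n b i j)).card) ≤
          2 * √(Wd r (1 / 2) (M.filter (fun j => 0 < len n b i j)).card)) ∧
      (i ∉ M → 1 - w ≤ r ∧ 0 < r ∧ r ≤ 1 / 2 ∧
        T ((M.filter (fun j => 0 < len n b i j)).card) ≤
          2 * √(Wd r (1 - w) (M.filter (fun j => 0 < len n b i j)).card)) := by
    intro i
    by_cases hi : i ∈ M
    · obtain ⟨r, h1, h2, h3⟩ := hC.1 _ (hd i hi)
      exact ⟨r, fun _ => ⟨h1, h2, h3⟩, fun h => absurd hi h⟩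
    · obtain ⟨r, h1, h2, h3, h4⟩ := hT.1 _ ((hk i).trans hM)
      exact ⟨r, fun h => absurd h hi, fun _ => ⟨h1, h2, h3, h4⟩⟩
  choose r hr using hex
  have h := hTWO ι n b U hU hI M w r hw (fun i hi => ⟨((hr i).1 hi).1, ((hr i).1 hi).2.1⟩)
    (fun i hi => ⟨((hr i).2 hi).1, ((hr i).2 hi).2.1, ((hr i).2 hi).2.2.1⟩)
  refine le_trans ?_ h
  rw [← Finset.sum_filter_add_sum_filter_not Finset.univ (fun i => i ∈ M), Finset.mul_sum]
  have hfil : Finset.univ.filter (fun i => i ∈ M) = M := by ext i; simp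
  rw [hfil]
  apply add_le_add
  · apply Finset.sum_le_sum
    intro i hi
    rw [if_pos hi]
    exact two_sqrt_mul i ((hr i).1 hi).2.2
  · apply Finset.sum_le_sum
    intro i hi
    rw [Finset.mem_filter] at hi
    rw [if_neg hi.2]
    exact two_sqrt_mul i ((hTanti _ _ (hk i) hM).trans ((hr i).2 hi.2).2.2.2)

omit [Fintype ι] [DecidableEq ι] in
lemma conv {w : ℝ} {C : ℕ → ℝ} (hC : CB w C) {e d : ℕ} (he2 : 2 ≤ e) (he4 : e ≤ 4)
    (hd : d ≤ e + 1) :
    C (e + 1) + (((e + 1 : ℕ) : ℝ) - d) * (C e - C (e + 1)) ≤ C d := by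
  obtain ⟨_, _, hconv, _⟩ := hC
  have h0 := hconv 0 (by norm_num)
  have h1 := hconv 1 (by norm_num)
  have h2 := hconv 2 (by norm_num)
  have h3 := hconv 3 (by norm_num)
  norm_num at h0 h1 h2 h3
  interval_cases e <;> interval_cases d <;> norm_num <;> linarith

/-- the first `m` of the six facets -/
def top (m : ℕ) : Finset (Fin 6) := Finset.univ.filter (fun a => a.val < m)

/-- sum over the complement -/
lemma sum_compl {s : Fin 6 → ι} (hs : Function.Injective s) (A : Finset (Fin 6)) :
    ∑ i with i ∉ A.image s, ra n b U i = ∑ a ∈ Aᶜ, ra n b U (s a) + rest n b U s := by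
  classical
  have h1 : Finset.univ.filter (fun i => i ∉ A.image s) =
      Aᶜ.image s ∪ Finset.univ.filter (fun i => i ∉ Finset.univ.image s) := by
    ext i
    simp only [Finset.mem_filter, Finset.mem_univ, true_and, Finset.mem_union, Finset.mem_image,
      Finset.mem_compl, not_exists]
    constructor
    · intro h
      by_cases h2 : ∃ a, s a = i
      · obtain ⟨a, ha⟩ := h2
        exact Or.inl ⟨a, fun h3 => h a ⟨h3, ha⟩, ha⟩
      · right
        intro a ha
        exact h2 ⟨a, ha⟩
    · rintro (⟨a, h2, rfl⟩ | h2)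
      · rintro c ⟨h3, h4⟩
        rw [hs h4] at h3
        exact h2 h3
      · rintro a ⟨_, h3⟩
        exact h2 a h3
  have h2 : Disjoint (Aᶜ.image s) (Finset.univ.filter (fun i => i ∉ Finset.univ.image s)) := by
    rw [Finset.disjoint_left]
    intro i hi hi'
    rw [Finset.mem_filter] at hi'
    apply hi'.2
    exact Finset.image_subset_image (Finset.subset_univ _) hi
  rw [h1, Finset.sum_union h2, Finset.sum_image (fun a _ c _ h => hs h)]
  rfl

/-- the family with the first `m = e + 2` facets named and a set `P` of missing pairs -/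
lemma family (hTWO : Stmt_TWO) (hU : ∀ i, Frame (n i) (U i)) (hI : Irr n b)
    {s : Fin 6 → ι} (hs : Function.Injective s)
    {w : ℝ} {C T : ℕ → ℝ} (hw : w ≤ 1) (hC : CB w C) (hT : TB w T) {e : ℕ} (he2 : 2 ≤ e)
    (he4 : e ≤ 4) (P : Finset (Fin 6 × Fin 6))
    (hP : ∀ p ∈ P, p.1 < p.2 ∧ p.2.val < e + 2 ∧ ¬ 0 < len n b (s p.1) (s p.2)) :
    C (e + 1) * ∑ a ∈ top (e + 2), ra n b U (s a) +
      (C e - C (e + 1)) * ∑ p ∈ P, (ra n b U (s p.1) + ra n b U (s p.2)) +
      T (e + 2) * (∑ a ∈ (top (e + 2))ᶜ, ra n b U (s a) + rest n b U s) ≤ L n b := by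
  classical
  set A := top (e + 2) with hA
  have hAcard : A.card = e + 2 := by
    have : ∀ e : ℕ, 2 ≤ e → e ≤ 4 → (top (e + 2)).card = e + 2 := by
      intro e h1 h2
      interval_cases e <;> decide
    exact this e he2 he4
  have hMcard : (A.image s).card = e + 2 := by
    rw [Finset.card_image_of_injective _ hs, hAcard]
  have h := two_level (U := U) hTWO hU hI hw hC hT (A.image s) (by omega)
  rw [hMcard, sum_compl hs, Finset.sum_image (fun a _ c _ h => hs h)] at h
  -- the degrees
  set δ : Fin 6 → Finset (Fin 6) := fun a =>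
    A.filter (fun c => c ≠ a ∧ ¬ 0 < len n b (s a) (s c)) with hδ
  have hdeg : ∀ a ∈ A, ((A.image s).filter (fun j => 0 < len n b (s a) j)).card + (δ a).card =
      e + 1 := by
    intro a ha
    have h1 : (A.image s).filter (fun j => 0 < len n b (s a) j) =
        (A.filter (fun c => 0 < len n b (s a) (s c))).image s := by
      ext i
      simp only [Finset.mem_filter, Finset.mem_image]
      constructor
      · rintro ⟨⟨c, hc, rfl⟩, hl⟩
        exact ⟨c, ⟨hc, hl⟩, rfl⟩
      · rintro ⟨c, ⟨hc, hl⟩, rfl⟩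
        exact ⟨⟨c, hc, rfl⟩, hl⟩
    rw [h1, Finset.card_image_of_injective _ hs]
    have h2 : Disjoint (A.filter (fun c => 0 < len n b (s a) (s c))) (δ a) := by
      rw [Finset.disjoint_left]
      intro c hc hc'
      rw [Finset.mem_filter] at hc hc'
      exact hc'.2.2 hc.2
    rw [← Finset.card_union_of_disjoint h2]
    have h3 : A.filter (fun c => 0 < len n b (s a) (s c)) ∪ δ a = A.erase a := by
      ext c
      simp only [hδ, Finset.mem_union, Finset.mem_filter, Finset.mem_erase]
      constructor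
      · rintro (⟨hc, hl⟩ | ⟨hc, hca, _⟩)
        · refine ⟨?_, hc⟩
          rintro rfl
          rw [len_self] at hl
          exact lt_irrefl _ hl
        · exact ⟨hca, hc⟩
      · rintro ⟨hca, hc⟩
        by_cases hl : 0 < len n b (s a) (s c)
        · exact Or.inl ⟨hc, hl⟩
        · exact Or.inr ⟨hc, hca, hl⟩
    rw [h3, Finset.card_erase_of_mem ha, hAcard]
    omega
  have hg : 0 ≤ C e - C (e + 1) := sub_nonneg.2 (hC.2.1 e (by omega))
  have h4 : ∀ a ∈ A, (C (e + 1) + (δ a).card * (C e - C (e + 1))) * ra n b U (s a) ≤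
      C (((A.image s).filter (fun j => 0 < len n b (s a) j)).card) * ra n b U (s a) := by
    intro a ha
    apply mul_le_mul_of_nonneg_right _ (ra_nonneg _)
    have h5 := hdeg a ha
    have h6 := conv hC he2 he4
      (show ((A.image s).filter (fun j => 0 < len n b (s a) j)).card ≤ e + 1 by omega)
    have h7 : ((e + 1 : ℕ) : ℝ) - (((A.image s).filter (fun j => 0 < len n b (s a) j)).card : ℝ) =
        (δ a).card := by
      rw [← h5]; push_cast; ring
    rw [h7] at h6
    exact h6
  have h5 := Finset.sum_le_sum h4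
  have h6 : ∑ a ∈ A, (C (e + 1) + (δ a).card * (C e - C (e + 1))) * ra n b U (s a) =
      C (e + 1) * ∑ a ∈ A, ra n b U (s a) +
        (C e - C (e + 1)) * ∑ a ∈ A, ((δ a).card : ℝ) * ra n b U (s a) := by
    rw [Finset.mul_sum, Finset.mul_sum, ← Finset.sum_add_distrib]
    exact Finset.sum_congr rfl (fun a _ => by ring)
  rw [h6] at h5
  -- the missing pairs
  have h7 : ∑ p ∈ P, (ra n b U (s p.1) + ra n b U (s p.2)) ≤
      ∑ a ∈ A, ((δ a).card : ℝ) * ra n b U (s a) := by
    have h8 : ∑ a ∈ A, ((δ a).card : ℝ) * ra n b U (s a) =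
        ∑ q ∈ A.sigma δ, ra n b U (s q.1) := by
      rw [Finset.sum_sigma]
      apply Finset.sum_congr rfl
      intro a _
      simp only [Finset.sum_const, nsmul_eq_mul]
    have h9 : ∑ p ∈ P, (ra n b U (s p.1) + ra n b U (s p.2)) =
        ∑ q ∈ P.image (fun p => (⟨p.1, p.2⟩ : Σ _ : Fin 6, Fin 6)) ∪
          P.image (fun p => (⟨p.2, p.1⟩ : Σ _ : Fin 6, Fin 6)), ra n b U (s q.1) := by
      rw [Finset.sum_union, Finset.sum_image, Finset.sum_image, ← Finset.sum_add_distrib]
      · intro p _ q _ hpq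
        simp only [Sigma.mk.injEq, heq_eq_eq] at hpq
        exact Prod.ext hpq.2 hpq.1
      · intro p _ q _ hpq
        simp only [Sigma.mk.injEq, heq_eq_eq] at hpq
        exact Prod.ext hpq.1 hpq.2
      · rw [Finset.disjoint_left]
        intro x hx hx'
        rw [Finset.mem_image] at hx hx'
        obtain ⟨p, hp, rfl⟩ := hx
        obtain ⟨q, hq, hpq⟩ := hx'
        simp only [Sigma.mk.injEq, heq_eq_eq] at hpq
        have h10 := (hP p hp).1
        have h11 := (hP q hq).1
        rw [hpq.1, hpq.2] at h11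
        exact absurd h10 (not_lt.2 h11.le)
    rw [h8, h9]
    apply Finset.sum_le_sum_of_subset_of_nonneg
    · intro x hx
      rw [Finset.mem_union, Finset.mem_image, Finset.mem_image] at hx
      rw [Finset.mem_sigma]
      rcases hx with ⟨p, hp, rfl⟩ | ⟨p, hp, rfl⟩
      · obtain ⟨h10, h11, h12⟩ := hP p hp
        simp only [hδ, hA, top, Finset.mem_filter, Finset.mem_univ, true_and]
        exact ⟨lt_trans h10 h11, h11, h10.ne', h12⟩
      · obtain ⟨h10, h11, h12⟩ := hP p hp
        simp only [hδ, hA, top, Finset.mem_filter, Finset.mem_univ, true_and]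
        refine ⟨h11, lt_trans h10 h11, h10.ne, ?_⟩
        rw [len_symm]
        exact h12
    · intro x _ _
      exact ra_nonneg _
  have h8 := mul_le_mul_of_nonneg_left h7 hg
  linarith

end

/-- the third missing pair among six -/
lemma third (hADJ : Stmt_ADJ) (h5 : Stmt_RAD5) (h6 : Stmt_RAD6) {ι : Type} [Finite ι]
    [DecidableEq ι] {n : ι → E 3} {b : ι → ℝ} (hI : Irr n b) {s : Fin 6 → ι}
    (hs : Function.Injective s) {i j i' j' : Fin 6} (hij : i < j) (hij' : i' < j') :
    ∃ i'' j'' : Fin 6, i'' < j'' ∧ ¬ 0 < len n b (s i'') (s j'') ∧ ¬ (i'' = i ∧ j'' = j) ∧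
      ¬ (i'' = i' ∧ j'' = j') := by
  by_contra hcon
  push Not at hcon
  have hall : ∀ a c : Fin 6, a < c → ¬ (a = i ∧ c = j) → ¬ (a = i' ∧ c = j') →
      Adj n b (s a) (s c) := by
    intro a c hac h1 h2
    apply hADJ ι n b hI
    by_contra hl
    have h3 := hcon a c hac (not_lt.1 hl)
    by_cases h4 : a = i ∧ c = j
    · exact h1 h4
    · exact h2 ((h3 (fun h h' => h4 ⟨h, h'⟩)))
  have hall' : ∀ a c : Fin 6, a ≠ c → ¬ (a = i ∧ c = j) → ¬ (a = i' ∧ c = j') →
      ¬ (c = i ∧ a = j) → ¬ (c = i' ∧ a = j') → Adj n b (s a) (s c) := by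
    intro a c hac h1 h2 h3 h4
    rcases lt_or_gt_of_ne hac with h | h
    · exact hall a c h h1 h2
    · obtain ⟨g0, x, g1, g2, g3⟩ := hall c a h h3 h4
      exact ⟨g0.symm, x, g2, g1, fun l hl hl' => g3 l hl' hl⟩
  by_cases hv : ∃ v : Fin 6, (v = i ∨ v = j) ∧ (v = i' ∨ v = j')
  · obtain ⟨v, hv1, hv2⟩ := hv
    apply h5 ι n b hI.int (fun a => s (v.succAbove a))
      (hs.comp Fin.succAbove_right_injective)
    intro a c hac
    have ha : v.succAbove a ≠ v := Fin.succAbove_ne v a
    have hc : v.succAbove c ≠ v := Fin.succAbove_ne v c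
    apply hall' _ _ (fun h => hac (Fin.succAbove_right_injective h))
    · rintro ⟨g1, g2⟩
      rcases hv1 with g | g
      · exact ha (g1.trans g.symm)
      · exact hc (g2.trans g.symm)
    · rintro ⟨g1, g2⟩
      rcases hv2 with g | g
      · exact ha (g1.trans g.symm)
      · exact hc (g2.trans g.symm)
    · rintro ⟨g1, g2⟩
      rcases hv1 with g | g
      · exact hc (g1.trans g.symm)
      · exact ha (g2.trans g.symm)
    · rintro ⟨g1, g2⟩
      rcases hv2 with g | g
      · exact hc (g1.trans g.symm)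
      · exact ha (g2.trans g.symm)
  · push Not at hv
    have hii' : i ≠ i' := fun h => (hv i (Or.inl rfl)).1 h
    have hij2 : i ≠ j' := fun h => (hv i (Or.inl rfl)).2 h
    have hji' : j ≠ i' := fun h => (hv j (Or.inr rfl)).1 h
    have hjj' : j ≠ j' := fun h => (hv j (Or.inr rfl)).2 h
    have key : ∀ i j i' j' : Fin 6, i < j → i' < j' → i ≠ i' → i ≠ j' → j ≠ i' → j ≠ j' →
        ∃ k l : Fin 6, Function.Injective ![i, j, i', j', k, l] := by
      decide +kernel
    obtain ⟨k, l, hinj⟩ := key i j i' j' hij hij' hii' hij2 hji' hjj'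
    set f : Fin 6 → Fin 6 := ![i, j, i', j', k, l] with hf
    have f0 : f 0 = i := rfl
    have f1 : f 1 = j := rfl
    have f2 : f 2 = i' := rfl
    have f3 : f 3 = j' := rfl
    apply h6 ι n b hI.int (fun a => s (f a)) (hs.comp hinj)
    intro a c hac h01 h23
    apply hall' _ _ (fun h => hac.ne (hinj h))
    · rintro ⟨g1, g2⟩
      rw [← f0] at g1
      rw [← f1] at g2
      exact h01 ⟨hinj g1, hinj g2⟩
    · rintro ⟨g1, g2⟩
      rw [← f2] at g1
      rw [← f3] at g2
      exact h23 ⟨hinj g1, hinj g2⟩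
    · rintro ⟨g1, g2⟩
      rw [← f0] at g1
      rw [← f1] at g2
      have e1 := hinj g1
      have e2 := hinj g2
      rw [e1, e2] at hac
      exact absurd hac (by decide)
    · rintro ⟨g1, g2⟩
      rw [← f2] at g1
      rw [← f3] at g2
      have e1 := hinj g1
      have e2 := hinj g2
      rw [e1, e2] at hac
      exact absurd hac (by decide)

end BRB2

open BRB2 in
theorem blk_BRB2 (hTWO : Stmt_TWO) (hADJ : Stmt_ADJ) (hRAD5 : Stmt_RAD5) (hRAD6 : Stmt_RAD6) :
    Stmt_BRB2 := by
  intro ι _ _ n b U hU hI s hs hmiss w C T hw hC hT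
  obtain ⟨i, j, i', j', hij, hj4, hl, hij', hj5, hl', hne⟩ := hmiss
  obtain ⟨hinj, hsort⟩ := hs
  have hmono : ∀ a c : Fin 6, a ≤ c → ra n b U (s c) ≤ ra n b U (s a) :=
    fun a c h => Real.sqrt_le_sqrt (hsort a c h)
  obtain ⟨i'', j'', hij'', hl'', hne1, hne2⟩ := third hADJ hRAD5 hRAD6 hI hinj hij hij'
  have k1 : ∀ i j : Fin 6, i < j → j < 4 → i ≤ 2 ∧ j ≤ 3 := by decide
  have k2 : ∀ i j : Fin 6, i < j → j < 5 → i ≤ 3 ∧ j ≤ 4 := by decide
  have k3 : ∀ i j : Fin 6, i < j → i ≤ 4 ∧ j ≤ 5 := by decide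
  have m1 := hmono i 2 (k1 i j hij hj4).1
  have m2 := hmono j 3 (k1 i j hij hj4).2
  have m3 := hmono i' 3 (k2 i' j' hij' hj5).1
  have m4 := hmono j' 4 (k2 i' j' hij' hj5).2
  have m5 := hmono i'' 4 (k3 i'' j'' hij'').1
  have m6 := hmono j'' 5 (k3 i'' j'' hij'').2
  have s4 : top 4 = {0, 1, 2, 3} := by decide
  have s5 : top 5 = {0, 1, 2, 3, 4} := by decide
  have s6 : top 6 = {0, 1, 2, 3, 4, 5} := by decide
  have t4 : ({0, 1, 2, 3} : Finset (Fin 6))ᶜ = {4, 5} := by decide
  have t5 : ({0, 1, 2, 3, 4} : Finset (Fin 6))ᶜ = {5} := by decide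
  have t6 : ({0, 1, 2, 3, 4, 5} : Finset (Fin 6))ᶜ = ∅ := by decide
  have g2 : 0 ≤ C 2 - C 3 := sub_nonneg.2 (hC.2.1 2 (by norm_num))
  have g3 : 0 ≤ C 3 - C 4 := sub_nonneg.2 (hC.2.1 3 (by norm_num))
  have g4 : 0 ≤ C 4 - C 5 := sub_nonneg.2 (hC.2.1 4 (by norm_num))
  refine ⟨?_, ?_, ?_⟩
  · have h := family (U := U) hTWO hU hI hinj hw hC hT (e := 2) (by norm_num) (by norm_num)
      {(i, j)} (by
        intro p hp
        rw [Finset.mem_singleton] at hp
        subst hp
        exact ⟨hij, hj4, hl⟩)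
    norm_num only [s4, t4] at h
    rw [Finset.sum_singleton, Finset.sum_insert (by decide), Finset.sum_insert (by decide),
      Finset.sum_insert (by decide), Finset.sum_singleton, Finset.sum_insert (by decide),
      Finset.sum_singleton] at h
    have h1 := mul_le_mul_of_nonneg_left (add_le_add m1 m2) g2
    linarith
  · have h := family (U := U) hTWO hU hI hinj hw hC hT (e := 3) (by norm_num) (by norm_num)
      {(i, j), (i', j')} (by
        intro p hp
        rw [Finset.mem_insert, Finset.mem_singleton] at hp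
        rcases hp with rfl | rfl
        · exact ⟨hij, lt_trans hj4 (by decide), hl⟩
        · exact ⟨hij', hj5, hl'⟩)
    norm_num only [s5, t5] at h
    rw [Finset.sum_insert (show (i, j) ∉ ({(i', j')} : Finset (Fin 6 × Fin 6)) by
        rw [Finset.mem_singleton, Prod.mk.injEq]; exact hne), Finset.sum_singleton,
      Finset.sum_insert (by decide), Finset.sum_insert (by decide),
      Finset.sum_insert (by decide), Finset.sum_insert (by decide), Finset.sum_singleton,
      Finset.sum_singleton] at h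
    have h1 := mul_le_mul_of_nonneg_left (add_le_add (add_le_add m1 m2) (add_le_add m3 m4)) g3
    linarith
  · have h := family (U := U) hTWO hU hI hinj hw hC hT (e := 4) (by norm_num) (by norm_num)
      {(i, j), (i', j'), (i'', j'')} (by
        intro p hp
        rw [Finset.mem_insert, Finset.mem_insert, Finset.mem_singleton] at hp
        rcases hp with rfl | rfl | rfl
        · exact ⟨hij, j.isLt, hl⟩
        · exact ⟨hij', j'.isLt, hl'⟩
        · exact ⟨hij'', j''.isLt, hl''⟩)
    norm_num only [s6, t6] at h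
    rw [Finset.sum_insert (show (i, j) ∉ ({(i', j'), (i'', j'')} : Finset (Fin 6 × Fin 6)) by
        rw [Finset.mem_insert, Finset.mem_singleton, Prod.mk.injEq, Prod.mk.injEq]
        rintro (h | h)
        · exact hne h
        · exact hne1 ⟨h.1.symm, h.2.symm⟩),
      Finset.sum_insert (show (i', j') ∉ ({(i'', j'')} : Finset (Fin 6 × Fin 6)) by
        rw [Finset.mem_singleton, Prod.mk.injEq]
        intro h
        exact hne2 ⟨h.1.symm, h.2.symm⟩), Finset.sum_singleton,
      Finset.sum_insert (by decide), Finset.sum_insert (by decide),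
      Finset.sum_insert (by decide), Finset.sum_insert (by decide), Finset.sum_insert (by decide),
      Finset.sum_singleton] at h
    have h1 := mul_le_mul_of_nonneg_left
      (add_le_add (add_le_add (add_le_add m1 m2) (add_le_add m3 m4)) (add_le_add m5 m6)) g4
    linarith

end Pool.Agent.Work.MP_3892ce_static
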