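import Pool.Agent.Work.MP_3892ce_static.RAD5

/-! # Block RAD6: no six facets with all pairs adjacent except perhaps two disjoint pairs -/

set_option autoImplicit false

open Set

namespace Pool.Agent.Work.MP_3892ce_static
namespace RAD

variable {ι : Type} {n : ι → E 3} {b : ι → ℝ} {s : Fin 6 → ι}

lemma Adj.swap {i j : ι} (h : Adj n b i j) : Adj n b j i := by
  obtain ⟨h0, x, h1, h2, h3⟩ := h
  exact ⟨h0.symm, x, h2, h1, fun l hl hl' => h3 l hl' hl⟩

/-- six slack functions have a relation avoiding a given one -/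
lemma exists_dep6 (n : ι → E 3) (b : ι → ℝ) (s : Fin 6 → ι) (t : Fin 6) :
    ∃ m : Fin 6 → ℝ, Dep n b s m ∧ m t = 0 ∧ ∃ l, m l ≠ 0 := by
  have hnot : ¬ LinearIndependent ℝ
      (fun k : Fin 6 => ((n (s k), b (s k), if k = t then 1 else 0) : E 3 × ℝ × ℝ)) := by
    intro h
    have := h.fintype_card_le_finrank
    simp at this
  rw [Fintype.not_linearIndependent_iff] at hnot
  obtain ⟨g, hg, l, hl⟩ := hnot
  refine ⟨g, ?_, ?_, l, hl⟩
  · intro x
    have h1 : ∑ k, g k • n (s k) = 0 := by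
      have := congrArg Prod.fst hg
      simpa [Prod.fst_sum] using this
    have h2 : ∑ k, g k * b (s k) = 0 := by
      have := congrArg (fun p => p.2.1) hg
      simpa [Prod.fst_sum, Prod.snd_sum] using this
    have h3 : ∑ k, g k * inner ℝ (n (s k)) x = 0 := by
      have : inner ℝ (∑ k, g k • n (s k)) x = 0 := by rw [h1, inner_zero_left]
      rw [sum_inner] at this
      simpa [real_inner_smul_left] using this
    calc ∑ k, g k * (b (s k) - inner ℝ (n (s k)) x)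
        = ∑ k, g k * b (s k) - ∑ k, g k * inner ℝ (n (s k)) x := by
          rw [← Finset.sum_sub_distrib]; exact Finset.sum_congr rfl (fun k _ => by ring)
      _ = 0 := by rw [h2, h3, sub_zero]
  · have := congrArg (fun p => p.2.2) hg
    simpa [Prod.fst_sum, Prod.snd_sum] using this

/-- the eighteen conditions on five signs, as a boolean -/
def signCond (a b c d e : SignType) : Bool :=
  (a == 1 || b == 1 || e == 1) && (a == 1 || b == 1 || d == 1) && (a == 1 || b == 1 || c == 1) &&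
  (b == 1 || d == 1 || e == 1) && (b == 1 || c == 1 || e == 1) && (b == 1 || c == 1 || d == 1) &&
  (a == 1 || d == 1 || e == 1) && (a == 1 || c == 1 || e == 1) && (a == 1 || c == 1 || d == 1) &&
  (a == -1 || b == -1 || e == -1) && (a == -1 || b == -1 || d == -1) &&
  (a == -1 || b == -1 || c == -1) &&
  (b == -1 || d == -1 || e == -1) && (b == -1 || c == -1 || e == -1) &&
  (b == -1 || c == -1 || d == -1) &&
  (a == -1 || d == -1 || e == -1) && (a == -1 || c == -1 || e == -1) &&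
  (a == -1 || c == -1 || d == -1)

lemma signCond_table : ∀ a b c d e : SignType, signCond a b c d e = true →
    (a = 1 ∧ b = 1 ∧ c = -1 ∧ d = -1 ∧ e = -1) ∨ (a = -1 ∧ b = -1 ∧ c = 1 ∧ d = 1 ∧ e = 1) := by
  decide +kernel

lemma sign_table (a b c d e : SignType)
    (h1 : a = 1 ∨ b = 1 ∨ e = 1) (h2 : a = 1 ∨ b = 1 ∨ d = 1) (h3 : a = 1 ∨ b = 1 ∨ c = 1)
    (h4 : b = 1 ∨ d = 1 ∨ e = 1) (h5 : b = 1 ∨ c = 1 ∨ e = 1) (h6 : b = 1 ∨ c = 1 ∨ d = 1)
    (h7 : a = 1 ∨ d = 1 ∨ e = 1) (h8 : a = 1 ∨ c = 1 ∨ e = 1) (h9 : a = 1 ∨ c = 1 ∨ d = 1)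
    (g1 : a = -1 ∨ b = -1 ∨ e = -1) (g2 : a = -1 ∨ b = -1 ∨ d = -1)
    (g3 : a = -1 ∨ b = -1 ∨ c = -1)
    (g4 : b = -1 ∨ d = -1 ∨ e = -1) (g5 : b = -1 ∨ c = -1 ∨ e = -1)
    (g6 : b = -1 ∨ c = -1 ∨ d = -1)
    (g7 : a = -1 ∨ d = -1 ∨ e = -1) (g8 : a = -1 ∨ c = -1 ∨ e = -1)
    (g9 : a = -1 ∨ c = -1 ∨ d = -1) :
    (a = 1 ∧ b = 1 ∧ c = -1 ∧ d = -1 ∧ e = -1) ∨ (a = -1 ∧ b = -1 ∧ c = 1 ∧ d = 1 ∧ e = 1) := by
  apply signCond_table
  simp only [signCond, Bool.and_eq_true, Bool.or_eq_true, beq_iff_eq, or_assoc, and_assoc]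
  exact ⟨h1, h2, h3, h4, h5, h6, h7, h8, h9, g1, g2, g3, g4, g5, g6, g7, g8, g9⟩

lemma ep (hs : Function.Injective s) {m : Fin 6 → ℝ} (hm : Dep n b s m)
    (h0 : ∃ l, m l ≠ 0) {t : Fin 6} (ht : m t = 0) (x y z w₁ w₂ w₃ : Fin 6)
    (hcov : ∀ l, l ≠ x → l ≠ y → l ≠ t → l = w₁ ∨ l = w₂ ∨ l = w₃)
    (hxy : Adj n b (s x) (s y)) (hxz : Adj n b (s x) (s z)) (hyz : Adj n b (s y) (s z)) :
    (SignType.sign (m w₁) = 1 ∨ SignType.sign (m w₂) = 1 ∨ SignType.sign (m w₃) = 1) ∧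
    (SignType.sign (m w₁) = -1 ∨ SignType.sign (m w₂) = -1 ∨ SignType.sign (m w₃) = -1) := by
  have e1 : x ≠ y := fun h => hxy.1 (by rw [h])
  have e2 : x ≠ z := fun h => hxz.1 (by rw [h])
  have e3 : y ≠ z := fun h => hyz.1 (by rw [h])
  simp only [sign_eq_one_iff, sign_eq_neg_one_iff]
  constructor
  · obtain ⟨l, h1, h2, h3⟩ := exists_pos hs hm h0 e1 e2 e3 hxy hxz hyz
    have hlt : l ≠ t := by rintro rfl; linarith
    rcases hcov l h1 h2 hlt with rfl | rfl | rfl <;> simp [h3]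
  · obtain ⟨l, h1, h2, h3⟩ := exists_neg hs hm h0 e1 e2 e3 hxy hxz hyz
    have hlt : l ≠ t := by rintro rfl; linarith
    rcases hcov l h1 h2 hlt with rfl | rfl | rfl <;> simp [h3]

/-- sign pattern of a relation between five facets with one missing adjacency -/
lemma pattern (hs : Function.Injective s) (t x y z u v : Fin 6)
    (hcov : ∀ l, l = t ∨ l = x ∨ l = y ∨ l = z ∨ l = u ∨ l = v)
    (xz : Adj n b (s x) (s z)) (xu : Adj n b (s x) (s u)) (xv : Adj n b (s x) (s v))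
    (yz : Adj n b (s y) (s z)) (yu : Adj n b (s y) (s u)) (yv : Adj n b (s y) (s v))
    (zu : Adj n b (s z) (s u)) (zv : Adj n b (s z) (s v)) (uv : Adj n b (s u) (s v)) :
    ∃ m : Fin 6 → ℝ, Dep n b s m ∧ m t = 0 ∧ 0 < m x ∧ 0 < m y ∧ m z < 0 ∧ m u < 0 ∧ m v < 0 := by
  obtain ⟨m, hm, ht, h0⟩ := exists_dep6 n b s t
  have A1 := ep hs hm h0 ht z u v x y v
    (fun l h1 h2 h3 => by rcases hcov l with h | h | h | h | h | h <;> simp_all) zu zv uv
  have A2 := ep hs hm h0 ht z v u x y u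
    (fun l h1 h2 h3 => by rcases hcov l with h | h | h | h | h | h <;> simp_all) zv zu (Adj.swap uv)
  have A3 := ep hs hm h0 ht u v z x y z
    (fun l h1 h2 h3 => by rcases hcov l with h | h | h | h | h | h <;> simp_all)
    uv (Adj.swap zu) (Adj.swap zv)
  have A4 := ep hs hm h0 ht x z u y u v
    (fun l h1 h2 h3 => by rcases hcov l with h | h | h | h | h | h <;> simp_all) xz xu zu
  have A5 := ep hs hm h0 ht x u z y z v
    (fun l h1 h2 h3 => by rcases hcov l with h | h | h | h | h | h <;> simp_all) xu xz (Adj.swap zu)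
  have A6 := ep hs hm h0 ht x v z y z u
    (fun l h1 h2 h3 => by rcases hcov l with h | h | h | h | h | h <;> simp_all) xv xz (Adj.swap zv)
  have A7 := ep hs hm h0 ht y z u x u v
    (fun l h1 h2 h3 => by rcases hcov l with h | h | h | h | h | h <;> simp_all) yz yu zu
  have A8 := ep hs hm h0 ht y u z x z v
    (fun l h1 h2 h3 => by rcases hcov l with h | h | h | h | h | h <;> simp_all) yu yz (Adj.swap zu)
  have A9 := ep hs hm h0 ht y v z x z u
    (fun l h1 h2 h3 => by rcases hcov l with h | h | h | h | h | h <;> simp_all) yv yz (Adj.swap zv)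
  rcases sign_table _ _ _ _ _ A1.1 A2.1 A3.1 A4.1 A5.1 A6.1 A7.1 A8.1 A9.1
      A1.2 A2.2 A3.2 A4.2 A5.2 A6.2 A7.2 A8.2 A9.2 with h | h
  · simp only [sign_eq_one_iff, sign_eq_neg_one_iff] at h
    exact ⟨m, hm, ht, h⟩
  · simp only [sign_eq_one_iff, sign_eq_neg_one_iff] at h
    obtain ⟨h1, h2, h3, h4, h5⟩ := h
    exact ⟨fun k => - m k, hm.neg, by simp [ht], neg_pos.2 h1, neg_pos.2 h2, neg_lt_zero.2 h3,
      neg_lt_zero.2 h4, neg_lt_zero.2 h5⟩

end RAD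

open RAD in
theorem blk_RAD6 : Stmt_RAD6 := by
  intro ι n b _ s hs hadj
  have A : ∀ i j : Fin 6, i < j → ¬ (i = 0 ∧ j = 1) → ¬ (i = 2 ∧ j = 3) →
    Adj n b (s i) (s j) := hadj
  have a02 := A 0 2 (by decide) (by decide) (by decide)
  have a03 := A 0 3 (by decide) (by decide) (by decide)
  have a04 := A 0 4 (by decide) (by decide) (by decide)
  have a05 := A 0 5 (by decide) (by decide) (by decide)
  have a12 := A 1 2 (by decide) (by decide) (by decide)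
  have a13 := A 1 3 (by decide) (by decide) (by decide)
  have a14 := A 1 4 (by decide) (by decide) (by decide)
  have a15 := A 1 5 (by decide) (by decide) (by decide)
  have a24 := A 2 4 (by decide) (by decide) (by decide)
  have a25 := A 2 5 (by decide) (by decide) (by decide)
  have a34 := A 3 4 (by decide) (by decide) (by decide)
  have a35 := A 3 5 (by decide) (by decide) (by decide)
  have a45 := A 4 5 (by decide) (by decide) (by decide)
  obtain ⟨μ, hμ, μ3, μ0, μ1, μ2, μ4, μ5⟩ := pattern (n := n) (b := b) hs 3 0 1 2 4 5 (by decide)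
    a02 a04 a05 a12 a14 a15 a24 a25 a45
  obtain ⟨ν, hν, ν2, ν0, ν1, ν3, ν4, ν5⟩ := pattern (n := n) (b := b) hs 2 0 1 3 4 5 (by decide)
    a03 a04 a05 a13 a14 a15 a34 a35 a45
  obtain ⟨κ, hκ, κ0, κ2, κ3, κ1, κ4, κ5⟩ := pattern (n := n) (b := b) hs 0 2 3 1 4 5 (by decide)
    (Adj.swap a12) a24 a25 (Adj.swap a13) a34 a35 a14 a15 a45
  set p : ℝ := κ 2 / (- μ 2) with hp
  set q : ℝ := κ 3 / (- ν 3) with hq
  have hp0 : 0 < p := div_pos κ2 (by linarith)
  have hq0 : 0 < q := div_pos κ3 (by linarith)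
  have hρ := ((hκ.add hμ 1 p).add hν 1 q)
  set ρ : Fin 6 → ℝ := fun k => 1 * (1 * κ k + p * μ k) + q * ν k with hρd
  have hpμ : p * μ 2 = - κ 2 := by
    rw [hp, div_neg, neg_mul, div_mul_cancel₀ _ μ2.ne]
  have hqν : q * ν 3 = - κ 3 := by
    rw [hq, div_neg, neg_mul, div_mul_cancel₀ _ ν3.ne]
  have ρ2 : ρ 2 = 0 := by simp only [hρd]; rw [ν2]; linarith
  have ρ3 : ρ 3 = 0 := by simp only [hρd]; rw [μ3]; linarith
  have ρ0 : 0 < ρ 0 := by simp only [hρd]; rw [κ0]; nlinarith [mul_pos hp0 μ0, mul_pos hq0 ν0]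
  have ρ4 : ρ 4 < 0 := by
    simp only [hρd]; nlinarith [mul_pos hp0 (neg_pos.2 μ4), mul_pos hq0 (neg_pos.2 ν4)]
  have ρ5 : ρ 5 < 0 := by
    simp only [hρd]; nlinarith [mul_pos hp0 (neg_pos.2 μ5), mul_pos hq0 (neg_pos.2 ν5)]
  have ρ1 : ρ 1 < 0 := by
    by_contra hcon
    push Not at hcon
    have := zero_of hs hρ.neg a45 (fun l h4 h5 => by
      fin_cases l
      · show - ρ 0 ≤ 0; linarith
      · show - ρ 1 ≤ 0; linarith
      · show - ρ 2 ≤ 0; linarith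
      · show - ρ 3 ≤ 0; linarith
      · exact absurd rfl h4
      · exact absurd rfl h5) 0 (by decide) (by decide)
    have h' : - ρ 0 = 0 := this
    linarith
  have hσ := hμ.add hρ (- ρ 1) (μ 1)
  have σ1 : - ρ 1 * μ 1 + μ 1 * ρ 1 = 0 := by ring
  have σ2 : - ρ 1 * μ 2 + μ 1 * ρ 2 < 0 := by
    rw [ρ2]; nlinarith [mul_pos (neg_pos.2 ρ1) (neg_pos.2 μ2)]
  have σ3 : - ρ 1 * μ 3 + μ 1 * ρ 3 = 0 := by rw [μ3, ρ3]; ring
  have σ4 : - ρ 1 * μ 4 + μ 1 * ρ 4 < 0 := by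
    nlinarith [mul_pos (neg_pos.2 ρ1) (neg_pos.2 μ4), mul_pos μ1 (neg_pos.2 ρ4)]
  have σ5 : - ρ 1 * μ 5 + μ 1 * ρ 5 < 0 := by
    nlinarith [mul_pos (neg_pos.2 ρ1) (neg_pos.2 μ5), mul_pos μ1 (neg_pos.2 ρ5)]
  have := zero_of hs hσ a04 (fun l h0 h4 => by
      fin_cases l
      · exact absurd rfl h0
      · show - ρ 1 * μ 1 + μ 1 * ρ 1 ≤ 0; linarith
      · show - ρ 1 * μ 2 + μ 1 * ρ 2 ≤ 0; linarith
      · show - ρ 1 * μ 3 + μ 1 * ρ 3 ≤ 0; linarith
      · exact absurd rfl h4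
      · show - ρ 1 * μ 5 + μ 1 * ρ 5 ≤ 0; linarith) 2 (by decide) (by decide)
  have h' : - ρ 1 * μ 2 + μ 1 * ρ 2 = 0 := this
  linarith

end Pool.Agent.Work.MP_3892ce_static
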