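import Pool.Agent.Work.MP_3892ce_static.Interface

/-! # Block ADJ (helper63): a common segment of two facets gives a point where exactly these two
constraints are tight -/

set_option autoImplicit false

open MeasureTheory Set
open scoped ENNReal Pointwise

namespace Pool.Agent.Work.MP_3892ce_static

namespace ADJ

/-- three pairwise different directions: representation of a vector orthogonal to `u` -/
theorem repr3 {a b u x : E 3} (ha : ‖a‖ = 1) (hb : ‖b‖ = 1) (h1 : a ≠ b) (h2 : a ≠ -b)
    (hu : u ≠ 0) (hau : inner ℝ a u = 0) (hbu : inner ℝ b u = 0) (hxu : inner ℝ x u = 0) :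
    ∃ s t : ℝ, x = s • a + t • b := by
  have huu : inner ℝ u u ≠ 0 := by
    rw [real_inner_self_eq_norm_sq]
    exact pow_ne_zero 2 (norm_ne_zero_iff.2 hu)
  have hli : LinearIndependent ℝ ![a, b, u] := by
    rw [Fintype.linearIndependent_iff]
    intro g hg
    rw [Fin.sum_univ_three] at hg
    simp only [Matrix.cons_val_zero, Matrix.cons_val_one, Matrix.cons_val] at hg
    have h3 : g 2 = 0 := by
      have h4 := congrArg (fun z => inner ℝ z u) hg
      simp only [inner_add_left, real_inner_smul_left, hau, hbu, mul_zero, zero_add,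
        inner_zero_left] at h4
      rcases mul_eq_zero.1 h4 with h5 | h5
      · exact h5
      · exact absurd h5 huu
    rw [h3, zero_smul, add_zero] at hg
    have h4 : g 0 • a = -(g 1 • b) := eq_neg_of_add_eq_zero_left hg
    have h5 : |g 0| = |g 1| := by
      have := congrArg norm h4
      rwa [norm_neg, norm_smul, norm_smul, ha, hb, mul_one, mul_one, Real.norm_eq_abs,
        Real.norm_eq_abs] at this
    have h6 : g 0 = 0 := by
      by_contra h0
      rcases abs_eq_abs.1 h5 with h7 | h7
      · apply h2
        rw [← h7, ← smul_neg] at h4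
        exact smul_right_injective _ h0 h4
      · apply h1
        have h8 : g 1 = -g 0 := by rw [h7, neg_neg]
        rw [h8, neg_smul, neg_neg] at h4
        exact smul_right_injective _ h0 h4
    have h7 : g 1 = 0 := by
      rw [h6, abs_zero] at h5
      exact abs_eq_zero.1 h5.symm
    intro i
    fin_cases i
    · exact h6
    · exact h7
    · exact h3
  have hspan : Submodule.span ℝ (range ![a, b, u]) = ⊤ := by
    apply hli.span_eq_top_of_card_eq_finrank'
    simp
  have hx : x ∈ Submodule.span ℝ (range ![a, b, u]) := by rw [hspan]; trivial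
  rw [Submodule.mem_span_range_iff_exists_fun] at hx
  obtain ⟨c, hc⟩ := hx
  rw [Fin.sum_univ_three] at hc
  simp only [Matrix.cons_val_zero, Matrix.cons_val_one, Matrix.cons_val] at hc
  have h3 : c 2 = 0 := by
    have h4 := congrArg (fun z => inner ℝ z u) hc
    simp only [inner_add_left, real_inner_smul_left, hau, hbu, mul_zero, zero_add, hxu] at h4
    rcases mul_eq_zero.1 h4 with h5 | h5
    · exact h5
    · exact absurd h5 huu
  refine ⟨c 0, c 1, ?_⟩
  rw [← hc, h3, zero_smul, add_zero]

/-- positions of the signs of the coefficients -/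
theorem signs {ι : Type} {n : ι → E 3} {b : ι → ℝ} (h : Irr n b) {i j k : ι} (hik : k ≠ i)
    (hjk : k ≠ j) (hij : i ≠ j) {s t : ℝ} (hn : n k = s • n i + t • n j)
    (hb : b k = s * b i + t * b j) : False := by
  have hin : ∀ x : E 3, inner ℝ (n k) x = s * inner ℝ (n i) x + t * inner ℝ (n j) x := by
    intro x
    rw [hn, inner_add_left, real_inner_smul_left, real_inner_smul_left]
  rcases le_or_gt 0 s with hs | hs
  · rcases le_or_gt 0 t with ht | ht
    · obtain ⟨x, hx, hx'⟩ := h.wit k
      have h1 := hx' i hik.symm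
      have h2 := hx' j hjk.symm
      rw [hin, hb] at hx
      have hk := h.unit k
      rcases hs.eq_or_lt with hs0 | hs0
      · rcases ht.eq_or_lt with ht0 | ht0
        · rw [hn, ← hs0, ← ht0, zero_smul, zero_smul, add_zero, norm_zero] at hk
          exact zero_ne_one hk
        · rw [← hs0] at hx
          nlinarith
      · nlinarith
    · rcases hs.eq_or_lt with hs0 | hs0
      · obtain ⟨x, hx⟩ := h.int
        have h1 := hx k
        have h2 := hx j
        rw [hin, hb, ← hs0] at h1
        nlinarith
      · obtain ⟨x, hx, hx'⟩ := h.wit i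
        have h1 := hx' k hik
        have h2 := hx' j hij.symm
        rw [hin, hb, hx] at h1
        nlinarith
  · rcases le_or_gt t 0 with ht | ht
    · obtain ⟨x, hx⟩ := h.int
      have h1 := hx k
      have h2 := hx j
      have h3 := hx i
      rw [hin, hb] at h1
      nlinarith
    · obtain ⟨x, hx, hx'⟩ := h.wit j
      have h1 := hx' k hjk
      have h2 := hx' i hij
      rw [hin, hb, hx] at h1
      nlinarith

end ADJ

open ADJ in
theorem blk_ADJ : Stmt_ADJ := by
  intro ι _ _ n b h i j hlen
  obtain ⟨_⟩ := nonempty_fintype ι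
  have hij : i ≠ j := by
    rintro rfl
    unfold len at hlen
    rw [if_pos rfl] at hlen
    exact lt_irrefl _ hlen
  unfold len at hlen
  rw [if_neg hij] at hlen
  -- two points
  obtain ⟨p, hp, q, hq, hpq⟩ : ∃ p ∈ Face n b i ∩ Face n b j, ∃ q ∈ Face n b i ∩ Face n b j,
      p ≠ q := by
    by_contra hcon
    push Not at hcon
    have hsub : (Face n b i ∩ Face n b j).Subsingleton := fun p hp q hq => hcon p hp q hq
    rw [Metric.diam_subsingleton hsub] at hlen
    exact lt_irrefl _ hlen
  have hu : q - p ≠ 0 := sub_ne_zero.2 hpq.symm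
  have hiu : inner ℝ (n i) (q - p) = 0 := by
    rw [inner_sub_right, hq.1.2, hp.1.2, sub_self]
  have hju : inner ℝ (n j) (q - p) = 0 := by
    rw [inner_sub_right, hq.2.2, hp.2.2, sub_self]
  have hne : n i ≠ n j := by
    intro he
    obtain ⟨x, hx, hx'⟩ := h.wit i
    have h1 := hx' j hij.symm
    rw [← he, hx] at h1
    have h2 := hp.2.2
    rw [← he, hp.1.2] at h2
    linarith
  have hne' : n i ≠ -n j := by
    intro he
    obtain ⟨x, hx⟩ := h.int
    have h1 := hx i
    have h2 := hx j
    have h3 := hp.1.2
    have h4 := hp.2.2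
    rw [he, inner_neg_left] at h1 h3
    linarith
  -- a point for every other constraint
  have hpt : ∀ k, ∃ x ∈ Face n b i ∩ Face n b j, k ≠ i → k ≠ j → inner ℝ (n k) x < b k := by
    intro k
    by_cases hki : k = i
    · exact ⟨p, hp, fun h1 => absurd hki h1⟩
    by_cases hkj : k = j
    · exact ⟨p, hp, fun _ h2 => absurd hkj h2⟩
    by_contra hcon
    push Not at hcon
    have hall : ∀ x ∈ Face n b i ∩ Face n b j, inner ℝ (n k) x = b k := by
      intro x hx
      exact le_antisymm (hx.1.1 k) (hcon x hx).2.2
    have hku : inner ℝ (n k) (q - p) = 0 := by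
      rw [inner_sub_right, hall q hq, hall p hp, sub_self]
    obtain ⟨s, t, hst⟩ := repr3 (h.unit i) (h.unit j) hne hne' hu hiu hju hku
    refine signs h hki hkj hij hst ?_
    have h1 := hall p hp
    rw [hst, inner_add_left, real_inner_smul_left, real_inner_smul_left, hp.1.2, hp.2.2] at h1
    exact h1.symm
  choose x hx hx' using hpt
  have hN : (0 : ℝ) < Fintype.card ι := by
    have : 0 < Fintype.card ι := Fintype.card_pos_iff.2 ⟨i⟩
    exact_mod_cast this
  have hsum : ∀ v : E 3, inner ℝ v ((1 / (Fintype.card ι : ℝ)) • ∑ k, x k) =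
      (1 / (Fintype.card ι : ℝ)) * ∑ k, inner ℝ v (x k) := by
    intro v
    rw [real_inner_smul_right, inner_sum]
  refine ⟨hij, (1 / (Fintype.card ι : ℝ)) • ∑ k, x k, ?_, ?_, ?_⟩
  · rw [hsum, Finset.sum_congr rfl fun k _ => (hx k).1.2, Finset.sum_const, Finset.card_univ,
      nsmul_eq_mul]
    field_simp
  · rw [hsum, Finset.sum_congr rfl fun k _ => (hx k).2.2, Finset.sum_const, Finset.card_univ,
      nsmul_eq_mul]
    field_simp
  · intro k hki hkj
    rw [hsum]
    have h1 : ∑ l, inner ℝ (n k) (x l) < ∑ _l : ι, b k :=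
      Finset.sum_lt_sum (fun l _ => (hx l).1.1 k) ⟨k, Finset.mem_univ k, hx' k hki hkj⟩
    rw [Finset.sum_const, Finset.card_univ, nsmul_eq_mul] at h1
    calc (1 / (Fintype.card ι : ℝ)) * ∑ l, inner ℝ (n k) (x l) <
        (1 / (Fintype.card ι : ℝ)) * (Fintype.card ι * b k) :=
          mul_lt_mul_of_pos_left h1 (by positivity)
      _ = b k := by field_simp

end Pool.Agent.Work.MP_3892ce_static
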