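import Pool.Agent.Work.MP_3892ce_static.Interface4
import Pool.Agent.Work.MP_3892ce_static.ADJ

/-! # Block SIX: the numbering of the six largest facets (helper98) -/

set_option autoImplicit false

open Set

namespace Pool.Agent.Work.MP_3892ce_static
namespace SIXB

/-- two different missing pairs of a symmetric relation on five points which does not contain the
complete graph minus an edge -/
lemma two_missing (R : Fin 5 → Fin 5 → Prop) (hsymm : ∀ i j, R i j → R j i)
    (h : ¬ ∃ p : Equiv.Perm (Fin 5), ∀ i j : Fin 5, i ≠ j → ¬ (i = 0 ∧ j = 1) →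
      ¬ (i = 1 ∧ j = 0) → R (p i) (p j)) :
    ∃ i j i' j' : Fin 5, i < j ∧ i' < j' ∧ ¬ R i j ∧ ¬ R i' j' ∧ ¬ (i = i' ∧ j = j') := by
  push Not at h
  obtain ⟨a, b, hab, _, _, hR⟩ := h 1
  rw [Equiv.Perm.one_apply, Equiv.Perm.one_apply] at hR
  obtain ⟨i, j, hij, hRij⟩ : ∃ i j : Fin 5, i < j ∧ ¬ R i j := by
    rcases lt_or_gt_of_ne hab with h1 | h1
    · exact ⟨a, b, h1, hR⟩
    · exact ⟨b, a, h1, fun h2 => hR (hsymm _ _ h2)⟩
  obtain ⟨p, hp0, hp1⟩ : ∃ p : Equiv.Perm (Fin 5), p 0 = i ∧ p 1 = j := by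
    revert hij
    clear hRij hR
    revert i j
    decide +kernel
  obtain ⟨c, d, hcd, h1, h2, hR'⟩ := h p
  have hne1 : ¬ (p c = i ∧ p d = j) := by
    rintro ⟨e1, e2⟩
    rw [← hp0] at e1
    rw [← hp1] at e2
    exact h1 (p.injective e1) (p.injective e2)
  have hne2 : ¬ (p c = j ∧ p d = i) := by
    rintro ⟨e1, e2⟩
    rw [← hp1] at e1
    rw [← hp0] at e2
    exact h2 (p.injective e1) (p.injective e2)
  have hne : p c ≠ p d := fun e => hcd (p.injective e)
  rcases lt_or_gt_of_ne hne with h3 | h3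
  · exact ⟨i, j, p c, p d, hij, h3, hRij, hR', fun e => hne1 ⟨e.1.symm, e.2.symm⟩⟩
  · exact ⟨i, j, p d, p c, hij, h3, hRij, fun h4 => hR' (hsymm _ _ h4),
      fun e => hne2 ⟨e.2.symm, e.1.symm⟩⟩

end SIXB

open SIXB in
theorem blk_SIX : Stmt_SIX := by
  classical
  intro ι _ _ n b U hI hcard s hs hbig hK
  set A : ι → ℝ := fun i => area (HP n b) (n i) (U i) (b i) with hA
  have hbig' : ∀ k, k ∉ Set.range s → ∀ i, A k ≤ A (s i) := hbig
  -- sort the five
  set σ : Equiv.Perm (Fin 5) := Tuple.sort (fun i => - A (s i)) with hσ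
  have hmono : ∀ i j : Fin 5, i ≤ j → A (s (σ j)) ≤ A (s (σ i)) := by
    intro i j hij
    have h1 := Tuple.monotone_sort (fun i => - A (s i)) hij
    simp only [Function.comp_apply, ← hσ] at h1
    linarith
  -- the sixth
  obtain ⟨k0, hk0, hk0max⟩ : ∃ k0, k0 ∉ Set.range s ∧ ∀ k, k ∉ Set.range s → A k ≤ A k0 := by
    have hne : (Finset.univ.filter fun k => k ∉ Set.range s).Nonempty := by
      by_contra hcon
      rw [Finset.not_nonempty_iff_eq_empty, Finset.filter_eq_empty_iff] at hcon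
      have hsur : Function.Surjective s := by
        intro k
        have := hcon (Finset.mem_univ k)
        rw [not_not] at this
        exact this
      have := Fintype.card_le_of_surjective s hsur
      rw [Fintype.card_fin] at this
      omega
    obtain ⟨k0, h1, h2⟩ := Finset.exists_max_image _ A hne
    refine ⟨k0, (Finset.mem_filter.1 h1).2, fun k hk => h2 k ?_⟩
    exact Finset.mem_filter.2 ⟨Finset.mem_univ k, hk⟩
  set r : Fin 6 → ι := fun i => if h : i.val < 5 then s (σ ⟨i.val, h⟩) else k0 with hr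
  have hr5 : ∀ i : Fin 6, ∀ h : i.val < 5, r i = s (σ ⟨i.val, h⟩) := by
    intro i h
    simp only [hr]
    rw [dif_pos h]
  have hrk : ∀ i : Fin 6, ¬ i.val < 5 → r i = k0 := by
    intro i h
    simp only [hr]
    rw [dif_neg h]
  have hmem : ∀ i : Fin 6, ∀ h : i.val < 5, r i ∈ Set.range s := by
    intro i h
    rw [hr5 i h]
    exact ⟨_, rfl⟩
  have hinj : Function.Injective r := by
    intro i j hij
    by_cases hi : i.val < 5 <;> by_cases hj : j.val < 5
    · rw [hr5 i hi, hr5 j hj] at hij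
      have h2 := σ.injective (hs hij)
      rw [Fin.mk.injEq] at h2
      exact Fin.ext h2
    · exact absurd (by rw [← hrk j hj, ← hij]; exact hmem i hi) hk0
    · exact absurd (by rw [← hrk i hi, hij]; exact hmem j hj) hk0
    · exact Fin.ext (by omega)
  have hsort : ∀ i j : Fin 6, i ≤ j → A (r j) ≤ A (r i) := by
    intro i j hij
    have hij' : i.val ≤ j.val := hij
    by_cases hj : j.val < 5
    · have hi : i.val < 5 := by omega
      rw [hr5 i hi, hr5 j hj]
      exact hmono _ _ hij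
    · by_cases hi : i.val < 5
      · rw [hr5 i hi, hrk j hj]
        exact hbig' k0 hk0 _
      · rw [hrk i hi, hrk j hj]
  refine ⟨r, ⟨hinj, hsort⟩, ?_, ?_⟩
  · intro k hk i
    show A k ≤ A (r i)
    have hk' : k ∉ Set.range s := by
      rintro ⟨q, rfl⟩
      apply hk
      rw [Finset.mem_image]
      refine ⟨⟨(σ.symm q).val, by omega⟩, Finset.mem_univ _, ?_⟩
      rw [hr5 _ (by simp)]
      simp
    by_cases hi : i.val < 5
    · rw [hr5 i hi]
      exact hbig' k hk' _
    · rw [hrk i hi]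
      exact hk0max k hk'
  -- the missing pairs
  set R : Fin 5 → Fin 5 → Prop := fun i j => 0 < len n b (s (σ i)) (s (σ j)) with hR
  have hlsymm : ∀ i j : ι, len n b i j = len n b j i := by
    intro i j
    unfold len
    by_cases h : i = j
    · rw [if_pos h, if_pos h.symm]
    · rw [if_neg h, if_neg (fun h' => h h'.symm), Set.inter_comm]
  obtain ⟨i, j, i', j', h1, h2, h3, h4, h5⟩ := two_missing R
    (fun i j h => by simp only [hR] at h ⊢; rw [hlsymm]; exact h) (by
      rintro ⟨p, hp⟩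
      apply hK
      refine ⟨p.trans σ, fun i j h1 h2 h3 => ?_⟩
      exact blk_ADJ ι n b hI _ _ (hp i j h1 h2 h3))
  have hR' : ∀ i j : Fin 5, R i j ↔
      0 < len n b (r ⟨i.val, by omega⟩) (r ⟨j.val, by omega⟩) := by
    intro i j
    rw [hr5 ⟨i.val, by omega⟩ i.isLt, hr5 ⟨j.val, by omega⟩ j.isLt]
  have hcast : ∀ i j : Fin 6, ∀ hi : i.val < 5, ∀ hj : j.val < 5,
      (0 < len n b (r i) (r j) ↔ R ⟨i.val, hi⟩ ⟨j.val, hj⟩) := by
    intro i j hi hj
    rw [hR' ⟨i.val, hi⟩ ⟨j.val, hj⟩]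
  by_cases hJ : ∀ i j : Fin 6, i < j → j < 4 → 0 < len n b (r i) (r j)
  · refine Or.inl ⟨hJ, ?_⟩
    have hj : ∀ i j : Fin 5, i < j → ¬ R i j → j.val = 4 := by
      intro i j hij hR1
      by_contra hcon
      apply hR1
      rw [hR']
      have h6 : i.val < j.val := hij
      refine hJ _ _ (Fin.lt_def.2 h6) (Fin.lt_def.2 ?_)
      show j.val < 4
      omega
    have e1 := hj i j h1 h3
    have e2 := hj i' j' h2 h4
    have h1' : i.val < j.val := h1
    have h2' : i'.val < j'.val := h2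
    have hne : i.val ≠ i'.val := by
      intro h
      exact h5 ⟨Fin.ext h, Fin.ext (by omega)⟩
    have key : ∀ i j i' j' : Fin 5, ¬ R i j → ¬ R i' j' → j.val = 4 → j'.val = 4 →
        i.val < i'.val → i'.val < 4 →
        ∃ i j : Fin 6, i < j ∧ j < 4 ∧ ¬ 0 < len n b (r i) (r 4) ∧ ¬ 0 < len n b (r j) (r 4) := by
      intro i j i' j' g1 g2 g3 g4 g5 g6
      refine ⟨⟨i.val, by omega⟩, ⟨i'.val, by omega⟩, Fin.lt_def.2 g5, Fin.lt_def.2 g6, ?_, ?_⟩
      · rw [hR'] at g1
        have : (⟨j.val, by omega⟩ : Fin 6) = 4 := Fin.ext g3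
        rw [this] at g1
        exact g1
      · rw [hR'] at g2
        have : (⟨j'.val, by omega⟩ : Fin 6) = 4 := Fin.ext g4
        rw [this] at g2
        exact g2
    rcases lt_or_gt_of_ne hne with h | h
    · exact key i j i' j' h3 h4 e1 e2 h (by omega)
    · exact key i' j' i j h4 h3 e2 e1 h (by omega)
  · refine Or.inr ?_
    push Not at hJ
    obtain ⟨a, c, g1, g2, g3⟩ := hJ
    have g1' : a.val < c.val := g1
    have g2' : c.val < 4 := g2
    have g3' : ¬ 0 < len n b (r a) (r c) := not_lt.2 g3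
    have toR : ∀ i j : Fin 5, i < j → ¬ R i j → ¬ (a.val = i.val ∧ c.val = j.val) →
        ∃ i j i' j' : Fin 6, i < j ∧ j < 4 ∧ ¬ 0 < len n b (r i) (r j) ∧ i' < j' ∧ j' < 5 ∧
        ¬ 0 < len n b (r i') (r j') ∧ ¬ (i = i' ∧ j = j') := by
      intro i j hij hRij hne
      rw [hR'] at hRij
      refine ⟨a, c, ⟨i.val, by omega⟩, ⟨j.val, by omega⟩, g1, g2, g3', Fin.lt_def.2 hij,
        Fin.lt_def.2 j.isLt, hRij, ?_⟩
      rintro ⟨e1, e2⟩
      exact hne ⟨congrArg Fin.val e1, congrArg Fin.val e2⟩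
    by_cases hc : a.val = i.val ∧ c.val = j.val
    · refine toR i' j' h2 h4 ?_
      rintro ⟨e1, e2⟩
      exact h5 ⟨Fin.ext (by omega), Fin.ext (by omega)⟩
    · exact toR i j h1 h3 hc

end Pool.Agent.Work.MP_3892ce_static
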