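import Pool.Agent.Work.MP_3892ce_static.EngDefs

set_option autoImplicit false

namespace Pool.Agent.Work.MP_3892ce_static.Eng

/-- the function which is bounded below by `pieceMin`, `X = 1000 x` -/
noncomputable def FF (Cl lam B C : ℤ) (X : ℝ) : ℝ :=
  (Cl : ℝ) * X * 100000000000 - (lam : ℝ) * X ^ 2 * 1000000000000 + (B : ℝ) * X ^ 4 * 1000000 +
    (C : ℝ) * X ^ 6

theorem pieceMin_le (Cl lam B C a b : ℤ) (hCl : 0 ≤ Cl) (hC : 0 ≤ C) (ha : 0 ≤ a)
    (X : ℝ) (haX : (a : ℝ) ≤ X) (hXb : X ≤ (b : ℝ)) :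
    (pieceMin Cl lam B C a b : ℝ) ≤ FF Cl lam B C X := by
  have hb : (0 : ℤ) ≤ b := by
    have : (a : ℝ) ≤ (b : ℝ) := le_trans haX hXb
    have : a ≤ b := by exact_mod_cast this
    omega
  unfold pieceMin
  simp only []
  set Z : ℤ := (a * a + b * b) / 2 with hZ
  have hZ0 : 0 ≤ Z := by
    rw [hZ]; apply Int.ediv_nonneg <;> nlinarith
  set P1 : ℤ := if 0 ≤ B then 2 * Z else a * a + b * b with hP1
  set P0 : ℤ := if 0 ≤ B then Z * Z else a * a * (b * b) with hP0
  set D : ℤ := lam * 1000000000000 - B * P1 * 1000000 - 3 * C * (Z * Z) with hD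
  set e : ℤ := B * P0 * 1000000 + 2 * C * (Z * Z * Z) with he
  have hZr : (0 : ℝ) ≤ (Z : ℝ) := by exact_mod_cast hZ0
  have hCr : (0 : ℝ) ≤ (C : ℝ) := by exact_mod_cast hC
  have har : (0 : ℝ) ≤ (a : ℝ) := by exact_mod_cast ha
  have hClr : (0 : ℝ) ≤ (Cl : ℝ) := by exact_mod_cast hCl
  have hX0 : 0 ≤ X := le_trans har haX
  -- quadratic lower bound
  have hz : (0 : ℝ) ≤ X ^ 2 := sq_nonneg X
  have h1 : (B : ℝ) * ((P1 : ℝ) * X ^ 2 - (P0 : ℝ)) ≤ (B : ℝ) * (X ^ 2) ^ 2 := by
    by_cases hB : 0 ≤ B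
    · have hBr : (0 : ℝ) ≤ (B : ℝ) := by exact_mod_cast hB
      have e1 : (P1 : ℝ) = 2 * (Z : ℝ) := by rw [hP1, if_pos hB]; push_cast; ring
      have e0 : (P0 : ℝ) = (Z : ℝ) * (Z : ℝ) := by rw [hP0, if_pos hB]; push_cast; ring
      rw [e1, e0]
      apply mul_le_mul_of_nonneg_left _ hBr
      nlinarith [sq_nonneg (X ^ 2 - (Z : ℝ))]
    · have hBr : (B : ℝ) ≤ 0 := by
        have : (B : ℝ) < 0 := by exact_mod_cast (not_le.mp hB)
        exact this.le
      have e1 : (P1 : ℝ) = (a : ℝ) * a + (b : ℝ) * b := by rw [hP1, if_neg hB]; push_cast; ring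
      have e0 : (P0 : ℝ) = (a : ℝ) * a * ((b : ℝ) * b) := by rw [hP0, if_neg hB]; push_cast; ring
      rw [e1, e0]
      apply mul_le_mul_of_nonpos_left _ hBr
      have g1 : (0 : ℝ) ≤ X ^ 2 - (a : ℝ) * a := by nlinarith
      have g2 : (0 : ℝ) ≤ (b : ℝ) * b - X ^ 2 := by nlinarith
      nlinarith [mul_nonneg g1 g2]
  have h2 : 3 * (Z : ℝ) ^ 2 * X ^ 2 - 2 * (Z : ℝ) ^ 3 ≤ (X ^ 2) ^ 3 := by
    have : 0 ≤ (X ^ 2 - (Z : ℝ)) ^ 2 * (X ^ 2 + 2 * (Z : ℝ)) := by positivity
    nlinarith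
  have hG : (Cl : ℝ) * X * 100000000000 - (D : ℝ) * X ^ 2 - (e : ℝ) ≤ FF Cl lam B C X := by
    have hDr : (D : ℝ) = (lam : ℝ) * 1000000000000 - (B : ℝ) * (P1 : ℝ) * 1000000 -
        3 * (C : ℝ) * ((Z : ℝ) * Z) := by
      rw [hD, Int.cast_sub, Int.cast_sub]; clear_value P1 P0 Z; push_cast; ring
    have her : (e : ℝ) = (B : ℝ) * (P0 : ℝ) * 1000000 + 2 * (C : ℝ) * ((Z : ℝ) * Z * Z) := by
      rw [he, Int.cast_add]; clear_value P1 P0 Z; push_cast; ring
    rw [hDr, her]
    unfold FF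
    have e2 := mul_le_mul_of_nonneg_left h2 hCr
    nlinarith
  refine le_trans ?_ hG
  have hmin : ((min (Cl * a * 100000000000 - D * (a * a) - e) (Cl * b * 100000000000 - D * (b * b) - e) : ℤ) : ℝ)
      = min ((Cl : ℝ) * a * 100000000000 - (D : ℝ) * (a * a) - (e : ℝ))
        ((Cl : ℝ) * b * 100000000000 - (D : ℝ) * (b * b) - (e : ℝ)) := by
    push_cast; rfl
  rw [hmin]
  by_contra hlt
  push Not at hlt
  rw [lt_min_iff] at hlt
  obtain ⟨hl1, hl2⟩ := hlt
  -- G(X) < G(a)
  have k1 : (X - a) * ((Cl : ℝ) * 100000000000 - (D : ℝ) * (X + a)) < 0 := by nlinarith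
  have k2 : 0 < ((b : ℝ) - X) * ((Cl : ℝ) * 100000000000 - (D : ℝ) * (X + b)) := by nlinarith
  have hxa : 0 ≤ X - a := by linarith
  have hbx : 0 ≤ (b : ℝ) - X := by linarith
  have k3 : (Cl : ℝ) * 100000000000 - (D : ℝ) * (X + a) < 0 := by
    by_contra h; push Not at h; nlinarith [mul_nonneg hxa h]
  have k4 : 0 < (Cl : ℝ) * 100000000000 - (D : ℝ) * (X + b) := by
    by_contra h; push Not at h; nlinarith [mul_nonneg hbx (neg_nonneg.mpr h)]
  rcases le_or_gt 0 (D : ℝ) with hD0 | hD0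
  · nlinarith [mul_nonneg hD0 (by linarith : (0 : ℝ) ≤ b - a)]
  · have : 0 ≤ -(D : ℝ) * (X + a) := by
      apply mul_nonneg <;> linarith
    nlinarith

theorem exists_piece (g : ℕ → ℤ) (X : ℝ) : ∀ n : ℕ, 0 < n → (g 0 : ℝ) ≤ X → X ≤ (g n : ℝ) →
    ∃ k < n, (g k : ℝ) ≤ X ∧ X ≤ (g (k + 1) : ℝ) := by
  intro n
  induction n with
  | zero => intro h; omega
  | succ m ih =>
    intro _ h0 h1
    rcases Nat.eq_zero_or_pos m with hm | hm
    · subst hm; exact ⟨0, by omega, h0, h1⟩
    · rcases le_or_gt X (g m : ℝ) with h | h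
      · obtain ⟨k, hk, h2, h3⟩ := ih hm h0 h
        exact ⟨k, by omega, h2, h3⟩
      · exact ⟨m, by omega, h.le, h1⟩

/-- the value of piece number `i` in `coordMin` -/
def pieceVal (C0 lam B C lo hi : ℤ) (n pv : ℕ) (M sa sb : ℤ) (i : ℕ) : ℤ :=
  pieceMin (C0 * 10000 - M * (if i < pv then sa else sb)) lam B C (lo + (hi - lo) * i / n)
    (lo + (hi - lo) * (i + 1) / n) +
    M * (if i < pv then sa else sb) * (lo + (hi - lo) * pv / n) * 100000000000

theorem coordMin_succ (C0 lam B C lo hi : ℤ) (n pv : ℕ) (M sa sb : ℤ) (fuel i : ℕ) (acc : ℤ) :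
    coordMin C0 lam B C lo hi n pv M sa sb (fuel + 1) i acc =
      coordMin C0 lam B C lo hi n pv M sa sb fuel (i + 1)
        (min acc (pieceVal C0 lam B C lo hi n pv M sa sb i)) := by
  rw [coordMin]; rfl

theorem coordMin_le_acc (C0 lam B C lo hi : ℤ) (n pv : ℕ) (M sa sb : ℤ) :
    ∀ (fuel i : ℕ) (acc : ℤ), coordMin C0 lam B C lo hi n pv M sa sb fuel i acc ≤ acc := by
  intro fuel
  induction fuel with
  | zero => intro i acc; rw [coordMin]
  | succ f ih =>
    intro i acc
    rw [coordMin_succ]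
    exact le_trans (ih _ _) (min_le_left _ _)

theorem coordMin_le_piece (C0 lam B C lo hi : ℤ) (n pv : ℕ) (M sa sb : ℤ) :
    ∀ (fuel i : ℕ) (acc : ℤ) (k : ℕ), i ≤ k → k < i + fuel →
      coordMin C0 lam B C lo hi n pv M sa sb fuel i acc ≤
        pieceVal C0 lam B C lo hi n pv M sa sb k := by
  intro fuel
  induction fuel with
  | zero => intro i acc k h1 h2; omega
  | succ f ih =>
    intro i acc k h1 h2
    rw [coordMin_succ]
    rcases Nat.eq_or_lt_of_le h1 with h | h
    · subst h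
      exact le_trans (coordMin_le_acc _ _ _ _ _ _ _ _ _ _ _ _ _ _) (min_le_right _ _)
    · exact ih (i + 1) _ k h (by omega)

theorem coordMin_le (C0 lam B C lo hi : ℤ) (n pv : ℕ) (M sa sb : ℤ) (acc : ℤ)
    (hn : 0 < n) (hC : 0 ≤ C) (hlo : 0 ≤ lo) (hM : 0 ≤ M)
    (hlin : 0 ≤ C0 * 10000 - M * sb) (X S : ℝ) (hX1 : (lo : ℝ) ≤ X) (hX2 : X ≤ (hi : ℝ))
    (hS : M = 0 ∨ ((sa : ℝ) ≤ S ∧ S ≤ (sb : ℝ))) :
    (coordMin C0 lam B C lo hi n pv M sa sb n 0 acc : ℝ) ≤
      FF (C0 * 10000) lam B C X -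
        (M : ℝ) * S * (X - ((lo + (hi - lo) * pv / n : ℤ) : ℝ)) * 100000000000 := by
  have hlohi : lo ≤ hi := by
    have : (lo : ℝ) ≤ (hi : ℝ) := le_trans hX1 hX2
    exact_mod_cast this
  set g : ℕ → ℤ := fun k => lo + (hi - lo) * k / n with hg
  have hnz : (n : ℤ) ≠ 0 := by exact_mod_cast hn.ne'
  have hn0 : (0 : ℤ) < n := by exact_mod_cast hn
  have hmono : ∀ k l : ℕ, k ≤ l → g k ≤ g l := by
    intro k l hkl
    simp only [hg]
    have : (hi - lo) * (k : ℤ) ≤ (hi - lo) * (l : ℤ) := by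
      apply mul_le_mul_of_nonneg_left _ (by omega)
      exact_mod_cast hkl
    have := Int.ediv_le_ediv hn0 this
    omega
  have g0 : g 0 = lo := by simp [hg]
  have gn : g n = hi := by
    simp only [hg]
    rw [Int.mul_ediv_cancel _ hnz]; ring
  obtain ⟨k, hk, hk1, hk2⟩ := exists_piece g X n hn (by rw [g0]; exact hX1) (by rw [gn]; exact hX2)
  have hgk0 : 0 ≤ g k := le_trans hlo (by rw [← g0]; exact hmono 0 k (Nat.zero_le _))
  have hle := coordMin_le_piece C0 lam B C lo hi n pv M sa sb n 0 acc k (Nat.zero_le _) (by omega)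
  have hle' : (coordMin C0 lam B C lo hi n pv M sa sb n 0 acc : ℝ) ≤
      (pieceVal C0 lam B C lo hi n pv M sa sb k : ℝ) := by exact_mod_cast hle
  refine le_trans hle' ?_
  unfold pieceVal
  set u : ℤ := if k < pv then sa else sb with hu
  have hsab : M * u ≤ M * sb := by
    rcases hS with h | ⟨h1, h2⟩
    · rw [h]; simp
    · have : sa ≤ sb := by
        have : (sa : ℝ) ≤ (sb : ℝ) := le_trans h1 h2
        exact_mod_cast this
      apply mul_le_mul_of_nonneg_left _ hM
      rw [hu]; split_ifs <;> omega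
  have hp := pieceMin_le (C0 * 10000 - M * u) lam B C (g k) (g (k + 1)) (by omega) hC hgk0 X hk1 hk2
  have hgk1 : g (k + 1) = lo + (hi - lo) * ((k : ℤ) + 1) / n := by simp only [hg]; push_cast; rfl
  have hgk : g k = lo + (hi - lo) * (k : ℤ) / n := rfl
  rw [hgk1, hgk] at hp
  push_cast at hp ⊢
  set PM : ℝ := ((pieceMin (C0 * 10000 - M * u) lam B C (lo + (hi - lo) * ↑k / ↑n)
    (lo + (hi - lo) * (↑k + 1) / ↑n) : ℤ) : ℝ) with hPM
  set piv : ℝ := ((lo + (hi - lo) * pv / n : ℤ) : ℝ) with hpiv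
  have hpivg : piv = (g pv : ℝ) := by rw [hpiv]
  have key : (M : ℝ) * S * (X - piv) ≤ (M : ℝ) * (u : ℝ) * (X - piv) := by
    rcases hS with h | ⟨h1, h2⟩
    · rw [h]; simp
    · have hMr : (0 : ℝ) ≤ (M : ℝ) := by exact_mod_cast hM
      rw [mul_assoc, mul_assoc]
      apply mul_le_mul_of_nonneg_left _ hMr
      by_cases hkp : k < pv
      · have hu' : u = sa := by rw [hu, if_pos hkp]
        rw [hu']
        have : X ≤ piv := by
          rw [hpivg]
          refine le_trans hk2 ?_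
          exact_mod_cast hmono (k + 1) pv hkp
        nlinarith
      · have hu' : u = sb := by rw [hu, if_neg hkp]
        rw [hu']
        have : piv ≤ X := by
          rw [hpivg]
          refine le_trans ?_ hk1
          exact_mod_cast hmono pv k (by omega)
        nlinarith
  have hFF : FF (C0 * 10000 - M * u) lam B C X = FF (C0 * 10000) lam B C X -
      (M : ℝ) * (u : ℝ) * X * 100000000000 := by
    unfold FF; push_cast; ring
  rw [hFF] at hp
  have hpiv2 : (lo : ℝ) + (((hi - lo) * (pv : ℤ) / (n : ℤ) : ℤ) : ℝ) = piv := by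
    rw [hpiv]; push_cast; ring
  have goal : PM + (M : ℝ) * (u : ℝ) * piv * 100000000000 ≤
      FF (C0 * 10000) lam B C X - (M : ℝ) * S * (X - piv) * 100000000000 := by
    nlinarith
  first
    | exact goal
    | (rw [hpiv2]; exact goal)

theorem tail_ok (t lam B C : ℤ) (ht : 0 ≤ t) (hC : 0 ≤ C) :
    ∀ (l : List ℤ) (a : ℤ), tailOk t lam B C a l = true → ∀ Y : ℝ, (a : ℝ) < Y →
      Y ≤ (((a :: l).getLastD 0 : ℤ) : ℝ) → 0 ≤ FF (t * 10000) lam B C Y := by
  intro l
  induction l with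
  | nil =>
    intro a _ Y h1 h2
    simp at h2
    linarith
  | cons b l ih =>
    intro a h Y h1 h2
    rw [tailOk] at h
    simp only [Bool.and_eq_true, decide_eq_true_eq] at h
    obtain ⟨⟨ha, hp⟩, hr⟩ := h
    rcases le_or_gt Y (b : ℝ) with h | h
    · have := pieceMin_le (t * 10000) lam B C a b (by omega) hC ha Y h1.le h
      have h0 : (0 : ℝ) ≤ (pieceMin (t * 10000) lam B C a b : ℝ) := by exact_mod_cast hp
      linarith
    · refine ih b hr Y h ?_
      simpa using h2

/-! ### the mixture -/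

theorem mix_le (P : Prob) (n : ℕ) {σ : Type} [Fintype σ] (x : ℕ → ℝ) (y : σ → ℝ) (s : ℕ → ℝ) (l : ℝ)
    (sb : List (ℤ × ℤ))
    (hf : ∀ f ∈ P.fams, boxLe sb f.sb = true →
        ∑ i ∈ Finset.range n, (f.c.getD i 0 : ℝ) * x i + (f.t : ℝ) * ∑ a, y a -
          ∑ j ∈ Finset.range P.pos.length, (f.m.getD j 0 : ℝ) * s j * x (P.pos.getD j 0) ≤
          100000 * l) :
    ∀ mix : List (ℕ × ℤ), (∀ fw ∈ mix, 0 ≤ fw.2 ∧ fw.1 < P.fams.length ∧
        boxLe sb (P.fams.getD fw.1 ⟨[], 0, [], []⟩).sb = true) →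
      ∑ i ∈ Finset.range n, (mixC P mix i : ℝ) * x i + (mixT P mix : ℝ) * ∑ a, y a -
          ∑ j ∈ Finset.range P.pos.length, (mixM P mix j : ℝ) * s j * x (P.pos.getD j 0) ≤
        (((mix.map fun fw => fw.2).sum : ℤ) : ℝ) * (100000 * l) := by
  intro mix
  induction mix with
  | nil => intro _; simp [mixC, mixT, mixM]
  | cons fw mix ih =>
    intro h
    have ih' := ih (fun g hg => h g (List.mem_cons_of_mem _ hg))
    obtain ⟨h0, h1, h2⟩ := h fw List.mem_cons_self
    set f : Fam := P.fams.getD fw.1 ⟨[], 0, [], []⟩ with hfd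
    have hfm : f ∈ P.fams := by
      rw [hfd, List.getD_eq_getElem _ _ h1]; exact List.getElem_mem _
    have h3 := mul_le_mul_of_nonneg_left (hf f hfm h2) (by exact_mod_cast h0 : (0 : ℝ) ≤ (fw.2 : ℝ))
    have eC : ∀ i, (mixC P (fw :: mix) i : ℝ) = (fw.2 : ℝ) * (f.c.getD i 0 : ℝ) + (mixC P mix i : ℝ) := by
      intro i; simp only [mixC, List.map_cons, List.sum_cons]; push_cast; rw [hfd]
    have eT : (mixT P (fw :: mix) : ℝ) = (fw.2 : ℝ) * (f.t : ℝ) + (mixT P mix : ℝ) := by
      simp only [mixT, List.map_cons, List.sum_cons]; push_cast; rw [hfd]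
    have eM : ∀ i, (mixM P (fw :: mix) i : ℝ) = (fw.2 : ℝ) * (f.m.getD i 0 : ℝ) + (mixM P mix i : ℝ) := by
      intro i; simp only [mixM, List.map_cons, List.sum_cons]; push_cast; rw [hfd]
    have eS : (((fw :: mix).map fun fw => fw.2).sum : ℤ) = fw.2 + (mix.map fun fw => fw.2).sum := by
      simp
    simp only [eC, eT, eM]
    rw [eS]
    push_cast
    have s1 : ∑ i ∈ Finset.range n, ((fw.2 : ℝ) * (f.c.getD i 0 : ℝ) + (mixC P mix i : ℝ)) * x i =
        (fw.2 : ℝ) * ∑ i ∈ Finset.range n, (f.c.getD i 0 : ℝ) * x i +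
          ∑ i ∈ Finset.range n, (mixC P mix i : ℝ) * x i := by
      rw [Finset.mul_sum, ← Finset.sum_add_distrib]
      exact Finset.sum_congr rfl fun i _ => by ring
    have s2 : ∑ j ∈ Finset.range P.pos.length,
          ((fw.2 : ℝ) * (f.m.getD j 0 : ℝ) + (mixM P mix j : ℝ)) * s j * x (P.pos.getD j 0) =
        (fw.2 : ℝ) * ∑ j ∈ Finset.range P.pos.length, (f.m.getD j 0 : ℝ) * s j * x (P.pos.getD j 0) +
          ∑ j ∈ Finset.range P.pos.length, (mixM P mix j : ℝ) * s j * x (P.pos.getD j 0) := by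
      rw [Finset.mul_sum, ← Finset.sum_add_distrib]
      exact Finset.sum_congr rfl fun i _ => by ring
    rw [s1, s2]
    push_cast at ih'
    nlinarith

theorem boxLe_iff (sb fb : List (ℤ × ℤ)) (h : boxLe sb fb = true) (s : ℕ → ℝ)
    (hs : ∀ j < sb.length, ((sb.getD j (0, 0)).1 : ℝ) ≤ 10000 * s j ∧
      10000 * s j ≤ ((sb.getD j (0, 0)).2 : ℝ)) :
    ∀ j < fb.length, ((fb.getD j (0, 0)).1 : ℝ) ≤ 10000 * s j ∧
      10000 * s j ≤ ((fb.getD j (0, 0)).2 : ℝ) := by
  induction fb generalizing sb s with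
  | nil => intro j hj; simp at hj
  | cons q fb ih =>
    cases sb with
    | nil => simp [boxLe] at h
    | cons p sb =>
      simp only [boxLe, Bool.and_eq_true, decide_eq_true_eq] at h
      obtain ⟨⟨h1, h2⟩, h3⟩ := h
      intro j hj
      cases j with
      | zero =>
        have := hs 0 (by simp)
        simp only [List.getD_cons_zero] at this ⊢
        have h1' : (q.1 : ℝ) ≤ (p.1 : ℝ) := by exact_mod_cast h1
        have h2' : (p.2 : ℝ) ≤ (q.2 : ℝ) := by exact_mod_cast h2
        constructor <;> linarith [this.1, this.2]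
      | succ j =>
        have := ih sb h3 (fun j => s (j + 1)) (by
          intro j hj
          have := hs (j + 1) (by simpa using hj)
          simpa using this) j (by simpa using hj)
        simpa using this

/-! ### the last step -/

theorem final_step (K2 a b p m : ℤ) (ha : 0 ≤ a) (hb : 0 < b) (hm : 0 ≤ m) (hK : K2 ≤ 4 * a * b)
    (Y1 Y2 : ℤ) (hY1 : 0 < Y1) (hp2 : 0 < 1000 * p - m * Y2)
    (hc1 : 1000000000000000000000000 ≤ (1000 * p - m * Y1) * (1000 * p - m * Y1) *
      (1000 * p - m * Y1) * Y1)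
    (hc2 : 1000000000000000000000000 ≤ (1000 * p - m * Y2) * (1000 * p - m * Y2) *
      (1000 * p - m * Y2) * Y2) (l q cc : ℝ)
    (h1 : (Y1 : ℝ) ≤ 1000 * (1 - 3 * q + 2 * cc)) (h2 : 1000 * (1 - 3 * q + 2 * cc) ≤ (Y2 : ℝ))
    (hq : 0 ≤ 1 - 2 * q)
    (hl : ((a * 10000 + b * (p - m) : ℤ) : ℝ) - ((2 * a * 10000 - 3 * b * m : ℤ) : ℝ) * q -
      ((2 * b * m : ℤ) : ℝ) * cc ≤ 100000000 * l) :
    ((K2 : ℝ) / 100000000) ^ 3 * (1 - 2 * q) ^ 3 ≤ l ^ 6 * (1 - 3 * q + 2 * cc) := by
  set Y : ℝ := 1 - 3 * q + 2 * cc with hY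
  set Z : ℝ := 1 - 2 * q with hZ
  have hY1r : (0 : ℝ) < (Y1 : ℝ) := by exact_mod_cast hY1
  have hYp : 0 < Y := by nlinarith
  have har : (0 : ℝ) ≤ (a : ℝ) := by exact_mod_cast ha
  have hbr : (0 : ℝ) < (b : ℝ) := by exact_mod_cast hb
  have hmr : (0 : ℝ) ≤ (m : ℝ) := by exact_mod_cast hm
  have hKr : (K2 : ℝ) ≤ 4 * (a : ℝ) * (b : ℝ) := by exact_mod_cast hK
  have hp2r : (0 : ℝ) < 1000 * (p : ℝ) - (m : ℝ) * (Y2 : ℝ) := by exact_mod_cast hp2
  have hY2r : (0 : ℝ) < (Y2 : ℝ) := by linarith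
  -- the cube root
  set w : ℝ → ℝ := fun t => t ^ (-(1 : ℝ) / 3) with hw
  have hwp : ∀ t : ℝ, 0 < t → 0 < w t := fun t ht => Real.rpow_pos_of_pos ht _
  have hw3 : ∀ t : ℝ, 0 < t → w t ^ 3 * t = 1 := by
    intro t ht
    simp only [hw]
    rw [← Real.rpow_natCast, ← Real.rpow_mul ht.le]
    norm_num
    rw [Real.rpow_neg_one]
    exact inv_mul_cancel₀ ht.ne'
  have hp1r : (0 : ℝ) < 1000 * (p : ℝ) - (m : ℝ) * (Y1 : ℝ) := by nlinarith
  have hc1r : (10 : ℝ) ^ 24 ≤ (1000 * (p : ℝ) - m * (Y1 : ℝ)) ^ 3 * (Y1 : ℝ) := by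
    have : ((1000000000000000000000000 : ℤ) : ℝ) ≤ (((1000 * p - m * Y1) * (1000 * p - m * Y1) *
      (1000 * p - m * Y1) * Y1 : ℤ) : ℝ) := by exact_mod_cast hc1
    push_cast at this
    nlinarith
  have hc2r : (10 : ℝ) ^ 24 ≤ (1000 * (p : ℝ) - m * (Y2 : ℝ)) ^ 3 * (Y2 : ℝ) := by
    have : ((1000000000000000000000000 : ℤ) : ℝ) ≤ (((1000 * p - m * Y2) * (1000 * p - m * Y2) *
      (1000 * p - m * Y2) * Y2 : ℤ) : ℝ) := by exact_mod_cast hc2
    push_cast at this
    nlinarith
  -- between: the logarithm of `(1000 p - m V)^3 V` is concave in `V`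
  have kY3 : (10 : ℝ) ^ 24 ≤ (1000 * (p : ℝ) - m * (1000 * Y)) ^ 3 * (1000 * Y) := by
    rcases eq_or_lt_of_le h1 with h | h
    · rw [← h]; exact hc1r
    rcases eq_or_lt_of_le h2 with h' | h'
    · rw [h']; exact hc2r
    have hd : (0 : ℝ) < (Y2 : ℝ) - (Y1 : ℝ) := by linarith
    set al : ℝ := ((Y2 : ℝ) - 1000 * Y) / ((Y2 : ℝ) - (Y1 : ℝ)) with hal
    set be : ℝ := (1000 * Y - (Y1 : ℝ)) / ((Y2 : ℝ) - (Y1 : ℝ)) with hbe
    have hal0 : 0 ≤ al := div_nonneg (by linarith) hd.le
    have hbe0 : 0 ≤ be := div_nonneg (by linarith) hd.le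
    have hab : al + be = 1 := by
      rw [hal, hbe, ← add_div, div_eq_one_iff_eq hd.ne']; ring
    have hlc := strictConcaveOn_log_Ioi.concaveOn
    have c1 := hlc.2 (x := (Y1 : ℝ)) (y := (Y2 : ℝ)) hY1r hY2r hal0 hbe0 hab
    have c2 := hlc.2 (x := 1000 * (p : ℝ) - m * (Y1 : ℝ)) (y := 1000 * (p : ℝ) - m * (Y2 : ℝ))
      hp1r hp2r hal0 hbe0 hab
    simp only [smul_eq_mul] at c1 c2
    have e1 : al * (Y1 : ℝ) + be * (Y2 : ℝ) = 1000 * Y := by
      rw [hal, hbe]; field_simp; ring
    have e2 : al * (1000 * (p : ℝ) - m * (Y1 : ℝ)) + be * (1000 * (p : ℝ) - m * (Y2 : ℝ)) =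
        1000 * (p : ℝ) - m * (1000 * Y) := by
      rw [← e1]
      have : be = 1 - al := by linarith
      rw [this]; ring
    rw [e1] at c1
    rw [e2] at c2
    have hLp : 0 < 1000 * (p : ℝ) - m * (1000 * Y) := by nlinarith
    have hYp' : 0 < 1000 * Y := by linarith
    have lp : ∀ v : ℝ, Real.log (v ^ 3) = 3 * Real.log v := fun v => by rw [Real.log_pow]; norm_num
    have l1 := Real.log_le_log (by positivity) hc1r
    have l2 := Real.log_le_log (by positivity) hc2r
    rw [Real.log_mul (by positivity) (by positivity), lp] at l1 l2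
    have hfin : Real.log ((10 : ℝ) ^ 24) ≤
        Real.log ((1000 * (p : ℝ) - m * (1000 * Y)) ^ 3 * (1000 * Y)) := by
      rw [Real.log_mul (by positivity) (by positivity), lp]
      generalize Real.log ((10 : ℝ) ^ 24) = K at l1 l2 ⊢
      have m1 := mul_le_mul_of_nonneg_left l1 hal0
      have m2 := mul_le_mul_of_nonneg_left l2 hbe0
      have e3 : al * K + be * K = K := by rw [← add_mul, hab, one_mul]
      nlinarith
    exact (Real.log_le_log_iff (by positivity) (by positivity)).mp hfin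
  have kY : w Y ≤ ((p : ℝ) - m * Y) / 10000 := by
    have e := hw3 Y hYp
    by_contra hcon
    push Not at hcon
    set r : ℝ := ((p : ℝ) - m * Y) / 10000 with hr
    have hr0 : 0 < r := by
      have : r = (1000 * (p : ℝ) - m * (1000 * Y)) / 10000000 := by rw [hr]; ring
      rw [this]
      have : 0 < 1000 * (p : ℝ) - m * (1000 * Y) := by nlinarith
      positivity
    have h3 : r ^ 3 < w Y ^ 3 := pow_lt_pow_left₀ hcon hr0.le (by norm_num)
    have h4 : r ^ 3 * Y < 1 := by
      rw [← e]; exact mul_lt_mul_of_pos_right h3 hYp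
    have h5 : (1000 * (p : ℝ) - m * (1000 * Y)) ^ 3 * (1000 * Y) = r ^ 3 * Y * 10 ^ 24 := by
      rw [hr]; ring
    rw [h5] at kY3
    nlinarith
  have hwY := hwp Y hYp
  have hw3Y := hw3 Y hYp
  -- l ≥ a Z + b w
  have hlin : (a : ℝ) / 10000 * Z + (b : ℝ) / 10000 * w Y ≤ l := by
    push_cast at hl
    have m3 := mul_le_mul_of_nonneg_left kY (by positivity : (0 : ℝ) ≤ (b : ℝ) / 10000)
    have : (a : ℝ) / 10000 * Z + (b : ℝ) / 10000 * (((p : ℝ) - m * Y) / 10000) ≤ l := by
      rw [hZ, hY]; nlinarith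
    linarith
  have h0 : 0 ≤ (a : ℝ) / 10000 * Z + (b : ℝ) / 10000 * w Y := by positivity
  have hsq : (K2 : ℝ) / 100000000 * (Z * w Y) ≤ l ^ 2 := by
    have h5 : ((a : ℝ) / 10000 * Z + (b : ℝ) / 10000 * w Y) ^ 2 ≤ l ^ 2 := by
      apply pow_le_pow_left₀ h0 hlin
    have h6 : 4 * ((a : ℝ) / 10000 * Z) * ((b : ℝ) / 10000 * w Y) ≤
        ((a : ℝ) / 10000 * Z + (b : ℝ) / 10000 * w Y) ^ 2 := by
      nlinarith [sq_nonneg ((a : ℝ) / 10000 * Z - (b : ℝ) / 10000 * w Y)]
    have h7 : (K2 : ℝ) / 100000000 * (Z * w Y) ≤ 4 * ((a : ℝ) / 10000 * Z) * ((b : ℝ) / 10000 * w Y) := by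
      have : 0 ≤ Z * w Y := by positivity
      have := mul_le_mul_of_nonneg_right hKr this
      nlinarith
    linarith
  have hcube : ((K2 : ℝ) / 100000000 * (Z * w Y)) ^ 3 ≤ (l ^ 2) ^ 3 := by
    have := (Odd.strictMono_pow (R := ℝ) (by decide : Odd 3)).monotone hsq
    exact this
  have : ((K2 : ℝ) / 100000000) ^ 3 * Z ^ 3 = ((K2 : ℝ) / 100000000 * (Z * w Y)) ^ 3 * Y := by
    have : ((K2 : ℝ) / 100000000 * (Z * w Y)) ^ 3 * Y =
      ((K2 : ℝ) / 100000000) ^ 3 * Z ^ 3 * (w Y ^ 3 * Y) := by ring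
    rw [this, hw3Y, mul_one]
  rw [this]
  have h8 := mul_le_mul_of_nonneg_right hcube hYp.le
  have h9 : (l ^ 2) ^ 3 = l ^ 6 := by ring
  rw [h9] at h8
  exact h8

/-! ### the leaf -/

/-- facts which do not change when the cell is cut -/
structure Glob (P : Prob) (n : ℕ) {σ : Type} [Fintype σ] (x : ℕ → ℝ) (y : σ → ℝ) (s : ℕ → ℝ)
    (l q cc T : ℝ) : Prop where
  y0 : ∀ a, 0 ≤ y a
  yx : ∀ a, ∀ i < n, y a ≤ x i
  dn : ∀ i < n, ∀ j ∈ P.dn.getD i [], x j ≤ x i
  up : ∀ i < n, ∀ j ∈ P.up.getD i [], x i ≤ x j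
  sS : 10000 * ∑ j ∈ Finset.range P.pos.length, s j ≤ (P.S0 : ℝ)
  hT : T = ∑ i ∈ (Finset.range n).filter (fun i => i ∈ P.gr), x i ^ 2 + ∑ a, y a ^ 2
  h2 : ∑ i ∈ Finset.range n, x i ^ 2 + ∑ a, y a ^ 2 = 1
  h4 : q = ∑ i ∈ Finset.range n, x i ^ 4 + ∑ a, y a ^ 4
  h6 : cc = ∑ i ∈ Finset.range n, x i ^ 6 + ∑ a, y a ^ 6
  hq : 0 ≤ 1 - 2 * q
  fam : ∀ f ∈ P.fams, (∀ j < f.sb.length, ((f.sb.getD j (0, 0)).1 : ℝ) ≤ 10000 * s j ∧
          10000 * s j ≤ ((f.sb.getD j (0, 0)).2 : ℝ)) →
        ∑ i ∈ Finset.range n, (f.c.getD i 0 : ℝ) * x i + (f.t : ℝ) * ∑ a, y a -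
          ∑ j ∈ Finset.range P.pos.length, (f.m.getD j 0 : ℝ) * s j * x (P.pos.getD j 0) ≤
          100000 * l
  posn : ∀ i ∈ P.pos, i < n
  posd : P.pos.Nodup
  fm : ∀ f ∈ P.fams, f.m.length ≤ P.pos.length

/-- the point lies in the cell -/
structure InCell (P : Prob) (n : ℕ) (c : Cell) {σ : Type} (x : ℕ → ℝ) (y : σ → ℝ) (s : ℕ → ℝ)
    (q cc T : ℝ) : Prop where
  nlo : c.lo.length = n
  nhi : c.hi.length = n
  nsb : c.sb.length = P.pos.length
  lo0 : ∀ h ∈ c.lo, 0 ≤ h
  Y10 : 0 < c.Y1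
  box : ∀ i < n, (c.lo.getD i 0 : ℝ) ≤ 1000 * x i ∧ 1000 * x i ≤ (c.hi.getD i 0 : ℝ)
  sbox : ∀ j < c.sb.length, ((c.sb.getD j (0, 0)).1 : ℝ) ≤ 10000 * s j ∧
        10000 * s j ≤ ((c.sb.getD j (0, 0)).2 : ℝ)
  hT1 : (c.T1 : ℝ) ≤ 1000000 * T
  hT2 : 1000000 * T ≤ (c.T2 : ℝ)
  hY1 : (c.Y1 : ℝ) ≤ 1000 * (1 - 3 * q + 2 * cc)
  hY2 : 1000 * (1 - 3 * q + 2 * cc) ≤ (c.Y2 : ℝ)
  hH : ∀ a, 1000 * y a ≤ (c.H : ℝ)

theorem FF_scale (t lam B C : ℤ) (x : ℝ) : FF (t * 10000) lam B C (1000 * x) =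
    10 ^ 18 * ((t : ℝ) * x - (lam : ℝ) * x ^ 2 + (B : ℝ) * x ^ 4 + (C : ℝ) * x ^ 6) := by
  unfold FF; push_cast; ring

theorem mixM_zero (P : Prob) (j : ℕ) (hj : P.pos.length ≤ j)
    (hf : ∀ f ∈ P.fams, f.m.length ≤ P.pos.length) :
    ∀ mix : List (ℕ × ℤ), (∀ fw ∈ mix, fw.1 < P.fams.length) → mixM P mix j = 0 := by
  intro mix
  induction mix with
  | nil => intro _; simp [mixM]
  | cons fw mix ih =>
    intro h
    have h1 := h fw List.mem_cons_self
    have hfm : P.fams.getD fw.1 ⟨[], 0, [], []⟩ ∈ P.fams := by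
      rw [List.getD_eq_getElem _ _ h1]; exact List.getElem_mem _
    have h2 := hf _ hfm
    have h3 : (P.fams.getD fw.1 ⟨[], 0, [], []⟩).m.getD j 0 = 0 := by
      rw [List.getD_eq_default]; omega
    have := ih (fun g hg => h g (List.mem_cons_of_mem _ hg))
    unfold mixM at this ⊢
    simp only [List.map_cons, List.sum_cons, this, h3]
    ring

theorem angOf_lt (P : Prob) (i : ℕ) (h : i ∈ P.pos) : angOf P i < P.pos.length ∧
    P.pos.getD (angOf P i) 0 = i := by
  unfold angOf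
  have h1 : P.pos.findIdx (· == i) < P.pos.length := by
    rw [List.findIdx_lt_length]
    exact ⟨i, h, by simp⟩
  refine ⟨h1, ?_⟩
  rw [List.getD_eq_getElem _ _ h1]
  have := List.findIdx_getElem (xs := P.pos) (p := (· == i)) (w := h1)
  simpa using this

theorem angOf_eq (P : Prob) (hd : P.pos.Nodup) (j : ℕ) (hj : j < P.pos.length) :
    angOf P (P.pos.getD j 0) = j := by
  have hm : P.pos.getD j 0 ∈ P.pos := by
    rw [List.getD_eq_getElem _ _ hj]; exact List.getElem_mem _
  have hv : P.pos[j] = P.pos.getD j 0 := (List.getD_eq_getElem _ _ hj).symm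
  generalize P.pos.getD j 0 = v at hm hv
  obtain ⟨h1, h2⟩ := angOf_lt P v hm
  rw [List.getD_eq_getElem _ _ h1] at h2
  exact (List.Nodup.getElem_inj_iff hd).mp (h2.trans hv.symm)

theorem angOf_not (P : Prob) (i : ℕ) (h : i ∉ P.pos) : angOf P i = P.pos.length := by
  unfold angOf
  rw [List.findIdx_eq_length]
  intro x hx
  simp only [beq_eq_false_iff_ne]
  rintro rfl
  exact h hx

theorem list_map_range_sum (n : ℕ) (f : ℕ → ℤ) :
    (((List.range n).map f).sum : ℤ) = ∑ i ∈ Finset.range n, f i := by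
  induction n with
  | zero => simp
  | succ n ih => rw [List.range_succ, List.map_append, List.sum_append, ih, Finset.sum_range_succ]; simp

theorem leaf_sound (P : Prob) (n : ℕ) (c : Cell) (L : Leaf) {σ : Type} [Fintype σ] (x : ℕ → ℝ)
    (y : σ → ℝ) (s : ℕ → ℝ) (l q cc T : ℝ) (G : Glob P n x y s l q cc T)
    (I : InCell P n c x y s q cc T) (h : leafOk P c L = true) :
    ((P.K2 : ℝ) / 100000000) ^ 3 * (1 - 2 * q) ^ 3 ≤ l ^ 6 * (1 - 3 * q + 2 * cc) := by
  unfold leafOk at h
  simp only [Bool.and_eq_true, decide_eq_true_eq, List.all_eq_true, List.mem_range] at h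
  obtain ⟨⟨⟨⟨⟨⟨⟨⟨⟨⟨⟨⟨⟨⟨⟨hmix, hsum⟩, ha⟩, hb⟩, hm⟩, hnu⟩, hK⟩, hp2⟩, hc1⟩, hc2⟩, ht⟩, htb⟩, hlin⟩, hM⟩, hnp⟩, hmain⟩ := h
  set A : ℤ := L.a * 10000 + L.b * (L.p - L.m) with hA
  set B : ℤ := 2 * L.a * 10000 - 3 * L.b * L.m with hBd
  set C : ℤ := 2 * L.b * L.m with hCd
  set t : ℤ := mixT P L.mix with htd
  have hC : 0 ≤ C := by rw [hCd]; positivity
  have hfw : ∀ fw ∈ L.mix, 0 ≤ fw.2 ∧ fw.1 < P.fams.length ∧
      boxLe c.sb (P.fams.getD fw.1 ⟨[], 0, [], []⟩).sb = true := by
    intro fw hfw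
    obtain ⟨⟨h1, h2⟩, h3⟩ := hmix fw hfw
    exact ⟨h1, h2, h3⟩
  have hM' : ∀ j, 0 ≤ mixM P L.mix j := by
    intro j
    rcases lt_or_ge j P.pos.length with hj | hj
    · exact hM j hj
    · rw [mixM_zero P j hj G.fm L.mix (fun fw h => (hfw fw h).2.1)]
  have hM0 : ∀ i, i ∉ P.pos → mixM P L.mix (angOf P i) = 0 := by
    intro i hi
    rw [angOf_not P i hi]
    exact mixM_zero P _ le_rfl G.fm L.mix (fun fw h => (hfw fw h).2.1)
  rw [I.nlo] at hmain hlin hnp
  -- the integer quantities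
  set piv : ℕ → ℤ := fun i => c.lo.getD i 0 + (c.hi.getD i 0 - c.lo.getD i 0) *
    ((L.np.getD i (1, 0)).2 : ℤ) / ((L.np.getD i (1, 0)).1 : ℤ) with hpiv
  set lm : ℕ → ℤ := fun i => if P.gr.contains i then L.lamT else L.lam with hlm
  set cm : ℕ → ℤ := fun i => coordMin (mixC P L.mix i) (lm i) B C (c.lo.getD i 0) (c.hi.getD i 0)
    (L.np.getD i (1, 0)).1 (L.np.getD i (1, 0)).2 (mixM P L.mix (angOf P i))
    (c.sb.getD (angOf P i) (0, 0)).1 (c.sb.getD (angOf P i) (0, 0)).2 (L.np.getD i (1, 0)).1 0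
    10000000000000000000000000000000000000000 with hcm
  set mx : ℕ → ℤ := fun j => max ((mixM P L.mix j * piv (P.pos.getD j 0) - L.nu) * (c.sb.getD j (0, 0)).1)
    ((mixM P L.mix j * piv (P.pos.getD j 0) - L.nu) * (c.sb.getD j (0, 0)).2) with hmx
  set Ts : ℤ := if L.lam ≤ L.lamT then c.T1 else c.T2 with hTs
  have hmain' : (0 : ℤ) ≤ ∑ i ∈ Finset.range n, cm i + L.lam * 1000000000000000000 +
      (L.lamT - L.lam) * Ts * 1000000000000 - A * 1000000000000000000 -
      (L.nu * P.S0 + ∑ j ∈ Finset.range P.pos.length, mx j) * 100000000000 := by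
    rw [← list_map_range_sum, ← list_map_range_sum]
    exact hmain
  have hmainR : (0 : ℝ) ≤ ∑ i ∈ Finset.range n, (cm i : ℝ) + (L.lam : ℝ) * 10 ^ 18 +
      ((L.lamT : ℝ) - L.lam) * Ts * 10 ^ 12 - (A : ℝ) * 10 ^ 18 -
      ((L.nu : ℝ) * P.S0 + ∑ j ∈ Finset.range P.pos.length, (mx j : ℝ)) * 10 ^ 11 := by
    rw [← Int.cast_sum, ← Int.cast_sum]
    clear_value A Ts
    generalize (∑ i ∈ Finset.range n, cm i) = SC at hmain' ⊢
    generalize (∑ j ∈ Finset.range P.pos.length, mx j) = SX at hmain' ⊢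
    have : ((0 : ℤ) : ℝ) ≤ ((SC + L.lam * 1000000000000000000 +
      (L.lamT - L.lam) * Ts * 1000000000000 - A * 1000000000000000000 -
      (L.nu * P.S0 + SX) * 100000000000 : ℤ) : ℝ) := by
      exact_mod_cast hmain'
    push_cast at this
    linarith
  -- coordinates
  have hcoord : ∀ i < n, (cm i : ℝ) ≤ FF (mixC P L.mix i * 10000) (lm i) B C (1000 * x i) -
      (mixM P L.mix (angOf P i) : ℝ) * (10000 * s (angOf P i)) * (1000 * x i - (piv i : ℝ)) *
        100000000000 := by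
    intro i hi
    have hnp' : 0 < (L.np.getD i (1, 0)).1 := by
      have h0 := hnp i hi
      rcases lt_or_ge i L.np.length with h | h
      · rw [List.getD_eq_getElem _ _ h] at h0 ⊢; exact h0
      · rw [List.getD_eq_default _ _ h] at h0; simp at h0
    have hlo0 : 0 ≤ c.lo.getD i 0 := by
      have : i < c.lo.length := by rw [I.nlo]; exact hi
      rw [List.getD_eq_getElem _ _ this]
      exact I.lo0 _ (List.getElem_mem _)
    have hSS : mixM P L.mix (angOf P i) = 0 ∨
        (((c.sb.getD (angOf P i) (0, 0)).1 : ℝ) ≤ 10000 * s (angOf P i) ∧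
        10000 * s (angOf P i) ≤ ((c.sb.getD (angOf P i) (0, 0)).2 : ℝ)) := by
      by_cases hip : i ∈ P.pos
      · right
        apply I.sbox
        rw [I.nsb]
        exact (angOf_lt P i hip).1
      · left; exact hM0 i hip
    have := coordMin_le (mixC P L.mix i) (lm i) B C (c.lo.getD i 0) (c.hi.getD i 0)
      (L.np.getD i (1, 0)).1 (L.np.getD i (1, 0)).2 (mixM P L.mix (angOf P i))
      (c.sb.getD (angOf P i) (0, 0)).1 (c.sb.getD (angOf P i) (0, 0)).2
      10000000000000000000000000000000000000000 hnp' hC hlo0 (hM' _) (hlin i hi)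
      (1000 * x i) (10000 * s (angOf P i)) (I.box i hi).1 (I.box i hi).2 hSS
    exact this
  have hsumc : ∑ i ∈ Finset.range n, (cm i : ℝ) ≤
      ∑ i ∈ Finset.range n, FF (mixC P L.mix i * 10000) (lm i) B C (1000 * x i) -
      (∑ i ∈ Finset.range n, (mixM P L.mix (angOf P i) : ℝ) * (10000 * s (angOf P i)) *
        (1000 * x i - (piv i : ℝ))) * 100000000000 := by
    rw [Finset.sum_mul, ← Finset.sum_sub_distrib]
    exact Finset.sum_le_sum fun i hi => hcoord i (Finset.mem_range.mp hi)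
  have hreidx : ∑ j ∈ Finset.range P.pos.length, (mixM P L.mix j : ℝ) * (10000 * s j) *
        (1000 * x (P.pos.getD j 0) - (piv (P.pos.getD j 0) : ℝ)) =
      ∑ i ∈ Finset.range n, (mixM P L.mix (angOf P i) : ℝ) * (10000 * s (angOf P i)) *
        (1000 * x i - (piv i : ℝ)) := by
    apply Finset.sum_of_injOn (fun j => P.pos.getD j 0)
    · intro j hj k hk hjk
      simp only [Finset.coe_range, Set.mem_Iio] at hj hk
      simp only at hjk
      rw [← angOf_eq P G.posd j hj, ← angOf_eq P G.posd k hk, hjk]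
    · intro j hj
      simp only [Finset.coe_range, Set.mem_Iio] at hj ⊢
      apply G.posn
      rw [List.getD_eq_getElem _ _ hj]; exact List.getElem_mem _
    · intro i hi hni
      have : i ∉ P.pos := by
        intro hip
        apply hni
        obtain ⟨h1, h2⟩ := angOf_lt P i hip
        exact ⟨angOf P i, by simpa using h1, h2⟩
      rw [hM0 i this]; simp
    · intro j hj
      have hj' : j < P.pos.length := by simpa using hj
      rw [angOf_eq P G.posd j hj']
  -- the angles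
  have hang : ∑ j ∈ Finset.range P.pos.length, (mixM P L.mix j : ℝ) * (10000 * s j) *
      (piv (P.pos.getD j 0) : ℝ) ≤ (L.nu : ℝ) * P.S0 +
        ∑ j ∈ Finset.range P.pos.length, (mx j : ℝ) := by
    have hnuR : (0 : ℝ) ≤ (L.nu : ℝ) := by exact_mod_cast hnu
    have h1 : ∀ j ∈ Finset.range P.pos.length, (mixM P L.mix j : ℝ) * (10000 * s j) *
        (piv (P.pos.getD j 0) : ℝ) ≤ (mx j : ℝ) + (L.nu : ℝ) * (10000 * s j) := by
      intro j hj
      have hj' : j < c.sb.length := by rw [I.nsb]; simpa using hj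
      obtain ⟨b1, b2⟩ := I.sbox j hj'
      have hmxr : (mx j : ℝ) = max (((mixM P L.mix j : ℝ) * (piv (P.pos.getD j 0) : ℝ) - L.nu) *
          ((c.sb.getD j (0, 0)).1 : ℝ)) (((mixM P L.mix j : ℝ) * (piv (P.pos.getD j 0) : ℝ) - L.nu) *
          ((c.sb.getD j (0, 0)).2 : ℝ)) := by
        simp only [hmx]
        rw [Int.cast_max, Int.cast_mul, Int.cast_mul, Int.cast_sub, Int.cast_mul]
      rw [hmxr]
      set e : ℝ := (mixM P L.mix j : ℝ) * (piv (P.pos.getD j 0) : ℝ) - L.nu with he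
      have : e * (10000 * s j) ≤ max (e * ((c.sb.getD j (0, 0)).1 : ℝ))
          (e * ((c.sb.getD j (0, 0)).2 : ℝ)) := by
        rcases le_or_gt 0 e with h0 | h0
        · exact le_trans (mul_le_mul_of_nonneg_left b2 h0) (le_max_right _ _)
        · exact le_trans (mul_le_mul_of_nonpos_left b1 h0.le) (le_max_left _ _)
      have e2 : (mixM P L.mix j : ℝ) * (10000 * s j) * (piv (P.pos.getD j 0) : ℝ) =
        e * (10000 * s j) + (L.nu : ℝ) * (10000 * s j) := by rw [he]; ring
      rw [e2]; linarith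
    refine le_trans (Finset.sum_le_sum h1) ?_
    rw [Finset.sum_add_distrib]
    have : ∑ j ∈ Finset.range P.pos.length, (L.nu : ℝ) * (10000 * s j) =
        (L.nu : ℝ) * (10000 * ∑ j ∈ Finset.range P.pos.length, s j) := by
      rw [Finset.mul_sum, Finset.mul_sum]
    rw [this]
    have := mul_le_mul_of_nonneg_left G.sS hnuR
    linarith
  -- the tails
  have htail : ∀ a, 0 ≤ FF (t * 10000) L.lamT B C (1000 * y a) := by
    intro a
    cases htbd : L.tb with
    | nil => rw [htbd] at htb; simp at htb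
    | cons b0 lst =>
      rw [htbd] at htb
      simp only [Bool.and_eq_true, decide_eq_true_eq] at htb
      obtain ⟨⟨⟨t0, t1'⟩, t2⟩, t3⟩ := htb
      rcases le_or_gt (1000 * y a) (b0 : ℝ) with hle | hgt
      · -- small values
        have hy := G.y0 a
        rw [FF_scale]
        have hCr : (0 : ℝ) ≤ (C : ℝ) := by exact_mod_cast hC
        have t0r : (0 : ℝ) ≤ (b0 : ℝ) := by exact_mod_cast t0
        have htr : (0 : ℝ) ≤ (t : ℝ) := by exact_mod_cast ht
        have h4 : 0 ≤ (t : ℝ) - (L.lamT : ℝ) * y a + (B : ℝ) * y a ^ 3 := by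
          rw [Bool.or_eq_true, decide_eq_true_eq, decide_eq_true_eq] at t1'
          rcases t1' with t1 | t1
          · have t1r : (0 : ℝ) ≤ (t : ℝ) * 1000000000 - max (L.lamT : ℝ) 0 * (b0 : ℝ) * 1000000 +
                min (B : ℝ) 0 * ((b0 : ℝ) * b0 * b0) := by
              clear_value t B
              exact_mod_cast t1
            have h1 : (L.lamT : ℝ) * y a ≤ max (L.lamT : ℝ) 0 * ((b0 : ℝ) / 1000) := by
              have g1 : (L.lamT : ℝ) * y a ≤ max (L.lamT : ℝ) 0 * y a :=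
                mul_le_mul_of_nonneg_right (le_max_left _ _) hy
              have g2 : max (L.lamT : ℝ) 0 * y a ≤ max (L.lamT : ℝ) 0 * ((b0 : ℝ) / 1000) :=
                mul_le_mul_of_nonneg_left (by linarith) (le_max_right _ _)
              exact le_trans g1 g2
            have h3 : min (B : ℝ) 0 * ((b0 : ℝ) / 1000) ^ 3 ≤ (B : ℝ) * y a ^ 3 := by
              have g1 : min (B : ℝ) 0 * y a ^ 3 ≤ (B : ℝ) * y a ^ 3 :=
                mul_le_mul_of_nonneg_right (min_le_left _ _) (by positivity)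
              have g3 : y a ^ 3 ≤ ((b0 : ℝ) / 1000) ^ 3 := pow_le_pow_left₀ hy (by linarith) 3
              have g2 : min (B : ℝ) 0 * ((b0 : ℝ) / 1000) ^ 3 ≤ min (B : ℝ) 0 * y a ^ 3 :=
                mul_le_mul_of_nonpos_left g3 (min_le_right _ _)
              exact le_trans g2 g1
            have : ((b0 : ℝ) / 1000) ^ 3 = (b0 : ℝ) * b0 * b0 / 1000000000 := by ring
            rw [this] at h3
            linarith
          · have t1r : (0 : ℝ) ≤ -(L.lamT : ℝ) * 1000000 + min (B : ℝ) 0 * ((b0 : ℝ) * b0) := by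
              clear_value B
              exact_mod_cast t1
            have h3 : min (B : ℝ) 0 * ((b0 : ℝ) / 1000) ^ 2 ≤ (B : ℝ) * y a ^ 2 := by
              have g1 : min (B : ℝ) 0 * y a ^ 2 ≤ (B : ℝ) * y a ^ 2 :=
                mul_le_mul_of_nonneg_right (min_le_left _ _) (by positivity)
              have g3 : y a ^ 2 ≤ ((b0 : ℝ) / 1000) ^ 2 := pow_le_pow_left₀ hy (by linarith) 2
              have g2 : min (B : ℝ) 0 * ((b0 : ℝ) / 1000) ^ 2 ≤ min (B : ℝ) 0 * y a ^ 2 :=
                mul_le_mul_of_nonpos_left g3 (min_le_right _ _)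
              exact le_trans g2 g1
            have : ((b0 : ℝ) / 1000) ^ 2 = (b0 : ℝ) * b0 / 1000000 := by ring
            rw [this] at h3
            have h6 : 0 ≤ -(L.lamT : ℝ) + (B : ℝ) * y a ^ 2 := by linarith
            have h7 := mul_nonneg hy h6
            have h8 : y a * (-(L.lamT : ℝ) + (B : ℝ) * y a ^ 2) =
              - (L.lamT : ℝ) * y a + (B : ℝ) * y a ^ 3 := by ring
            linarith
        have h5 : 0 ≤ y a * ((t : ℝ) - (L.lamT : ℝ) * y a + (B : ℝ) * y a ^ 3) := mul_nonneg hy h4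
        have h6 : 0 ≤ (C : ℝ) * y a ^ 6 := by positivity
        have : 0 ≤ (t : ℝ) * y a - (L.lamT : ℝ) * y a ^ 2 + (B : ℝ) * y a ^ 4 + (C : ℝ) * y a ^ 6 := by
          have : y a * ((t : ℝ) - (L.lamT : ℝ) * y a + (B : ℝ) * y a ^ 3) =
            (t : ℝ) * y a - (L.lamT : ℝ) * y a ^ 2 + (B : ℝ) * y a ^ 4 := by ring
          linarith
        positivity
      · apply tail_ok t L.lamT B C ht hC lst b0 t2 (1000 * y a) hgt
        refine le_trans ?_ (by exact_mod_cast t3 : ((c.hi.foldr min c.H : ℤ) : ℝ) ≤ _)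
        have hy1 := I.hH a
        have hyx : ∀ h ∈ c.hi, 1000 * y a ≤ (h : ℝ) := by
          intro h hh
          obtain ⟨i, hi, hhi⟩ := List.getElem_of_mem hh
          have hin : i < n := by rw [← I.nhi]; exact hi
          have h1 := G.yx a i hin
          have h2 := (I.box i hin).2
          rw [List.getD_eq_getElem _ _ hi, hhi] at h2
          linarith
        clear t3
        revert hyx
        generalize c.hi = hl
        intro hyx
        induction hl with
        | nil => simp; linarith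
        | cons h hl ih =>
          simp only [List.foldr_cons]
          rw [Int.cast_min]
          apply le_min
          · exact hyx h List.mem_cons_self
          · exact ih (fun h' hh' => hyx h' (List.mem_cons_of_mem _ hh'))
  have htailsum : 0 ≤ (t : ℝ) * ∑ a, y a - (L.lamT : ℝ) * ∑ a, y a ^ 2 + (B : ℝ) * ∑ a, y a ^ 4 +
      (C : ℝ) * ∑ a, y a ^ 6 := by
    have h1 : 0 ≤ ∑ a, FF (t * 10000) L.lamT B C (1000 * y a) :=
      Finset.sum_nonneg fun a _ => htail a
    have h2 : ∑ a, FF (t * 10000) L.lamT B C (1000 * y a) = 10 ^ 18 *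
        ((t : ℝ) * ∑ a, y a - (L.lamT : ℝ) * ∑ a, y a ^ 2 + (B : ℝ) * ∑ a, y a ^ 4 +
          (C : ℝ) * ∑ a, y a ^ 6) := by
      simp only [FF_scale, Finset.mul_sum, ← Finset.sum_add_distrib, ← Finset.sum_sub_distrib]
    rw [h2] at h1
    nlinarith
  -- T
  have hTT : ((L.lamT : ℝ) - L.lam) * Ts ≤ ((L.lamT : ℝ) - L.lam) * (1000000 * T) := by
    by_cases hlt : L.lam ≤ L.lamT
    · have : Ts = c.T1 := by rw [hTs, if_pos hlt]
      rw [this]
      have h0 : (0 : ℝ) ≤ (L.lamT : ℝ) - L.lam := by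
        have : (L.lam : ℝ) ≤ (L.lamT : ℝ) := by exact_mod_cast hlt
        linarith
      exact mul_le_mul_of_nonneg_left I.hT1 h0
    · have : Ts = c.T2 := by rw [hTs, if_neg hlt]
      rw [this]
      have h0 : (L.lamT : ℝ) - L.lam ≤ 0 := by
        have : (L.lamT : ℝ) < (L.lam : ℝ) := by exact_mod_cast (not_le.mp hlt)
        linarith
      exact mul_le_mul_of_nonpos_left I.hT2 h0
  -- the mixture
  have hmixl := mix_le P n x y s l c.sb (fun f hf hb => G.fam f hf (boxLe_iff c.sb f.sb hb s I.sbox))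
    L.mix hfw
  rw [hsum] at hmixl
  -- assemble
  have hlmsum : ∑ i ∈ Finset.range n, (lm i : ℝ) * x i ^ 2 =
      (L.lam : ℝ) * ∑ i ∈ Finset.range n, x i ^ 2 +
      ((L.lamT : ℝ) - L.lam) * ∑ i ∈ (Finset.range n).filter (fun i => i ∈ P.gr), x i ^ 2 := by
    rw [Finset.sum_filter, Finset.mul_sum, Finset.mul_sum, ← Finset.sum_add_distrib]
    refine Finset.sum_congr rfl fun i _ => ?_
    simp only [hlm, List.contains_iff_mem]
    by_cases hi : i ∈ P.gr
    · rw [if_pos hi, if_pos hi]; ring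
    · rw [if_neg hi, if_neg hi]; ring
  have hFFsum : ∑ i ∈ Finset.range n, FF (mixC P L.mix i * 10000) (lm i) B C (1000 * x i) = 10 ^ 18 *
      (∑ i ∈ Finset.range n, (mixC P L.mix i : ℝ) * x i - ∑ i ∈ Finset.range n, (lm i : ℝ) * x i ^ 2 +
        (B : ℝ) * ∑ i ∈ Finset.range n, x i ^ 4 + (C : ℝ) * ∑ i ∈ Finset.range n, x i ^ 6) := by
    simp only [FF_scale, Finset.mul_sum, ← Finset.sum_add_distrib, ← Finset.sum_sub_distrib]
  rw [hlmsum] at hFFsum
  have hMs : ∑ j ∈ Finset.range P.pos.length, (mixM P L.mix j : ℝ) * (10000 * s j) *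
        (1000 * x (P.pos.getD j 0) - (piv (P.pos.getD j 0) : ℝ)) =
      10 ^ 7 * ∑ j ∈ Finset.range P.pos.length, (mixM P L.mix j : ℝ) * s j * x (P.pos.getD j 0) -
      ∑ j ∈ Finset.range P.pos.length, (mixM P L.mix j : ℝ) * (10000 * s j) *
        (piv (P.pos.getD j 0) : ℝ) := by
    rw [Finset.mul_sum, ← Finset.sum_sub_distrib]
    exact Finset.sum_congr rfl fun j _ => by ring
  rw [← hreidx, hMs, hFFsum] at hsumc
  have hlinear : (A : ℝ) - (B : ℝ) * q - (C : ℝ) * cc ≤ 100000000 * l := by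
    rw [G.h4, G.h6]
    have g2 := G.h2
    have g3 : (L.lam : ℝ) * ∑ i ∈ Finset.range n, x i ^ 2 + (L.lam : ℝ) * ∑ a, y a ^ 2 =
        (L.lam : ℝ) := by
      rw [← mul_add, g2, mul_one]
    push_cast at hmixl
    rw [← htd] at hmixl
    rw [G.hT] at hTT
    generalize ∑ i ∈ (Finset.range n).filter (fun i => i ∈ P.gr), x i ^ 2 = XG at hsumc hTT
    generalize ∑ i ∈ Finset.range n, x i ^ 2 = X2 at hsumc g3
    generalize ∑ a, y a ^ 2 = Y2 at htailsum hTT g3
    generalize ∑ i ∈ Finset.range n, x i ^ 4 = X4 at hsumc ⊢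
    generalize ∑ i ∈ Finset.range n, x i ^ 6 = X6 at hsumc ⊢
    generalize ∑ a, y a ^ 4 = Y4 at htailsum ⊢
    generalize ∑ a, y a ^ 6 = Y6 at htailsum ⊢
    generalize ∑ a, y a = Y1 at htailsum hmixl
    generalize ∑ i ∈ Finset.range n, (mixC P L.mix i : ℝ) * x i = S1 at hsumc hmixl
    generalize ∑ j ∈ Finset.range P.pos.length, (mixM P L.mix j : ℝ) * s j * x (P.pos.getD j 0) = SM
      at hsumc hmixl
    generalize ∑ j ∈ Finset.range P.pos.length, (mixM P L.mix j : ℝ) * (10000 * s j) *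
        (piv (P.pos.getD j 0) : ℝ) = PS at hsumc hang
    generalize ∑ j ∈ Finset.range P.pos.length, (mx j : ℝ) = MX at hmainR hang
    generalize ∑ i ∈ Finset.range n, (cm i : ℝ) = CM at hsumc hmainR
    linarith
  exact final_step P.K2 L.a L.b L.p L.m ha hb hm hK c.Y1 c.Y2 I.Y10 hp2 hc1 hc2 l q cc I.hY1 I.hY2
    G.hq hlinear

/-! ### the tree -/

theorem updHi_length (js : List ℕ) (v : ℤ) : ∀ (L : List ℤ) (i0 : ℕ),
    (updHi js v i0 L).length = L.length := by
  intro L
  induction L with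
  | nil => intro i0; rfl
  | cons h L ih => intro i0; simp only [updHi, List.length_cons, ih]

theorem updLo_length (js : List ℕ) (v : ℤ) : ∀ (L : List ℤ) (i0 : ℕ),
    (updLo js v i0 L).length = L.length := by
  intro L
  induction L with
  | nil => intro i0; rfl
  | cons h L ih => intro i0; simp only [updLo, List.length_cons, ih]

theorem updHi_getD (js : List ℕ) (v : ℤ) : ∀ (L : List ℤ) (i0 i : ℕ), i < L.length →
    (updHi js v i0 L).getD i 0 =
      if js.contains (i0 + i) then min (L.getD i 0) v else L.getD i 0 := by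
  intro L
  induction L with
  | nil => intro i0 i hi; simp at hi
  | cons h L ih =>
    intro i0 i hi
    cases i with
    | zero => simp only [updHi, List.getD_cons_zero, Nat.add_zero]
    | succ i =>
      simp only [updHi, List.getD_cons_succ]
      rw [ih (i0 + 1) i (by simpa using hi)]
      have : i0 + 1 + i = i0 + (i + 1) := by omega
      rw [this]

theorem updLo_getD (js : List ℕ) (v : ℤ) : ∀ (L : List ℤ) (i0 i : ℕ), i < L.length →
    (updLo js v i0 L).getD i 0 =
      if js.contains (i0 + i) then max (L.getD i 0) v else L.getD i 0 := by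
  intro L
  induction L with
  | nil => intro i0 i hi; simp at hi
  | cons h L ih =>
    intro i0 i hi
    cases i with
    | zero => simp only [updLo, List.getD_cons_zero, Nat.add_zero]
    | succ i =>
      simp only [updLo, List.getD_cons_succ]
      rw [ih (i0 + 1) i (by simpa using hi)]
      have : i0 + 1 + i = i0 + (i + 1) := by omega
      rw [this]

theorem updLo_nonneg (js : List ℕ) (v : ℤ) : ∀ (L : List ℤ) (i0 : ℕ), (∀ h ∈ L, 0 ≤ h) →
    ∀ h ∈ updLo js v i0 L, 0 ≤ h := by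
  intro L
  induction L with
  | nil => intro i0 _ h hh; simp [updLo] at hh
  | cons a L ih =>
    intro i0 hL h hh
    simp only [updLo, List.mem_cons] at hh
    rcases hh with hh | hh
    · have ha := hL a List.mem_cons_self
      rw [hh]
      split_ifs
      · exact le_trans ha (le_max_left _ _)
      · exact ha
    · exact ih (i0 + 1) (fun h' hh' => hL h' (List.mem_cons_of_mem _ hh')) h hh

theorem updSHi_length (v : ℤ) : ∀ (L : List (ℤ × ℤ)) (j : ℕ), (updSHi v j L).length = L.length := by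
  intro L
  induction L with
  | nil => intro j; simp [updSHi]
  | cons h L ih =>
    intro j
    cases j with
    | zero => simp [updSHi]
    | succ j => simp [updSHi, ih]

theorem updSLo_length (v : ℤ) : ∀ (L : List (ℤ × ℤ)) (j : ℕ), (updSLo v j L).length = L.length := by
  intro L
  induction L with
  | nil => intro j; simp [updSLo]
  | cons h L ih =>
    intro j
    cases j with
    | zero => simp [updSLo]
    | succ j => simp [updSLo, ih]

theorem updSHi_getD (v : ℤ) : ∀ (L : List (ℤ × ℤ)) (j i : ℕ), i < L.length →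
    (updSHi v j L).getD i (0, 0) = if i = j then ((L.getD i (0, 0)).1, min (L.getD i (0, 0)).2 v)
      else L.getD i (0, 0) := by
  intro L
  induction L with
  | nil => intro j i hi; simp at hi
  | cons h L ih =>
    intro j i hi
    cases j with
    | zero =>
      cases i with
      | zero => simp [updSHi]
      | succ i => simp [updSHi]
    | succ j =>
      cases i with
      | zero => simp [updSHi]
      | succ i =>
        simp only [updSHi, List.getD_cons_succ, ih j i (by simpa using hi), Nat.add_right_cancel_iff]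

theorem updSLo_getD (v : ℤ) : ∀ (L : List (ℤ × ℤ)) (j i : ℕ), i < L.length →
    (updSLo v j L).getD i (0, 0) = if i = j then (max (L.getD i (0, 0)).1 v, (L.getD i (0, 0)).2)
      else L.getD i (0, 0) := by
  intro L
  induction L with
  | nil => intro j i hi; simp at hi
  | cons h L ih =>
    intro j i hi
    cases j with
    | zero =>
      cases i with
      | zero => simp [updSLo]
      | succ i => simp [updSLo]
    | succ j =>
      cases i with
      | zero => simp [updSLo]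
      | succ i =>
        simp only [updSLo, List.getD_cons_succ, ih j i (by simpa using hi), Nat.add_right_cancel_iff]

theorem check_sound (P : Prob) (n : ℕ) {σ : Type} [Fintype σ] (x : ℕ → ℝ)
    (y : σ → ℝ) (s : ℕ → ℝ) (l q cc T : ℝ) (G : Glob P n x y s l q cc T) :
    ∀ (tr : Tree) (c : Cell), check P c tr = true → InCell P n c x y s q cc T →
    ((P.K2 : ℝ) / 100000000) ^ 3 * (1 - 2 * q) ^ 3 ≤ l ^ 6 * (1 - 3 * q + 2 * cc) := by
  intro tr
  induction tr with
  | leaf L =>
    intro c h I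
    simp only [check, Bool.or_eq_true, decide_eq_true_eq, List.any_eq_true, List.mem_range] at h
    rcases h with ((h | ⟨i, hi, h⟩) | h) | h
    · exact leaf_sound P n c L x y s l q cc T G I h
    · exfalso
      rw [I.nlo] at hi
      have := I.box i hi
      have h' : ((c.hi.getD i 0 : ℤ) : ℝ) < ((c.lo.getD i 0 : ℤ) : ℝ) := by exact_mod_cast h
      linarith [this.1, this.2]
    · exfalso
      have h' : (c.T2 : ℝ) < (c.T1 : ℝ) := by exact_mod_cast h
      linarith [I.hT1, I.hT2]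
    · exfalso
      have h' : (c.Y2 : ℝ) < (c.Y1 : ℝ) := by exact_mod_cast h
      linarith [I.hY1, I.hY2]
  | sx k v l r ihl ihr =>
    intro c h I
    simp only [check, Bool.and_eq_true, decide_eq_true_eq] at h
    obtain ⟨⟨hk, hl⟩, hr⟩ := h
    rw [I.nlo] at hk
    rcases le_total (1000 * x k) (v : ℝ) with hv | hv
    · refine ihl _ hl ?_
      exact { nlo := I.nlo, nhi := by simp only [setHi]; rw [updHi_length]; exact I.nhi
              nsb := I.nsb, lo0 := I.lo0, Y10 := I.Y10, sbox := I.sbox, hT1 := I.hT1, hH := I.hH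
              hT2 := I.hT2, hY1 := I.hY1, hY2 := I.hY2
              box := by
                intro i hi
                refine ⟨(I.box i hi).1, ?_⟩
                simp only [setHi]
                rw [updHi_getD _ _ _ _ _ (by rw [I.nhi]; exact hi)]
                rw [Nat.zero_add]
                split_ifs with hc
                · rw [Int.cast_min]
                  apply le_min (I.box i hi).2
                  have := G.dn k hk i (by simpa using hc)
                  linarith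
                · exact (I.box i hi).2 }
    · refine ihr _ hr ?_
      exact { nlo := by simp only [setLo]; rw [updLo_length]; exact I.nlo
              nhi := I.nhi, nsb := I.nsb, Y10 := I.Y10, sbox := I.sbox, hT1 := I.hT1, hH := I.hH
              hT2 := I.hT2, hY1 := I.hY1, hY2 := I.hY2
              lo0 := by simp only [setLo]; exact updLo_nonneg _ _ _ _ I.lo0
              box := by
                intro i hi
                refine ⟨?_, (I.box i hi).2⟩
                simp only [setLo]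
                rw [updLo_getD _ _ _ _ _ (by rw [I.nlo]; exact hi)]
                rw [Nat.zero_add]
                split_ifs with hc
                · rw [Int.cast_max]
                  apply max_le (I.box i hi).1
                  have := G.up k hk i (by simpa using hc)
                  linarith
                · exact (I.box i hi).1 }
  | sy v l r ihl ihr =>
    intro c h I
    simp only [check, Bool.and_eq_true] at h
    obtain ⟨hl, hr⟩ := h
    rcases le_total (1000 * (1 - 3 * q + 2 * cc)) (v : ℝ) with hv | hv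
    · refine ihl _ hl ?_
      exact { nlo := I.nlo, nhi := I.nhi, nsb := I.nsb, lo0 := I.lo0, Y10 := I.Y10, sbox := I.sbox
              hH := I.hH, hT1 := I.hT1, hT2 := I.hT2, hY1 := I.hY1, box := I.box
              hY2 := by rw [Int.cast_min]; exact le_min I.hY2 hv }
    · refine ihr _ hr ?_
      exact { nlo := I.nlo, nhi := I.nhi, nsb := I.nsb, lo0 := I.lo0, sbox := I.sbox
              Y10 := lt_of_lt_of_le I.Y10 (le_max_left _ _)
              hH := I.hH, hT1 := I.hT1, hT2 := I.hT2, hY2 := I.hY2, box := I.box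
              hY1 := by rw [Int.cast_max]; exact max_le I.hY1 hv }
  | st v l r ihl ihr =>
    intro c h I
    simp only [check, Bool.and_eq_true] at h
    obtain ⟨hl, hr⟩ := h
    rcases le_total (1000000 * T) (v : ℝ) with hv | hv
    · refine ihl _ hl ?_
      exact { nlo := I.nlo, nhi := I.nhi, nsb := I.nsb, lo0 := I.lo0, Y10 := I.Y10, sbox := I.sbox
              hH := I.hH, hT1 := I.hT1, hY1 := I.hY1, hY2 := I.hY2, box := I.box
              hT2 := by rw [Int.cast_min]; exact le_min I.hT2 hv }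
    · refine ihr _ hr ?_
      exact { nlo := I.nlo, nhi := I.nhi, nsb := I.nsb, lo0 := I.lo0, Y10 := I.Y10, sbox := I.sbox
              hH := I.hH, hT2 := I.hT2, hY1 := I.hY1, hY2 := I.hY2, box := I.box
              hT1 := by rw [Int.cast_max]; exact max_le I.hT1 hv }
  | ss j v l r ihl ihr =>
    intro c h I
    simp only [check, Bool.and_eq_true] at h
    obtain ⟨hl, hr⟩ := h
    rcases le_total (10000 * s j) (v : ℝ) with hv | hv
    · refine ihl _ hl ?_
      exact { nlo := I.nlo, nhi := I.nhi, lo0 := I.lo0, Y10 := I.Y10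
              nsb := by simp only []; rw [updSHi_length]; exact I.nsb
              hH := I.hH, hT1 := I.hT1, hT2 := I.hT2, hY1 := I.hY1, hY2 := I.hY2, box := I.box
              sbox := by
                intro i hi
                simp only [] at hi ⊢
                rw [updSHi_length] at hi
                rw [updSHi_getD v c.sb j i hi]
                split_ifs with hij
                · subst hij
                  refine ⟨(I.sbox i hi).1, ?_⟩
                  simp only []
                  rw [Int.cast_min]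
                  exact le_min (I.sbox i hi).2 hv
                · exact I.sbox i hi }
    · refine ihr _ hr ?_
      exact { nlo := I.nlo, nhi := I.nhi, lo0 := I.lo0, Y10 := I.Y10
              nsb := by simp only []; rw [updSLo_length]; exact I.nsb
              hH := I.hH, hT1 := I.hT1, hT2 := I.hT2, hY1 := I.hY1, hY2 := I.hY2, box := I.box
              sbox := by
                intro i hi
                simp only [] at hi ⊢
                rw [updSLo_length] at hi
                rw [updSLo_getD v c.sb j i hi]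
                split_ifs with hij
                · subst hij
                  refine ⟨?_, (I.sbox i hi).2⟩
                  simp only []
                  rw [Int.cast_max]
                  exact max_le (I.sbox i hi).1 hv
                · exact I.sbox i hi }

theorem blk_ENG : Stmt_ENG := by
  intro P c tr hch hhi hpos hnd hsb hfam hlo hY σ _ x y s l q cc T hbox hy0 hyx hyH hdn hup hsbox hsS
    hT h2 h4 h6 hT1 hT2 hY1 hY2 hq hf
  refine check_sound P c.lo.length x y s l q cc T ?_ tr c hch ?_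
  · exact { y0 := hy0, yx := hyx, dn := hdn, up := hup, sS := hsS, hT := hT, h2 := h2
            h4 := h4, h6 := h6, hq := hq, fam := hf, posn := hpos, posd := hnd
            fm := fun f h => (hfam f h).2 }
  · exact { nlo := rfl, nhi := hhi, nsb := hsb, lo0 := hlo, Y10 := hY, box := hbox, sbox := hsbox
            hH := hyH, hT1 := hT1, hT2 := hT2, hY1 := hY1, hY2 := hY2 }

end Pool.Agent.Work.MP_3892ce_static.Eng
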