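import Pool.Agent.Work.MP_3892ce_static.Interface

/-! # Block SEG (helper63): a disc cut by half-planes -/

set_option autoImplicit false

open MeasureTheory Set
open scoped ENNReal Pointwise

namespace Pool.Agent.Work.MP_3892ce_static

namespace SEG

/-- length of a ball of the line -/
theorem vol1 (r : ℝ) (hr : 0 ≤ r) :
    volume (Metric.closedBall (0 : E 1) r) = ENNReal.ofReal (2 * r) := by
  have h := InnerProductSpace.volume_closedBall_of_dim_odd (E := E 1) (k := 0) (by simp) 0 r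
  rw [h]
  have h1 : Module.finrank ℝ (E 1) = 1 := by simp
  rw [h1, pow_one, ← ENNReal.ofReal_mul hr]
  congr 1
  simp
  ring

/-- the primitive -/
theorem deriv_prim {r s : ℝ} (hr : 0 < r) (h1 : -r < s) (h2 : s < r) :
    HasDerivAt (fun s : ℝ => s * √(r ^ 2 - s ^ 2) - r ^ 2 * Real.arccos (s / r))
      (2 * √(r ^ 2 - s ^ 2)) s := by
  have hpos : 0 < r ^ 2 - s ^ 2 := by nlinarith
  have hq : 0 < √(r ^ 2 - s ^ 2) := Real.sqrt_pos.2 hpos
  have hqq : √(r ^ 2 - s ^ 2) * √(r ^ 2 - s ^ 2) = r ^ 2 - s ^ 2 := Real.mul_self_sqrt hpos.le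
  have d1 : HasDerivAt (fun s : ℝ => r ^ 2 - s ^ 2) (-(2 * s)) s := by
    have := (hasDerivAt_pow 2 s).const_sub (r ^ 2)
    simpa using this
  have d2 : HasDerivAt (fun s : ℝ => √(r ^ 2 - s ^ 2)) (-(2 * s) / (2 * √(r ^ 2 - s ^ 2))) s :=
    d1.sqrt hpos.ne'
  have d3 := (hasDerivAt_id s).mul d2
  have d4 : HasDerivAt (fun s : ℝ => s / r) (1 / r) s := (hasDerivAt_id s).div_const r
  have hs1 : s / r ≠ -1 := by
    intro h
    rw [div_eq_iff hr.ne'] at h
    linarith
  have hs2 : s / r ≠ 1 := by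
    intro h
    rw [div_eq_iff hr.ne'] at h
    linarith
  have d5 := ((Real.hasDerivAt_arccos hs1 hs2).comp s d4).const_mul (r ^ 2)
  have d6 := d3.sub d5
  have hsq : √(1 - (s / r) ^ 2) = √(r ^ 2 - s ^ 2) / r := by
    have : 1 - (s / r) ^ 2 = (r ^ 2 - s ^ 2) / r ^ 2 := by field_simp
    rw [this, Real.sqrt_div hpos.le, Real.sqrt_sq hr.le]
  have hval : 1 * √(r ^ 2 - s ^ 2) + id s * (-(2 * s) / (2 * √(r ^ 2 - s ^ 2))) -
      r ^ 2 * (-(1 / √(1 - (s / r) ^ 2)) * (1 / r)) = 2 * √(r ^ 2 - s ^ 2) := by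
    rw [hsq]
    simp only [id]
    field_simp
    nlinarith [hqq]
  rw [hval] at d6
  exact d6

theorem integral_chord {r d : ℝ} (hr : 0 < r) (hd : 0 ≤ d) (hdr : d ≤ r) :
    ∫ s in d..r, 2 * √(r ^ 2 - s ^ 2) = seg r d := by
  have hc : ContinuousOn (fun s : ℝ => s * √(r ^ 2 - s ^ 2) - r ^ 2 * Real.arccos (s / r))
      (Icc d r) := by
    apply Continuous.continuousOn
    have := Real.continuous_arccos
    fun_prop
  rw [intervalIntegral.integral_eq_sub_of_hasDerivAt_of_le hdr hc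
    (fun s hs => deriv_prim hr (by linarith [hs.1]) hs.2)
    (by apply Continuous.intervalIntegrable; fun_prop)]
  unfold seg
  rw [sub_self, Real.sqrt_zero, mul_zero, div_self hr.ne', Real.arccos_one, mul_zero]
  ring

/-- the volume of one segment -/
theorem cap_le (hFR1 : Stmt_FR1) (hFR2 : Stmt_FR2) {r d : ℝ} (hr : 0 < r) (hd : 0 ≤ d)
    (hdr : d ≤ r) (n : E 2) (hn : ‖n‖ = 1) :
    volume {y : E 2 | ‖y‖ ≤ r ∧ d < inner ℝ n y} ≤ ENNReal.ofReal (seg r d) := by
  obtain ⟨U, hU⟩ := hFR1 1 n hn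
  obtain ⟨hmp, -⟩ := hFR2 1 n U hU
  have hC : MeasurableSet {y : E 2 | ‖y‖ ≤ r ∧ d < inner ℝ n y} := by
    apply MeasurableSet.inter
    · exact measurableSet_le measurable_norm measurable_const
    · have h0 : Measurable (fun y : E 2 => inner ℝ n y) :=
        (continuous_const.inner continuous_id).measurable
      exact measurableSet_lt measurable_const h0
  rw [← hmp.measure_preimage hC.nullMeasurableSet]
  rw [Measure.prod_apply (hmp.measurable hC)]
  have hnorm : ∀ (s : ℝ) (t : E 1), ‖s • n + U t‖ ^ 2 = s ^ 2 + ‖t‖ ^ 2 := by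
    intro s t
    have h1 : inner ℝ (s • n) (U t) = 0 := by
      rw [inner_smul_left, hU.orth t, mul_zero]
    rw [norm_add_sq_real, h1, norm_smul, hn, U.norm_map, mul_one, Real.norm_eq_abs, sq_abs]
    ring
  have hin : ∀ (s : ℝ) (t : E 1), inner ℝ n (s • n + U t) = s := by
    intro s t
    rw [inner_add_right, hU.orth t, inner_smul_right, real_inner_self_eq_norm_sq, hn]
    ring
  have hle : ∀ s : ℝ, volume (Prod.mk s ⁻¹' ((fun p : ℝ × E 1 => p.1 • n + U p.2) ⁻¹'
      {y : E 2 | ‖y‖ ≤ r ∧ d < inner ℝ n y})) ≤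
      (Ioc d r).indicator (fun s => ENNReal.ofReal (2 * √(r ^ 2 - s ^ 2))) s := by
    intro s
    by_cases hs : s ∈ Ioc d r
    · rw [indicator_of_mem hs, ← vol1 _ (Real.sqrt_nonneg _)]
      apply measure_mono
      intro t ht
      have h1 : ‖s • n + U t‖ ≤ r := ht.1
      have h2 := hnorm s t
      have h3 : ‖t‖ ^ 2 ≤ r ^ 2 - s ^ 2 := by
        have : ‖s • n + U t‖ ^ 2 ≤ r ^ 2 := pow_le_pow_left₀ (norm_nonneg _) h1 2
        linarith
      rw [mem_closedBall_zero_iff]
      exact Real.le_sqrt_of_sq_le h3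
    · rw [indicator_of_notMem hs]
      have : Prod.mk s ⁻¹' ((fun p : ℝ × E 1 => p.1 • n + U p.2) ⁻¹'
          {y : E 2 | ‖y‖ ≤ r ∧ d < inner ℝ n y}) = ∅ := by
        rw [eq_empty_iff_forall_notMem]
        intro t ht
        apply hs
        have h1 : ‖s • n + U t‖ ≤ r := ht.1
        have h2 : d < inner ℝ n (s • n + U t) := ht.2
        rw [hin] at h2
        refine ⟨h2, ?_⟩
        have h3 := real_inner_le_norm n (s • n + U t)
        rw [hin, hn, one_mul] at h3
        exact h3.trans h1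
      rw [this, measure_empty]
  refine (lintegral_mono hle).trans ?_
  rw [lintegral_indicator measurableSet_Ioc]
  rw [← ofReal_integral_eq_lintegral_ofReal]
  · apply ENNReal.ofReal_le_ofReal
    rw [← intervalIntegral.integral_of_le hdr, integral_chord hr hd hdr]
  · apply Continuous.integrableOn_Ioc
    fun_prop
  · exact ae_of_all _ fun s => by positivity

end SEG

open SEG in
theorem blk_SEG (hFR1 : Stmt_FR1) (hFR2 : Stmt_FR2) : Stmt_SEG := by
  classical
  intro ι s ν r d hν hd hdr hr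
  have hseg0 : 0 ≤ seg r d := by
    rw [← integral_chord hr hd hdr]
    exact intervalIntegral.integral_nonneg hdr fun s _ => by positivity
  have h1 : Metric.closedBall (0 : E 2) r ⊆ {y : E 2 | ‖y‖ ≤ r ∧ ∀ j ∈ s, inner ℝ (ν j) y ≤ d} ∪
      ⋃ j ∈ s, {y : E 2 | ‖y‖ ≤ r ∧ d < inner ℝ (ν j) y} := by
    intro y hy
    rw [mem_closedBall_zero_iff] at hy
    by_cases h : ∀ j ∈ s, inner ℝ (ν j) y ≤ d
    · exact Or.inl ⟨hy, h⟩
    · push Not at h
      obtain ⟨j, hj, h⟩ := h
      right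
      rw [mem_iUnion₂]
      exact ⟨j, hj, hy, h⟩
  have h2 : volume (Metric.closedBall (0 : E 2) r) ≤
      volume {y : E 2 | ‖y‖ ≤ r ∧ ∀ j ∈ s, inner ℝ (ν j) y ≤ d} +
        s.card * ENNReal.ofReal (seg r d) := by
    refine (measure_mono h1).trans ((measure_union_le _ _).trans (add_le_add le_rfl ?_))
    refine (measure_biUnion_finset_le s _).trans ?_
    refine (Finset.sum_le_card_nsmul s _ _ fun j hj => cap_le hFR1 hFR2 hr hd hdr (ν j)
      (hν j hj)).trans ?_
    rw [nsmul_eq_mul]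
  have hfin : volume {y : E 2 | ‖y‖ ≤ r ∧ ∀ j ∈ s, inner ℝ (ν j) y ≤ d} ≠ ∞ := by
    refine ne_top_of_le_ne_top ?_ (measure_mono (t := Metric.closedBall (0 : E 2) r) ?_)
    · exact measure_closedBall_lt_top.ne
    · intro y hy
      rw [mem_closedBall_zero_iff]
      exact hy.1
  have h3 := ENNReal.toReal_mono (ENNReal.add_ne_top.2
    ⟨hfin, ENNReal.mul_ne_top (ENNReal.natCast_ne_top _) ENNReal.ofReal_ne_top⟩) h2
  rw [ENNReal.toReal_add hfin (ENNReal.mul_ne_top (ENNReal.natCast_ne_top _)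
    ENNReal.ofReal_ne_top), EuclideanSpace.volume_closedBall_fin_two, ENNReal.toReal_mul,
    ENNReal.toReal_mul, ENNReal.toReal_pow, ENNReal.toReal_ofReal hr.le,
    ENNReal.toReal_ofReal Real.pi_pos.le, ENNReal.toReal_ofReal hseg0,
    ENNReal.toReal_natCast] at h3
  unfold Wd
  linarith

end Pool.Agent.Work.MP_3892ce_static
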