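import Pool.Agent.Work.MP_3892ce_static.Interface2
import Pool.Agent.Work.MP_3892ce_static.SEG

/-! # Block AR1 (helper83): a disc cut by half-planes at different distances -/

set_option autoImplicit false

open MeasureTheory Set
open scoped ENNReal Pointwise

namespace Pool.Agent.Work.MP_3892ce_static

namespace AR1

theorem sg_nonneg {r d : ℝ} (hr : 0 < r) (hd : 0 ≤ d) : 0 ≤ sg r d := by
  unfold sg
  split_ifs with h
  · rw [← SEG.integral_chord hr hd h.le]
    exact intervalIntegral.integral_nonneg h.le fun s _ => by positivity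
  · exact le_rfl

theorem cut_le (hFR1 : Stmt_FR1) (hFR2 : Stmt_FR2) {r d : ℝ} (hr : 0 < r) (hd : 0 ≤ d) (n : E 2)
    (hn : ‖n‖ = 1) :
    volume {y : E 2 | ‖y‖ ≤ r ∧ d < inner ℝ n y} ≤ ENNReal.ofReal (sg r d) := by
  unfold sg
  split_ifs with h
  · exact SEG.cap_le hFR1 hFR2 hr hd h.le n hn
  · have : {y : E 2 | ‖y‖ ≤ r ∧ d < inner ℝ n y} = ∅ := by
      rw [eq_empty_iff_forall_notMem]
      rintro y ⟨h1, h2⟩
      apply h
      have h3 := real_inner_le_norm n y
      rw [hn, one_mul] at h3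
      linarith
    rw [this, measure_empty]
    exact zero_le

end AR1

open AR1 in
theorem blk_AR1 (hFR1 : Stmt_FR1) (hFR2 : Stmt_FR2) : Stmt_AR1 := by
  classical
  intro ι s ν d r hν hd hr
  have h1 : Metric.closedBall (0 : E 2) r ⊆
      {y : E 2 | ‖y‖ ≤ r ∧ ∀ j ∈ s, inner ℝ (ν j) y ≤ d j} ∪
      ⋃ j ∈ s, {y : E 2 | ‖y‖ ≤ r ∧ d j < inner ℝ (ν j) y} := by
    intro y hy
    rw [mem_closedBall_zero_iff] at hy
    by_cases h : ∀ j ∈ s, inner ℝ (ν j) y ≤ d j
    · exact Or.inl ⟨hy, h⟩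
    · push Not at h
      obtain ⟨j, hj, h⟩ := h
      right
      rw [mem_iUnion₂]
      exact ⟨j, hj, hy, h⟩
  have h2 : volume (Metric.closedBall (0 : E 2) r) ≤
      volume {y : E 2 | ‖y‖ ≤ r ∧ ∀ j ∈ s, inner ℝ (ν j) y ≤ d j} +
        ∑ j ∈ s, ENNReal.ofReal (sg r (d j)) := by
    refine (measure_mono h1).trans ((measure_union_le _ _).trans (add_le_add le_rfl ?_))
    refine (measure_biUnion_finset_le s _).trans ?_
    exact Finset.sum_le_sum fun j hj => cut_le hFR1 hFR2 hr (hd j hj) (ν j) (hν j hj)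
  have hfin : volume {y : E 2 | ‖y‖ ≤ r ∧ ∀ j ∈ s, inner ℝ (ν j) y ≤ d j} ≠ ∞ := by
    refine ne_top_of_le_ne_top ?_ (measure_mono (t := Metric.closedBall (0 : E 2) r) ?_)
    · exact measure_closedBall_lt_top.ne
    · intro y hy
      rw [mem_closedBall_zero_iff]
      exact hy.1
  rw [← ENNReal.ofReal_sum_of_nonneg fun j hj => sg_nonneg hr (hd j hj)] at h2
  have h3 := ENNReal.toReal_mono (ENNReal.add_ne_top.2 ⟨hfin, ENNReal.ofReal_ne_top⟩) h2
  rw [ENNReal.toReal_add hfin ENNReal.ofReal_ne_top, EuclideanSpace.volume_closedBall_fin_two,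
    ENNReal.toReal_mul, ENNReal.toReal_pow, ENNReal.toReal_ofReal hr.le,
    ENNReal.toReal_ofReal Real.pi_pos.le,
    ENNReal.toReal_ofReal (Finset.sum_nonneg fun j hj => sg_nonneg hr (hd j hj))] at h3
  linarith

end Pool.Agent.Work.MP_3892ce_static
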