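import Pool.Agent.Work.MP_3892ce_static.Interface

/-! # Block FR1 (MP_3892ce_gt): frames exist. Written by helper4. -/

set_option autoImplicit false

open MeasureTheory Set
open scoped ENNReal Pointwise

namespace Pool.Agent.Work.MP_3892ce_static

theorem blk_FR1 : Stmt_FR1 := by
  intro k n hn
  have hn0 : n ≠ 0 := by
    intro h
    rw [h, norm_zero] at hn
    exact zero_ne_one hn
  have hfact : Fact (Module.finrank ℝ (E (k + 1)) = k + 1) := ⟨by simp⟩
  have hfr : Module.finrank ℝ (Submodule.span ℝ {n})ᗮ = k :=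
    Submodule.finrank_orthogonal_span_singleton hn0
  let b := (stdOrthonormalBasis ℝ (Submodule.span ℝ {n})ᗮ).reindex (finCongr hfr)
  refine ⟨(Submodule.subtypeₗᵢ _).comp b.repr.symm.toLinearIsometry, hn, fun y => ?_⟩
  have h1 : ((b.repr.symm y : (Submodule.span ℝ {n})ᗮ) : E (k + 1)) ∈
      (Submodule.span ℝ {n})ᗮ := (b.repr.symm y).2
  exact Submodule.mem_orthogonal_singleton_iff_inner_right.1 h1

end Pool.Agent.Work.MP_3892ce_static
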