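import Pool.Agent.Work.MP_3892ce_static.Interface

/-! # Block FR2 (MP_3892ce_gt): coordinates of a frame. Written by helper4. -/

set_option autoImplicit false

open MeasureTheory Set
open scoped ENNReal Pointwise

namespace Pool.Agent.Work.MP_3892ce_static

namespace FR2

/-- the isometry `(s, y) ↦ s n + U y` -/
noncomputable def T {k : ℕ} (n : E (k + 1)) (U : E k →ₗᵢ[ℝ] E (k + 1)) (h : Frame n U) :
    WithLp 2 (ℝ × E k) →ₗᵢ[ℝ] E (k + 1) where
  toFun p := p.fst • n + U p.snd
  map_add' p q := by
    simp only [WithLp.add_fst, WithLp.add_snd, add_smul, map_add]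
    abel
  map_smul' c p := by
    simp only [WithLp.smul_fst, WithLp.smul_snd, map_smul, RingHom.id_apply, smul_add, smul_smul,
      smul_eq_mul]
  norm_map' p := by
    have h1 : inner ℝ (p.fst • n) (U p.snd) = (0 : ℝ) := by
      rw [inner_smul_left, h.orth, mul_zero]
    have h2 : ‖p.fst • n + U p.snd‖ ^ 2 = ‖p‖ ^ 2 := by
      rw [pow_two, norm_add_sq_eq_norm_sq_add_norm_sq_real h1, WithLp.prod_norm_sq_eq_of_L2,
        norm_smul, h.unit, mul_one, U.norm_map]
      ring
    exact (sq_eq_sq₀ (norm_nonneg _) (norm_nonneg _)).1 h2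

theorem finrank_eq (k : ℕ) :
    Module.finrank ℝ (WithLp 2 (ℝ × E k)) = Module.finrank ℝ (E (k + 1)) := by
  rw [(WithLp.linearEquiv 2 ℝ (ℝ × E k)).finrank_eq, Module.finrank_prod]
  simp [add_comm]

end FR2

theorem blk_FR2 : Stmt_FR2 := by
  intro k n U h
  let T := (FR2.T n U h).toLinearIsometryEquiv (FR2.finrank_eq k)
  constructor
  · have h1 := T.measurePreserving.comp (WithLp.volume_preserving_toLp ℝ (E k))
    exact h1
  · intro x
    obtain ⟨p, hp⟩ := T.surjective x
    have hp' : p.fst • n + U p.snd = x := hp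
    refine ⟨p.snd, ?_⟩
    have h2 : inner ℝ n x = p.fst := by
      rw [← hp', inner_add_right, h.orth, add_zero, inner_smul_right, real_inner_self_eq_norm_sq,
        h.unit]
      ring
    rw [h2]
    exact hp'.symm

end Pool.Agent.Work.MP_3892ce_static
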