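import Pool.Agent.Work.MP_3892ce_static.Interface2
import Pool.Agent.Work.MP_3892ce_static.SEG
import Pool.Agent.Work.MP_3892ce_static.FR1
import Pool.Agent.Work.MP_3892ce_static.FR2

/-! # Block AR2 (helper63): a disc cut by half-planes with one known corner angle -/

set_option autoImplicit false

open MeasureTheory Set
open scoped ENNReal Pointwise

namespace Pool.Agent.Work.MP_3892ce_static

/-- `AR2`, corrected: the two normals are not opposite -/
def Stmt_AR2b : Prop :=
  ∀ (ι : Type) [DecidableEq ι] (s : Finset ι) (ν : ι → E 2) (d : ι → ℝ) (r w g : ℝ) (j1 j2 : ι),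
    (∀ j ∈ s, ‖ν j‖ = 1) → (∀ j ∈ s, 0 ≤ d j) → 0 < r → r ≤ w → j1 ∈ s → j2 ∈ s → j1 ≠ j2 →
    d j1 < r → d j2 < r → g ≤ Real.pi → -1 < inner ℝ (ν j1) (ν j2) →
    inner ℝ (ν j1) (ν j2) < 1 → inner ℝ (ν j1) (ν j2) ≤ Real.cos g →
    (∀ j ∈ s, j ≠ j1 → j ≠ j2 →
      ¬ ∃ a b : ℝ, 0 < a ∧ 0 < b ∧ ν j = a • ν j1 + b • ν j2) →
    ∀ e : ℝ, e ≤ extra r w (d j1) (d j2) g → e ≤ seg r (d j1) → e ≤ seg r (d j2) →
    Real.pi * r ^ 2 - ∑ j ∈ s, sg r (d j) + e ≤
      (volume {y : E 2 | ‖y‖ ≤ w ∧ ∀ j ∈ s, inner ℝ (ν j) y ≤ d j}).toReal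

namespace AR2

/-- the isometry `(a, b) ↦ a n + b m` -/
noncomputable def T (n m : E 2) (hn : ‖n‖ = 1) (hm : ‖m‖ = 1) (h : inner ℝ n m = (0 : ℝ)) :
    WithLp 2 (ℝ × ℝ) →ₗᵢ[ℝ] E 2 where
  toFun p := p.fst • n + p.snd • m
  map_add' p q := by
    simp only [WithLp.add_fst, WithLp.add_snd, add_smul]
    abel
  map_smul' c p := by
    simp only [WithLp.smul_fst, WithLp.smul_snd, RingHom.id_apply, smul_add, smul_smul,
      smul_eq_mul]
  norm_map' p := by
    have h1 : inner ℝ (p.fst • n) (p.snd • m) = (0 : ℝ) := by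
      rw [inner_smul_left, inner_smul_right, h, mul_zero, mul_zero]
    have h2 : ‖p.fst • n + p.snd • m‖ ^ 2 = ‖p‖ ^ 2 := by
      rw [pow_two, norm_add_sq_eq_norm_sq_add_norm_sq_real h1, WithLp.prod_norm_sq_eq_of_L2,
        norm_smul, norm_smul, hn, hm]
      ring
    exact (sq_eq_sq₀ (norm_nonneg _) (norm_nonneg _)).1 h2

theorem finrank_eq : Module.finrank ℝ (WithLp 2 (ℝ × ℝ)) = Module.finrank ℝ (E 2) := by
  rw [(WithLp.linearEquiv 2 ℝ (ℝ × ℝ)).finrank_eq, Module.finrank_prod]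
  simp

theorem mp_pair {n m : E 2} (hn : ‖n‖ = 1) (hm : ‖m‖ = 1) (h : inner ℝ n m = (0 : ℝ)) :
    MeasurePreserving (fun p : ℝ × ℝ => p.1 • n + p.2 • m) (volume.prod volume) volume := by
  let T := (T n m hn hm h).toLinearIsometryEquiv finrank_eq
  exact T.measurePreserving.comp (WithLp.volume_preserving_toLp ℝ ℝ)

theorem norm_pair {n m : E 2} (hn : ‖n‖ = 1) (hm : ‖m‖ = 1) (h : inner ℝ n m = (0 : ℝ))
    (a b : ℝ) : ‖a • n + b • m‖ ^ 2 = a ^ 2 + b ^ 2 := by
  have h1 : inner ℝ (a • n) (b • m) = (0 : ℝ) := by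
    rw [inner_smul_left, inner_smul_right, h, mul_zero, mul_zero]
  rw [norm_add_sq_real, h1, norm_smul, norm_smul, hn, hm, Real.norm_eq_abs, Real.norm_eq_abs,
    mul_one, mul_one, sq_abs, sq_abs]
  ring

theorem inner_pair1 {n m : E 2} (hn : ‖n‖ = 1) (h : inner ℝ n m = (0 : ℝ))
    (a b : ℝ) : inner ℝ n (a • n + b • m) = a := by
  rw [inner_add_right, inner_smul_right, inner_smul_right, h, real_inner_self_eq_norm_sq, hn]
  ring

theorem inner_pair2 {n m : E 2} (hm : ‖m‖ = 1) (h : inner ℝ n m = (0 : ℝ))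
    (a b : ℝ) : inner ℝ m (a • n + b • m) = b := by
  rw [inner_add_right, inner_smul_right, inner_smul_right, real_inner_comm, h,
    real_inner_self_eq_norm_sq, hm]
  ring

theorem meas_inner_lt (n : E 2) (d : ℝ) : MeasurableSet {y : E 2 | d < inner ℝ n y} := by
  have h0 : Measurable (fun y : E 2 => (inner ℝ n y : ℝ)) :=
    (continuous_const.inner continuous_id).measurable
  exact measurableSet_lt measurable_const h0

theorem meas_inner_le (n : E 2) (d : ℝ) : MeasurableSet {y : E 2 | d ≤ inner ℝ n y} := by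
  have h0 : Measurable (fun y : E 2 => (inner ℝ n y : ℝ)) :=
    (continuous_const.inner continuous_id).measurable
  exact measurableSet_le measurable_const h0

theorem meas_norm_le (r : ℝ) : MeasurableSet {y : E 2 | ‖y‖ ≤ r} :=
  measurableSet_le measurable_norm measurable_const

theorem meas_norm_lt (r : ℝ) : MeasurableSet {y : E 2 | r < ‖y‖} :=
  measurableSet_lt measurable_const measurable_norm

/-- half of a segment -/
def HC (n m : E 2) (ρ d : ℝ) : Set (E 2) := {y | ‖y‖ ≤ ρ ∧ d < inner ℝ n y ∧ 0 ≤ inner ℝ m y}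

theorem meas_HC (n m : E 2) (ρ d : ℝ) : MeasurableSet (HC n m ρ d) :=
  (meas_norm_le ρ).inter ((meas_inner_lt n d).inter (meas_inner_le m 0))

theorem vol_HC {n m : E 2} (hn : ‖n‖ = 1) (hm : ‖m‖ = 1) (h : inner ℝ n m = (0 : ℝ)) {ρ d : ℝ}
    (hρ : 0 < ρ) (hd : 0 ≤ d) (hdr : d ≤ ρ) :
    volume (HC n m ρ d) = ENNReal.ofReal (seg ρ d / 2) := by
  have hmp := mp_pair hn hm h
  rw [← hmp.measure_preimage (meas_HC n m ρ d).nullMeasurableSet]
  rw [Measure.prod_apply (hmp.measurable (meas_HC n m ρ d))]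
  have hle : ∀ s : ℝ, volume (Prod.mk s ⁻¹' ((fun p : ℝ × ℝ => p.1 • n + p.2 • m) ⁻¹'
      HC n m ρ d)) = (Ioc d ρ).indicator (fun s => ENNReal.ofReal (√(ρ ^ 2 - s ^ 2))) s := by
    intro s
    by_cases hs : s ∈ Ioc d ρ
    · rw [indicator_of_mem hs]
      have hset : Prod.mk s ⁻¹' ((fun p : ℝ × ℝ => p.1 • n + p.2 • m) ⁻¹' HC n m ρ d) =
          Icc 0 (√(ρ ^ 2 - s ^ 2)) := by
        ext t
        change (‖s • n + t • m‖ ≤ ρ ∧ d < inner ℝ n (s • n + t • m) ∧
          0 ≤ inner ℝ m (s • n + t • m)) ↔ _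
        rw [inner_pair1 hn h, inner_pair2 hm h, mem_Icc]
        have h1 : ‖s • n + t • m‖ ≤ ρ ↔ t ^ 2 ≤ ρ ^ 2 - s ^ 2 := by
          rw [← sq_le_sq₀ (norm_nonneg _) hρ.le, norm_pair hn hm h]
          constructor <;> intro h <;> linarith
        rw [h1]
        constructor
        · rintro ⟨h2, -, h3⟩
          exact ⟨h3, Real.le_sqrt_of_sq_le h2⟩
        · rintro ⟨h2, h3⟩
          have hp : 0 ≤ ρ ^ 2 - s ^ 2 := by nlinarith [hs.1, hs.2]
          have h4 := Real.sq_sqrt hp
          exact ⟨by nlinarith [Real.sqrt_nonneg (ρ ^ 2 - s ^ 2)], hs.1, h2⟩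
      rw [hset, Real.volume_Icc, sub_zero]
    · rw [indicator_of_notMem hs]
      have : Prod.mk s ⁻¹' ((fun p : ℝ × ℝ => p.1 • n + p.2 • m) ⁻¹' HC n m ρ d) = ∅ := by
        rw [eq_empty_iff_forall_notMem]
        intro t ht
        apply hs
        have h1 : ‖s • n + t • m‖ ≤ ρ := ht.1
        have h2 : d < inner ℝ n (s • n + t • m) := ht.2.1
        rw [inner_pair1 hn h] at h2
        refine ⟨h2, ?_⟩
        have h3 := real_inner_le_norm n (s • n + t • m)
        rw [inner_pair1 hn h, hn, one_mul] at h3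
        exact h3.trans h1
      rw [this, measure_empty]
  rw [lintegral_congr hle, lintegral_indicator measurableSet_Ioc]
  rw [← ofReal_integral_eq_lintegral_ofReal]
  · congr 1
    rw [← intervalIntegral.integral_of_le hdr, ← SEG.integral_chord hρ hd hdr,
      intervalIntegral.integral_const_mul]
    ring
  · apply Continuous.integrableOn_Ioc
    fun_prop
  · exact ae_of_all _ fun s => by positivity

/-- half of an annular segment -/
theorem vol_ann {n m : E 2} (hn : ‖n‖ = 1) (hm : ‖m‖ = 1) (h : inner ℝ n m = (0 : ℝ))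
    {r w d : ℝ} (hr : 0 < r) (hrw : r ≤ w) (hd : 0 ≤ d) (hdr : d ≤ r) :
    volume (HC n m w d \ HC n m r d) = ENNReal.ofReal ((seg w d - seg r d) / 2) := by
  have h1 : HC n m r d ⊆ HC n m w d := fun y hy => ⟨hy.1.trans hrw, hy.2⟩
  rw [measure_diff h1 (meas_HC n m r d).nullMeasurableSet, vol_HC hn hm h hr hd hdr,
    vol_HC hn hm h (hr.trans_le hrw) hd (hdr.trans hrw), ← ENNReal.ofReal_sub]
  · congr 1
    ring
  · rw [← SEG.integral_chord hr hd hdr]
    have := intervalIntegral.integral_nonneg (μ := volume) (f := fun s => 2 * √(r ^ 2 - s ^ 2))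
      hdr fun s _ => by positivity
    positivity
  · rw [vol_HC hn hm h hr hd hdr]
    exact ENNReal.ofReal_ne_top

/-- the cone between `n` and `cos g n + sin g m` -/
def CN (n m : E 2) (g : ℝ) : Set (E 2) :=
  {y | 0 ≤ inner ℝ m y ∧ 0 ≤ Real.sin g * inner ℝ n y - Real.cos g * inner ℝ m y}

theorem meas_CN (n m : E 2) (g : ℝ) : MeasurableSet (CN n m g) := by
  have h0 : Measurable (fun y : E 2 => (inner ℝ n y : ℝ)) :=
    (continuous_const.inner continuous_id).measurable
  have h1 : Measurable (fun y : E 2 => (inner ℝ m y : ℝ)) :=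
    (continuous_const.inner continuous_id).measurable
  exact (measurableSet_le measurable_const h1).inter (measurableSet_le measurable_const
    ((h0.const_mul _).sub (h1.const_mul _)))

theorem sector {n m : E 2} (hn : ‖n‖ = 1) (hm : ‖m‖ = 1) (h : inner ℝ n m = (0 : ℝ))
    {r w g : ℝ} (hr : 0 < r) (hrw : r ≤ w) (hg : 0 ≤ g) (hg' : g ≤ Real.pi) :
    ENNReal.ofReal ((w ^ 2 - r ^ 2) * g / 2) ≤
      volume (CN n m g ∩ {y | r < ‖y‖} ∩ {y | ‖y‖ ≤ w}) := by
  have hmp := mp_pair hn hm h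
  have hM : MeasurableSet (CN n m g ∩ {y | r < ‖y‖} ∩ {y | ‖y‖ ≤ w}) :=
    ((meas_CN n m g).inter (meas_norm_lt r)).inter (meas_norm_le w)
  rw [← hmp.measure_preimage hM.nullMeasurableSet]
  set S : Set (ℝ × ℝ) := (fun p : ℝ × ℝ => p.1 • n + p.2 • m) ⁻¹'
    (CN n m g ∩ {y | r < ‖y‖} ∩ {y | ‖y‖ ≤ w}) with hS
  have hSm : MeasurableSet S := hmp.measurable hM
  have h1 := lintegral_comp_polarCoord_symm (S.indicator (fun _ => (1 : ℝ≥0∞)))
  rw [lintegral_indicator hSm, setLIntegral_one] at h1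
  change _ ≤ volume S
  rw [← h1]
  have hsub : Ioo r w ×ˢ Ioo 0 g ⊆ polarCoord.target := by
    rintro ⟨a, t⟩ ⟨ha, ht⟩
    rw [polarCoord_target]
    exact ⟨hr.trans ha.1, by linarith [ht.1, Real.pi_pos], by linarith [ht.2]⟩
  refine le_trans ?_ (lintegral_mono_set hsub)
  have hcongr : ∀ p ∈ Ioo r w ×ˢ Ioo 0 g, ENNReal.ofReal p.1 •
      S.indicator (fun _ => (1 : ℝ≥0∞)) (polarCoord.symm p) = ENNReal.ofReal p.1 := by
    rintro ⟨a, t⟩ ⟨ha, ht⟩
    have ha0 : 0 < a := hr.trans ha.1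
    have hmem : polarCoord.symm (a, t) ∈ S := by
      have hn2 : ‖(a * Real.cos t) • n + (a * Real.sin t) • m‖ = a := by
        rw [← sq_eq_sq₀ (norm_nonneg _) ha0.le, norm_pair hn hm h]
        nlinarith [Real.sin_sq_add_cos_sq t]
      refine ⟨⟨⟨?_, ?_⟩, ?_⟩, ?_⟩
      · change 0 ≤ inner ℝ m ((a * Real.cos t) • n + (a * Real.sin t) • m)
        rw [inner_pair2 hm h]
        exact mul_nonneg ha0.le (Real.sin_nonneg_of_nonneg_of_le_pi ht.1.le (by linarith [ht.2]))
      · change 0 ≤ Real.sin g * inner ℝ n ((a * Real.cos t) • n + (a * Real.sin t) • m) -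
          Real.cos g * inner ℝ m ((a * Real.cos t) • n + (a * Real.sin t) • m)
        rw [inner_pair2 hm h, inner_pair1 hn h]
        have : Real.sin g * (a * Real.cos t) - Real.cos g * (a * Real.sin t) =
            a * Real.sin (g - t) := by
          rw [Real.sin_sub]; ring
        rw [this]
        exact mul_nonneg ha0.le (Real.sin_nonneg_of_nonneg_of_le_pi (by linarith [ht.2])
          (by linarith [ht.1]))
      · change r < ‖(a * Real.cos t) • n + (a * Real.sin t) • m‖
        rw [hn2]; exact ha.1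
      · change ‖(a * Real.cos t) • n + (a * Real.sin t) • m‖ ≤ w
        rw [hn2]; exact ha.2.le
    rw [indicator_of_mem hmem, smul_eq_mul, mul_one]
  rw [setLIntegral_congr_fun (measurableSet_Ioo.prod measurableSet_Ioo) hcongr]
  rw [Measure.volume_eq_prod, ← Measure.prod_restrict, lintegral_prod _ (by fun_prop)]
  simp only [lintegral_const, Measure.restrict_apply MeasurableSet.univ, univ_inter,
    Real.volume_Ioo, sub_zero]
  rw [lintegral_mul_const _ (by fun_prop)]
  rw [← ofReal_integral_eq_lintegral_ofReal, ← integral_Ioc_eq_integral_Ioo,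
    ← intervalIntegral.integral_of_le hrw, integral_id, ← ENNReal.ofReal_mul]
  · apply ENNReal.ofReal_le_ofReal
    linarith
  · nlinarith
  · exact (continuous_id.integrableOn_Ioc).mono_set Ioo_subset_Ioc_self
  · rw [Filter.EventuallyLE, ae_restrict_iff' measurableSet_Ioo]
    exact ae_of_all _ fun s hs => (hr.trans hs.1).le

/-- segment -/
theorem vol_cap {r d : ℝ} (hr : 0 < r) (hd : 0 ≤ d) (n : E 2) (hn : ‖n‖ = 1) :
    volume {y : E 2 | ‖y‖ ≤ r ∧ d < inner ℝ n y} ≤ ENNReal.ofReal (sg r d) := by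
  unfold sg
  split_ifs with h
  · exact SEG.cap_le blk_FR1 blk_FR2 hr hd h.le n hn
  · rw [ENNReal.ofReal_zero]
    refine le_of_eq ?_
    have : {y : E 2 | ‖y‖ ≤ r ∧ d < inner ℝ n y} = ∅ := by
      rw [eq_empty_iff_forall_notMem]
      rintro y ⟨h1, h2⟩
      have h3 := real_inner_le_norm n y
      rw [hn, one_mul] at h3
      linarith
    rw [this, measure_empty]

theorem sg_nonneg {r d : ℝ} (hr : 0 < r) (hd : 0 ≤ d) : 0 ≤ sg r d := by
  unfold sg
  split_ifs with h
  · rw [← SEG.integral_chord hr hd h.le]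
    exact intervalIntegral.integral_nonneg h.le fun s _ => by positivity
  · exact le_rfl

/-- domination -/
theorem dom {n v y z : E 2} {α β d e r : ℝ} (hα : 0 ≤ α) (hβ : 0 ≤ β) (h : n = α • y + β • v)
    (h1 : inner ℝ n y ≤ d) (h2 : e < inner ℝ v y) (h3 : r < ‖y‖) (hz : ‖z‖ ≤ r)
    (h4 : d < inner ℝ n z) : e < inner ℝ v z := by
  by_contra hcon
  push Not at hcon
  have hu1 : 0 < inner ℝ n (z - y) := by rw [inner_sub_right]; linarith
  have hu2 : inner ℝ v (z - y) < 0 := by rw [inner_sub_right]; linarith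
  have hu3 : inner ℝ n (z - y) = α * inner ℝ y (z - y) + β * inner ℝ v (z - y) := by
    conv_lhs => rw [h]
    rw [inner_add_left, inner_smul_left, inner_smul_left]
    rfl
  have hu4 : 0 < inner ℝ y (z - y) := by
    by_contra hc
    push Not at hc
    nlinarith [mul_nonneg hβ (neg_nonneg.2 hu2.le), mul_nonneg hα (neg_nonneg.2 hc)]
  have hz2 : ‖z‖ ^ 2 = ‖y‖ ^ 2 + 2 * inner ℝ y (z - y) + ‖z - y‖ ^ 2 := by
    have := norm_add_sq_real y (z - y)
    rw [add_sub_cancel] at this
    exact this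
  have : ‖z‖ ^ 2 ≤ ‖y‖ ^ 2 := pow_le_pow_left₀ (norm_nonneg _) (hz.trans h3.le) 2
  nlinarith [sq_nonneg ‖z - y‖]

/-- coordinates in the plane -/
theorem coord {n m : E 2} (hn : ‖n‖ = 1) (hm : ‖m‖ = 1) (h : inner ℝ n m = (0 : ℝ)) (y : E 2) :
    y = (inner ℝ n y : ℝ) • n + (inner ℝ m y : ℝ) • m := by
  obtain ⟨p, hp⟩ := ((T n m hn hm h).toLinearIsometryEquiv finrank_eq).surjective y
  have hp' : p.fst • n + p.snd • m = y := hp
  rw [← hp', inner_pair1 hn h, inner_pair2 hm h]

/-- which of the two half-planes is superfluous -/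
theorem which {n1 n2 v y : E 2} {a b p q : ℝ} (ha : 0 ≤ a) (hb : 0 ≤ b)
    (hy : y = a • n1 + b • n2) (hv : v = p • n1 + q • n2) (hpq : ¬ (0 < p ∧ 0 < q))
    (hpos : 0 < inner ℝ v y) :
    (∃ α β : ℝ, 0 ≤ α ∧ 0 ≤ β ∧ n1 = α • y + β • v) ∨
    (∃ α β : ℝ, 0 ≤ α ∧ 0 ≤ β ∧ n2 = α • y + β • v) := by
  rcases lt_trichotomy 0 (p * b - q * a) with hD | hD | hD
  · left
    have hq : q ≤ 0 := by
      by_contra hq
      push Not at hq
      have hp : p ≤ 0 := by
        by_contra hp
        push Not at hp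
        exact hpq ⟨hp, hq⟩
      nlinarith [mul_nonneg hq.le ha, mul_nonneg (neg_nonneg.2 hp) hb]
    refine ⟨-q / (p * b - q * a), b / (p * b - q * a), div_nonneg (neg_nonneg.2 hq) hD.le,
      div_nonneg hb hD.le, ?_⟩
    rw [hy, hv]
    have h1 : -q / (p * b - q * a) * a + b / (p * b - q * a) * p = 1 := by
      field_simp; ring
    have h2 : -q / (p * b - q * a) * b + b / (p * b - q * a) * q = 0 := by
      field_simp; ring
    calc n1 = (-q / (p * b - q * a) * a + b / (p * b - q * a) * p) • n1 +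
          (-q / (p * b - q * a) * b + b / (p * b - q * a) * q) • n2 := by
            rw [h1, h2, one_smul, zero_smul, add_zero]
      _ = _ := by
        simp only [smul_add, smul_smul, add_smul]
        abel
  · -- parallel
    have hy0 : y ≠ 0 := by
      rintro rfl
      rw [inner_zero_right] at hpos
      exact lt_irrefl _ hpos
    by_cases hb0 : b = 0
    · left
      have ha0 : a ≠ 0 := by
        rintro rfl
        apply hy0
        rw [hy, hb0, zero_smul, zero_smul, add_zero]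
      refine ⟨a⁻¹, 0, inv_nonneg.2 ha, le_rfl, ?_⟩
      rw [hy, hb0, zero_smul, add_zero, zero_smul, add_zero, smul_smul, inv_mul_cancel₀ ha0,
        one_smul]
    · by_cases ha0 : a = 0
      · right
        refine ⟨b⁻¹, 0, inv_nonneg.2 hb, le_rfl, ?_⟩
        rw [hy, ha0, zero_smul, zero_add, zero_smul, add_zero, smul_smul, inv_mul_cancel₀ hb0,
          one_smul]
      · exfalso
        have hb' : 0 < b := lt_of_le_of_ne hb (Ne.symm hb0)
        have ha' : 0 < a := lt_of_le_of_ne ha (Ne.symm ha0)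
        have hp : p ≤ 0 ∧ q ≤ 0 := by
          by_contra hc
          apply hpq
          rw [not_and_or, not_le, not_le] at hc
          have hD' : p * b = q * a := by linarith
          rcases hc with hc | hc
          · refine ⟨hc, ?_⟩
            have : 0 < q * a := hD' ▸ mul_pos hc hb'
            exact (mul_pos_iff_of_pos_right ha').1 this
          · refine ⟨?_, hc⟩
            have : 0 < p * b := hD'.symm ▸ mul_pos hc ha'
            exact (mul_pos_iff_of_pos_right hb').1 this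
        -- v is a nonpositive multiple of y
        have hv' : v = (p / a) • y := by
          rw [hv, hy, smul_add, smul_smul, smul_smul, div_mul_cancel₀ _ ha0]
          congr 2
          field_simp
          linarith
        rw [hv', inner_smul_left, real_inner_self_eq_norm_sq] at hpos
        have h5 : p / a ≤ 0 := div_nonpos_of_nonpos_of_nonneg hp.1 ha
        have h6 : (p / a) * ‖y‖ ^ 2 ≤ 0 := mul_nonpos_of_nonpos_of_nonneg h5 (sq_nonneg _)
        have h7 : 0 < (p / a) * ‖y‖ ^ 2 := hpos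
        linarith
  · right
    have hp : p ≤ 0 := by
      by_contra hp
      push Not at hp
      have hq : q ≤ 0 := by
        by_contra hq
        push Not at hq
        exact hpq ⟨hp, hq⟩
      nlinarith [mul_nonneg hp.le hb, mul_nonneg (neg_nonneg.2 hq) ha]
    have hD' : 0 < q * a - p * b := by linarith
    refine ⟨-p / (q * a - p * b), a / (q * a - p * b), div_nonneg (neg_nonneg.2 hp) hD'.le,
      div_nonneg ha hD'.le, ?_⟩
    rw [hy, hv]
    have h1 : -p / (q * a - p * b) * a + a / (q * a - p * b) * p = 0 := by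
      field_simp; ring
    have h2 : -p / (q * a - p * b) * b + a / (q * a - p * b) * q = 1 := by
      field_simp; ring
    calc n2 = (-p / (q * a - p * b) * a + a / (q * a - p * b) * p) • n1 +
          (-p / (q * a - p * b) * b + a / (q * a - p * b) * q) • n2 := by
            rw [h1, h2, one_smul, zero_smul, zero_add]
      _ = _ := by
        simp only [smul_add, smul_smul, add_smul]
        abel

end AR2

open AR2 in
theorem blk_AR2b : Stmt_AR2b := by
  classical
  intro ι _ s ν d r w g j1 j2 hν hd hr hrw hj1 hj2 hj12 hd1 hd2 hgpi hc1 hc2 hcg hcone e he he1 he2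
  set K : Set (E 2) := {y : E 2 | ‖y‖ ≤ w ∧ ∀ j ∈ s, inner ℝ (ν j) y ≤ d j} with hK
  have hw : 0 < w := hr.trans_le hrw
  have hKfin : volume K ≠ ∞ := by
    refine ne_top_of_le_ne_top ?_ (measure_mono (t := Metric.closedBall (0 : E 2) w) ?_)
    · exact measure_closedBall_lt_top.ne
    · intro y hy
      rw [mem_closedBall_zero_iff]
      exact hy.1
  have hball : volume (Metric.closedBall (0 : E 2) r) = ENNReal.ofReal (Real.pi * r ^ 2) := by
    rw [EuclideanSpace.volume_closedBall_fin_two, ← ENNReal.ofReal_pow hr.le,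
      ← ENNReal.ofReal_mul (by positivity)]
    congr 1; ring
  have hn1 := hν j1 hj1
  have hn2 := hν j2 hj2
  set c : ℝ := inner ℝ (ν j1) (ν j2) with hc
  -- the orthogonal unit vectors
  have hs2 : 0 < 1 - c ^ 2 := by nlinarith
  set σ : ℝ := √(1 - c ^ 2) with hσ
  have hσ0 : 0 < σ := Real.sqrt_pos.2 hs2
  have hσσ : σ ^ 2 = 1 - c ^ 2 := Real.sq_sqrt hs2.le
  have hg' : Real.cos (Real.arccos c) = c := Real.cos_arccos hc1.le hc2.le
  have hsg' : Real.sin (Real.arccos c) = σ := Real.sin_arccos c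
  set m1 : E 2 := σ⁻¹ • (ν j2 - c • ν j1) with hm1
  set m2 : E 2 := σ⁻¹ • (ν j1 - c • ν j2) with hm2
  have hcc : inner ℝ (ν j2) (ν j1) = c := by rw [real_inner_comm]
  have hself1 : inner ℝ (ν j1) (ν j1) = (1 : ℝ) := by
    rw [real_inner_self_eq_norm_sq, hn1, one_pow]
  have hself2 : inner ℝ (ν j2) (ν j2) = (1 : ℝ) := by
    rw [real_inner_self_eq_norm_sq, hn2, one_pow]
  have h1m1 : inner ℝ (ν j1) m1 = (0 : ℝ) := by
    rw [hm1, inner_smul_right, inner_sub_right, inner_smul_right, hself1, ← hc]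
    ring
  have h2m2 : inner ℝ (ν j2) m2 = (0 : ℝ) := by
    rw [hm2, inner_smul_right, inner_sub_right, inner_smul_right, hself2, hcc]
    ring
  have hnm1 : ‖m1‖ = 1 := by
    rw [← sq_eq_sq₀ (norm_nonneg _) zero_le_one, ← real_inner_self_eq_norm_sq, hm1,
      inner_smul_left, inner_smul_right, inner_sub_left, inner_sub_right, inner_sub_right,
      inner_smul_left, inner_smul_left, inner_smul_right, inner_smul_right, hself1, hself2,
      ← hc, hcc]
    simp only [conj_trivial]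
    field_simp
    nlinarith
  have hnm2 : ‖m2‖ = 1 := by
    rw [← sq_eq_sq₀ (norm_nonneg _) zero_le_one, ← real_inner_self_eq_norm_sq, hm2,
      inner_smul_left, inner_smul_right, inner_sub_left, inner_sub_right, inner_sub_right,
      inner_smul_left, inner_smul_left, inner_smul_right, inner_smul_right, hself1, hself2,
      ← hc, hcc]
    simp only [conj_trivial]
    field_simp
    nlinarith
  have hν2 : ν j2 = c • ν j1 + σ • m1 := by
    rw [hm1, smul_smul, mul_inv_cancel₀ hσ0.ne', one_smul]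
    abel
  have hm1y : ∀ y : E 2, inner ℝ m1 y = σ⁻¹ * (inner ℝ (ν j2) y - c * inner ℝ (ν j1) y) := by
    intro y
    rw [hm1, inner_smul_left, inner_sub_left, inner_smul_left]
    rfl
  have hm2y : ∀ y : E 2, inner ℝ m2 y = σ⁻¹ * (inner ℝ (ν j1) y - c * inner ℝ (ν j2) y) := by
    intro y
    rw [hm2, inner_smul_left, inner_sub_left, inner_smul_left]
    rfl
  have hCm2 : ∀ y : E 2, σ * inner ℝ (ν j1) y - c * inner ℝ m1 y = inner ℝ m2 y := by
    intro y
    rw [hm1y, hm2y]
    field_simp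
    rw [hσσ]
    ring
  have hsegge : ∀ (i : ι), i ∈ s → d i < r → sg r (d i) = seg r (d i) := by
    intro i _ hi
    unfold sg
    rw [if_pos hi]
  by_cases hcut : ∃ y j, j ∈ s ∧ j ≠ j1 ∧ j ≠ j2 ∧ 0 ≤ inner ℝ m1 y ∧ 0 ≤ inner ℝ m2 y ∧
      r < ‖y‖ ∧ inner ℝ (ν j1) y ≤ d j1 ∧ inner ℝ (ν j2) y ≤ d j2 ∧ d j < inner ℝ (ν j) y
  · obtain ⟨y, j, hj, hjj1, hjj2, hy1, hy2, hry, hyd1, hyd2, hyj⟩ := hcut
    have key : ∃ i, i ∈ s ∧ i ≠ j ∧ (sg r (d i) = seg r (d i)) ∧ e ≤ seg r (d i) ∧
        ∀ z : E 2, ‖z‖ ≤ r → d i < inner ℝ (ν i) z → d j < inner ℝ (ν j) z := by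
      have hrep : ∀ z : E 2, z = (σ⁻¹ * inner ℝ m2 z) • ν j1 + (σ⁻¹ * inner ℝ m1 z) • ν j2 := by
        intro z
        have h0 := coord hn1 hnm1 h1m1 z
        have h1 : (σ⁻¹ * inner ℝ m2 z) • ν j1 + (σ⁻¹ * inner ℝ m1 z) • ν j2 =
            (σ⁻¹ * inner ℝ m2 z + σ⁻¹ * inner ℝ m1 z * c) • ν j1 +
              (σ⁻¹ * inner ℝ m1 z * σ) • m1 := by
          rw [hν2, smul_add, smul_smul, smul_smul, add_smul, add_assoc]
        rw [h1]
        have h2 : σ⁻¹ * inner ℝ m2 z + σ⁻¹ * inner ℝ m1 z * c = inner ℝ (ν j1) z := by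
          rw [← hCm2 z]
          field_simp
          ring
        have h3 : σ⁻¹ * inner ℝ m1 z * σ = inner ℝ m1 z := by
          field_simp
        rw [h2, h3]
        exact h0
      rcases which (mul_nonneg (inv_nonneg.2 hσ0.le) hy2) (mul_nonneg (inv_nonneg.2 hσ0.le) hy1)
        (hrep y) (hrep (ν j)) (fun hh => hcone j hj hjj1 hjj2 ⟨_, _, hh.1, hh.2, hrep (ν j)⟩)
        ((hd j hj).trans_lt hyj) with ⟨α, β, hα, hβ, hh⟩ | ⟨α, β, hα, hβ, hh⟩
      · exact ⟨j1, hj1, fun h => hjj1 h.symm, hsegge j1 hj1 hd1, he1,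
          fun z hz hz' => dom hα hβ hh hyd1 hyj hry hz hz'⟩
      · exact ⟨j2, hj2, fun h => hjj2 h.symm, hsegge j2 hj2 hd2, he2,
          fun z hz hz' => dom hα hβ hh hyd2 hyj hry hz hz'⟩
    obtain ⟨i, hi, hij, hsgi, hei, hdom⟩ := key
    have hsub : Metric.closedBall (0 : E 2) r ⊆ K ∪
        ⋃ j' ∈ s.erase i, {y : E 2 | ‖y‖ ≤ r ∧ d j' < inner ℝ (ν j') y} := by
      intro z hz
      rw [mem_closedBall_zero_iff] at hz
      by_cases h : ∀ j ∈ s, inner ℝ (ν j) z ≤ d j
      · exact Or.inl ⟨hz.trans hrw, h⟩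
      · push Not at h
        obtain ⟨j', hj', h⟩ := h
        right
        rw [mem_iUnion₂]
        by_cases hj'i : j' = i
        · subst hj'i
          exact ⟨j, Finset.mem_erase.2 ⟨fun h => hij h.symm, hj⟩, hz, hdom z hz h⟩
        · exact ⟨j', Finset.mem_erase.2 ⟨hj'i, hj'⟩, hz, h⟩
    have h2 : volume (Metric.closedBall (0 : E 2) r) ≤ volume K +
        ENNReal.ofReal (∑ j' ∈ s.erase i, sg r (d j')) := by
      refine (measure_mono hsub).trans ((measure_union_le _ _).trans (add_le_add le_rfl ?_))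
      refine (measure_biUnion_finset_le _ _).trans ?_
      rw [ENNReal.ofReal_sum_of_nonneg
        (fun j' hj' => sg_nonneg hr (hd j' (Finset.mem_of_mem_erase hj')))]
      exact Finset.sum_le_sum fun j' hj' => vol_cap hr (hd j' (Finset.mem_of_mem_erase hj')) (ν j')
        (hν j' (Finset.mem_of_mem_erase hj'))
    have hsum0 : 0 ≤ ∑ j' ∈ s.erase i, sg r (d j') := Finset.sum_nonneg fun j' hj' =>
      sg_nonneg hr (hd j' (Finset.mem_of_mem_erase hj'))
    have h3 := ENNReal.toReal_mono (ENNReal.add_ne_top.2 ⟨hKfin, ENNReal.ofReal_ne_top⟩) h2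
    rw [hball, ENNReal.toReal_add hKfin ENNReal.ofReal_ne_top, ENNReal.toReal_ofReal hsum0,
      ENNReal.toReal_ofReal (by positivity)] at h3
    rw [← Finset.add_sum_erase s _ hi, hsgi]
    linarith
  · push Not at hcut
    set C : Set (E 2) := CN (ν j1) m1 (Real.arccos c) ∩ {y | r < ‖y‖} ∩ {y | ‖y‖ ≤ w} with hC
    have hsec := sector hn1 hnm1 h1m1 hr hrw (Real.arccos_nonneg c) (Real.arccos_le_pi c)
    have hCm : MeasurableSet C :=
      ((meas_CN _ _ _).inter (meas_norm_lt r)).inter (meas_norm_le w)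
    have hdisj : Disjoint (Metric.closedBall (0 : E 2) r) C := by
      rw [Set.disjoint_left]
      intro y hy hy'
      rw [mem_closedBall_zero_iff] at hy
      have : r < ‖y‖ := hy'.1.2
      linarith
    have hB : ENNReal.ofReal (Real.pi * r ^ 2 + (w ^ 2 - r ^ 2) * Real.arccos c / 2) ≤
        volume (Metric.closedBall (0 : E 2) r ∪ C) := by
      rw [measure_union hdisj hCm, hball, ENNReal.ofReal_add (by positivity)]
      · exact add_le_add le_rfl hsec
      · have : 0 ≤ w ^ 2 - r ^ 2 := by nlinarith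
        have := Real.arccos_nonneg c
        positivity
    have hsub : Metric.closedBall (0 : E 2) r ∪ C ⊆ K ∪
        ((⋃ j' ∈ s, {y : E 2 | ‖y‖ ≤ r ∧ d j' < inner ℝ (ν j') y}) ∪
        ((HC (ν j1) m1 w (d j1) \ HC (ν j1) m1 r (d j1)) ∪
        (HC (ν j2) m2 w (d j2) \ HC (ν j2) m2 r (d j2)))) := by
      rintro z (hz | hz)
      · rw [mem_closedBall_zero_iff] at hz
        by_cases h : ∀ j ∈ s, inner ℝ (ν j) z ≤ d j
        · exact Or.inl ⟨hz.trans hrw, h⟩
        · push Not at h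
          obtain ⟨j', hj', h⟩ := h
          right; left
          rw [mem_iUnion₂]
          exact ⟨j', hj', hz, h⟩
      · have hz1 : 0 ≤ inner ℝ m1 z := hz.1.1.1
        have hz2 : 0 ≤ inner ℝ m2 z := by
          have := hz.1.1.2
          rw [hg', hsg', hCm2] at this
          exact this
        have hz3 : r < ‖z‖ := hz.1.2
        have hz4 : ‖z‖ ≤ w := hz.2
        by_cases h1 : d j1 < inner ℝ (ν j1) z
        · right; right; left
          exact ⟨⟨hz4, h1, hz1⟩, fun h => by linarith [h.1]⟩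
        · by_cases h2 : d j2 < inner ℝ (ν j2) z
          · right; right; right
            exact ⟨⟨hz4, h2, hz2⟩, fun h => by linarith [h.1]⟩
          · left
            push Not at h1 h2
            refine ⟨hz4, fun j hj => ?_⟩
            by_cases hjj1 : j = j1
            · rw [hjj1]; exact h1
            by_cases hjj2 : j = j2
            · rw [hjj2]; exact h2
            exact hcut z j hj hjj1 hjj2 hz1 hz2 hz3 h1 h2
    have hnn1 : 0 ≤ (seg w (d j1) - seg r (d j1)) / 2 := by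
      by_contra hcon
      push Not at hcon
      have h1 := vol_HC hn1 hnm1 h1m1 hr (hd j1 hj1) hd1.le
      have h2 := vol_HC hn1 hnm1 h1m1 hw (hd j1 hj1) (hd1.le.trans hrw)
      have h3 : volume (HC (ν j1) m1 r (d j1)) ≤ volume (HC (ν j1) m1 w (d j1)) :=
        measure_mono fun y hy => ⟨hy.1.trans hrw, hy.2⟩
      rw [h1, h2] at h3
      have h4 : 0 < seg r (d j1) / 2 := by
        have := sg_nonneg hw (hd j1 hj1)
        unfold sg at this
        rw [if_pos (hd1.trans_le hrw)] at this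
        linarith
      have h5 := (ENNReal.ofReal_le_ofReal_iff' (p := seg r (d j1) / 2)).1 h3
      rcases h5 with h5 | h5 <;> linarith
    have hnn2 : 0 ≤ (seg w (d j2) - seg r (d j2)) / 2 := by
      by_contra hcon
      push Not at hcon
      have h1 := vol_HC hn2 hnm2 h2m2 hr (hd j2 hj2) hd2.le
      have h2 := vol_HC hn2 hnm2 h2m2 hw (hd j2 hj2) (hd2.le.trans hrw)
      have h3 : volume (HC (ν j2) m2 r (d j2)) ≤ volume (HC (ν j2) m2 w (d j2)) :=
        measure_mono fun y hy => ⟨hy.1.trans hrw, hy.2⟩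
      rw [h1, h2] at h3
      have h4 : 0 < seg r (d j2) / 2 := by
        have := sg_nonneg hw (hd j2 hj2)
        unfold sg at this
        rw [if_pos (hd2.trans_le hrw)] at this
        linarith
      have h5 := (ENNReal.ofReal_le_ofReal_iff' (p := seg r (d j2) / 2)).1 h3
      rcases h5 with h5 | h5 <;> linarith
    have hsum0 : 0 ≤ ∑ j' ∈ s, sg r (d j') := Finset.sum_nonneg fun j' hj' =>
      sg_nonneg hr (hd j' hj')
    have h2 : ENNReal.ofReal (Real.pi * r ^ 2 + (w ^ 2 - r ^ 2) * Real.arccos c / 2) ≤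
        volume K + (ENNReal.ofReal (∑ j' ∈ s, sg r (d j')) +
          (ENNReal.ofReal ((seg w (d j1) - seg r (d j1)) / 2) +
            ENNReal.ofReal ((seg w (d j2) - seg r (d j2)) / 2))) := by
      refine hB.trans ((measure_mono hsub).trans ((measure_union_le _ _).trans
        (add_le_add le_rfl ((measure_union_le _ _).trans (add_le_add ?_
        ((measure_union_le _ _).trans (add_le_add ?_ ?_)))))))
      · refine (measure_biUnion_finset_le _ _).trans ?_
        rw [ENNReal.ofReal_sum_of_nonneg (fun j' hj' => sg_nonneg hr (hd j' hj'))]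
        exact Finset.sum_le_sum fun j' hj' => vol_cap hr (hd j' hj') (ν j') (hν j' hj')
      · exact (vol_ann hn1 hnm1 h1m1 hr hrw (hd j1 hj1) hd1.le).le
      · exact (vol_ann hn2 hnm2 h2m2 hr hrw (hd j2 hj2) hd2.le).le
    rw [← ENNReal.ofReal_add hnn1 hnn2, ← ENNReal.ofReal_add hsum0 (add_nonneg hnn1 hnn2)] at h2
    have h3 := ENNReal.toReal_mono (ENNReal.add_ne_top.2 ⟨hKfin, ENNReal.ofReal_ne_top⟩) h2
    have hw2 : 0 ≤ w ^ 2 - r ^ 2 := by nlinarith
    have hac := Real.arccos_nonneg c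
    rw [ENNReal.toReal_add hKfin ENNReal.ofReal_ne_top, ENNReal.toReal_ofReal (by positivity),
      ENNReal.toReal_ofReal (by positivity)] at h3
    have hgg : g ≤ Real.arccos c := by
      by_cases hg0 : 0 ≤ g
      · rw [← Real.arccos_cos hg0 hgpi]
        exact Real.arccos_le_arccos hcg
      · linarith
    have h4 : (w ^ 2 - r ^ 2) * g ≤ (w ^ 2 - r ^ 2) * Real.arccos c :=
      mul_le_mul_of_nonneg_left hgg hw2
    unfold extra at he
    linarith

end Pool.Agent.Work.MP_3892ce_static
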