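import Pool.Agent.Work.MP_3892ce_static.Interface3
import Pool.Agent.Work.MP_3892ce_static.FAMG

/-! # Block FAMG2: the inequality of a family of named facets, free radius for the others -/

set_option autoImplicit false

open MeasureTheory Set
open scoped ENNReal Pointwise

namespace Pool.Agent.Work.MP_3892ce_static

open FAMG in
theorem blk_FAMG2 (hSTATN : Stmt_STATN) (hAR1 : Stmt_AR1) : Stmt_FAMG2 := by
  intro ι _ _ n b U hF hI k m hm h w W t hh h0 hw hW ht hWv hout
  obtain ⟨hν, -, hL⟩ := hSTATN ι n b U hF hI
  set A : ι → ℝ := fun i => area (HP n b) (n i) (U i) (b i) with hAdef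
  have hA : ∀ i, 0 ≤ A i := fun i => ENNReal.toReal_nonneg
  set g : ι → ι → ℝ := Function.extend m (fun a => Function.extend m (h a) (fun _ => w a))
    (fun _ => Function.extend m (fun a => 1 - w a) (fun _ => 1 / 2)) with hg
  have gin : ∀ a, g (m a) = Function.extend m (h a) (fun _ => w a) := fun a => by
    rw [hg, hm.extend_apply]
  have gout : ∀ i, i ∉ Set.range m → g i = Function.extend m (fun a => 1 - w a) (fun _ => 1 / 2) :=
    fun i hi => by rw [hg, Function.extend_apply' _ _ _ hi]
  have g1 : ∀ a c, g (m a) (m c) = h a c := fun a c => by rw [gin, hm.extend_apply]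
  have g2 : ∀ a j, j ∉ Set.range m → g (m a) j = w a := fun a j hj => by
    rw [gin, Function.extend_apply' _ _ _ hj]
  have g3 : ∀ i a, i ∉ Set.range m → g i (m a) = 1 - w a := fun i a hi => by
    rw [gout i hi, hm.extend_apply]
  have g4 : ∀ i j, i ∉ Set.range m → j ∉ Set.range m → g i j = 1 / 2 := fun i j hi hj => by
    rw [gout i hi, Function.extend_apply' _ _ _ hj]
  have gsum : ∀ i j, i ≠ j → g i j + g j i = 1 := by
    intro i j hij
    by_cases hi : i ∈ Set.range m
    · obtain ⟨a, rfl⟩ := hi
      by_cases hj : j ∈ Set.range m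
      · obtain ⟨c, rfl⟩ := hj
        rw [g1, g1]
        exact hh a c (fun e => hij (by rw [e]))
      · rw [g2 a j hj, g3 j a hj]; ring
    · by_cases hj : j ∈ Set.range m
      · obtain ⟨c, rfl⟩ := hj
        rw [g3 i c hi, g2 c i hi]; ring
      · rw [g4 i j hi hj, g4 j i hj hi]; norm_num
  set q : ι → ℝ := Function.extend m (fun a => 2 * √(A (m a) * W a)) (fun i => t * √(A i)) with hq
  have q1 : ∀ a, q (m a) = 2 * √(A (m a) * W a) := fun a => by rw [hq, hm.extend_apply]
  have q2 : ∀ i, i ∉ Set.range m → q i = t * √(A i) := fun i hi => by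
    rw [hq, Function.extend_apply' _ _ _ hi]
  have hK : ∀ i, ∃ K : Set (E 2), IsCompact K ∧ K.Nonempty ∧
      (∀ y ∈ K, ∀ j, 0 < len n b i j → inner ℝ (nu n U i j) y ≤ g i j) ∧
      q i ≤ 2 * √(A i * (volume K).toReal) := by
    intro i
    by_cases hi : i ∈ Set.range m
    · obtain ⟨a, rfl⟩ := hi
      have hc := cut (w a) (hw a).le (fun c => 0 < len n b (m a) (m c))
        (fun c => nu n U (m a) (m c)) (h a) (fun c _ => h0 a c)
      refine ⟨_, hc.1, hc.2, ?_, ?_⟩
      · rintro y ⟨y1, y2⟩ j hj
        by_cases hjr : j ∈ Set.range m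
        · obtain ⟨c, rfl⟩ := hjr
          rw [g1]; exact y2 c hj
        · rw [g2 a j hjr]
          exact (inner_le_norm_of_unit (hν _ _ hj)).trans y1
      · rw [q1]
        have := hWv a
        gcongr
        · exact hA (m a)
    · rcases hout i hi with ⟨r, hr0, hr2, ha, ht2⟩ | ⟨a0, x, ρ, hl0, hwx, hx, hρ, hoth, hhalf, htρ⟩
      · have hc := cut r hr0.le (fun a => 0 < len n b i (m a))
          (fun a => nu n U i (m a)) (fun a => 1 - w a) (fun a ha' => by linarith [ha a ha'])
        refine ⟨_, hc.1, hc.2, ?_, ?_⟩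
        · rintro y ⟨y1, y2⟩ j hj
          by_cases hjr : j ∈ Set.range m
          · obtain ⟨c, rfl⟩ := hjr
            rw [g3 i c hi]; exact y2 c hj
          · rw [g4 i j hi hjr]
            exact ((inner_le_norm_of_unit (hν _ _ hj)).trans y1).trans hr2
        · rw [q2 i hi]
          refine coef (hA i) (ht2.trans ?_)
          have hA1 := hAR1 (Fin k) (Finset.univ.filter (fun a => 0 < len n b i (m a)))
            (fun a => nu n U i (m a)) (fun a => 1 - w a) r
            (fun a ha' => hν _ _ (Finset.mem_filter.1 ha').2)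
            (fun a ha' => by have := ha a (Finset.mem_filter.1 ha').2; linarith) hr0
          rw [Finset.sum_filter] at hA1
          have hset : {y : E 2 | ‖y‖ ≤ r ∧
              ∀ a ∈ Finset.univ.filter (fun a => 0 < len n b i (m a)),
                inner ℝ (nu n U i (m a)) y ≤ 1 - w a} =
              {y : E 2 | ‖y‖ ≤ r ∧
                ∀ a, 0 < len n b i (m a) → inner ℝ (nu n U i (m a)) y ≤ 1 - w a} := by
            ext y
            simp only [Finset.mem_filter, Finset.mem_univ, true_and, mem_ofPred_eq]
          rw [hset] at hA1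
          linarith
      · set ν0 : E 2 := nu n U i (m a0) with hν0
        have hν0' : ‖ν0‖ = 1 := hν _ _ hl0
        refine ⟨Metric.closedBall (-(x + ρ) • ν0) ρ, isCompact_closedBall _ _,
          ⟨_, Metric.mem_closedBall_self hρ⟩, ?_, ?_⟩
        · intro y hy j hj
          rw [Metric.mem_closedBall, dist_eq_norm] at hy
          have hyn : ‖y‖ ≤ x + 2 * ρ := by
            have e1 : y = (y - (-(x + ρ) • ν0)) + (-(x + ρ) • ν0) := by abel
            have e2 : ‖-(x + ρ) • ν0‖ = x + ρ := by
              rw [norm_smul, hν0', mul_one, norm_neg, Real.norm_of_nonneg (by linarith)]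
            rw [e1]
            refine (norm_add_le _ _).trans ?_
            rw [e2]; linarith
          have hjn : inner ℝ (nu n U i j) y ≤ x + 2 * ρ :=
            (inner_le_norm_of_unit (hν _ _ hj)).trans hyn
          by_cases hjr : j ∈ Set.range m
          · obtain ⟨c, rfl⟩ := hjr
            rw [g3 i c hi]
            by_cases hc : c = a0
            · rw [hc, hwx, ← hν0]
              have e1 : inner ℝ ν0 y = inner ℝ ν0 (y - (-(x + ρ) • ν0)) - (x + ρ) := by
                rw [inner_sub_right, inner_smul_right, real_inner_self_eq_norm_sq, hν0']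
                ring
              have e2 := (inner_le_norm_of_unit hν0' (y := y - (-(x + ρ) • ν0))).trans hy
              rw [e1]; linarith
            · exact hjn.trans (hoth c hc hj)
          · rw [g4 i j hi hjr]; exact hjn.trans hhalf
        · rw [q2 i hi]
          refine coef (hA i) ?_
          have hvol : (volume (Metric.closedBall (-(x + ρ) • ν0) ρ)).toReal = Real.pi * ρ ^ 2 := by
            rw [EuclideanSpace.volume_closedBall_fin_two, ENNReal.toReal_mul, ENNReal.toReal_pow,
              ENNReal.toReal_ofReal hρ, ENNReal.toReal_ofReal Real.pi_pos.le]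
            ring
          rw [hvol]
          have h3 : t ^ 2 ≤ (2 * √Real.pi * ρ) ^ 2 := pow_le_pow_left₀ ht htρ 2
          have h4 : (2 * √Real.pi * ρ) ^ 2 = 4 * (Real.pi * ρ ^ 2) := by
            rw [mul_pow, mul_pow, Real.sq_sqrt Real.pi_pos.le]; ring
          rw [← h4]; exact h3
  choose K hKc hKn hKin hKq using hK
  have hfin := hL K g gsum hKc hKn hKin
  have hle : ∑ i, q i ≤ L n b :=
    (Finset.sum_le_sum (fun i _ => hKq i)).trans hfin
  have hsplit : ∀ S : Finset ι, (∀ i, i ∈ S ↔ i ∉ Set.range m) →
      ∑ i, q i = ∑ a, 2 * √(A (m a) * W a) + t * ∑ i ∈ S, √(A i) := by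
    intro S hS
    have e1 : Finset.univ = Finset.univ.image m ∪ S := by
      ext i
      simp only [Finset.mem_univ, Finset.mem_union, Finset.mem_image, true_and, hS, Set.mem_range,
        true_iff]
      exact em _
    have e2 : Disjoint (Finset.univ.image m) S := by
      rw [Finset.disjoint_left]
      intro i hi hi'
      rw [Finset.mem_image] at hi
      obtain ⟨a, _, rfl⟩ := hi
      exact ((hS _).1 hi') ⟨a, rfl⟩
    rw [e1, Finset.sum_union e2, Finset.sum_image (fun a _ c _ e => hm e), Finset.mul_sum]
    congr 1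
    · exact Finset.sum_congr rfl (fun a _ => q1 a)
    · exact Finset.sum_congr rfl (fun i hi => q2 i ((hS i).1 hi))
  refine le_trans (le_of_eq ?_) hle
  exact (hsplit _ (fun i => by simp)).symm

end Pool.Agent.Work.MP_3892ce_static
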