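import Pool.Agent.Work.MP_3892ce_static.Interface

/-! # Melzak's problem, static method: block STAT (planar Minkowski inequality in every facet) -/

set_option autoImplicit false

open MeasureTheory Set
open scoped ENNReal Pointwise

namespace Pool.Agent.Work.MP_3892ce_static

namespace STAT

theorem onto {k : ℕ} {n : E (k + 1)} {U : E k →ₗᵢ[ℝ] E (k + 1)} (h : Frame n U)
    (x : E (k + 1)) : ∃ y : E k, x = inner ℝ n x • n + U y := by
  have hn : n ≠ 0 := by
    intro h0
    have := h.unit
    rw [h0, norm_zero] at this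
    exact zero_ne_one this
  have : Fact (Module.finrank ℝ (E (k + 1)) = k + 1) := ⟨by simp⟩
  have hle : LinearMap.range U.toLinearMap ≤ (Submodule.span ℝ {n})ᗮ := by
    rintro z ⟨y, rfl⟩
    rw [Submodule.mem_orthogonal_singleton_iff_inner_right]
    exact h.orth y
  have hfin : Module.finrank ℝ (LinearMap.range U.toLinearMap)
      = Module.finrank ℝ (Submodule.span ℝ {n})ᗮ := by
    rw [LinearMap.finrank_range_of_inj U.injective, Submodule.finrank_orthogonal_span_singleton (n := k) hn]
    simp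
  have heq := Submodule.eq_of_le_of_finrank_eq hle hfin
  have hx : x - inner ℝ n x • n ∈ (Submodule.span ℝ {n})ᗮ := by
    rw [Submodule.mem_orthogonal_singleton_iff_inner_right, inner_sub_right, inner_smul_right,
      real_inner_self_eq_norm_sq, h.unit]
    ring
  rw [← heq] at hx
  obtain ⟨y, hy⟩ := hx
  refine ⟨y, ?_⟩
  have h2 : U y = x - inner ℝ n x • n := hy
  rw [h2]
  abel

/-- the projection of the normal `m` to the plane of the frame -/
noncomputable def pr {k : ℕ} (U : E k →ₗᵢ[ℝ] E (k + 1)) (m : E (k + 1)) : E k :=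
  LinearMap.adjoint U.toLinearMap m

theorem pr_inner {k : ℕ} (U : E k →ₗᵢ[ℝ] E (k + 1)) (m : E (k + 1)) (y : E k) :
    inner ℝ (pr U m) y = inner ℝ m (U y) :=
  LinearMap.adjoint_inner_left U.toLinearMap y m

/-- the inner product with a point of the plane -/
theorem inner_pt {k : ℕ} {n : E (k + 1)} (U : E k →ₗᵢ[ℝ] E (k + 1)) (c : ℝ)
    (m : E (k + 1)) (y : E k) :
    inner ℝ m (c • n + U y) = c * inner ℝ m n + inner ℝ (pr U m) y := by
  rw [inner_add_right, inner_smul_right, pr_inner]

theorem inner_self_pt {k : ℕ} {n : E (k + 1)} {U : E k →ₗᵢ[ℝ] E (k + 1)} (h : Frame n U) (c : ℝ)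
    (y : E k) : inner ℝ n (c • n + U y) = c := by
  rw [inner_add_right, inner_smul_right, h.orth, real_inner_self_eq_norm_sq, h.unit]
  ring

end STAT

open STAT in
theorem blk_STAT (hMINK : Stmt_MINK) (hLEN : Stmt_LEN) (hFR1 : Stmt_FR1) : Stmt_STAT := by
  classical
  intro ι _ _ n b U hF hI
  set w : ι → ι → E 2 := fun i j => pr (U i) (n j) with hw
  -- the witness of facet `i` in coordinates
  have hwit : ∀ i, ∃ y : E 2, ∀ j, j ≠ i → b i * inner ℝ (n j) (n i) + inner ℝ (w i j) y < b j := by
    intro i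
    obtain ⟨x, hx, hxj⟩ := hI.wit i
    obtain ⟨y, hy⟩ := onto (hF i) x
    refine ⟨y, fun j hj => ?_⟩
    have h1 := hxj j hj
    rw [hy, hx, inner_pt] at h1
    exact h1
  have hsub : ∀ i j, Face n b i ∩ Face n b j
      = (fun y => b i • n i + U i y) '' {y | (b i • n i + U i y) ∈ HP n b ∧
        inner ℝ (n j) (b i • n i + U i y) = b j} := by
    intro i j
    ext x
    constructor
    · rintro ⟨⟨h1, h2⟩, h3, h4⟩
      obtain ⟨y, hy⟩ := onto (hF i) x
      rw [h2] at hy
      refine ⟨y, ?_, hy.symm⟩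
      rw [mem_ofPred_eq, ← hy]
      exact ⟨h1, h4⟩
    · rintro ⟨y, hy, rfl⟩
      rw [mem_ofPred_eq] at hy
      exact ⟨⟨hy.1, inner_self_pt (hF i) _ _⟩, hy.1, hy.2⟩
  have hiso : ∀ i, Isometry (fun y => b i • n i + U i y) := by
    intro i
    exact (IsometryEquiv.addLeft (b i • n i)).isometry.comp (U i).isometry
  have hlen0 : ∀ i j, 0 ≤ len n b i j := by
    intro i j
    unfold len
    split_ifs
    · exact le_rfl
    · exact Metric.diam_nonneg
  have hne : ∀ i j, 0 < len n b i j → j ≠ i ∧ w i j ≠ 0 := by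
    intro i j h
    have hji : j ≠ i := by
      rintro rfl
      rw [len, if_pos rfl] at h
      exact lt_irrefl _ h
    refine ⟨hji, fun hz => ?_⟩
    rw [len, if_neg (fun h' => hji h'.symm), hsub i j, (hiso i).diam_image] at h
    have hemp : {y : E 2 | (b i • n i + U i y) ∈ HP n b ∧
        inner ℝ (n j) (b i • n i + U i y) = b j} = ∅ := by
      rw [Set.eq_empty_iff_forall_notMem]
      intro y hy
      rw [mem_ofPred_eq] at hy
      obtain ⟨y0, hy0⟩ := hwit i
      have h1 := hy0 j hji
      have h2 := hy.2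
      rw [inner_pt] at h2
      change _ + inner ℝ (w i j) y = _ at h2
      rw [hz, inner_zero_left] at h1 h2
      linarith
    rw [hemp, Metric.diam_empty] at h
    exact lt_irrefl _ h
  refine ⟨fun i j => (‖w i j‖)⁻¹ • w i j, fun i j h => ?_, ?_⟩
  · have := (hne i j h).2
    rw [norm_smul, norm_inv, norm_norm, inv_mul_cancel₀ (norm_ne_zero_iff.2 this)]
  intro i K κ hK hKn hκ hsup
  -- the index set of the facets which cut the plane of facet `i`
  set J : Type := {j : ι // j ≠ i ∧ w i j ≠ 0} with hJ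
  set ν : J → E 2 := fun j => (‖w i j.1‖)⁻¹ • w i j.1 with hν
  set β : J → ℝ := fun j => (‖w i j.1‖)⁻¹ * (b j.1 - b i * inner ℝ (n j.1) (n i)) with hβ
  have hpos : ∀ j : J, 0 < (‖w i j.1‖)⁻¹ := fun j => inv_pos.2 (norm_pos_iff.2 j.2.2)
  have hνu : ∀ j : J, ‖ν j‖ = 1 := by
    intro j
    rw [hν]
    simp only
    rw [norm_smul, norm_inv, norm_norm, inv_mul_cancel₀ (norm_ne_zero_iff.2 j.2.2)]
  have hin : ∀ (j : J) (y : E 2), inner ℝ (ν j) y = (‖w i j.1‖)⁻¹ * inner ℝ (w i j.1) y := by
    intro j y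
    rw [hν]
    simp only
    rw [real_inner_smul_left]
  have hPhi : Sec (HP n b) (n i) (U i) (b i) = HP ν β := by
    ext y
    change (∀ j, inner ℝ (n j) (b i • n i + U i y) ≤ b j) ↔ ∀ j : J, inner ℝ (ν j) y ≤ β j
    constructor
    · intro h j
      rw [hin, hβ]
      have h1 := h j.1
      rw [inner_pt] at h1
      exact mul_le_mul_of_nonneg_left (by linarith) (hpos j).le
    · intro h j
      by_cases hji : j = i
      · rw [hji, inner_self_pt (hF i)]
      · by_cases hz : w i j = 0
        · obtain ⟨y0, hy0⟩ := hwit i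
          have h1 := hy0 j hji
          rw [inner_pt]
          change _ + inner ℝ (w i j) y ≤ _
          rw [hz, inner_zero_left] at h1 ⊢
          exact h1.le
        · have h1 := h ⟨j, hji, hz⟩
          rw [hin, hβ] at h1
          have h2 := le_of_mul_le_mul_left h1 (hpos ⟨j, hji, hz⟩)
          rw [inner_pt]
          change _ + inner ℝ (w i j) y ≤ _
          simp only at h2
          linarith
  have hbdd : Bornology.IsBounded (HP ν β) := by
    rw [← hPhi]
    exact (hiso i).antilipschitz.isBounded_preimage hI.bdd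
  have hstr : ∃ x, ∀ j : J, inner ℝ (ν j) x < β j := by
    obtain ⟨y0, hy0⟩ := hwit i
    refine ⟨y0, fun j => ?_⟩
    rw [hin, hβ]
    have h1 := hy0 j.1 j.2.1
    exact mul_lt_mul_of_pos_left (by linarith) (hpos j)
  choose W hW using fun j : J => hFR1 1 (ν j) (hνu j)
  have hclosed : IsClosed (HP ν β) := by
    have : HP ν β = ⋂ j, {y | inner ℝ (ν j) y ≤ β j} := by
      ext y
      simp only [HP, mem_iInter, mem_ofPred_eq]
    rw [this]
    exact isClosed_iInter fun j => isClosed_le (by fun_prop) continuous_const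
  have hconv : Convex ℝ (HP ν β) := by
    intro x hx y hy s t hs ht hst j
    rw [inner_add_right, inner_smul_right, inner_smul_right]
    have h1 := hx j
    have h2 := hy j
    calc s * inner ℝ (ν j) x + t * inner ℝ (ν j) y ≤ s * β j + t * β j :=
          add_le_add (mul_le_mul_of_nonneg_left h1 hs) (mul_le_mul_of_nonneg_left h2 ht)
      _ = β j := by rw [← add_mul, hst, one_mul]
  have harea : ∀ j : J, area (HP ν β) (ν j) (W j) (β j) = len n b i j.1 := by
    intro j
    rw [hLEN _ _ _ _ (hW j) hconv hclosed hbdd, len, if_neg (fun h' => j.2.1 h'.symm), hsub i j.1,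
      (hiso i).diam_image]
    congr 1
    ext y
    rw [mem_ofPred_eq, mem_ofPred_eq, ← hPhi, hin, inner_pt]
    apply and_congr Iff.rfl
    change (‖w i j.1‖)⁻¹ * inner ℝ (w i j.1) y = (‖w i j.1‖)⁻¹ * _ ↔
      b i * inner ℝ (n j.1) (n i) + inner ℝ (w i j.1) y = b j.1
    rw [mul_right_inj' (hpos j).ne']
    constructor <;> intro h <;> linarith
  -- a bound for `K`
  obtain ⟨R, hR⟩ := hK.isBounded.exists_norm_le
  set κ' : J → ℝ := fun j => if 0 < len n b i j.1 then κ j.1 else |R| with hκ'
  have hM := hMINK 1 J ν β W hW hstr hbdd K κ' hK hKn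
    (by
      intro j
      rw [hκ']
      simp only
      split_ifs
      · exact hκ _
      · exact abs_nonneg _)
    (by
      intro y hy j
      rw [hκ']
      simp only
      split_ifs with h
      · exact hsup y hy j.1 h
      · calc inner ℝ (ν j) y ≤ ‖ν j‖ * ‖y‖ := real_inner_le_norm _ _
          _ = ‖y‖ := by rw [hνu, one_mul]
          _ ≤ R := hR y hy
          _ ≤ |R| := le_abs_self R)
  have hA : area (HP n b) (n i) (U i) (b i) = (volume (HP ν β)).toReal := by
    unfold area
    rw [hPhi]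
  have hsum : ∑ j : J, area (HP ν β) (ν j) (W j) (β j) * κ' j ≤ ∑ j, len n b i j * κ j := by
    have h1 : ∀ j : J, area (HP ν β) (ν j) (W j) (β j) * κ' j = len n b i j.1 * κ j.1 := by
      intro j
      rw [harea, hκ']
      simp only
      split_ifs with h
      · rfl
      · have h0 : len n b i j.1 = 0 := le_antisymm (not_lt.1 h) (hlen0 _ _)
        rw [h0, zero_mul, zero_mul]
    rw [Finset.sum_congr rfl fun j _ => h1 j]
    have h2 : ∑ j : J, len n b i j.1 * κ j.1
        = ∑ j ∈ Finset.univ.map (Function.Embedding.subtype fun j => j ≠ i ∧ w i j ≠ 0),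
          len n b i j * κ j := by
      rw [Finset.sum_map]
      rfl
    rw [h2]
    exact Finset.sum_le_sum_of_subset_of_nonneg (Finset.subset_univ _)
      fun j _ _ => mul_nonneg (hlen0 _ _) (hκ _)
  refine le_trans ?_ (hM.trans hsum)
  rw [hA]
  have e1 : ((1 : ℕ) : ℝ) / (((1 : ℕ) : ℝ) + 1) = 1 / 2 := by norm_num
  have e2 : (1 : ℝ) / (((1 : ℕ) : ℝ) + 1) = 1 / 2 := by norm_num
  rw [e1, e2, ← Real.sqrt_eq_rpow, ← Real.sqrt_eq_rpow, Real.sqrt_mul ENNReal.toReal_nonneg,
    Nat.cast_one]
  apply le_of_eq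
  ring

end Pool.Agent.Work.MP_3892ce_static
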