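import Pool.Agent.Work.MP_3892ce_static.Interface

/-! ZETA: the total edge length is at least the sum over all pairs of facets (helper15). -/

set_option autoImplicit false

open MeasureTheory Set
open scoped ENNReal Pointwise

namespace Pool.Agent.Work.MP_3892ce_static

namespace ZETA

variable {ι : Type} {n : ι → E 3} {b : ι → ℝ}

theorem ne_of_face [DecidableEq ι] (hI : Irr n b) {i j : ι} (hij : i ≠ j) {z : E 3}
    (hz : z ∈ Face n b i ∩ Face n b j) : n i ≠ n j ∧ n i ≠ - n j := by
  constructor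
  · intro h
    obtain ⟨x, hx, hx'⟩ := hI.wit i
    have h1 := hx' j hij.symm
    rw [← h, hx] at h1
    have h2 := hz.1.2
    have h3 := hz.2.2
    rw [← h, h2] at h3
    linarith
  · intro h
    obtain ⟨x, hx⟩ := hI.int
    have h1 := hx i
    have h2 := hx j
    have h3 := hz.1.2
    have h4 := hz.2.2
    rw [h, inner_neg_left] at h1 h3
    linarith

theorem indep (hI : Irr n b) {i j : ι} (h1 : n i ≠ n j) (h2 : n i ≠ - n j) :
    LinearIndependent ℝ ![n i, n j] := by
  rw [LinearIndependent.pair_iff]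
  intro s t h
  have key : ∀ (u v : E 3) (s t : ℝ), ‖u‖ = 1 → ‖v‖ = 1 → u ≠ v → u ≠ - v → s • u + t • v = 0 →
      s = 0 := by
    intro u v s t hu hv e1 e2 h
    by_contra hs
    have h3 : u = (-(t / s)) • v := by
      have h4 : s • u = - (t • v) := eq_neg_of_add_eq_zero_left h
      have h5 : u = s⁻¹ • (s • u) := by rw [smul_smul, inv_mul_cancel₀ hs, one_smul]
      rw [h5, h4, smul_neg, smul_smul, neg_smul]
      congr 2
      field_simp
    have h4 : |t / s| = 1 := by
      have h5 : ‖u‖ = ‖(-(t / s)) • v‖ := by rw [← h3]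
      rw [norm_smul, hu, hv, mul_one, norm_neg, Real.norm_eq_abs] at h5
      exact h5.symm
    rcases (abs_eq (by norm_num : (0 : ℝ) ≤ 1)).1 h4 with h5 | h5
    · rw [h5, neg_smul, one_smul] at h3
      exact e2 h3
    · rw [h5, neg_neg, one_smul] at h3
      exact e1 h3
  refine ⟨key (n i) (n j) s t (hI.unit i) (hI.unit j) h1 h2 h, ?_⟩
  refine key (n j) (n i) t s (hI.unit j) (hI.unit i) h1.symm ?_ (by rw [add_comm]; exact h)
  intro h3
  apply h2
  rw [h3, neg_neg]

/-- vectors orthogonal to two independent vectors are multiples of each other -/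
theorem line (u v : E 3) (h : LinearIndependent ℝ ![u, v]) (y z : E 3) (hy0 : y ≠ 0)
    (hy1 : inner ℝ u y = 0) (hy2 : inner ℝ v y = 0) (hz1 : inner ℝ u z = 0)
    (hz2 : inner ℝ v z = 0) : ∃ t : ℝ, z = t • y := by
  set S : Submodule ℝ (E 3) := Submodule.span ℝ (Set.range ![u, v]) with hS
  have hf : Module.finrank ℝ S = 2 := by
    rw [hS, finrank_span_eq_card h]
    rfl
  have hf2 : Module.finrank ℝ Sᗮ = 1 := by
    have h1 := Submodule.finrank_add_finrank_orthogonal S
    rw [hf, finrank_euclideanSpace, Fintype.card_fin] at h1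
    omega
  have hmem : ∀ x : E 3, inner ℝ u x = 0 → inner ℝ v x = 0 → x ∈ Sᗮ := by
    intro x h1 h2
    rw [hS, Submodule.mem_orthogonal]
    intro w hw
    induction hw using Submodule.span_induction with
    | mem w hw =>
      obtain ⟨k, rfl⟩ := hw
      fin_cases k
      · exact h1
      · exact h2
    | zero => exact inner_zero_left _
    | add a c _ _ ha hc => rw [inner_add_left, ha, hc, add_zero]
    | smul a c _ hc => rw [inner_smul_left, hc, mul_zero]
  have hy : (⟨y, hmem y hy1 hy2⟩ : Sᗮ) ≠ 0 := by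
    intro h1
    exact hy0 (congrArg Subtype.val h1)
  obtain ⟨t, ht⟩ := (finrank_eq_one_iff_of_nonzero' _ hy).1 hf2 ⟨z, hmem z hz1 hz2⟩
  exact ⟨t, (congrArg Subtype.val ht).symm⟩

theorem isClosed_HP (n : ι → E 3) (b : ι → ℝ) : IsClosed (HP n b) := by
  have : HP n b = ⋂ k, {x : E 3 | inner ℝ (n k) x ≤ b k} := by
    ext x
    rw [mem_iInter]
    exact Iff.rfl
  rw [this]
  exact isClosed_iInter fun k => isClosed_le (continuous_const.inner continuous_id)
    continuous_const

theorem isClosed_Face (n : ι → E 3) (b : ι → ℝ) (i : ι) : IsClosed (Face n b i) := by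
  have : Face n b i = HP n b ∩ {x : E 3 | inner ℝ (n i) x = b i} := rfl
  rw [this]
  exact (isClosed_HP n b).inter (isClosed_eq (continuous_const.inner continuous_id)
    continuous_const)

theorem inner_comb (v x y : E 3) (s t : ℝ) :
    inner ℝ v (s • x + t • y) = s * inner ℝ v x + t * inner ℝ v y := by
  rw [inner_add_right, inner_smul_right, inner_smul_right]

theorem convex_Face (n : ι → E 3) (b : ι → ℝ) (i : ι) : Convex ℝ (Face n b i) := by
  intro x hx y hy s t hs ht hst
  have hP : s • x + t • y ∈ HP n b := by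
    intro k
    rw [inner_comb]
    have h1 := mul_le_mul_of_nonneg_left (hx.1 k) hs
    have h2 := mul_le_mul_of_nonneg_left (hy.1 k) ht
    have h3 : s * b k + t * b k = b k := by rw [← add_mul, hst, one_mul]
    linarith
  refine ⟨hP, ?_⟩
  rw [inner_comb, hx.2, hy.2, ← add_mul, hst, one_mul]

theorem exposed {i j : ι} {z0 : E 3} (hz0 : z0 ∈ Face n b i ∩ Face n b j) :
    IsExposed ℝ (HP n b) (Face n b i ∩ Face n b j) := by
  intro _
  refine ⟨innerSL ℝ (n i + n j), ?_⟩
  have hl : ∀ x, (innerSL ℝ (n i + n j)) x = inner ℝ (n i) x + inner ℝ (n j) x := by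
    intro x
    rw [innerSL_apply_apply, inner_add_left]
  ext x
  constructor
  · intro hx
    refine ⟨hx.1.1, fun y hy => ?_⟩
    rw [hl, hl, hx.1.2, hx.2.2]
    exact add_le_add (hy i) (hy j)
  · rintro ⟨hx, hx2⟩
    have h1 := hx2 z0 hz0.1.1
    rw [hl, hl, hz0.1.2, hz0.2.2] at h1
    have h2 := hx i
    have h3 := hx j
    exact ⟨⟨hx, by linarith⟩, ⟨hx, by linarith⟩⟩

/-- two points of a compact set at maximal distance -/
theorem far (F : Set (E 3)) (hc : IsCompact F) (hne : F.Nonempty) :
    ∃ p q : E 3, p ∈ F ∧ q ∈ F ∧ ∀ x ∈ F, ∀ y ∈ F, dist x y ≤ dist p q := by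
  obtain ⟨z0, hz0⟩ := hne
  have hcp : IsCompact (F ×ˢ F) := hc.prod hc
  have hne2 : (F ×ˢ F).Nonempty := ⟨(z0, z0), hz0, hz0⟩
  have hcont : ContinuousOn (fun p : E 3 × E 3 => dist p.1 p.2) (F ×ˢ F) :=
    (continuous_fst.dist continuous_snd).continuousOn
  obtain ⟨p, hp, hmax⟩ := hcp.exists_isMaxOn hne2 hcont
  refine ⟨p.1, p.2, hp.1, hp.2, fun x hx y hy => ?_⟩
  have h : (x, y) ∈ F ×ˢ F := ⟨hx, hy⟩
  exact isMaxOn_iff.1 hmax (x, y) h

/-- a compact convex set of positive diameter in a line is a segment -/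
theorem segm (F : Set (E 3)) (hc : IsCompact F) (hx : Convex ℝ F) (u v : E 3)
    (h : LinearIndependent ℝ ![u, v])
    (o : ∀ x ∈ F, ∀ y ∈ F, inner ℝ u (x - y) = 0 ∧ inner ℝ v (x - y) = 0)
    (hd : 0 < Metric.diam F) : ∃ x y : E 3, x ≠ y ∧ F = segment ℝ x y := by
  have hne : F.Nonempty := by
    by_contra h
    rw [not_nonempty_iff_eq_empty] at h
    rw [h, Metric.diam_empty] at hd
    exact lt_irrefl _ hd
  obtain ⟨z0, hz0⟩ := hne
  obtain ⟨p, q, hp, hq, hmx⟩ := far F hc ⟨z0, hz0⟩
  have hdiam : Metric.diam F ≤ dist p q := Metric.diam_le_of_forall_dist_le dist_nonneg hmx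
  have hpp : p ≠ q := by
    intro h
    rw [h, dist_self] at hdiam
    linarith
  refine ⟨p, q, hpp, ?_⟩
  apply Subset.antisymm
  · intro z hz
    obtain ⟨t, ht⟩ := line u v h (q - p) (z - p) (sub_ne_zero.2 hpp.symm)
      (o _ hq _ hp).1 (o _ hq _ hp).2 (o _ hz _ hp).1 (o _ hz _ hp).2
    have hD : 0 < ‖q - p‖ := norm_pos_iff.2 (sub_ne_zero.2 hpp.symm)
    have hd1 : dist p q = ‖q - p‖ := by rw [dist_comm, dist_eq_norm]
    have h1 : |t| * ‖q - p‖ ≤ ‖q - p‖ := by
      have h := hmx z hz p hp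
      rw [dist_eq_norm, ht, norm_smul, Real.norm_eq_abs, hd1] at h
      exact h
    have h2 : |t - 1| * ‖q - p‖ ≤ ‖q - p‖ := by
      have h := hmx z hz q hq
      have h3 : z - q = (t - 1) • (q - p) := by
        rw [sub_smul, one_smul, ← ht]
        abel
      rw [dist_eq_norm, h3, norm_smul, Real.norm_eq_abs, hd1] at h
      exact h
    have h1' : |t| ≤ 1 := by
      by_contra hc
      have := mul_lt_mul_of_pos_right (not_le.1 hc) hD
      linarith
    have h2' : |t - 1| ≤ 1 := by
      by_contra hc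
      have := mul_lt_mul_of_pos_right (not_le.1 hc) hD
      linarith
    rw [abs_le] at h1' h2'
    rw [segment_eq_image']
    refine ⟨t, ⟨by linarith, h1'.2⟩, ?_⟩
    show p + t • (q - p) = z
    rw [← ht]
    abel
  · exact hx.segment_subset hp hq

/-- a common part of positive diameter is an edge -/
theorem edge [DecidableEq ι] (hI : Irr n b) {i j : ι} (hij : i ≠ j)
    (hd : 0 < Metric.diam (Face n b i ∩ Face n b j)) :
    Pool.Agent.Work.MP_3892ce_gt.IsEdge (HP n b) (Face n b i ∩ Face n b j) := by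
  have hne : (Face n b i ∩ Face n b j).Nonempty := by
    by_contra h
    rw [not_nonempty_iff_eq_empty] at h
    rw [h, Metric.diam_empty] at hd
    exact lt_irrefl _ hd
  obtain ⟨z0, hz0⟩ := hne
  have hFc : IsCompact (Face n b i ∩ Face n b j) := by
    refine Metric.isCompact_of_isClosed_isBounded
      ((isClosed_Face n b i).inter (isClosed_Face n b j)) (hI.bdd.subset fun x hx => hx.1.1)
  refine ⟨exposed hz0, ?_⟩
  obtain ⟨e1, e2⟩ := ne_of_face hI hij hz0
  refine segm _ hFc ((convex_Face n b i).inter (convex_Face n b j)) (n i) (n j)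
    (indep hI e1 e2) ?_ hd
  intro x hx y hy
  rw [inner_sub_right, inner_sub_right, hx.1.2, hx.2.2, hy.1.2, hy.2.2, sub_self, sub_self]
  exact ⟨rfl, rfl⟩

end ZETA

open ZETA in
theorem blk_ZETA (hADJ : Stmt_ADJ) : Stmt_ZETA := by
  classical
  intro ι _ _ n b hI
  set F : ι × ι → Set (E 3) := fun p => Face n b p.1 ∩ Face n b p.2 with hF
  set Pos : Finset (ι × ι) := Finset.univ.filter fun p => 0 < len n b p.1 p.2 with hPos
  have hlen : ∀ p ∈ Pos, p.1 ≠ p.2 ∧ len n b p.1 p.2 = Metric.diam (F p) := by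
    intro p hp
    have h := (Finset.mem_filter.1 hp).2
    have h1 : p.1 ≠ p.2 := by
      intro h2
      unfold len at h
      rw [if_pos h2] at h
      exact lt_irrefl _ h
    refine ⟨h1, ?_⟩
    unfold len
    rw [if_neg h1]
  have hedge : ∀ p ∈ Pos, Pool.Agent.Work.MP_3892ce_gt.IsEdge (HP n b) (F p) := by
    intro p hp
    obtain ⟨h1, h2⟩ := hlen p hp
    refine edge hI h1 ?_
    have h := (Finset.mem_filter.1 hp).2
    rw [h2] at h
    exact h
  have hfib : ∀ p ∈ Pos, ∀ q ∈ Pos, F q = F p → q = p ∨ q = p.swap := by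
    intro p hp q hq h
    obtain ⟨_, x, hx1, hx2, hx3⟩ := hADJ ι n b hI p.1 p.2 (Finset.mem_filter.1 hp).2
    have hxP : x ∈ HP n b := by
      intro k
      by_cases h1 : k = p.1
      · rw [h1]; exact hx1.le
      by_cases h2 : k = p.2
      · rw [h2]; exact hx2.le
      exact (hx3 k h1 h2).le
    have hxF : x ∈ F q := by
      rw [h]
      exact ⟨⟨hxP, hx1⟩, ⟨hxP, hx2⟩⟩
    have hmem : ∀ k, inner ℝ (n k) x = b k → k = p.1 ∨ k = p.2 := by
      intro k hk
      by_contra hc
      push Not at hc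
      exact absurd hk (hx3 k hc.1 hc.2).ne
    have hq1 := (hlen q hq).1
    rcases hmem q.1 hxF.1.2 with h1 | h1 <;> rcases hmem q.2 hxF.2.2 with h2 | h2
    · exact absurd (h1.trans h2.symm) hq1
    · exact Or.inl (Prod.ext h1 h2)
    · exact Or.inr (Prod.ext h1 h2)
    · exact absurd (h1.trans h2.symm) hq1
  set S : Finset (Set (E 3)) := Pos.image F with hS
  -- the sum
  have hL : L n b ≤ ∑ s ∈ S, Metric.diam s := by
    have h1 : ∑ i, ∑ j, len n b i j = ∑ p ∈ Pos, Metric.diam (F p) := by
      rw [← Finset.sum_product', Finset.univ_product_univ]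
      rw [← Finset.sum_filter_add_sum_filter_not Finset.univ (fun p : ι × ι =>
        0 < len n b p.1 p.2)]
      have h2 : ∑ p ∈ Finset.univ.filter (fun p : ι × ι => ¬ 0 < len n b p.1 p.2),
          len n b p.1 p.2 = 0 := by
        refine Finset.sum_eq_zero fun p hp => ?_
        have h3 := (Finset.mem_filter.1 hp).2
        have h4 : 0 ≤ len n b p.1 p.2 := by
          unfold len
          split_ifs
          · exact le_rfl
          · exact Metric.diam_nonneg
        exact le_antisymm (not_lt.1 h3) h4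
      rw [h2, add_zero]
      exact Finset.sum_congr rfl fun p hp => (hlen p hp).2
    have h2 : ∑ p ∈ Pos, Metric.diam (F p) ≤ ∑ s ∈ S, 2 * Metric.diam s := by
      rw [← Finset.sum_fiberwise_of_maps_to (t := S) (g := F) (fun p hp =>
        Finset.mem_image_of_mem F hp)]
      refine Finset.sum_le_sum fun s hs => ?_
      obtain ⟨p, hp, rfl⟩ := Finset.mem_image.1 hs
      have h3 : ∑ q ∈ Pos with F q = F p, Metric.diam (F q) =
          ((Pos.filter fun q => F q = F p).card : ℝ) * Metric.diam (F p) := by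
        rw [← nsmul_eq_mul, ← Finset.sum_const]
        refine Finset.sum_congr rfl fun q hq => ?_
        rw [(Finset.mem_filter.1 hq).2]
      rw [h3]
      refine mul_le_mul_of_nonneg_right ?_ Metric.diam_nonneg
      have h4 : (Pos.filter fun q => F q = F p) ⊆ {p, p.swap} := by
        intro q hq
        rw [Finset.mem_filter] at hq
        rcases hfib p hp q hq.1 hq.2 with h | h
        · rw [h]; simp
        · rw [h]; simp
      have h5 := (Finset.card_le_card h4).trans Finset.card_le_two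
      exact_mod_cast h5
    unfold L
    rw [h1]
    rw [← Finset.mul_sum] at h2
    linarith
  have hSe : ∀ s : S, Pool.Agent.Work.MP_3892ce_gt.IsEdge (HP n b) s.1 := by
    intro s
    obtain ⟨p, hp, h⟩ := Finset.mem_image.1 s.2
    rw [← h]
    exact hedge p hp
  have hz := Pool.Agent.Work.MP_3892ce_gt.sum_le_zeta1 (P := HP n b) (fun s : S => s.1) hSe
    Subtype.val_injective
  refine le_trans ?_ hz
  refine (ENNReal.ofReal_le_ofReal hL).trans ?_
  rw [ENNReal.ofReal_sum_of_nonneg fun _ _ => Metric.diam_nonneg]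
  rw [← Finset.sum_coe_sort S]
  refine Finset.sum_le_sum fun s _ => ?_
  unfold Metric.diam
  exact ENNReal.ofReal_toReal_le

end Pool.Agent.Work.MP_3892ce_static
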