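import Pool.Agent.Work.MP_3892ce_static.Interface2
import Pool.Agent.Work.MP_3892ce_static.RAD6
import Pool.Agent.Work.MP_3892ce_static.ADJ
import Pool.Agent.Work.MP_3892ce_static.ZETA
import Pool.Agent.Work.MP_3892ce_static.STAT

/-! # Block CONE5: the vertices of the bounded intersection of the nine pairs (helper98) -/

set_option autoImplicit false

open Set

namespace Pool.Agent.Work.MP_3892ce_static
namespace CONE5

open RAD

variable {ι : Type} {n : ι → E 3} {b : ι → ℝ} {m : Fin 5 → ι}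

lemma ep5 (hs : Function.Injective m) {μ : Fin 5 → ℝ} (hm : Dep n b m μ)
    (h0 : ∃ l, μ l ≠ 0) (x y z w₁ w₂ w₃ : Fin 5)
    (hcov : ∀ l, l ≠ x → l ≠ y → l = w₁ ∨ l = w₂ ∨ l = w₃)
    (hxy : Adj n b (m x) (m y)) (hxz : Adj n b (m x) (m z)) (hyz : Adj n b (m y) (m z)) :
    (SignType.sign (μ w₁) = 1 ∨ SignType.sign (μ w₂) = 1 ∨ SignType.sign (μ w₃) = 1) ∧
    (SignType.sign (μ w₁) = -1 ∨ SignType.sign (μ w₂) = -1 ∨ SignType.sign (μ w₃) = -1) := by
  have e1 : x ≠ y := fun h => hxy.1 (by rw [h])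
  have e2 : x ≠ z := fun h => hxz.1 (by rw [h])
  have e3 : y ≠ z := fun h => hyz.1 (by rw [h])
  simp only [sign_eq_one_iff, sign_eq_neg_one_iff]
  constructor
  · obtain ⟨l, h1, h2, h3⟩ := exists_pos hs hm h0 e1 e2 e3 hxy hxz hyz
    rcases hcov l h1 h2 with rfl | rfl | rfl <;> simp [h3]
  · obtain ⟨l, h1, h2, h3⟩ := exists_neg hs hm h0 e1 e2 e3 hxy hxz hyz
    rcases hcov l h1 h2 with rfl | rfl | rfl <;> simp [h3]

/-- the relation between the five slack functions -/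
lemma nine_dep (hs : Function.Injective m) (h9 : NinePairs n b m) :
    ∃ μ : Fin 5 → ℝ, Dep n b m μ ∧ 0 < μ 3 ∧ 0 < μ 4 ∧ μ 0 < 0 ∧ μ 1 < 0 ∧ μ 2 < 0 := by
  have A : ∀ i j : Fin 5, i < j → ¬ (i = 3 ∧ j = 4) → Adj n b (m i) (m j) := h9
  have a01 := A 0 1 (by decide) (by decide)
  have a02 := A 0 2 (by decide) (by decide)
  have a03 := A 0 3 (by decide) (by decide)
  have a04 := A 0 4 (by decide) (by decide)
  have a12 := A 1 2 (by decide) (by decide)
  have a13 := A 1 3 (by decide) (by decide)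
  have a14 := A 1 4 (by decide) (by decide)
  have a23 := A 2 3 (by decide) (by decide)
  have a24 := A 2 4 (by decide) (by decide)
  obtain ⟨μ, hμ, h0⟩ := exists_dep5 n b m
  -- a = 3, b = 4, c = 0, d = 1, e = 2
  have A1 := ep5 hs hμ h0 0 1 2 3 4 2 (by decide) a01 a02 a12
  have A2 := ep5 hs hμ h0 0 2 1 3 4 1 (by decide) a02 a01 (Adj.swap a12)
  have A3 := ep5 hs hμ h0 1 2 0 3 4 0 (by decide) a12 (Adj.swap a01) (Adj.swap a02)
  have A4 := ep5 hs hμ h0 0 3 1 4 1 2 (by decide) a03 a01 (Adj.swap a13)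
  have A5 := ep5 hs hμ h0 1 3 0 4 0 2 (by decide) a13 (Adj.swap a01) (Adj.swap a03)
  have A6 := ep5 hs hμ h0 2 3 0 4 0 1 (by decide) a23 (Adj.swap a02) (Adj.swap a03)
  have A7 := ep5 hs hμ h0 0 4 1 3 1 2 (by decide) a04 a01 (Adj.swap a14)
  have A8 := ep5 hs hμ h0 1 4 0 3 0 2 (by decide) a14 (Adj.swap a01) (Adj.swap a04)
  have A9 := ep5 hs hμ h0 2 4 0 3 0 1 (by decide) a24 (Adj.swap a02) (Adj.swap a04)
  rcases sign_table _ _ _ _ _ A1.1 A2.1 A3.1 A4.1 A5.1 A6.1 A7.1 A8.1 A9.1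
      A1.2 A2.2 A3.2 A4.2 A5.2 A6.2 A7.2 A8.2 A9.2 with h | h
  · simp only [sign_eq_one_iff, sign_eq_neg_one_iff] at h
    exact ⟨μ, hμ, h⟩
  · simp only [sign_eq_one_iff, sign_eq_neg_one_iff] at h
    obtain ⟨h1, h2, h3, h4, h5⟩ := h
    exact ⟨fun k => - μ k, hμ.neg, neg_pos.2 h1, neg_pos.2 h2, neg_lt_zero.2 h3,
      neg_lt_zero.2 h4, neg_lt_zero.2 h5⟩

/-- a bounded intersection of half-spaces contains no ray -/
lemma no_ray {κ : Type} {n : κ → E 3} {b : κ → ℝ} (hb : Bornology.IsBounded (HP n b)) {x v : E 3}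
    (hx : x ∈ HP n b) (hv : ∀ k, inner ℝ (n k) v ≤ 0) : v = 0 := by
  by_contra hv0
  obtain ⟨R, hR⟩ := hb.exists_norm_le
  have hmem : ∀ s : ℝ, 0 ≤ s → x + s • v ∈ HP n b := by
    intro s hs k
    rw [inner_add_right, inner_smul_right]
    have := mul_nonpos_of_nonneg_of_nonpos hs (hv k)
    have h2 := hx k
    linarith
  have hvn : 0 < ‖v‖ := norm_pos_iff.2 hv0
  have hR0 : 0 ≤ R := (norm_nonneg _).trans (hR x hx)
  have h1 := hR _ (hmem ((R + ‖x‖ + 1) / ‖v‖) (by positivity))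
  have h2 : ‖((R + ‖x‖ + 1) / ‖v‖) • v‖ = R + ‖x‖ + 1 := by
    rw [norm_smul, Real.norm_eq_abs, abs_of_nonneg (by positivity), div_mul_cancel₀ _ hvn.ne']
  have h3 : ‖((R + ‖x‖ + 1) / ‖v‖) • v‖ ≤ ‖x + ((R + ‖x‖ + 1) / ‖v‖) • v‖ + ‖x‖ := by
    have : ((R + ‖x‖ + 1) / ‖v‖) • v = (x + ((R + ‖x‖ + 1) / ‖v‖) • v) - x := by abel
    calc ‖((R + ‖x‖ + 1) / ‖v‖) • v‖ = ‖(x + ((R + ‖x‖ + 1) / ‖v‖) • v) - x‖ := by rw [← this]
      _ ≤ _ := norm_sub_le _ _
  rw [h2] at h3
  linarith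

/-- the vertex of the intersection `Q` of the nine pairs in the facets `t, i, j` -/
lemma vertex (μ : Fin 5 → ℝ) (hμ : Dep n b m μ) (hb : Bornology.IsBounded
      (HP (fun k => n (m k)) (fun k => b (m k)))) {x0 : E 3}
    (hx0 : ∀ k, inner ℝ (n (m k)) x0 < b (m k)) (t t' i j l : Fin 5)
    (hu : (Finset.univ : Finset (Fin 5)) = {t, t', i, j, l}) (ht' : 0 < μ t') (hl : μ l < 0) :
    ∃ X : E 3, inner ℝ (n (m t)) X = b (m t) ∧ inner ℝ (n (m i)) X = b (m i) ∧
      inner ℝ (n (m j)) X = b (m j) ∧ X ∈ HP (fun k => n (m k)) (fun k => b (m k)) := by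
  have hcov : ∀ k : Fin 5, k = t ∨ k = t' ∨ k = i ∨ k = j ∨ k = l := by
    intro k
    have := Finset.mem_univ k
    rw [hu] at this
    simpa using this
  have hcard : ({t, t', i, j, l} : Finset (Fin 5)).card = 5 := by rw [← hu]; rfl
  have hdis : t ∉ ({t', i, j, l} : Finset (Fin 5)) ∧ t' ∉ ({i, j, l} : Finset (Fin 5)) ∧
      i ∉ ({j, l} : Finset (Fin 5)) ∧ j ∉ ({l} : Finset (Fin 5)) := by
    have tab : ∀ t t' i j l : Fin 5, ({t, t', i, j, l} : Finset (Fin 5)).card = 5 →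
        t ∉ ({t', i, j, l} : Finset (Fin 5)) ∧ t' ∉ ({i, j, l} : Finset (Fin 5)) ∧
        i ∉ ({j, l} : Finset (Fin 5)) ∧ j ∉ ({l} : Finset (Fin 5)) := by decide +kernel
    exact tab t t' i j l hcard
  have hsum : ∀ f : Fin 5 → ℝ, ∑ k, f k = f t + f t' + f i + f j + f l := by
    intro f
    rw [hu, Finset.sum_insert hdis.1, Finset.sum_insert hdis.2.1, Finset.sum_insert hdis.2.2.1,
      Finset.sum_insert hdis.2.2.2, Finset.sum_singleton]
    ring
  have hx0' : x0 ∈ HP (fun k => n (m k)) (fun k => b (m k)) := fun k => (hx0 k).le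
  -- the linear part of the relation
  have hlin : ∀ v : E 3, ∑ k, μ k * inner ℝ (n (m k)) v = 0 := by
    intro v
    have h1 := hμ v
    have h2 := hμ 0
    have h3 : ∑ k, μ k * inner ℝ (n (m k)) v =
        ∑ k, μ k * (b (m k) - inner ℝ (n (m k)) 0) - ∑ k, μ k * (b (m k) - inner ℝ (n (m k)) v) := by
      rw [← Finset.sum_sub_distrib]
      refine Finset.sum_congr rfl fun k _ => ?_
      rw [inner_zero_right]
      ring
    rw [h3, h1, h2, sub_zero]
  -- the three normals are independent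
  let Φ : E 3 →ₗ[ℝ] (Fin 3 → ℝ) := LinearMap.pi
    ![(innerSL ℝ (n (m t))).toLinearMap, (innerSL ℝ (n (m i))).toLinearMap,
      (innerSL ℝ (n (m j))).toLinearMap]
  have hΦ0 : ∀ v, Φ v 0 = inner ℝ (n (m t)) v := fun v => rfl
  have hΦ1 : ∀ v, Φ v 1 = inner ℝ (n (m i)) v := fun v => rfl
  have hΦ2 : ∀ v, Φ v 2 = inner ℝ (n (m j)) v := fun v => rfl
  have hinj : Function.Injective Φ := by
    rw [← LinearMap.ker_eq_bot, LinearMap.ker_eq_bot']
    intro v hv
    have e0 : inner ℝ (n (m t)) v = 0 := by rw [← hΦ0, hv]; rfl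
    have e1 : inner ℝ (n (m i)) v = 0 := by rw [← hΦ1, hv]; rfl
    have e2 : inner ℝ (n (m j)) v = 0 := by rw [← hΦ2, hv]; rfl
    have h1 := hlin v
    rw [hsum, e0, e1, e2] at h1
    have h2 : μ t' * inner ℝ (n (m t')) v = - μ l * inner ℝ (n (m l)) v := by linarith
    rcases le_total (inner ℝ (n (m l)) v) 0 with h3 | h3
    · refine no_ray hb hx0' fun k => ?_
      rcases hcov k with rfl | rfl | rfl | rfl | rfl
      · exact e0.le
      · by_contra hc
        have := mul_pos ht' (not_le.1 hc)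
        nlinarith
      · exact e1.le
      · exact e2.le
      · exact h3
    · have := no_ray (v := -v) hb hx0' fun k => ?_
      · exact neg_eq_zero.1 this
      rw [inner_neg_right, neg_nonpos]
      rcases hcov k with rfl | rfl | rfl | rfl | rfl
      · exact e0.ge
      · by_contra hc
        have := mul_pos_of_neg_of_neg (neg_lt_zero.2 ht') (not_le.1 hc)
        nlinarith
      · exact e1.ge
      · exact e2.ge
      · exact h3
  have hsur : Function.Surjective Φ :=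
    (LinearMap.injective_iff_surjective_of_finrank_eq_finrank (by simp)).1 hinj
  obtain ⟨X, hX⟩ := hsur ![b (m t), b (m i), b (m j)]
  have e0 : inner ℝ (n (m t)) X = b (m t) := by rw [← hΦ0, hX]; rfl
  have e1 : inner ℝ (n (m i)) X = b (m i) := by rw [← hΦ1, hX]; rfl
  have e2 : inner ℝ (n (m j)) X = b (m j) := by rw [← hΦ2, hX]; rfl
  refine ⟨X, e0, e1, e2, ?_⟩
  have h1 := hμ X
  rw [hsum, e0, e1, e2] at h1
  have h2 : μ t' * (b (m t') - inner ℝ (n (m t')) X) =
    - μ l * (b (m l) - inner ℝ (n (m l)) X) := by linarith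
  have key : 0 ≤ b (m l) - inner ℝ (n (m l)) X := by
    by_contra hc
    push Not at hc
    have hc' : b (m t') - inner ℝ (n (m t')) X < 0 := by
      by_contra hd
      push Not at hd
      have := mul_nonneg ht'.le hd
      nlinarith
    have hv : x0 - X = 0 := by
      refine no_ray hb hx0' fun k => ?_
      rw [inner_sub_right]
      have h5 := hx0 k
      rcases hcov k with rfl | rfl | rfl | rfl | rfl <;> linarith
    have h6 := hx0 t
    rw [sub_eq_zero.1 hv, e0] at h6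
    exact lt_irrefl _ h6
  have key' : 0 ≤ b (m t') - inner ℝ (n (m t')) X := by
    by_contra hd
    push Not at hd
    have := mul_pos_of_neg_of_neg (neg_lt_zero.2 ht') hd
    nlinarith
  intro k
  show inner ℝ (n (m k)) X ≤ b (m k)
  rcases hcov k with rfl | rfl | rfl | rfl | rfl <;> linarith

/-- coordinates of a vector in a frame -/
lemma decomp {a : E 3} {U : E 2 →ₗᵢ[ℝ] E 3} (h : Frame a U) (x : E 3) :
    x = inner ℝ a x • a + U (LinearMap.adjoint U.toLinearMap x) := by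
  obtain ⟨y, hy⟩ := STAT.onto h x
  have : LinearMap.adjoint U.toLinearMap x = y := by
    refine ext_inner_right ℝ fun z => ?_
    rw [LinearMap.adjoint_inner_left]
    show inner ℝ x (U z) = inner ℝ y z
    conv_lhs => rw [hy]
    rw [inner_add_left, inner_smul_left, h.orth, mul_zero, zero_add, U.inner_map_map]
  rw [this]
  exact hy

end CONE5

open CONE5 in
theorem blk_CONE5 : Stmt_CONE5 := by
  classical
  intro ι _ _ n b U hF hI m hm h9 hb t i j ht hi hj hij p q r k hpqr hkp hkq hkr hlen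
  rintro ⟨α, β, hα, hβ, hν⟩
  obtain ⟨μ, hμ, μ3, μ4, μ0, μ1, μ2⟩ := nine_dep hm h9
  obtain ⟨x0, hx0⟩ := hI.int
  -- the vertex
  obtain ⟨X, hXt, hXi, hXj, hXQ⟩ : ∃ X : E 3, inner ℝ (n (m t)) X = b (m t) ∧
      inner ℝ (n (m i)) X = b (m i) ∧
      inner ℝ (n (m j)) X = b (m j) ∧ X ∈ HP (fun k => n (m k)) (fun k => b (m k)) := by
    have hV := fun t t' i j l hu ht' hl =>
      vertex (n := n) (b := b) (m := m) μ hμ hb (fun k => hx0 (m k)) t t' i j l hu ht' hl
    have tab : ∀ t i j : Fin 5, (t = 3 ∨ t = 4) → i ≤ 2 → j ≤ 2 → i ≠ j →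
        ∃ t' l : Fin 5, (t' = 3 ∨ t' = 4) ∧ (l = 0 ∨ l = 1 ∨ l = 2) ∧
          (Finset.univ : Finset (Fin 5)) = {t, t', i, j, l} := by decide +kernel
    obtain ⟨t', l, h1, h2, h3⟩ := tab t i j ht hi hj hij
    refine hV t t' i j l h3 ?_ ?_
    · rcases h1 with rfl | rfl
      · exact μ3
      · exact μ4
    · rcases h2 with rfl | rfl | rfl
      · exact μ0
      · exact μ1
      · exact μ2
  have hXv : ∀ s ∈ ({t, i, j} : Finset (Fin 5)), inner ℝ (n (m s)) X = b (m s) := by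
    intro s hs
    simp only [Finset.mem_insert, Finset.mem_singleton] at hs
    rcases hs with rfl | rfl | rfl
    · exact hXt
    · exact hXi
    · exact hXj
  have hXp : inner ℝ (n (m p)) X = b (m p) := hXv p (by rw [← hpqr]; simp)
  have hXq : inner ℝ (n (m q)) X = b (m q) := hXv q (by rw [← hpqr]; simp)
  have hXr : inner ℝ (n (m r)) X = b (m r) := hXv r (by rw [← hpqr]; simp)
  have hXk : inner ℝ (n (m k)) X ≤ b (m k) := hXQ k
  -- p, q, r are different
  have hdis : p ≠ q ∧ p ≠ r := by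
    have tab1 : ∀ t i j : Fin 5, (t = 3 ∨ t = 4) → i ≤ 2 → j ≤ 2 → i ≠ j →
        ({t, i, j} : Finset (Fin 5)).card = 3 := by decide +kernel
    have tab2 : ∀ p q r : Fin 5, ({p, q, r} : Finset (Fin 5)).card = 3 → p ≠ q ∧ p ≠ r := by
      decide +kernel
    exact tab2 p q r (by rw [hpqr]; exact tab1 t i j ht hi hj hij)
  -- the adjacent pair
  obtain ⟨hne, x, hx1, hx2, hx3⟩ := blk_ADJ ι n b hI (m p) (m k) hlen
  have hxq : inner ℝ (n (m q)) x < b (m q) :=
    hx3 (m q) (fun h => hdis.1 (hm h).symm) (fun h => hkq (hm h).symm)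
  have hxr : inner ℝ (n (m r)) x < b (m r) :=
    hx3 (m r) (fun h => hdis.2 (hm h).symm) (fun h => hkr (hm h).symm)
  have hxF : x ∈ Face n b (m p) ∩ Face n b (m k) := by
    have hxP : x ∈ HP n b := by
      intro s
      by_cases h1 : s = m p
      · rw [h1]; exact hx1.le
      by_cases h2 : s = m k
      · rw [h2]; exact hx2.le
      exact (hx3 s h1 h2).le
    exact ⟨⟨hxP, hx1⟩, ⟨hxP, hx2⟩⟩
  obtain ⟨hn1, hn2⟩ := ZETA.ne_of_face hI hne hxF
  -- the relation between the normals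
  set A := LinearMap.adjoint (U (m p)).toLinearMap with hA
  set α' : ℝ := ‖A (n (m k))‖ * (α * ‖A (n (m q))‖⁻¹) with hα'
  set β' : ℝ := ‖A (n (m k))‖ * (β * ‖A (n (m r))‖⁻¹) with hβ'
  have hα0 : 0 ≤ α' := by positivity
  have hβ0 : 0 ≤ β' := by positivity
  have hAk : A (n (m k)) = α' • A (n (m q)) + β' • A (n (m r)) := by
    have h1 : ‖A (n (m k))‖ • nu n U (m p) (m k) = A (n (m k)) := by
      unfold nu
      rw [← hA, smul_smul]
      by_cases h0 : A (n (m k)) = 0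
      · rw [h0]; simp
      · rw [mul_inv_cancel₀ (norm_ne_zero_iff.2 h0), one_smul]
    rw [← h1, hν]
    unfold nu
    rw [← hA, smul_add, smul_smul, smul_smul, smul_smul, smul_smul, hα', hβ']
    congr 1 <;> congr 1 <;> ring
  set c : ℝ := inner ℝ (n (m p)) (n (m k) - (α' • n (m q) + β' • n (m r))) with hc
  have hrel : n (m k) = c • n (m p) + (α' • n (m q) + β' • n (m r)) := by
    have h1 := decomp (hF (m p)) (n (m k) - (α' • n (m q) + β' • n (m r)))
    have h2 : LinearMap.adjoint (U (m p)).toLinearMap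
        (n (m k) - (α' • n (m q) + β' • n (m r))) = 0 := by
      rw [← hA, map_sub, map_add, map_smul, map_smul, hAk, sub_self]
    rw [h2, map_zero, add_zero, ← hc] at h1
    rw [← h1]
    abel
  have hev : ∀ y : E 3, inner ℝ (n (m k)) y = c * inner ℝ (n (m p)) y +
      (α' * inner ℝ (n (m q)) y + β' * inner ℝ (n (m r)) y) := by
    intro y
    conv_lhs => rw [hrel]
    rw [inner_add_left, inner_add_left, real_inner_smul_left, real_inner_smul_left,
      real_inner_smul_left]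
  have h1 := hev X
  have h2 := hev x
  rw [hXp, hXq, hXr] at h1
  rw [hx1, hx2] at h2
  have h3 : α' * (b (m q) - inner ℝ (n (m q)) x) + β' * (b (m r) - inner ℝ (n (m r)) x) ≤ 0 := by
    linarith
  have h4 := mul_nonneg hα0 (sub_pos.2 hxq).le
  have h5 := mul_nonneg hβ0 (sub_pos.2 hxr).le
  have hα00 : α' = 0 := by
    have : α' * (b (m q) - inner ℝ (n (m q)) x) = 0 := by linarith
    rcases mul_eq_zero.1 this with h | h
    · exact h
    · exact absurd h (sub_pos.2 hxq).ne'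
  have hβ00 : β' = 0 := by
    have : β' * (b (m r) - inner ℝ (n (m r)) x) = 0 := by linarith
    rcases mul_eq_zero.1 this with h | h
    · exact h
    · exact absurd h (sub_pos.2 hxr).ne'
  rw [hα00, hβ00, zero_smul, zero_smul, add_zero, add_zero] at hrel
  have h6 : ‖n (m k)‖ = |c| * ‖n (m p)‖ := by
    conv_lhs => rw [hrel]
    rw [norm_smul, Real.norm_eq_abs]
  rw [hI.unit, hI.unit, mul_one] at h6
  rcases (abs_eq (by norm_num : (0 : ℝ) ≤ 1)).1 h6.symm with h7 | h7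
  · rw [h7, one_smul] at hrel
    exact hn1 hrel.symm
  · rw [h7, neg_smul, one_smul] at hrel
    apply hn2
    rw [hrel, neg_neg]

end Pool.Agent.Work.MP_3892ce_static
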