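import Pool.Agent.Work.MP_3892ce_static.Interface

/-! # Block RAD5: no five facets are pairwise adjacent -/

set_option autoImplicit false

open Set

namespace Pool.Agent.Work.MP_3892ce_static
namespace RAD

variable {N : ℕ} {ι : Type} (n : ι → E 3) (b : ι → ℝ) (s : Fin N → ι)

/-- a linear relation between the slack functions of the facets `s k` -/
def Dep (m : Fin N → ℝ) : Prop := ∀ x : E 3, ∑ k, m k * (b (s k) - inner ℝ (n (s k)) x) = 0

variable {n b s}

lemma Dep.neg {m : Fin N → ℝ} (h : Dep n b s m) : Dep n b s (fun k => - m k) := by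
  intro x
  have := h x
  simp only [neg_mul, Finset.sum_neg_distrib, this, neg_zero]

lemma Dep.add {m m' : Fin N → ℝ} (h : Dep n b s m) (h' : Dep n b s m') (c c' : ℝ) :
    Dep n b s (fun k => c * m k + c' * m' k) := by
  intro x
  have h1 := h x
  have h2 := h' x
  have : ∑ k, (c * m k + c' * m' k) * (b (s k) - inner ℝ (n (s k)) x) =
      c * ∑ k, m k * (b (s k) - inner ℝ (n (s k)) x) +
      c' * ∑ k, m' k * (b (s k) - inner ℝ (n (s k)) x) := by
    rw [Finset.mul_sum, Finset.mul_sum, ← Finset.sum_add_distrib]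
    exact Finset.sum_congr rfl (fun k _ => by ring)
  rw [this, h1, h2]; ring

lemma zero_of (hs : Function.Injective s) {m : Fin N → ℝ} (hm : Dep n b s m) {i j : Fin N}
    (hij : Adj n b (s i) (s j)) (h : ∀ l, l ≠ i → l ≠ j → m l ≤ 0) :
    ∀ l, l ≠ i → l ≠ j → m l = 0 := by
  obtain ⟨_, x, hx1, hx2, hx3⟩ := hij
  have hsum := hm x
  have hpos : ∀ l, l ≠ i → l ≠ j → 0 < b (s l) - inner ℝ (n (s l)) x := by
    intro l h1 h2
    have := hx3 (s l) (fun e => h1 (hs e)) (fun e => h2 (hs e))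
    linarith
  have hle : ∀ k ∈ (Finset.univ : Finset (Fin N)),
      m k * (b (s k) - inner ℝ (n (s k)) x) ≤ 0 := by
    intro k _
    by_cases h1 : k = i
    · subst h1; rw [hx1]; simp
    by_cases h2 : k = j
    · subst h2; rw [hx2]; simp
    exact mul_nonpos_of_nonpos_of_nonneg (h k h1 h2) (hpos k h1 h2).le
  have hz := (Finset.sum_eq_zero_iff_of_nonpos hle).1 hsum
  intro l h1 h2
  have := hz l (Finset.mem_univ l)
  rcases mul_eq_zero.1 this with h3 | h3
  · exact h3
  · exact absurd h3 (hpos l h1 h2).ne'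

/-- a relation supported by `i, j` has no `j` part if `i` and a third facet are adjacent -/
lemma zero_of_two (hs : Function.Injective s) {m : Fin N → ℝ} (hm : Dep n b s m) {i j k : Fin N}
    (hji : j ≠ i) (hjk : j ≠ k) (hik : Adj n b (s i) (s k))
    (h : ∀ l, l ≠ i → l ≠ j → m l = 0) : m j = 0 := by
  obtain ⟨_, x, hx1, hx2, hx3⟩ := hik
  have hsum := hm x
  have hpos : 0 < b (s j) - inner ℝ (n (s j)) x := by
    have := hx3 (s j) (fun e => hji (hs e)) (fun e => hjk (hs e))
    linarith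
  rw [Finset.sum_eq_single j] at hsum
  · rcases mul_eq_zero.1 hsum with h3 | h3
    · exact h3
    · exact absurd h3 hpos.ne'
  · intro l _ hlj
    by_cases hli : l = i
    · subst hli; rw [hx1]; simp
    · rw [h l hli hlj]; simp
  · intro hj; exact absurd (Finset.mem_univ j) hj

lemma exists_pos (hs : Function.Injective s) {m : Fin N → ℝ} (hm : Dep n b s m)
    (h0 : ∃ l, m l ≠ 0) {i j k : Fin N} (hij' : i ≠ j) (hik' : i ≠ k) (hjk' : j ≠ k)
    (hij : Adj n b (s i) (s j)) (hik : Adj n b (s i) (s k)) (hjk : Adj n b (s j) (s k)) :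
    ∃ l, l ≠ i ∧ l ≠ j ∧ 0 < m l := by
  by_contra hcon
  push Not at hcon
  have hz := zero_of hs hm hij hcon
  have hj := zero_of_two hs hm hij'.symm hjk' hik hz
  have hi := zero_of_two hs hm hij' hik' hjk (fun l h1 h2 => hz l h2 h1)
  obtain ⟨l, hl⟩ := h0
  apply hl
  by_cases h1 : l = i
  · rw [h1]; exact hi
  by_cases h2 : l = j
  · rw [h2]; exact hj
  exact hz l h1 h2

lemma exists_neg (hs : Function.Injective s) {m : Fin N → ℝ} (hm : Dep n b s m)
    (h0 : ∃ l, m l ≠ 0) {i j k : Fin N} (hij' : i ≠ j) (hik' : i ≠ k) (hjk' : j ≠ k)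
    (hij : Adj n b (s i) (s j)) (hik : Adj n b (s i) (s k)) (hjk : Adj n b (s j) (s k)) :
    ∃ l, l ≠ i ∧ l ≠ j ∧ m l < 0 := by
  obtain ⟨l, h1, h2, h3⟩ := exists_pos hs hm.neg
    (by obtain ⟨l, hl⟩ := h0; exact ⟨l, neg_ne_zero.2 hl⟩) hij' hik' hjk' hij hik hjk
  exact ⟨l, h1, h2, by linarith⟩

/-- five slack functions are linearly dependent -/
lemma exists_dep5 (n : ι → E 3) (b : ι → ℝ) (s : Fin 5 → ι) :
    ∃ m : Fin 5 → ℝ, Dep n b s m ∧ ∃ l, m l ≠ 0 := by
  have hnot : ¬ LinearIndependent ℝ (fun k : Fin 5 => ((n (s k), b (s k)) : E 3 × ℝ)) := by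
    intro h
    have := h.fintype_card_le_finrank
    simp at this
  rw [Fintype.not_linearIndependent_iff] at hnot
  obtain ⟨g, hg, l, hl⟩ := hnot
  refine ⟨g, ?_, l, hl⟩
  intro x
  have h1 : ∑ k, g k • n (s k) = 0 := by
    have := congrArg Prod.fst hg
    simpa [Prod.fst_sum] using this
  have h2 : ∑ k, g k * b (s k) = 0 := by
    have := congrArg Prod.snd hg
    simpa [Prod.snd_sum] using this
  have h3 : ∑ k, g k * inner ℝ (n (s k)) x = 0 := by
    have : inner ℝ (∑ k, g k • n (s k)) x = 0 := by rw [h1, inner_zero_left]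
    rw [sum_inner] at this
    simpa [real_inner_smul_left] using this
  calc ∑ k, g k * (b (s k) - inner ℝ (n (s k)) x)
      = ∑ k, g k * b (s k) - ∑ k, g k * inner ℝ (n (s k)) x := by
        rw [← Finset.sum_sub_distrib]; exact Finset.sum_congr rfl (fun k _ => by ring)
    _ = 0 := by rw [h2, h3, sub_zero]

lemma core5 {s : Fin 5 → ι} (hs : Function.Injective s)
    (hadj : ∀ i j, i ≠ j → Adj n b (s i) (s j)) {m : Fin 5 → ℝ} (hm : Dep n b s m)
    (h0 : ∃ l, m l ≠ 0) (hcard : (Finset.univ.filter (fun l => 0 < m l)).card ≤ 2) : False := by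
  obtain ⟨u, hu1, _, hu3⟩ := Finset.exists_subsuperset_card_eq
    (Finset.subset_univ (Finset.univ.filter (fun l => 0 < m l))) hcard (by simp)
  obtain ⟨i, j, hij, rfl⟩ := Finset.card_eq_two.1 hu3
  have key : ∀ i j : Fin 5, ∃ k : Fin 5, k ≠ i ∧ k ≠ j := by decide
  obtain ⟨k, hk⟩ := key i j
  obtain ⟨l, h1, h2, h3⟩ := exists_pos hs hm h0 hij hk.1.symm hk.2.symm (hadj i j hij)
    (hadj i k hk.1.symm) (hadj j k hk.2.symm)
  have : l ∈ ({i, j} : Finset (Fin 5)) := hu1 (by simp [h3])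
  simp only [Finset.mem_insert, Finset.mem_singleton] at this
  rcases this with h | h
  · exact h1 h
  · exact h2 h

end RAD

theorem blk_RAD5 : Stmt_RAD5 := by
  intro ι n b _ s hs hadj
  obtain ⟨m, hm, h0⟩ := RAD.exists_dep5 n b s
  have hdis : Disjoint (Finset.univ.filter (fun l => 0 < m l))
      (Finset.univ.filter (fun l => 0 < - m l)) := by
    rw [Finset.disjoint_filter]
    intro l _ h1 h2
    linarith
  have hcard := Finset.card_union_of_disjoint hdis
  have hle : (Finset.univ.filter (fun l => 0 < m l) ∪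
      Finset.univ.filter (fun l => 0 < - m l)).card ≤ 5 := by
    simpa using Finset.card_le_univ (Finset.univ.filter (fun l => 0 < m l) ∪
      Finset.univ.filter (fun l => 0 < - m l))
  rcases Nat.lt_or_ge (Finset.univ.filter (fun l => 0 < m l)).card 3 with h | h
  · exact RAD.core5 hs hadj hm h0 (by omega)
  · exact RAD.core5 hs hadj hm.neg (by obtain ⟨l, hl⟩ := h0; exact ⟨l, neg_ne_zero.2 hl⟩)
      (by omega)

end Pool.Agent.Work.MP_3892ce_static
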