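import Pool.Agent.Work.MP_3892ce_static.Interface2
import Pool.Agent.Work.MP_3892ce_static.RAD5

/-! # Melzak's problem, static method, block `FILL`: filling the vertices of `Q`

`Q` is the intersection of the five half-spaces. A further facet `s` of `P` satisfies
`b s ≤ ⟪n s, e⟫` for exactly one vertex `e` of `Q`. All facets at one vertex are removed at a time:
only the three lengths at this vertex change, and the planar closing relations of the three facets
give the difference. -/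

set_option autoImplicit false

open MeasureTheory Set
open scoped ENNReal Pointwise

namespace Pool.Agent.Work.MP_3892ce_static
namespace FILL

/-! ## Linear algebra in `E 3` -/

lemma exists_orth (w1 w2 : E 3) : ∃ u : E 3, u ≠ 0 ∧ inner ℝ w1 u = 0 ∧ inner ℝ w2 u = 0 := by
  have hne : (Submodule.span ℝ (Set.range ![w1, w2]))ᗮ ≠ ⊥ := by
    intro h
    rw [Submodule.orthogonal_eq_bot_iff] at h
    have h1 := finrank_range_le_card (R := ℝ) ![w1, w2]
    unfold Set.finrank at h1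
    rw [h, finrank_top] at h1
    simp at h1
  obtain ⟨u, hu, hu0⟩ := Submodule.exists_mem_ne_zero_of_ne_bot hne
  rw [Submodule.mem_orthogonal] at hu
  exact ⟨u, hu0, hu w1 (Submodule.subset_span ⟨0, rfl⟩), hu w2 (Submodule.subset_span ⟨1, rfl⟩)⟩

lemma dual_zero {a1 a2 a3 u1 u2 u3 v : E 3} (h11 : inner ℝ a1 u1 ≠ 0) (h22 : inner ℝ a2 u2 ≠ 0)
    (h33 : inner ℝ a3 u3 ≠ 0) (h12 : inner ℝ a1 u2 = 0) (h13 : inner ℝ a1 u3 = 0)
    (h21 : inner ℝ a2 u1 = 0) (h23 : inner ℝ a2 u3 = 0) (h31 : inner ℝ a3 u1 = 0)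
    (h32 : inner ℝ a3 u2 = 0) (h1 : inner ℝ a1 v = 0) (h2 : inner ℝ a2 v = 0)
    (h3 : inner ℝ a3 v = 0) : v = 0 := by
  by_contra hv
  have hnot : ¬ LinearIndependent ℝ ![u1, u2, u3, v] := by
    intro h
    have := h.fintype_card_le_finrank
    simp at this
  rw [Fintype.not_linearIndependent_iff] at hnot
  obtain ⟨g, hg, l, hl⟩ := hnot
  simp only [Fin.sum_univ_four, Matrix.cons_val] at hg
  have e1 := congrArg (inner ℝ a1) hg
  have e2 := congrArg (inner ℝ a2) hg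
  have e3 := congrArg (inner ℝ a3) hg
  simp only [inner_add_right, real_inner_smul_right, inner_zero_right, h12, h13, h21, h23, h31,
    h32, h1, h2, h3, mul_zero, add_zero, zero_add, mul_eq_zero, h11, h22, h33, or_false] at e1 e2 e3
  rw [e1, e2, e3] at hg
  simp only [zero_smul, zero_add, smul_eq_zero, hv, or_false] at hg
  apply hl
  fin_cases l
  · exact e1
  · exact e2
  · exact e3
  · exact hg

/-! ## Rays in bounded intersections -/

lemma exit {κ : Type} [Fintype κ] (n : κ → E 3) (b : κ → ℝ) (hb : Bornology.IsBounded (HP n b))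
    {x u : E 3} (hx : x ∈ HP n b) (hu : u ≠ 0) :
    ∃ τ : ℝ, 0 ≤ τ ∧ x + τ • u ∈ HP n b ∧
      ∃ r, inner ℝ (n r) (x + τ • u) = b r ∧ 0 < inner ℝ (n r) u := by
  classical
  have hne : (Finset.univ.filter (fun k => 0 < inner ℝ (n k) u)).Nonempty := by
    by_contra hcon
    rw [Finset.not_nonempty_iff_eq_empty] at hcon
    have hle : ∀ k, inner ℝ (n k) u ≤ 0 := by
      intro k
      by_contra h
      have : k ∈ Finset.univ.filter (fun k => 0 < inner ℝ (n k) u) := by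
        simp only [Finset.mem_filter, Finset.mem_univ, true_and]
        exact not_le.1 h
      rw [hcon] at this
      simp at this
    obtain ⟨R, hR⟩ := hb.exists_norm_le
    have hun : 0 < ‖u‖ := norm_pos_iff.2 hu
    set τ : ℝ := (|R| + ‖x‖ + 1) / ‖u‖ with hτ
    have hτ0 : 0 ≤ τ := by positivity
    have hmem : x + τ • u ∈ HP n b := by
      intro k
      rw [inner_add_right, real_inner_smul_right]
      have := hx k
      have := mul_nonpos_of_nonneg_of_nonpos hτ0 (hle k)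
      linarith
    have h1 := hR _ hmem
    have h2 : ‖τ • u‖ ≤ ‖x + τ • u‖ + ‖x‖ := by
      have := norm_sub_le (x + τ • u) x
      simpa using this
    rw [norm_smul, Real.norm_of_nonneg hτ0, hτ, div_mul_cancel₀ _ hun.ne'] at h2
    have := le_abs_self R
    linarith
  obtain ⟨r, hr, hmin⟩ := Finset.exists_min_image _
    (fun k => (b k - inner ℝ (n k) x) / inner ℝ (n k) u) hne
  simp only [Finset.mem_filter, Finset.mem_univ, true_and] at hr hmin
  refine ⟨(b r - inner ℝ (n r) x) / inner ℝ (n r) u, ?_, ?_, r, ?_, hr⟩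
  · apply div_nonneg _ hr.le
    have := hx r
    linarith
  · intro k
    rw [inner_add_right, real_inner_smul_right]
    rcases le_or_gt (inner ℝ (n k) u) 0 with h | h
    · have h1 : 0 ≤ (b r - inner ℝ (n r) x) / inner ℝ (n r) u := by
        apply div_nonneg _ hr.le
        have := hx r
        linarith
      have := hx k
      have := mul_nonpos_of_nonneg_of_nonpos h1 h
      linarith
    · have := hmin k h
      rw [le_div_iff₀ h] at this
      linarith
  · rw [inner_add_right, real_inner_smul_right, div_mul_cancel₀ _ hr.ne']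
    ring

/-- from a point of a bounded intersection one reaches a point with two tight constraints without
decreasing two given functionals -/
lemma move {κ : Type} [Fintype κ] (n : κ → E 3) (b : κ → ℝ) (hb : Bornology.IsBounded (HP n b))
    {x : E 3} (hx : x ∈ HP n b) (w1 w2 : E 3) :
    ∃ y ∈ HP n b, inner ℝ w1 x ≤ inner ℝ w1 y ∧ inner ℝ w2 x ≤ inner ℝ w2 y ∧
      ∃ p q, p ≠ q ∧ inner ℝ (n p) y = b p ∧ inner ℝ (n q) y = b q := by
  obtain ⟨u, hu, h1, h2⟩ := exists_orth w1 w2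
  obtain ⟨τ, _, hy, p, hp, hpu⟩ := exit n b hb hx hu
  set y := x + τ • u with hyd
  have hy1 : inner ℝ w1 y = inner ℝ w1 x := by
    rw [hyd, inner_add_right, real_inner_smul_right, h1]; ring
  have hy2 : inner ℝ w2 y = inner ℝ w2 x := by
    rw [hyd, inner_add_right, real_inner_smul_right, h2]; ring
  obtain ⟨v, hv, hv1, hv2⟩ := exists_orth w1 (n p)
  obtain ⟨v', hv', hv1', hv2', hv3'⟩ : ∃ v' : E 3, v' ≠ 0 ∧ inner ℝ w1 v' = 0 ∧
      inner ℝ (n p) v' = 0 ∧ 0 ≤ inner ℝ w2 v' := by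
    rcases le_total 0 (inner ℝ w2 v) with h | h
    · exact ⟨v, hv, hv1, hv2, h⟩
    · refine ⟨-v, neg_ne_zero.2 hv, by rw [inner_neg_right, hv1, neg_zero],
        by rw [inner_neg_right, hv2, neg_zero], by rw [inner_neg_right]; linarith⟩
  obtain ⟨τ', hτ', hz, q, hq, hqu⟩ := exit n b hb hy hv'
  refine ⟨y + τ' • v', hz, ?_, ?_, p, q, ?_, ?_, hq⟩
  · rw [inner_add_right, real_inner_smul_right, hv1']; linarith
  · rw [inner_add_right, real_inner_smul_right]
    have := mul_nonneg hτ' hv3'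
    linarith
  · rintro rfl
    rw [hv2'] at hqu
    exact lt_irrefl _ hqu
  · rw [inner_add_right, real_inner_smul_right, hv2', hp]; ring

/-! ## Combinatorics of the five named facets -/

variable {ι : Type} {n : ι → E 3} {b : ι → ℝ} {m : Fin 5 → ι}

lemma adj_symm {i j : ι} (h : Adj n b i j) : Adj n b j i := by
  obtain ⟨h0, x, h1, h2, h3⟩ := h
  exact ⟨h0.symm, x, h2, h1, fun l hl hl' => h3 l hl' hl⟩

/-- one of the nine pairs, in any order -/
def Nine (p q : Fin 5) : Prop := p ≠ q ∧ ¬ (p = 3 ∧ q = 4) ∧ ¬ (p = 4 ∧ q = 3)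

instance (p q : Fin 5) : Decidable (Nine p q) := by unfold Nine; infer_instance

lemma nine_adj (h : NinePairs n b m) {p q : Fin 5} (hpq : Nine p q) : Adj n b (m p) (m q) := by
  obtain ⟨h1, h2, h3⟩ := hpq
  rcases lt_or_gt_of_ne h1 with h4 | h4
  · exact h p q h4 h2
  · exact adj_symm (h q p h4 (fun h5 => h3 ⟨h5.2, h5.1⟩))

lemma pos_of (hm : Function.Injective m) (h9 : NinePairs n b m) {μ : Fin 5 → ℝ}
    (hμ : RAD.Dep n b m μ) (h0 : ∃ l, μ l ≠ 0) (p q c d e : Fin 5)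
    (h : Nine p q ∧ Nine p c ∧ Nine q c ∧ ∀ l, l ≠ p → l ≠ q → l = c ∨ l = d ∨ l = e) :
    0 < μ c ∨ 0 < μ d ∨ 0 < μ e := by
  obtain ⟨l, h1, h2, h3⟩ := RAD.exists_pos hm hμ h0 (i := p) (j := q) (k := c) h.1.1 h.2.1.1
    h.2.2.1.1 (nine_adj h9 h.1) (nine_adj h9 h.2.1) (nine_adj h9 h.2.2.1)
  rcases h.2.2.2 l h1 h2 with rfl | rfl | rfl
  · exact Or.inl h3
  · exact Or.inr (Or.inl h3)
  · exact Or.inr (Or.inr h3)

lemma neg_of (hm : Function.Injective m) (h9 : NinePairs n b m) {μ : Fin 5 → ℝ}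
    (hμ : RAD.Dep n b m μ) (h0 : ∃ l, μ l ≠ 0) (p q c d e : Fin 5)
    (h : Nine p q ∧ Nine p c ∧ Nine q c ∧ ∀ l, l ≠ p → l ≠ q → l = c ∨ l = d ∨ l = e) :
    μ c < 0 ∨ μ d < 0 ∨ μ e < 0 := by
  have := pos_of hm h9 hμ.neg (by obtain ⟨l, hl⟩ := h0; exact ⟨l, neg_ne_zero.2 hl⟩) p q c d e h
  simpa using this

lemma signs_aux (hm : Function.Injective m) (h9 : NinePairs n b m) {μ : Fin 5 → ℝ}
    (hμ : RAD.Dep n b m μ) (h0 : ∃ l, μ l ≠ 0) (h3 : 0 ≤ μ 3) (h4 : 0 ≤ μ 4) :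
    μ 0 < 0 ∧ μ 1 < 0 ∧ μ 2 < 0 ∧ 0 < μ 3 ∧ 0 < μ 4 := by
  have a0 : μ 0 < 0 := by
    rcases neg_of hm h9 hμ h0 1 2 0 3 4 (by decide) with h | h | h <;> linarith
  have a1 : μ 1 < 0 := by
    rcases neg_of hm h9 hμ h0 0 2 1 3 4 (by decide) with h | h | h <;> linarith
  have a2 : μ 2 < 0 := by
    rcases neg_of hm h9 hμ h0 0 1 2 3 4 (by decide) with h | h | h <;> linarith
  refine ⟨a0, a1, a2, ?_, ?_⟩
  · rcases pos_of hm h9 hμ h0 4 0 1 2 3 (by decide) with h | h | h <;> linarith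
  · rcases pos_of hm h9 hμ h0 3 0 1 2 4 (by decide) with h | h | h <;> linarith

lemma signs (hm : Function.Injective m) (h9 : NinePairs n b m) :
    ∃ μ : Fin 5 → ℝ, RAD.Dep n b m μ ∧ μ 0 < 0 ∧ μ 1 < 0 ∧ μ 2 < 0 ∧ 0 < μ 3 ∧ 0 < μ 4 := by
  obtain ⟨μ, hμ, h0⟩ := RAD.exists_dep5 n b m
  have h0' : ∃ l, - μ l ≠ 0 := by obtain ⟨l, hl⟩ := h0; exact ⟨l, neg_ne_zero.2 hl⟩
  rcases le_or_gt 0 (μ 3) with h3 | h3 <;> rcases le_or_gt 0 (μ 4) with h4 | h4
  · exact ⟨μ, hμ, signs_aux hm h9 hμ h0 h3 h4⟩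
  · rcases h3.eq_or_lt with h5 | h5
    · exact ⟨_, hμ.neg, signs_aux hm h9 hμ.neg h0' (by rw [← h5]; simp) (by linarith)⟩
    exfalso
    rcases neg_of hm h9 hμ h0 4 0 1 2 3 (by decide) with a | a | a <;>
    rcases neg_of hm h9 hμ h0 4 1 0 2 3 (by decide) with b | b | b <;>
    rcases neg_of hm h9 hμ h0 4 2 0 1 3 (by decide) with c | c | c <;>
    rcases pos_of hm h9 hμ h0 3 0 1 2 4 (by decide) with a' | a' | a' <;>
    rcases pos_of hm h9 hμ h0 3 1 0 2 4 (by decide) with b' | b' | b' <;>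
    rcases pos_of hm h9 hμ h0 3 2 0 1 4 (by decide) with c' | c' | c' <;> linarith
  · rcases h4.eq_or_lt with h5 | h5
    · exact ⟨_, hμ.neg, signs_aux hm h9 hμ.neg h0' (by linarith) (by rw [← h5]; simp)⟩
    exfalso
    rcases neg_of hm h9 hμ h0 3 0 1 2 4 (by decide) with a | a | a <;>
    rcases neg_of hm h9 hμ h0 3 1 0 2 4 (by decide) with b | b | b <;>
    rcases neg_of hm h9 hμ h0 3 2 0 1 4 (by decide) with c | c | c <;>
    rcases pos_of hm h9 hμ h0 4 0 1 2 3 (by decide) with a' | a' | a' <;>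
    rcases pos_of hm h9 hμ h0 4 1 0 2 3 (by decide) with b' | b' | b' <;>
    rcases pos_of hm h9 hμ h0 4 2 0 1 3 (by decide) with c' | c' | c' <;> linarith
  · exact ⟨_, hμ.neg, signs_aux hm h9 hμ.neg h0' (by linarith) (by linarith)⟩

/-- the five half-spaces -/
abbrev Q5 (n : ι → E 3) (b : ι → ℝ) (m : Fin 5 → ι) : Set (E 3) :=
  HP (fun k => n (m k)) (fun k => b (m k))

lemma all_tight_false (hint : ∃ x, ∀ i, inner ℝ (n i) x < b i)
    (hb : Bornology.IsBounded (Q5 n b m)) {x : E 3} (h : ∀ k, inner ℝ (n (m k)) x = b (m k)) :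
    False := by
  obtain ⟨y, hy⟩ := hint
  have hne : y - x ≠ 0 := by
    intro h0
    have : y = x := sub_eq_zero.1 h0
    have h1 := hy (m 0)
    rw [this, h 0] at h1
    exact lt_irrefl _ h1
  obtain ⟨τ, h0, _, r, _, hr⟩ := exit _ _ hb (x := x) (fun k => (h k).le) hne
  have h1 := hy (m r)
  rw [inner_sub_right, h r] at hr
  linarith

lemma not34 (hm : Function.Injective m) (h9 : NinePairs n b m)
    (hint : ∃ x, ∀ i, inner ℝ (n i) x < b i)
    (hb : Bornology.IsBounded (Q5 n b m)) {x : E 3} (hx : x ∈ Q5 n b m)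
    (h3 : inner ℝ (n (m 3)) x = b (m 3)) (h4 : inner ℝ (n (m 4)) x = b (m 4)) : False := by
  obtain ⟨μ, hμ, m0, m1, m2, m3, m4⟩ := signs hm h9
  have hs := hμ x
  rw [Fin.sum_univ_five, h3, h4] at hs
  have p0 : 0 ≤ b (m 0) - inner ℝ (n (m 0)) x := sub_nonneg.2 (hx 0)
  have p1 : 0 ≤ b (m 1) - inner ℝ (n (m 1)) x := sub_nonneg.2 (hx 1)
  have p2 : 0 ≤ b (m 2) - inner ℝ (n (m 2)) x := sub_nonneg.2 (hx 2)
  have q0 := mul_nonpos_of_nonpos_of_nonneg m0.le p0
  have q1 := mul_nonpos_of_nonpos_of_nonneg m1.le p1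
  have q2 := mul_nonpos_of_nonpos_of_nonneg m2.le p2
  apply all_tight_false (m := m) hint hb (x := x)
  intro k
  have r0 : b (m 0) - inner ℝ (n (m 0)) x = 0 := by
    rcases mul_eq_zero.1 (by linarith : μ 0 * (b (m 0) - inner ℝ (n (m 0)) x) = 0) with h | h
    · exact absurd h m0.ne
    · exact h
  have r1 : b (m 1) - inner ℝ (n (m 1)) x = 0 := by
    rcases mul_eq_zero.1 (by linarith : μ 1 * (b (m 1) - inner ℝ (n (m 1)) x) = 0) with h | h
    · exact absurd h m1.ne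
    · exact h
  have r2 : b (m 2) - inner ℝ (n (m 2)) x = 0 := by
    rcases mul_eq_zero.1 (by linarith : μ 2 * (b (m 2) - inner ℝ (n (m 2)) x) = 0) with h | h
    · exact absurd h m2.ne
    · exact h
  fin_cases k
  · exact (sub_eq_zero.1 r0).symm
  · exact (sub_eq_zero.1 r1).symm
  · exact (sub_eq_zero.1 r2).symm
  · exact h3
  · exact h4

lemma not012 (hm : Function.Injective m) (h9 : NinePairs n b m)
    (hint : ∃ x, ∀ i, inner ℝ (n i) x < b i)
    (hb : Bornology.IsBounded (Q5 n b m)) {x : E 3} (hx : x ∈ Q5 n b m)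
    (h0 : inner ℝ (n (m 0)) x = b (m 0)) (h1 : inner ℝ (n (m 1)) x = b (m 1))
    (h2 : inner ℝ (n (m 2)) x = b (m 2)) : False := by
  obtain ⟨μ, hμ, m0, m1, m2, m3, m4⟩ := signs hm h9
  have hs := hμ x
  rw [Fin.sum_univ_five, h0, h1, h2] at hs
  have p3 : 0 ≤ b (m 3) - inner ℝ (n (m 3)) x := sub_nonneg.2 (hx 3)
  have p4 : 0 ≤ b (m 4) - inner ℝ (n (m 4)) x := sub_nonneg.2 (hx 4)
  have q3 := mul_nonneg m3.le p3
  have q4 := mul_nonneg m4.le p4
  apply not34 hm h9 hint hb hx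
  · rcases mul_eq_zero.1 (by linarith : μ 3 * (b (m 3) - inner ℝ (n (m 3)) x) = 0) with h | h
    · exact absurd h m3.ne'
    · linarith
  · rcases mul_eq_zero.1 (by linarith : μ 4 * (b (m 4) - inner ℝ (n (m 4)) x) = 0) with h | h
    · exact absurd h m4.ne'
    · linarith

/-- the table of tight triples -/
lemma tight_table : ∀ T : Fin 5 → Bool, ¬ (T 3 = true ∧ T 4 = true) →
    ¬ (T 0 = true ∧ T 1 = true ∧ T 2 = true) →
    (∃ p q r : Fin 5, p ≠ q ∧ r ≠ p ∧ r ≠ q ∧ T p = true ∧ T q = true ∧ T r = true) →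
    ∃ t i j : Fin 5, (t = 3 ∨ t = 4) ∧ i < j ∧ j ≤ 2 ∧ T t = true ∧ T i = true ∧ T j = true ∧
      ∀ c, c ≠ t → c ≠ i → c ≠ j → T c = false := by
  decide +kernel

/-- `e` is a vertex of `Q`, in the facets `t` (a triangle), `i < j` (quadrilaterals) -/
structure Vtx (n : ι → E 3) (b : ι → ℝ) (m : Fin 5 → ι) (e : E 3) (t i j : Fin 5) : Prop where
  ht : t = 3 ∨ t = 4
  hij : i < j
  hj : j ≤ 2
  mem : e ∈ Q5 n b m
  et : inner ℝ (n (m t)) e = b (m t)
  ei : inner ℝ (n (m i)) e = b (m i)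
  ej : inner ℝ (n (m j)) e = b (m j)
  other : ∀ c, c ≠ t → c ≠ i → c ≠ j → inner ℝ (n (m c)) e < b (m c)

lemma Vtx.of_tight (hm : Function.Injective m) (h9 : NinePairs n b m)
    (hint : ∃ x, ∀ i, inner ℝ (n i) x < b i) (hb : Bornology.IsBounded (Q5 n b m)) {e : E 3}
    (he : e ∈ Q5 n b m) {p q r : Fin 5} (hpq : p ≠ q) (hrp : r ≠ p) (hrq : r ≠ q)
    (hp : inner ℝ (n (m p)) e = b (m p)) (hq : inner ℝ (n (m q)) e = b (m q))
    (hr : inner ℝ (n (m r)) e = b (m r)) : ∃ t i j, Vtx n b m e t i j := by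
  classical
  obtain ⟨t, i, j, ht, hij, hj, Tt, Ti, Tj, Tc⟩ := tight_table
    (fun c => decide (inner ℝ (n (m c)) e = b (m c)))
    (by
      simp only [decide_eq_true_eq]
      rintro ⟨h3, h4⟩
      exact not34 hm h9 hint hb he h3 h4)
    (by
      simp only [decide_eq_true_eq]
      rintro ⟨h0, h1, h2⟩
      exact not012 hm h9 hint hb he h0 h1 h2)
    ⟨p, q, r, hpq, hrp, hrq, by simpa using hp, by simpa using hq, by simpa using hr⟩
  simp only [decide_eq_true_eq, decide_eq_false_iff_not] at Tt Ti Tj Tc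
  exact ⟨t, i, j, ht, hij, hj, he, Tt, Ti, Tj,
    fun c h1 h2 h3 => lt_of_le_of_ne (he c) (Tc c h1 h2 h3)⟩

/-- a point of `Q` in two further closed half-spaces gives a vertex of `Q` in both -/
lemma bad_to_vertex (hm : Function.Injective m) (h9 : NinePairs n b m)
    (hint : ∃ x, ∀ i, inner ℝ (n i) x < b i) (hb : Bornology.IsBounded (Q5 n b m))
    {s k : ι} (hs : s ∉ Set.range m) {x : E 3} (hx : x ∈ Q5 n b m) (hsx : b s ≤ inner ℝ (n s) x)
    (hkx : b k ≤ inner ℝ (n k) x) :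
    ∃ e t i j, Vtx n b m e t i j ∧ b s ≤ inner ℝ (n s) e ∧ b k ≤ inner ℝ (n k) e := by
  obtain ⟨y, hy, h1, h2, p, q, hpq, hp, hq⟩ := move _ _ hb hx (n s) (n k)
  have hsy : b s ≤ inner ℝ (n s) y := hsx.trans h1
  have hky : b k ≤ inner ℝ (n k) y := hkx.trans h2
  have hnine : Nine p q := by
    refine ⟨hpq, ?_, ?_⟩
    · rintro ⟨rfl, rfl⟩
      exact not34 hm h9 hint hb hy hp hq
    · rintro ⟨rfl, rfl⟩
      exact not34 hm h9 hint hb hy hq hp
  obtain ⟨_, z, hzp, hzq, hz⟩ := nine_adj h9 hnine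
  have hzle : ∀ l, inner ℝ (n l) z ≤ b l := by
    intro l
    by_cases h1 : l = m p
    · rw [h1, hzp]
    by_cases h2 : l = m q
    · rw [h2, hzq]
    exact (hz l h1 h2).le
  have hzs : inner ℝ (n s) z < b s :=
    hz s (fun h => hs ⟨p, h.symm⟩) (fun h => hs ⟨q, h.symm⟩)
  have hne : y - z ≠ 0 := by
    intro h0
    rw [sub_eq_zero.1 h0] at hsy
    linarith
  obtain ⟨τ, h0, he, r, hr, hru⟩ := exit _ _ hb hy hne
  have hup : inner ℝ (n (m p)) (y - z) = 0 := by rw [inner_sub_right, hp, hzp, sub_self]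
  have huq : inner ℝ (n (m q)) (y - z) = 0 := by rw [inner_sub_right, hq, hzq, sub_self]
  have hrp : r ≠ p := by
    rintro rfl
    rw [hup] at hru
    exact lt_irrefl _ hru
  have hrq : r ≠ q := by
    rintro rfl
    rw [huq] at hru
    exact lt_irrefl _ hru
  obtain ⟨t, i, j, hV⟩ := Vtx.of_tight hm h9 hint hb he hpq hrp hrq
    (by rw [inner_add_right, real_inner_smul_right, hup, hp]; ring)
    (by rw [inner_add_right, real_inner_smul_right, huq, hq]; ring) hr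
  refine ⟨_, t, i, j, hV, ?_, ?_⟩
  · rw [inner_add_right, real_inner_smul_right, inner_sub_right]
    have := mul_nonneg h0 (by linarith : 0 ≤ inner ℝ (n s) y - inner ℝ (n s) z)
    linarith
  · rw [inner_add_right, real_inner_smul_right, inner_sub_right]
    have := mul_nonneg h0 (by linarith [hzle k] : 0 ≤ inner ℝ (n k) y - inner ℝ (n k) z)
    linarith

/-- at a vertex with pairwise adjacent facets a further functional which is nonnegative is
strictly maximal -/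
lemma vertex_max {p q r : ι} (hpq : Adj n b p q) (hpr : Adj n b p r) (hqr : Adj n b q r)
    {e : E 3} (hp : inner ℝ (n p) e = b p) (hq : inner ℝ (n q) e = b q)
    (hr : inner ℝ (n r) e = b r) {s : ι} (hsp : s ≠ p) (hsq : s ≠ q) (hsr : s ≠ r)
    (hs : b s ≤ inner ℝ (n s) e) {w : E 3} (hwp : inner ℝ (n p) w ≤ b p)
    (hwq : inner ℝ (n q) w ≤ b q) (hwr : inner ℝ (n r) w ≤ b r) (hne : w ≠ e) :
    inner ℝ (n s) w < inner ℝ (n s) e := by
  obtain ⟨hpq0, z3, hz31, hz32, hz3⟩ := hpq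
  obtain ⟨hpr0, z2, hz21, hz22, hz2⟩ := hpr
  obtain ⟨hqr0, z1, hz11, hz12, hz1⟩ := hqr
  have p1 : inner ℝ (n p) (z1 - e) < 0 := by
    rw [inner_sub_right, hp]; linarith [hz1 p hpq0 hpr0]
  have q1 : inner ℝ (n q) (z1 - e) = 0 := by rw [inner_sub_right, hq, hz11, sub_self]
  have r1 : inner ℝ (n r) (z1 - e) = 0 := by rw [inner_sub_right, hr, hz12, sub_self]
  have s1 : inner ℝ (n s) (z1 - e) < 0 := by
    rw [inner_sub_right]; linarith [hz1 s hsq hsr]
  have p2 : inner ℝ (n p) (z2 - e) = 0 := by rw [inner_sub_right, hp, hz21, sub_self]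
  have q2 : inner ℝ (n q) (z2 - e) < 0 := by
    rw [inner_sub_right, hq]; linarith [hz2 q hpq0.symm hqr0]
  have r2 : inner ℝ (n r) (z2 - e) = 0 := by rw [inner_sub_right, hr, hz22, sub_self]
  have s2 : inner ℝ (n s) (z2 - e) < 0 := by
    rw [inner_sub_right]; linarith [hz2 s hsp hsr]
  have p3 : inner ℝ (n p) (z3 - e) = 0 := by rw [inner_sub_right, hp, hz31, sub_self]
  have q3 : inner ℝ (n q) (z3 - e) = 0 := by rw [inner_sub_right, hq, hz32, sub_self]
  have r3 : inner ℝ (n r) (z3 - e) < 0 := by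
    rw [inner_sub_right, hr]; linarith [hz3 r hpr0.symm hqr0.symm]
  have s3 : inner ℝ (n s) (z3 - e) < 0 := by
    rw [inner_sub_right]; linarith [hz3 s hsp hsq]
  set u1 := z1 - e
  set u2 := z2 - e
  set u3 := z3 - e
  set v := w - e with hv
  have pv : inner ℝ (n p) v ≤ 0 := by rw [hv, inner_sub_right, hp]; linarith
  have qv : inner ℝ (n q) v ≤ 0 := by rw [hv, inner_sub_right, hq]; linarith
  have rv : inner ℝ (n r) v ≤ 0 := by rw [hv, inner_sub_right, hr]; linarith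
  set c1 := inner ℝ (n p) v / inner ℝ (n p) u1 with hc1
  set c2 := inner ℝ (n q) v / inner ℝ (n q) u2 with hc2
  set c3 := inner ℝ (n r) v / inner ℝ (n r) u3 with hc3
  have k1 : 0 ≤ c1 := div_nonneg_of_nonpos pv p1.le
  have k2 : 0 ≤ c2 := div_nonneg_of_nonpos qv q2.le
  have k3 : 0 ≤ c3 := div_nonneg_of_nonpos rv r3.le
  have hz := dual_zero (v := v - c1 • u1 - c2 • u2 - c3 • u3) p1.ne q2.ne r3.ne p2 p3 q1 q3 r1 r2
    (by
      simp only [inner_sub_right, real_inner_smul_right, p2, p3]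
      rw [hc1, div_mul_cancel₀ _ p1.ne]; ring)
    (by
      simp only [inner_sub_right, real_inner_smul_right, q1, q3]
      rw [hc2, div_mul_cancel₀ _ q2.ne]; ring)
    (by
      simp only [inner_sub_right, real_inner_smul_right, r1, r2]
      rw [hc3, div_mul_cancel₀ _ r3.ne]; ring)
  have hveq : v = c1 • u1 + c2 • u2 + c3 • u3 := by
    have h0 : v - (c1 • u1 + c2 • u2 + c3 • u3) = 0 := by rw [← hz]; abel
    exact sub_eq_zero.1 h0
  have hsv : inner ℝ (n s) v = c1 * inner ℝ (n s) u1 + c2 * inner ℝ (n s) u2 +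
      c3 * inner ℝ (n s) u3 := by
    rw [hveq]; simp only [inner_add_right, real_inner_smul_right]
  have hvne : v ≠ 0 := by rw [hv]; exact sub_ne_zero.2 hne
  have m1 := mul_nonpos_of_nonneg_of_nonpos k1 s1.le
  have m2 := mul_nonpos_of_nonneg_of_nonpos k2 s2.le
  have m3 := mul_nonpos_of_nonneg_of_nonpos k3 s3.le
  have hlt : inner ℝ (n s) v < 0 := by
    by_contra hcon
    push Not at hcon
    have z1' : c1 = 0 := by
      rcases mul_eq_zero.1 (by linarith : c1 * inner ℝ (n s) u1 = 0) with h | h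
      · exact h
      · exact absurd h s1.ne
    have z2' : c2 = 0 := by
      rcases mul_eq_zero.1 (by linarith : c2 * inner ℝ (n s) u2 = 0) with h | h
      · exact h
      · exact absurd h s2.ne
    have z3' : c3 = 0 := by
      rcases mul_eq_zero.1 (by linarith : c3 * inner ℝ (n s) u3 = 0) with h | h
      · exact h
      · exact absurd h s3.ne
    apply hvne
    rw [hveq, z1', z2', z3']; simp
  rw [hv, inner_sub_right] at hlt
  linarith

lemma Vtx.nines {e : E 3} {t i j : Fin 5} (h : Vtx n b m e t i j) :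
    Nine t i ∧ Nine t j ∧ Nine i j := by
  have key : ∀ t i j : Fin 5, (t = 3 ∨ t = 4) → i < j → j ≤ 2 → Nine t i ∧ Nine t j ∧ Nine i j := by
    decide
  exact key t i j h.ht h.hij h.hj

lemma Vtx.max (h9 : NinePairs n b m) {e : E 3} {t i j : Fin 5} (h : Vtx n b m e t i j) {s : ι}
    (hs : s ∉ Set.range m) (hse : b s ≤ inner ℝ (n s) e) {w : E 3} (hw : w ∈ Q5 n b m)
    (hne : w ≠ e) : inner ℝ (n s) w < inner ℝ (n s) e :=
  vertex_max (nine_adj h9 h.nines.1) (nine_adj h9 h.nines.2.1) (nine_adj h9 h.nines.2.2) h.et h.ei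
    h.ej (fun h => hs ⟨t, h.symm⟩) (fun h => hs ⟨i, h.symm⟩) (fun h => hs ⟨j, h.symm⟩) hse
    (hw t) (hw i) (hw j) hne

/-- a facet at the vertex `e` and a facet which is not at `e` do not meet in `Q` -/
lemma key (hm : Function.Injective m) (h9 : NinePairs n b m)
    (hint : ∃ x, ∀ i, inner ℝ (n i) x < b i) (hb : Bornology.IsBounded (Q5 n b m))
    {e : E 3} {t i j : Fin 5} (hV : Vtx n b m e t i j) {s : ι} (hs : s ∉ Set.range m)
    (hse : b s ≤ inner ℝ (n s) e) {k : ι} (hkt : k ≠ m t) (hki : k ≠ m i) (hkj : k ≠ m j)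
    (hke : ¬ (k ∉ Set.range m ∧ b k ≤ inner ℝ (n k) e)) {x : E 3} (hx : x ∈ Q5 n b m)
    (hsx : b s ≤ inner ℝ (n s) x) (hkx : b k ≤ inner ℝ (n k) x) : False := by
  obtain ⟨e', t', i', j', hV', hse', hke'⟩ := bad_to_vertex hm h9 hint hb hs hx hsx hkx
  have heq : e' = e := by
    by_contra hne
    have h1 := hV.max h9 hs hse hV'.mem hne
    have h2 := hV'.max h9 hs hse' hV.mem (Ne.symm hne)
    linarith
  rw [heq] at hke'
  by_cases hk : k ∈ Set.range m
  · obtain ⟨c, rfl⟩ := hk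
    have := hV.other c (fun h => hkt (by rw [h])) (fun h => hki (by rw [h]))
      (fun h => hkj (by rw [h]))
    linarith
  · exact hke ⟨hk, hke'⟩

/-! ## Removing the facets at one vertex -/

lemma len_symm [DecidableEq ι] (i j : ι) : len n b i j = len n b j i := by
  unfold len
  by_cases h : i = j
  · rw [if_pos h, if_pos h.symm]
  · rw [if_neg h, if_neg (Ne.symm h), inter_comm]

lemma len_nonneg [DecidableEq ι] (i j : ι) : 0 ≤ len n b i j := by
  unfold len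
  split_ifs
  · exact le_rfl
  · exact Metric.diam_nonneg

lemma mem_Q5_of_sub {J : ι → Prop} (hJ : ∀ c, ¬ J (m c)) {x : E 3}
    (hx : x ∈ HP (fun k : {k // ¬ J k} => n k) (fun k : {k // ¬ J k} => b k)) :
    x ∈ Q5 n b m := fun c => hx ⟨m c, hJ c⟩

lemma irr_sub (hI : Irr n b) (hb : Bornology.IsBounded (Q5 n b m)) {J : ι → Prop}
    (hJ : ∀ c, ¬ J (m c)) :
    Irr (fun k : {k // ¬ J k} => n k) (fun k : {k // ¬ J k} => b k) where
  unit := fun i => hI.unit i
  int := by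
    obtain ⟨x, hx⟩ := hI.int
    exact ⟨x, fun i => hx i⟩
  bdd := hb.subset (fun _ hx => mem_Q5_of_sub hJ hx)
  wit := by
    intro i
    obtain ⟨x, hx, hx'⟩ := hI.wit i
    exact ⟨x, hx, fun j hj => hx' j (fun h => hj (Subtype.ext h))⟩

lemma face_sub {J : ι → Prop} (k : {k // ¬ J k}) {x : E 3} (hx : x ∈ Face n b k) :
    x ∈ Face (fun k : {k // ¬ J k} => n k) (fun k : {k // ¬ J k} => b k) k :=
  ⟨fun i => hx.1 i, hx.2⟩

lemma len_mono [DecidableEq ι] {J : ι → Prop}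
    (hb' : Bornology.IsBounded (HP (fun k : {k // ¬ J k} => n k) (fun k : {k // ¬ J k} => b k)))
    (k l : {k // ¬ J k}) :
    len n b k l ≤ len (fun k : {k // ¬ J k} => n k) (fun k : {k // ¬ J k} => b k) k l := by
  unfold len
  by_cases h : k = l
  · rw [if_pos h, if_pos (by rw [h])]
  · rw [if_neg h, if_neg (fun h' => h (Subtype.ext h'))]
    exact Metric.diam_mono (inter_subset_inter (fun x hx => face_sub k hx)
      (fun x hx => face_sub l hx)) (hb'.subset (fun x hx => hx.1.1))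

lemma len_eq [DecidableEq ι] (hm : Function.Injective m) (h9 : NinePairs n b m)
    (hint : ∃ x, ∀ i, inner ℝ (n i) x < b i) (hb : Bornology.IsBounded (Q5 n b m))
    {e : E 3} {t i j : Fin 5} (hV : Vtx n b m e t i j) {J : ι → Prop}
    (hJ : ∀ k, J k ↔ (k ∉ Set.range m ∧ b k ≤ inner ℝ (n k) e)) (hJm : ∀ c, ¬ J (m c))
    (k l : {k // ¬ J k}) (hkt : (k : ι) ≠ m t) (hki : (k : ι) ≠ m i) (hkj : (k : ι) ≠ m j) :
    len (fun k : {k // ¬ J k} => n k) (fun k : {k // ¬ J k} => b k) k l = len n b k l := by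
  unfold len
  by_cases h : k = l
  · rw [if_pos h, if_pos (by rw [h])]
  · rw [if_neg h, if_neg (fun h' => h (Subtype.ext h'))]
    congr 1
    apply subset_antisymm
    · rintro x ⟨⟨hx, hxk⟩, ⟨_, hxl⟩⟩
      have hxP : x ∈ HP n b := by
        intro s
        by_contra hcon
        push Not at hcon
        by_cases hs : J s
        · have hs' := (hJ s).1 hs
          exact key hm h9 hint hb hV hs'.1 hs'.2 hkt hki hkj (fun h => k.2 ((hJ k).2 h))
            (mem_Q5_of_sub hJm hx) hcon.le hxk.ge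
        · exact absurd (hx ⟨s, hs⟩) (not_le.2 hcon)
      exact ⟨⟨hxP, hxk⟩, ⟨hxP, hxl⟩⟩
    · exact inter_subset_inter (fun x hx => face_sub k hx) (fun x hx => face_sub l hx)

lemma sum_split [Fintype ι] (J : ι → Prop) [DecidablePred J] {M : Type} [AddCommMonoid M]
    (f : ι → M) : ∑ i, f i = ∑ i : {k // ¬ J k}, f i + ∑ i : {k // J k}, f i := by
  rw [← Fintype.sum_subtype_add_sum_subtype J f, add_comm]

/-- the sum identity and the final comparison, in abstract form -/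
lemma compare [Fintype ι] (J : ι → Prop) [DecidablePred J] (ℓ : ι → ι → ℝ)
    (ℓ' : {k // ¬ J k} → {k // ¬ J k} → ℝ) (hsym : ∀ k l, ℓ k l = ℓ l k)
    (hnn : ∀ k l, 0 ≤ ℓ k l) (T I K : {k // ¬ J k}) (hTI : T ≠ I) (hTK : T ≠ K) (hIK : I ≠ K)
    (α β γ : ℝ) (hT : ∑ l, (ℓ' T l - ℓ T l) = β + γ) (hI : ∑ l, (ℓ' I l - ℓ I l) = α + β)
    (hK : ∑ l, (ℓ' K l - ℓ K l) = α + γ)
    (h0 : ∀ k, k ≠ T → k ≠ I → k ≠ K → ∑ l, (ℓ' k l - ℓ k l) = 0)
    (hge : α + β + γ ≤ ∑ s : {k // J k}, ℓ T s + ∑ s : {k // J k}, ℓ I s +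
      ∑ s : {k // J k}, ℓ K s) :
    (1 / 2) * ∑ k, ∑ l, ℓ' k l ≤ (1 / 2) * ∑ k, ∑ l, ℓ k l := by
  classical
  have e1 : ∑ k, ∑ l, ℓ k l = ∑ k : {k // ¬ J k}, ∑ l : {k // ¬ J k}, ℓ k l +
      2 * ∑ k : {k // ¬ J k}, ∑ s : {k // J k}, ℓ k s +
      ∑ s : {k // J k}, ∑ s' : {k // J k}, ℓ s s' := by
    rw [sum_split J]
    have h1 : ∀ k : {k // ¬ J k}, ∑ l, ℓ k l =
        ∑ l : {k // ¬ J k}, ℓ k l + ∑ s : {k // J k}, ℓ k s := fun k => sum_split J _
    have h2 : ∀ s : {k // J k}, ∑ l, ℓ s l =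
        ∑ l : {k // ¬ J k}, ℓ l s + ∑ s' : {k // J k}, ℓ s s' := fun s => by
      rw [sum_split J]
      congr 1
      exact Finset.sum_congr rfl (fun l _ => hsym _ _)
    rw [Finset.sum_congr rfl (fun k _ => h1 k), Finset.sum_congr rfl (fun s _ => h2 s),
      Finset.sum_add_distrib, Finset.sum_add_distrib,
      Finset.sum_comm (f := fun (s : {k // J k}) (l : {k // ¬ J k}) => ℓ l s)]
    ring
  have e2 : ∑ k, ∑ l, ℓ' k l = ∑ k : {k // ¬ J k}, ∑ l : {k // ¬ J k}, ℓ k l +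
      ∑ k, ∑ l, (ℓ' k l - ℓ k l) := by
    rw [← Finset.sum_add_distrib]
    apply Finset.sum_congr rfl
    intro k _
    rw [← Finset.sum_add_distrib]
    apply Finset.sum_congr rfl
    intro l _
    ring
  have e3 : ∑ k, ∑ l, (ℓ' k l - ℓ k l) = (β + γ) + (α + β) + (α + γ) := by
    rw [← Finset.sum_subset (Finset.subset_univ ({T, I, K} : Finset {k // ¬ J k}))]
    · rw [Finset.sum_insert (by simp [hTI, hTK]), Finset.sum_insert (by simp [hIK]),
        Finset.sum_singleton, hT, hI, hK]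
      ring
    · intro k _ hk
      simp only [Finset.mem_insert, Finset.mem_singleton, not_or] at hk
      exact h0 k hk.1 hk.2.1 hk.2.2
  have e4 : ∑ s : {k // J k}, ℓ T s + ∑ s : {k // J k}, ℓ I s + ∑ s : {k // J k}, ℓ K s ≤
      ∑ k : {k // ¬ J k}, ∑ s : {k // J k}, ℓ k s := by
    have := Finset.sum_le_sum_of_subset_of_nonneg
      (Finset.subset_univ ({T, I, K} : Finset {k // ¬ J k}))
      (f := fun k : {k // ¬ J k} => ∑ s : {k // J k}, ℓ k s)
      (fun k _ _ => Finset.sum_nonneg (fun s _ => hnn _ _))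
    rw [Finset.sum_insert (by simp [hTI, hTK]), Finset.sum_insert (by simp [hIK]),
        Finset.sum_singleton] at this
    linarith
  have e5 : 0 ≤ ∑ s : {k // J k}, ∑ s' : {k // J k}, ℓ s s' :=
    Finset.sum_nonneg (fun s _ => Finset.sum_nonneg (fun s' _ => hnn _ _))
  rw [e1, e2, e3]
  linarith

/-- a sharp vertex -/
def Sharp (n : ι → E 3) (U : ι → (E 2 →ₗᵢ[ℝ] E 3)) (m : Fin 5 → ι) : Prop :=
  ∃ t i j : Fin 5, (t = 3 ∨ t = 4) ∧ i < j ∧ j ≤ 2 ∧ ∃ α β γ : ℝ, 0 ≤ α ∧ 0 ≤ β ∧ 0 ≤ γ ∧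
    ‖β • nu n U (m t) (m i) + γ • nu n U (m t) (m j)‖ +
    ‖α • nu n U (m i) (m j) + β • nu n U (m i) (m t)‖ +
    ‖α • nu n U (m j) (m i) + γ • nu n U (m j) (m t)‖ < α + β + γ

lemma norm_bound {σ : Type} [Fintype σ] (c : σ → ℝ) (v : σ → E 2) (hc : ∀ s, 0 ≤ c s)
    (hv : ∀ s, 0 < c s → ‖v s‖ = 1) : ‖∑ s, c s • v s‖ ≤ ∑ s, c s := by
  refine (norm_sum_le _ _).trans (Finset.sum_le_sum (fun s _ => ?_))
  rw [norm_smul, Real.norm_of_nonneg (hc s)]
  rcases (hc s).eq_or_lt with h | h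
  · rw [← h]; simp
  · rw [hv s h, mul_one]

theorem step (hSt : Stmt_STATN) [Fintype ι] [DecidableEq ι] {U : ι → (E 2 →ₗᵢ[ℝ] E 3)}
    (hU : ∀ i, Frame (n i) (U i)) (hI : Irr n b) (hm : Function.Injective m)
    (h9 : NinePairs n b m) (hb : Bornology.IsBounded (Q5 n b m))
    {e : E 3} {t i j : Fin 5} (hV : Vtx n b m e t i j) (J : ι → Prop) [DecidablePred J]
    (hJ : ∀ k, J k ↔ (k ∉ Set.range m ∧ b k ≤ inner ℝ (n k) e)) (hJm : ∀ c, ¬ J (m c)) :
    L (fun k : {k // ¬ J k} => n k) (fun k : {k // ¬ J k} => b k) ≤ L n b ∨ Sharp n U m := by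
  have hI' := irr_sub hI hb hJm
  obtain ⟨hu, hc, _⟩ := hSt ι n b U hU hI
  obtain ⟨_, hc', _⟩ := hSt {k // ¬ J k} (fun k => n k) (fun k => b k) (fun k => U k)
    (fun k => hU k) hI'
  set ℓ' := len (fun k : {k // ¬ J k} => n k) (fun k : {k // ¬ J k} => b k) with hℓ'
  set ℓ := len n b with hℓ
  have hsym : ∀ k l, ℓ k l = ℓ l k := fun k l => len_symm k l
  have hsym' : ∀ k l, ℓ' k l = ℓ' l k := fun k l => len_symm k l
  have hnn : ∀ k l, 0 ≤ ℓ k l := fun k l => len_nonneg k l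
  have hmono : ∀ k l : {k // ¬ J k}, ℓ k l ≤ ℓ' k l := fun k l => len_mono hI'.bdd k l
  set T : {k // ¬ J k} := ⟨m t, hJm t⟩ with hT
  set I : {k // ¬ J k} := ⟨m i, hJm i⟩ with hIe
  set K : {k // ¬ J k} := ⟨m j, hJm j⟩ with hK
  obtain ⟨nti, ntj, nij⟩ := hV.nines
  have hTI : T ≠ I := fun h => nti.1 (hm (congrArg Subtype.val h))
  have hTK : T ≠ K := fun h => ntj.1 (hm (congrArg Subtype.val h))
  have hIK : I ≠ K := fun h => nij.1 (hm (congrArg Subtype.val h))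
  have heq : ∀ k l : {k // ¬ J k}, k ≠ T → k ≠ I → k ≠ K → ℓ' k l = ℓ k l := by
    intro k l h1 h2 h3
    exact len_eq hm h9 hI.int hb hV hJ hJm k l (fun h => h1 (Subtype.ext h))
      (fun h => h2 (Subtype.ext h)) (fun h => h3 (Subtype.ext h))
  have heq' : ∀ k l : {k // ¬ J k}, l ≠ T → l ≠ I → l ≠ K → ℓ' k l = ℓ k l := by
    intro k l h1 h2 h3
    rw [hsym', heq l k h1 h2 h3, hsym]
  have hself : ∀ k : {k // ¬ J k}, ℓ' k k - ℓ k k = 0 := by
    intro k
    rw [hℓ', hℓ]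
    unfold len
    simp
  -- the closing relation, subtracted
  have hcl : ∀ k : {k // ¬ J k}, ∑ l : {k // ¬ J k}, (ℓ' k l - ℓ k l) • nu n U k l =
      ∑ s : {k // J k}, ℓ k s • nu n U k s := by
    intro k
    have h1 : ∑ l : {k // ¬ J k}, ℓ' k l • nu n U k l = 0 := hc' k
    have h2 := hc k
    rw [sum_split J] at h2
    have h3 : ∑ l : {k // ¬ J k}, (ℓ' k l - ℓ k l) • nu n U k l =
        ∑ l : {k // ¬ J k}, ℓ' k l • nu n U k l - ∑ l : {k // ¬ J k}, ℓ k l • nu n U k l := by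
      rw [← Finset.sum_sub_distrib]
      exact Finset.sum_congr rfl (fun l _ => by rw [sub_smul])
    rw [h3, h1, zero_sub]
    exact neg_eq_of_add_eq_zero_right h2
  have hnb : ∀ k : {k // ¬ J k}, ‖∑ l : {k // ¬ J k}, (ℓ' k l - ℓ k l) • nu n U k l‖ ≤
      ∑ s : {k // J k}, ℓ k s := by
    intro k
    rw [hcl k]
    exact norm_bound _ _ (fun s => hnn _ _) (fun s hs => hu _ _ hs)
  -- sums over a row of one of the three facets
  have hrow : ∀ (X Y Z : {k // ¬ J k}), Y ≠ Z → X ≠ Y → X ≠ Z →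
      (∀ l, l ≠ X → l ≠ Y → l ≠ Z → ℓ' X l = ℓ X l) →
      ∑ l, (ℓ' X l - ℓ X l) = (ℓ' X Y - ℓ X Y) + (ℓ' X Z - ℓ X Z) ∧
      ∑ l : {k // ¬ J k}, (ℓ' X l - ℓ X l) • nu n U X l =
        (ℓ' X Y - ℓ X Y) • nu n U X Y + (ℓ' X Z - ℓ X Z) • nu n U X Z := by
    intro X Y Z h1 h2 h3 h4
    have h5 : ∀ l, l ≠ Y ∧ l ≠ Z → ℓ' X l - ℓ X l = 0 := by
      rintro l ⟨h6, h7⟩
      by_cases h8 : l = X
      · rw [h8]; exact hself X
      · rw [h4 l h8 h6 h7, sub_self]
    constructor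
    · exact Fintype.sum_eq_add Y Z h1 (fun l hl => h5 l hl)
    · refine Fintype.sum_eq_add Y Z h1 (fun l hl => ?_)
      rw [h5 l hl, zero_smul]
  obtain ⟨rT, vT⟩ := hrow T I K hIK hTI hTK (fun l h1 h2 h3 => heq' T l h1 h2 h3)
  obtain ⟨rI, vI⟩ := hrow I K T hTK.symm hIK hTI.symm (fun l h1 h2 h3 => heq' I l h3 h1 h2)
  obtain ⟨rK, vK⟩ := hrow K I T hTI.symm hIK.symm hTK.symm (fun l h1 h2 h3 => heq' K l h3 h2 h1)
  have nT := hnb T
  have nI := hnb I
  have nK := hnb K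
  rw [vT] at nT
  rw [vI] at nI
  rw [vK] at nK
  rw [hsym' I T, hsym I T] at rI nI
  rw [hsym' K T, hsym K T, hsym' K I, hsym K I] at rK nK
  rcases lt_or_ge (‖(ℓ' T I - ℓ T I) • nu n U (m t) (m i) + (ℓ' T K - ℓ T K) •
      nu n U (m t) (m j)‖ + ‖(ℓ' I K - ℓ I K) • nu n U (m i) (m j) + (ℓ' T I - ℓ T I) •
      nu n U (m i) (m t)‖ + ‖(ℓ' I K - ℓ I K) • nu n U (m j) (m i) + (ℓ' T K - ℓ T K) •
      nu n U (m j) (m t)‖) ((ℓ' I K - ℓ I K) + (ℓ' T I - ℓ T I) + (ℓ' T K - ℓ T K)) with h | h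
  · right
    exact ⟨t, i, j, hV.ht, hV.hij, hV.hj, _, _, _, sub_nonneg.2 (hmono I K),
      sub_nonneg.2 (hmono T I), sub_nonneg.2 (hmono T K), h⟩
  · left
    exact compare J ℓ ℓ' hsym hnn T I K hTI hTK hIK _ _ _ rT rI rK
      (fun k h1 h2 h3 => Finset.sum_eq_zero (fun l _ => by rw [heq k l h1 h2 h3, sub_self]))
      (by linarith)

/-! ## The induction -/

lemma L_range [Fintype ι] [DecidableEq ι] (hm : Function.Injective m)
    (hall : ∀ k, k ∈ Set.range m) :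
    L (fun k => n (m k)) (fun k => b (m k)) = L n b := by
  have hbij : Function.Bijective m := ⟨hm, hall⟩
  have hHP : HP (fun k => n (m k)) (fun k => b (m k)) = HP n b := by
    ext x
    constructor
    · intro h k
      obtain ⟨c, rfl⟩ := hall k
      exact h c
    · intro h c
      exact h (m c)
  have hlen : ∀ i j, len (fun k => n (m k)) (fun k => b (m k)) i j = len n b (m i) (m j) := by
    intro i j
    unfold len Face
    rw [hHP]
    by_cases h : i = j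
    · rw [if_pos h, if_pos (by rw [h])]
    · rw [if_neg h, if_neg (fun h' => h (hm h'))]
  unfold L
  congr 1
  rw [← (Equiv.ofBijective m hbij).sum_comp]
  apply Finset.sum_congr rfl
  intro i _
  rw [← (Equiv.ofBijective m hbij).sum_comp]
  apply Finset.sum_congr rfl
  intro j _
  exact hlen i j

theorem main (hSt : Stmt_STATN) : ∀ (N : ℕ) (ι : Type) [Fintype ι] [DecidableEq ι]
    (n : ι → E 3) (b : ι → ℝ) (U : ι → (E 2 →ₗᵢ[ℝ] E 3)), Fintype.card ι = N →
    (∀ i, Frame (n i) (U i)) → Irr n b → ∀ m : Fin 5 → ι, Function.Injective m →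
    NinePairs n b m → Bornology.IsBounded (Q5 n b m) →
    L (fun k => n (m k)) (fun k => b (m k)) ≤ L n b ∨ Sharp n U m := by
  intro N
  induction N using Nat.strong_induction_on with
  | _ N ih =>
  intro ι _ _ n b U hN hU hI m hm h9 hb
  by_cases hall : ∀ k, k ∈ Set.range m
  · left
    exact (L_range hm hall).le
  push Not at hall
  obtain ⟨s, hs⟩ := hall
  obtain ⟨x, hx, hx'⟩ := hI.wit s
  have hxQ : x ∈ Q5 n b m := fun c => (hx' (m c) (fun h => hs ⟨c, h⟩)).le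
  obtain ⟨e, t, i, j, hV, hse, _⟩ := bad_to_vertex hm h9 hI.int hb hs hxQ hx.ge hx.ge
  classical
  set J : ι → Prop := fun k => k ∉ Set.range m ∧ b k ≤ inner ℝ (n k) e with hJ
  have hJm : ∀ c, ¬ J (m c) := fun c h => h.1 ⟨c, rfl⟩
  rcases step hSt hU hI hm h9 hb hV J (fun k => Iff.rfl) hJm with h1 | h1
  · have hcard : Fintype.card {k // ¬ J k} < N := by
      rw [← hN]
      exact Fintype.card_subtype_lt (x := s) (not_not.2 ⟨hs, hse⟩)
    rcases ih _ hcard {k // ¬ J k} (fun k => n k) (fun k => b k) (fun k => U k) rfl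
      (fun k => hU k) (irr_sub hI hb hJm) (fun c => ⟨m c, hJm c⟩)
      (fun c c' h => hm (congrArg Subtype.val h))
      (by
        intro c c' hcc h34
        obtain ⟨h0, z, hz1, hz2, hz3⟩ := h9 c c' hcc h34
        exact ⟨fun h => h0 (congrArg Subtype.val h), z, hz1, hz2,
          fun k hk hk' => hz3 k (fun h => hk (Subtype.ext h)) (fun h => hk' (Subtype.ext h))⟩)
      hb with h2 | h2
    · left
      exact le_trans h2 h1
    · right
      exact h2
  · right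
    exact h1

end FILL

theorem blk_FILL (hSt : Stmt_STATN) : Stmt_FILL := by
  intro ι _ _ n b U hU hI m hm h9 hb
  refine ⟨⟨fun i => hI.unit (m i), ?_, hb, ?_⟩, FILL.main hSt _ ι n b U rfl hU hI m hm h9 hb⟩
  · obtain ⟨x, hx⟩ := hI.int
    exact ⟨x, fun i => hx (m i)⟩
  · intro i
    obtain ⟨x, hx, hx'⟩ := hI.wit (m i)
    exact ⟨x, hx, fun j hj => hx' (m j) (fun h => hj (hm h))⟩

end Pool.Agent.Work.MP_3892ce_static
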