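import Pool.Agent.Work.MP_3892ce_static.Interface2

/-! # Melzak's problem, static method, block `NUCH`: the norms in `FILL` are chords -/

set_option autoImplicit false

namespace Pool.Agent.Work.MP_3892ce_static

theorem blk_NUCH : Stmt_NUCH := by
  intro a b ν ν' h h'
  have hc : -1 ≤ inner ℝ ν ν' := by
    have := abs_real_inner_le_norm ν ν'
    rw [h, h', one_mul] at this
    exact (abs_le.1 this).1
  have h0 : 0 ≤ (1 + inner ℝ ν ν') / 2 := by linarith
  unfold chord
  rw [Real.sq_sqrt h0, eq_comm, Real.sqrt_eq_iff_mul_self_eq (by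
    have hn := @norm_add_sq_real (E 2) _ _ (a • ν) (b • ν')
    rw [norm_smul, norm_smul, h, h', real_inner_smul_left, real_inner_smul_right] at hn
    simp only [mul_one, Real.norm_eq_abs, sq_abs] at hn
    nlinarith [sq_nonneg ‖a • ν + b • ν'‖]) (norm_nonneg _)]
  have hn := @norm_add_sq_real (E 2) _ _ (a • ν) (b • ν')
  rw [norm_smul, norm_smul, h, h', real_inner_smul_left, real_inner_smul_right] at hn
  simp only [mul_one, Real.norm_eq_abs, sq_abs] at hn
  nlinarith

end Pool.Agent.Work.MP_3892ce_static
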