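import Pool.Agent.Work.MP_3892ce_static.Interface2
import Pool.Agent.Work.MP_3892ce_static.RAD6

/-! # Block RAD7: no facet is adjacent to both triangles of the nine pairs -/

set_option autoImplicit false

open Set

namespace Pool.Agent.Work.MP_3892ce_static
namespace RAD

variable {ι : Type} {n : ι → E 3} {b : ι → ℝ} {s : Fin 6 → ι}

/-- four pairwise adjacent facets have independent slack functions -/
lemma indep4 (hs : Function.Injective s) {m : Fin 6 → ℝ} (hm : Dep n b s m) (x y z w : Fin 6)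
    (hcov : ∀ l, m l ≠ 0 → l = x ∨ l = y ∨ l = z ∨ l = w)
    (xy : Adj n b (s x) (s y)) (xz : Adj n b (s x) (s z)) (xw : Adj n b (s x) (s w))
    (yz : Adj n b (s y) (s z)) (yw : Adj n b (s y) (s w)) (zw : Adj n b (s z) (s w)) :
    ∀ l, m l = 0 := by
  by_contra hcon
  push Not at hcon
  have e1 : x ≠ y := fun h => xy.1 (by rw [h])
  have e2 : x ≠ z := fun h => xz.1 (by rw [h])
  have e3 : x ≠ w := fun h => xw.1 (by rw [h])
  have e4 : y ≠ z := fun h => yz.1 (by rw [h])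
  have e5 : y ≠ w := fun h => yw.1 (by rw [h])
  have e6 : z ≠ w := fun h => zw.1 (by rw [h])
  have key : ∀ x y z w : Fin 6, x ≠ y → x ≠ z → y ≠ z →
      (∀ l, m l ≠ 0 → l = x ∨ l = y ∨ l = z ∨ l = w) →
      Adj n b (s x) (s y) → Adj n b (s x) (s z) → Adj n b (s y) (s z) →
      (0 < m z ∨ 0 < m w) ∧ (m z < 0 ∨ m w < 0) := by
    intro x y z w h1 h2 h3 hc a1 a2 a3
    constructor
    · obtain ⟨l, l1, l2, l3⟩ := exists_pos hs hm hcon h1 h2 h3 a1 a2 a3
      rcases hc l l3.ne' with h | h | h | h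
      · exact absurd h l1
      · exact absurd h l2
      · rw [← h]; exact Or.inl l3
      · rw [← h]; exact Or.inr l3
    · obtain ⟨l, l1, l2, l3⟩ := exists_neg hs hm hcon h1 h2 h3 a1 a2 a3
      rcases hc l l3.ne with h | h | h | h
      · exact absurd h l1
      · exact absurd h l2
      · rw [← h]; exact Or.inl l3
      · rw [← h]; exact Or.inr l3
  have A1 := key x y z w e1 e2 e4 hcov xy xz yz
  have A2 := key x z y w e2 e1 e4.symm
    (fun l hl => by rcases hcov l hl with h | h | h | h <;> simp [h]) xz xy (Adj.swap yz)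
  have A3 := key x w y z e3 e1 e5.symm
    (fun l hl => by rcases hcov l hl with h | h | h | h <;> simp [h]) xw xy (Adj.swap yw)
  obtain ⟨⟨p1 | p1, q1 | q1⟩, ⟨p2 | p2, q2 | q2⟩, ⟨p3 | p3, q3 | q3⟩⟩ := And.intro A1 (And.intro A2 A3)
    <;> linarith

/-- slack functions at a point where exactly two facets are tight -/
lemma slack (hs : Function.Injective s) {m : Fin 6 → ℝ} (hm : Dep n b s m) {i j : Fin 6}
    (hij : Adj n b (s i) (s j)) : ∃ f : Fin 6 → ℝ, ∑ k, m k * f k = 0 ∧ f i = 0 ∧ f j = 0 ∧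
      ∀ k, k ≠ i → k ≠ j → 0 < f k := by
  obtain ⟨_, x, h1, h2, h3⟩ := hij
  refine ⟨fun k => b (s k) - inner ℝ (n (s k)) x, hm x, sub_eq_zero.2 h1.symm,
    sub_eq_zero.2 h2.symm, fun k k1 k2 => ?_⟩
  have := h3 (s k) (fun e => k1 (hs e)) (fun e => k2 (hs e))
  show 0 < b (s k) - inner ℝ (n (s k)) x
  linarith

/-- a further facet adjacent to one of four pairwise adjacent facets `0, 1, 2, x`: the facet `x`
has a positive coefficient -/
lemma pos_coef (hs : Function.Injective s) (x y : Fin 6) (hx : (x = 3 ∧ y = 4) ∨ (x = 4 ∧ y = 3))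
    (a01 : Adj n b (s 0) (s 1)) (a02 : Adj n b (s 0) (s 2)) (a12 : Adj n b (s 1) (s 2))
    (a0x : Adj n b (s 0) (s x)) (a1x : Adj n b (s 1) (s x)) (a2x : Adj n b (s 2) (s x))
    (ax5 : Adj n b (s x) (s 5)) :
    ∃ m : Fin 6 → ℝ, Dep n b s m ∧ m y = 0 ∧ m 5 = -1 ∧ 0 < m x := by
  obtain ⟨m, hm, hy, h0⟩ := exists_dep6 n b s y
  have hex : ∃ m : Fin 6 → ℝ, Dep n b s m ∧ m y = 0 ∧ m 5 = -1 := by
    have h5 : m 5 ≠ 0 := by
      intro h5
      obtain ⟨l, hl⟩ := h0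
      refine hl (indep4 hs hm 0 1 2 x ?_ a01 a02 a0x a12 a1x a2x l)
      intro l hl
      have l5 : l ≠ 5 := by rintro rfl; exact hl h5
      have ly : l ≠ y := by rintro rfl; exact hl hy
      rcases hx with ⟨rfl, rfl⟩ | ⟨rfl, rfl⟩ <;> fin_cases l <;> simp_all
    refine ⟨fun k => (-1 / m 5) * m k + 0 * m k, hm.add hm _ _, ?_, ?_⟩
    · show (-1 / m 5) * m y + 0 * m y = 0
      rw [hy]; ring
    · show (-1 / m 5) * m 5 + 0 * m 5 = -1
      rw [zero_mul, add_zero]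
      exact div_mul_cancel₀ _ h5
  clear hm hy h0 m
  obtain ⟨m, hm, hy, hm5⟩ := hex
  refine ⟨m, hm, hy, hm5, ?_⟩
  obtain ⟨f, f1, f2, f3, f4⟩ := slack hs hm a01
  obtain ⟨g, g1, g2, g3, g4⟩ := slack hs hm a02
  obtain ⟨h, h1, h2, h3, h4⟩ := slack hs hm a12
  obtain ⟨v, v1, v2, v3, v4⟩ := slack hs hm ax5
  by_contra hcon
  push Not at hcon
  rw [Fin.sum_univ_six] at f1 g1 h1 v1
  have xx : m 3 * v 3 + m 4 * v 4 = 0 := by
    rcases hx with ⟨rfl, rfl⟩ | ⟨rfl, rfl⟩ <;> rw [hy, v2] <;> ring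
  have xf : m 3 * f 3 + m 4 * f 4 = m x * f x := by
    rcases hx with ⟨rfl, rfl⟩ | ⟨rfl, rfl⟩ <;> rw [hy] <;> ring
  have xg : m 3 * g 3 + m 4 * g 4 = m x * g x := by
    rcases hx with ⟨rfl, rfl⟩ | ⟨rfl, rfl⟩ <;> rw [hy] <;> ring
  have xh : m 3 * h 3 + m 4 * h 4 = m x * h x := by
    rcases hx with ⟨rfl, rfl⟩ | ⟨rfl, rfl⟩ <;> rw [hy] <;> ring
  have xp : x ≠ 0 ∧ x ≠ 1 ∧ x ≠ 2 ∧ x ≠ 5 := by
    rcases hx with ⟨rfl, rfl⟩ | ⟨rfl, rfl⟩ <;> decide
  have F5 := f4 5 (by decide) (by decide)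
  have G5 := g4 5 (by decide) (by decide)
  have H5 := h4 5 (by decide) (by decide)
  have F2 := f4 2 (by decide) (by decide)
  have G1 := g4 1 (by decide) (by decide)
  have H0 := h4 0 (by decide) (by decide)
  have Fx := mul_nonneg (neg_nonneg.2 hcon) (f4 x xp.1 xp.2.1).le
  have Gx := mul_nonneg (neg_nonneg.2 hcon) (g4 x xp.1 xp.2.2.1).le
  have Hx := mul_nonneg (neg_nonneg.2 hcon) (h4 x xp.2.1 xp.2.2.1).le
  rw [f2, f3, hm5, mul_zero, mul_zero] at f1
  rw [g2, g3, hm5, mul_zero, mul_zero] at g1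
  rw [h2, h3, hm5, mul_zero, mul_zero] at h1
  rw [v3, hm5] at v1
  have m2 : 0 < m 2 := by
    by_contra hm2
    push Not at hm2
    have := mul_nonneg (neg_nonneg.2 hm2) F2.le
    linarith
  have m1 : 0 < m 1 := by
    by_contra hm1
    push Not at hm1
    have := mul_nonneg (neg_nonneg.2 hm1) G1.le
    linarith
  have m0 : 0 < m 0 := by
    by_contra hm0
    push Not at hm0
    have := mul_nonneg (neg_nonneg.2 hm0) H0.le
    linarith
  have V0 := mul_pos m0 (v4 0 xp.1.symm (by decide))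
  have V1 := mul_pos m1 (v4 1 xp.2.1.symm (by decide))
  have V2 := mul_pos m2 (v4 2 xp.2.2.1.symm (by decide))
  linarith

end RAD

open RAD in
theorem blk_RAD7 : Stmt_RAD7 := by
  intro ι n b _ s hs ⟨hadj, a35, a45⟩
  have A : ∀ i j : Fin 6, i < j → j ≠ 5 → ¬ (i = 3 ∧ j = 4) → Adj n b (s i) (s j) := hadj
  have a01 := A 0 1 (by decide) (by decide) (by decide)
  have a02 := A 0 2 (by decide) (by decide) (by decide)
  have a03 := A 0 3 (by decide) (by decide) (by decide)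
  have a04 := A 0 4 (by decide) (by decide) (by decide)
  have a12 := A 1 2 (by decide) (by decide) (by decide)
  have a13 := A 1 3 (by decide) (by decide) (by decide)
  have a14 := A 1 4 (by decide) (by decide) (by decide)
  have a23 := A 2 3 (by decide) (by decide) (by decide)
  have a24 := A 2 4 (by decide) (by decide) (by decide)
  obtain ⟨μ, hμ, μ5, μ3, μ4, -⟩ := pattern (n := n) (b := b) hs 5 3 4 0 1 2 (by decide)
    (Adj.swap a03) (Adj.swap a13) (Adj.swap a23) (Adj.swap a04) (Adj.swap a14) (Adj.swap a24)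
    a01 a02 a12
  obtain ⟨p, hp, p4, p5, p3⟩ := pos_coef hs 3 4 (Or.inl ⟨rfl, rfl⟩) a01 a02 a12 a03 a13 a23 a35
  obtain ⟨q, hq, q3, q5, q4⟩ := pos_coef hs 4 3 (Or.inr ⟨rfl, rfl⟩) a01 a02 a12 a04 a14 a24 a45
  have h1 := (hp.add hq 1 (-1)).add hμ (μ 4) (q 4)
  have h2 := indep4 hs h1 0 1 2 3 (fun l hl => by
    fin_cases l
    · simp
    · simp
    · simp
    · simp
    · exact absurd (by show μ 4 * (1 * p 4 + -1 * q 4) + q 4 * μ 4 = 0; rw [p4]; ring) hl
    · exact absurd (by show μ 4 * (1 * p 5 + -1 * q 5) + q 4 * μ 5 = 0; rw [p5, q5, μ5]; ring) hl)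
    a01 a02 a03 a12 a13 a23 3
  have h3 : μ 4 * (1 * p 3 + -1 * q 3) + q 4 * μ 3 = 0 := h2
  rw [q3] at h3
  nlinarith [mul_pos μ4 p3, mul_pos q4 μ3]

end Pool.Agent.Work.MP_3892ce_static
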