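import Pool.Agent.Work.MP_3892ce_static.Interface2

/-! # Melzak's problem, static method: block TRI -/

set_option autoImplicit false

namespace Pool.Agent.Work.MP_3892ce_static

namespace TRIh

theorem chord_ge {a b s c d : ℝ} (ha : 0 ≤ a) (hb : 0 ≤ b) (hs : 0 < s) (hs1 : s < 1)
    (h : c ^ 2 * (1 - s ^ 2) + d ^ 2 * s ^ 2 ≤ s ^ 2 * (1 - s ^ 2)) :
    c * (a + b) + d * (a - b) ≤ chord a b s := by
  unfold chord
  apply Real.le_sqrt_of_sq_le
  have hpos : 0 < s ^ 2 * (1 - s ^ 2) := by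
    have : 0 < 1 - s ^ 2 := by nlinarith
    positivity
  have hid : s ^ 2 * (1 - s ^ 2) * (c * (a + b) + d * (a - b)) ^ 2 +
      (c * (1 - s ^ 2) * (a - b) - d * s ^ 2 * (a + b)) ^ 2 =
      (c ^ 2 * (1 - s ^ 2) + d ^ 2 * s ^ 2) * ((a - b) ^ 2 + 4 * a * b * s ^ 2) := by ring
  have hN : 0 ≤ (a - b) ^ 2 + 4 * a * b * s ^ 2 := by positivity
  have h2 := mul_le_mul_of_nonneg_right h hN
  have h3 : s ^ 2 * (1 - s ^ 2) * (c * (a + b) + d * (a - b)) ^ 2 ≤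
      s ^ 2 * (1 - s ^ 2) * ((a - b) ^ 2 + 4 * a * b * s ^ 2) := by
    nlinarith [sq_nonneg (c * (1 - s ^ 2) * (a - b) - d * s ^ 2 * (a + b))]
  exact le_of_mul_le_mul_left h3 hpos

theorem chord_ge' {a b s d q : ℝ} (ha : 0 ≤ a) (hb : 0 ≤ b) (hs : 0 < s) (hs1 : s < 1)
    (hq : 0 ≤ q) (h1 : q * d ^ 2 ≤ 3 / 100 * s) (h2 : s ≤ 197 / 100 * q * (1 - s ^ 2)) :
    (s - q * d ^ 2) * (a + b) + d * (a - b) ≤ chord a b s := by
  apply chord_ge ha hb hs hs1
  have hpos : 0 < 1 - s ^ 2 := by nlinarith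
  have h3 : s ^ 2 ≤ (1 - s ^ 2) * q * (2 * s - q * d ^ 2) := by
    have h4 : (1 - s ^ 2) * q * (197 / 100 * s) ≤ (1 - s ^ 2) * q * (2 * s - q * d ^ 2) := by
      apply mul_le_mul_of_nonneg_left _ (by positivity)
      linarith
    have h5 : s * s ≤ 197 / 100 * q * (1 - s ^ 2) * s := mul_le_mul_of_nonneg_right h2 hs.le
    nlinarith
  have h6 := mul_le_mul_of_nonneg_left h3 (sq_nonneg d)
  nlinarith

theorem chord_mono {a b s s' : ℝ} (ha : 0 ≤ a) (hb : 0 ≤ b) (hs : 0 ≤ s) (h : s ≤ s') :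
    chord a b s ≤ chord a b s' := by
  unfold chord
  apply Real.sqrt_le_sqrt
  have : s ^ 2 ≤ s' ^ 2 := pow_le_pow_left₀ hs h 2
  have h2 : 4 * a * b * s ^ 2 ≤ 4 * a * b * s' ^ 2 := mul_le_mul_of_nonneg_left this (by positivity)
  linarith

theorem triA {x y z α β γ : ℝ} (hx : 0 ≤ x) (hy : 0 ≤ y) (hz : 0 ≤ z) (hs : x + y + z = 11 / 40)
    (hα : 0 ≤ α) (hβ : 0 ≤ β) (hγ : 0 ≤ γ) :
    α + β + γ ≤ chord β γ (3 / 10 + x) + chord α β (47 / 100 + y) + chord α γ (47 / 100 + z) := by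
  have hxz : x ≤ 11 / 40 := by linarith
  have hyz : y ≤ 11 / 40 := by linarith
  have hzz : z ≤ 11 / 40 := by linarith
  obtain ⟨d0, hd0⟩ : ∃ d0 : ℝ, d0 = 34 / 100 * (z - y) := ⟨_, rfl⟩
  obtain ⟨d1, hd1⟩ : ∃ d1 : ℝ, d1 = 32 / 100 * x - 333 / 1000 * z - 55 / 1000 := ⟨_, rfl⟩
  obtain ⟨d2, hd2⟩ : ∃ d2 : ℝ, d2 = 32 / 100 * x - 333 / 1000 * y - 55 / 1000 := ⟨_, rfl⟩
  have hd0b : d0 ^ 2 ≤ 9 / 1000 := by
    have h1 : -(94 / 1000) ≤ d0 := by rw [hd0]; linarith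
    have h2 : d0 ≤ 94 / 1000 := by rw [hd0]; linarith
    nlinarith
  have hd1b : d1 ^ 2 ≤ 22 / 1000 := by
    have h1 : -(147 / 1000) ≤ d1 := by rw [hd1]; linarith
    have h2 : d1 ≤ 147 / 1000 := by rw [hd1]; linarith
    nlinarith
  have hd2b : d2 ^ 2 ≤ 22 / 1000 := by
    have h1 : -(147 / 1000) ≤ d2 := by rw [hd2]; linarith
    have h2 : d2 ≤ 147 / 1000 := by rw [hd2]; linarith
    nlinarith
  have c0 := chord_ge' (a := β) (b := γ) (s := 3 / 10 + x) (d := d0)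
    (q := 1675 / 10000 + 98 / 100 * x) hβ hγ (by linarith) (by linarith) (by linarith)
    (by nlinarith [sq_nonneg d0])
    (by nlinarith [mul_nonneg hx (sub_nonneg.2 hxz), mul_nonneg hx (mul_nonneg hx (sub_nonneg.2 hxz))])
  have c1 := chord_ge' (a := α) (b := β) (s := 47 / 100 + y) (d := d1)
    (q := 3065 / 10000 + 198 / 100 * y) hα hβ (by linarith) (by linarith) (by linarith)
    (by nlinarith [sq_nonneg d1])
    (by nlinarith [mul_nonneg hy (sub_nonneg.2 hyz), mul_nonneg hy (mul_nonneg hy (sub_nonneg.2 hyz))])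
  have c2 := chord_ge' (a := α) (b := γ) (s := 47 / 100 + z) (d := d2)
    (q := 3065 / 10000 + 198 / 100 * z) hα hγ (by linarith) (by linarith) (by linarith)
    (by nlinarith [sq_nonneg d2])
    (by nlinarith [mul_nonneg hz (sub_nonneg.2 hzz), mul_nonneg hz (mul_nonneg hz (sub_nonneg.2 hzz))])
  have m1 := mul_nonneg (mul_nonneg hx hx) hx
  have m2 := mul_nonneg (mul_nonneg hx hx) hy
  have m3 := mul_nonneg (mul_nonneg hx hx) hz
  have m4 := mul_nonneg (mul_nonneg hx hy) hy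
  have m5 := mul_nonneg (mul_nonneg hx hy) hz
  have m6 := mul_nonneg (mul_nonneg hx hz) hz
  have m7 := mul_nonneg (mul_nonneg hy hy) hy
  have m8 := mul_nonneg (mul_nonneg hy hy) hz
  have m9 := mul_nonneg (mul_nonneg hy hz) hz
  have m10 := mul_nonneg (mul_nonneg hz hz) hz
  have kα : 1 ≤ (47 / 100 + y - (3065 / 10000 + 198 / 100 * y) * d1 ^ 2) +
      (47 / 100 + z - (3065 / 10000 + 198 / 100 * z) * d2 ^ 2) + d1 + d2 := by
    obtain rfl : z = 11 / 40 - x - y := by linarith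
    subst hd1 hd2
    linarith
  have kβ : 1 ≤ (3 / 10 + x - (1675 / 10000 + 98 / 100 * x) * d0 ^ 2) +
      (47 / 100 + y - (3065 / 10000 + 198 / 100 * y) * d1 ^ 2) + d0 - d1 := by
    obtain rfl : z = 11 / 40 - x - y := by linarith
    subst hd1 hd0
    linarith
  have kγ : 1 ≤ (3 / 10 + x - (1675 / 10000 + 98 / 100 * x) * d0 ^ 2) +
      (47 / 100 + z - (3065 / 10000 + 198 / 100 * z) * d2 ^ 2) - d0 - d2 := by
    obtain rfl : z = 11 / 40 - x - y := by linarith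
    subst hd2 hd0
    linarith
  have kα' := mul_le_mul_of_nonneg_left kα hα
  have kβ' := mul_le_mul_of_nonneg_left kβ hβ
  have kγ' := mul_le_mul_of_nonneg_left kγ hγ
  linarith

theorem triB {x y z α β γ : ℝ} (hx : 0 ≤ x) (hy : 0 ≤ y) (hz : 0 ≤ z) (hs : x + y + z = 15 / 100)
    (hα : 0 ≤ α) (hβ : 0 ≤ β) (hγ : 0 ≤ γ) :
    α + β + γ ≤ chord β γ (36 / 100 + x) + chord α β (1 / 2 + y) + chord α γ (1 / 2 + z) := by
  have hxz : x ≤ 15 / 100 := by linarith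
  have hyz : y ≤ 15 / 100 := by linarith
  have hzz : z ≤ 15 / 100 := by linarith
  obtain ⟨d0, hd0⟩ : ∃ d0 : ℝ, d0 = 346 / 1000 * (z - y) := ⟨_, rfl⟩
  obtain ⟨d1, hd1⟩ : ∃ d1 : ℝ, d1 = 35 / 100 * x - 32 / 100 * z - 47 / 1000 := ⟨_, rfl⟩
  obtain ⟨d2, hd2⟩ : ∃ d2 : ℝ, d2 = 35 / 100 * x - 32 / 100 * y - 47 / 1000 := ⟨_, rfl⟩
  have hd0b : d0 ^ 2 ≤ 4 / 1000 := by
    have h1 : -(52 / 1000) ≤ d0 := by rw [hd0]; linarith
    have h2 : d0 ≤ 52 / 1000 := by rw [hd0]; linarith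
    nlinarith
  have hd1b : d1 ^ 2 ≤ 10 / 1000 := by
    have h1 : -(98 / 1000) ≤ d1 := by rw [hd1]; linarith
    have h2 : d1 ≤ 98 / 1000 := by rw [hd1]; linarith
    nlinarith
  have hd2b : d2 ^ 2 ≤ 10 / 1000 := by
    have h1 : -(98 / 1000) ≤ d2 := by rw [hd2]; linarith
    have h2 : d2 ≤ 98 / 1000 := by rw [hd2]; linarith
    nlinarith
  have c0 := chord_ge' (a := β) (b := γ) (s := 36 / 100 + x) (d := d0)
    (q := 21 / 100 + 94 / 100 * x) hβ hγ (by linarith) (by linarith) (by linarith)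
    (by nlinarith [sq_nonneg d0])
    (by nlinarith [mul_nonneg hx (sub_nonneg.2 hxz), mul_nonneg hx (mul_nonneg hx (sub_nonneg.2 hxz))])
  have c1 := chord_ge' (a := α) (b := β) (s := 1 / 2 + y) (d := d1)
    (q := 339 / 1000 + 156 / 100 * y) hα hβ (by linarith) (by linarith) (by linarith)
    (by nlinarith [sq_nonneg d1])
    (by nlinarith [mul_nonneg hy (sub_nonneg.2 hyz), mul_nonneg hy (mul_nonneg hy (sub_nonneg.2 hyz))])
  have c2 := chord_ge' (a := α) (b := γ) (s := 1 / 2 + z) (d := d2)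
    (q := 339 / 1000 + 156 / 100 * z) hα hγ (by linarith) (by linarith) (by linarith)
    (by nlinarith [sq_nonneg d2])
    (by nlinarith [mul_nonneg hz (sub_nonneg.2 hzz), mul_nonneg hz (mul_nonneg hz (sub_nonneg.2 hzz))])
  have m1 := mul_nonneg (mul_nonneg hx hx) hx
  have m2 := mul_nonneg (mul_nonneg hx hx) hy
  have m3 := mul_nonneg (mul_nonneg hx hx) hz
  have m4 := mul_nonneg (mul_nonneg hx hy) hy
  have m5 := mul_nonneg (mul_nonneg hx hy) hz
  have m6 := mul_nonneg (mul_nonneg hx hz) hz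
  have m7 := mul_nonneg (mul_nonneg hy hy) hy
  have m8 := mul_nonneg (mul_nonneg hy hy) hz
  have m9 := mul_nonneg (mul_nonneg hy hz) hz
  have m10 := mul_nonneg (mul_nonneg hz hz) hz
  have kα : 1 ≤ (1 / 2 + y - (339 / 1000 + 156 / 100 * y) * d1 ^ 2) +
      (1 / 2 + z - (339 / 1000 + 156 / 100 * z) * d2 ^ 2) + d1 + d2 := by
    obtain rfl : z = 15 / 100 - x - y := by linarith
    subst hd1 hd2
    linarith
  have kβ : 1 ≤ (36 / 100 + x - (21 / 100 + 94 / 100 * x) * d0 ^ 2) +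
      (1 / 2 + y - (339 / 1000 + 156 / 100 * y) * d1 ^ 2) + d0 - d1 := by
    obtain rfl : z = 15 / 100 - x - y := by linarith
    subst hd1 hd0
    linarith
  have kγ : 1 ≤ (36 / 100 + x - (21 / 100 + 94 / 100 * x) * d0 ^ 2) +
      (1 / 2 + z - (339 / 1000 + 156 / 100 * z) * d2 ^ 2) - d0 - d2 := by
    obtain rfl : z = 15 / 100 - x - y := by linarith
    subst hd2 hd0
    linarith
  have kα' := mul_le_mul_of_nonneg_left kα hα
  have kβ' := mul_le_mul_of_nonneg_left kβ hβ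
  have kγ' := mul_le_mul_of_nonneg_left kγ hγ
  linarith

/-- reduction to a fixed sum -/
theorem scale {x y z r : ℝ} (hx : 0 ≤ x) (hy : 0 ≤ y) (hz : 0 ≤ z) (hr : 0 < r)
    (h : r ≤ x + y + z) :
    ∃ x' y' z' : ℝ, 0 ≤ x' ∧ x' ≤ x ∧ 0 ≤ y' ∧ y' ≤ y ∧ 0 ≤ z' ∧ z' ≤ z ∧ x' + y' + z' = r := by
  have hpos : 0 < x + y + z := lt_of_lt_of_le hr h
  have ht0 : 0 ≤ r / (x + y + z) := by positivity
  have ht1 : r / (x + y + z) ≤ 1 := (div_le_one hpos).2 h
  refine ⟨x * (r / (x + y + z)), y * (r / (x + y + z)), z * (r / (x + y + z)), by positivity,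
    mul_le_of_le_one_right hx ht1, by positivity, mul_le_of_le_one_right hy ht1, by positivity,
    mul_le_of_le_one_right hz ht1, ?_⟩
  field_simp

end TRIh

theorem blk_TRI : Stmt_TRI := by
  intro s0 s1 s2 _ _ _ h0 h1 h2 hcond hsum α β γ hα hβ hγ
  by_cases hc : 303 / 200 ≤ s0 + s1 + s2
  · obtain ⟨x, y, z, hx, hxs, hy, hys, hz, hzs, hxyz⟩ := TRIh.scale (x := s0 - 3 / 10)
      (y := s1 - 47 / 100) (z := s2 - 47 / 100) (r := 11 / 40) (by linarith) (by linarith)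
      (by linarith) (by norm_num) (by linarith)
    have h := TRIh.triA hx hy hz hxyz hα hβ hγ
    have g0 := TRIh.chord_mono hβ hγ (s := 3 / 10 + x) (s' := s0) (by linarith) (by linarith)
    have g1 := TRIh.chord_mono hα hβ (s := 47 / 100 + y) (s' := s1) (by linarith) (by linarith)
    have g2 := TRIh.chord_mono hα hγ (s := 47 / 100 + z) (s' := s2) (by linarith) (by linarith)
    linarith
  · have hn : ¬ (s0 ≤ 9 / 25 ∨ s1 ≤ 1 / 2 ∨ s2 ≤ 1 / 2) := fun hh => hc (hcond hh)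
    push Not at hn
    obtain ⟨n0, n1, n2⟩ := hn
    obtain ⟨x, y, z, hx, hxs, hy, hys, hz, hzs, hxyz⟩ := TRIh.scale (x := s0 - 36 / 100)
      (y := s1 - 1 / 2) (z := s2 - 1 / 2) (r := 15 / 100) (by linarith) (by linarith)
      (by linarith) (by norm_num) (by linarith)
    have h := TRIh.triB hx hy hz hxyz hα hβ hγ
    have g0 := TRIh.chord_mono hβ hγ (s := 36 / 100 + x) (s' := s0) (by linarith) (by linarith)
    have g1 := TRIh.chord_mono hα hβ (s := 1 / 2 + y) (s' := s1) (by linarith) (by linarith)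
    have g2 := TRIh.chord_mono hα hγ (s := 1 / 2 + z) (s' := s2) (by linarith) (by linarith)
    linarith

end Pool.Agent.Work.MP_3892ce_static
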