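import Pool.Agent.Work.MP_3892ce_static.Interface2

/-! # Melzak's problem, static method: block UNBS5 (helper52)

If the half-spaces of a set `M` of facets have an unbounded intersection and the other facets
have total area at most `S / 160`, then `1684 V ≤ L ^ 3`. -/

set_option autoImplicit false

open MeasureTheory Set
open scoped ENNReal Pointwise

namespace Pool.Agent.Work.MP_3892ce_static

namespace UNBS5

/-- real numbers: the final contradiction -/
theorem numeric {ι : Type} [Fintype ι] (a : ι → ℝ) (R Lt : ℝ) (ha : ∀ i, 0 ≤ a i) (_hR : 0 ≤ R)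
    (hL0 : 0 ≤ Lt) (hS : ∑ i, a i ^ 2 = R ^ 2) (h0 : 1.7724 * ∑ i, a i ≤ Lt)
    (h2 : ∀ i j, i ≠ j → 3.179 * (a i + a j) ≤ Lt) (h3 : ∀ i, 2 * a i ^ 2 ≤ R ^ 2) :
    3.35 * R ≤ Lt := by
  classical
  by_contra hcon
  push Not at hcon
  have hRpos : 0 < R := by nlinarith
  rcases isEmpty_or_nonempty ι with hE | hE
  · simp at hS
    nlinarith [pow_pos hRpos 2]
  obtain ⟨i1, hi1⟩ := Finite.exists_max a
  set sa := ∑ i, a i with hsa
  have hsum : sa < 1.8901 * R := by nlinarith
  have h4 : R ^ 2 ≤ a i1 * sa := by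
    rw [← hS, hsa, Finset.mul_sum]
    refine Finset.sum_le_sum fun i _ => ?_
    rw [pow_two]
    exact mul_le_mul_of_nonneg_right (hi1 i) (ha i)
  have hy1 : 0.529 * R ≤ a i1 := by
    by_contra hc
    push Not at hc
    have : a i1 * sa ≤ 0.529 * R * (1.8901 * R) :=
      mul_le_mul hc.le hsum.le (Finset.sum_nonneg fun i _ => ha i) (by positivity)
    nlinarith [pow_pos hRpos 2]
  have hy2 : a i1 ≤ 0.7072 * R := by
    by_contra hc
    push Not at hc
    have := h3 i1
    nlinarith [pow_pos hRpos 2, mul_pos hRpos hRpos, mul_self_lt_mul_self (by positivity) hc]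
  have h5 : R ^ 2 ≤ a i1 ^ 2 + (1.0538 * R - a i1) * (sa - a i1) := by
    have e1 := Finset.add_sum_erase Finset.univ (fun k => a k ^ 2) (Finset.mem_univ i1)
    have e2 := Finset.add_sum_erase Finset.univ a (Finset.mem_univ i1)
    rw [← hS, ← e1, show sa - a i1 = ∑ k ∈ Finset.univ.erase i1, a k by rw [hsa, ← e2]; ring,
      Finset.mul_sum]
    have : ∑ k ∈ Finset.univ.erase i1, a k ^ 2 ≤
        ∑ k ∈ Finset.univ.erase i1, (1.0538 * R - a i1) * a k := by
      refine Finset.sum_le_sum fun k hk => ?_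
      rw [pow_two]
      refine mul_le_mul_of_nonneg_right ?_ (ha k)
      have := h2 i1 k (Finset.ne_of_mem_erase hk).symm
      linarith
    linarith
  have h6 : a i1 ^ 2 + (1.0538 * R - a i1) * (sa - a i1) ≤
      a i1 ^ 2 + (1.0538 * R - a i1) * (1.8901 * R - a i1) := by
    have : 0 ≤ 1.0538 * R - a i1 := by linarith
    nlinarith [mul_nonneg this (sub_nonneg.2 hsum.le)]
  have h7 : 0 ≤ (a i1 - 0.529 * R) * (0.7072 * R - a i1) :=
    mul_nonneg (by linarith) (by linarith)
  nlinarith [mul_pos hRpos hRpos, mul_nonneg hRpos.le (sub_nonneg.2 hy1)]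


theorem seg_half : seg 1 (1 / 2) = Real.pi / 3 - √3 / 4 := by
  have h1 : Real.arccos (1 / 2 / 1) = Real.pi / 3 := by
    rw [div_one, ← Real.cos_pi_div_three, Real.arccos_cos (by positivity)
      (by linarith [Real.pi_pos])]
  have h2 : √((1 : ℝ) ^ 2 - (1 / 2) ^ 2) = √3 / 2 := by
    rw [show ((1 : ℝ) ^ 2 - (1 / 2) ^ 2) = 3 / 4 by norm_num, Real.sqrt_div (by norm_num),
      show (4 : ℝ) = 2 ^ 2 by norm_num, Real.sqrt_sq (by norm_num)]
  rw [seg, h1, h2]
  ring

theorem seg_zero : seg (1 / 2) 0 = Real.pi / 8 := by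
  rw [seg]
  simp
  ring

end UNBS5

/-- the half-spaces of the facets in `M` have an unbounded intersection, and the other facets have
small area -/
theorem unbounded_bound (hUNB : Stmt_UNB) (hTWO : Stmt_TWO) (hCLOSE : Stmt_CLOSE)
    (ι : Type) [Fintype ι] [DecidableEq ι] (n : ι → E 3) (b : ι → ℝ)
    (U : ι → (E 2 →ₗᵢ[ℝ] E 3)) (hU : ∀ i, Frame (n i) (U i)) (hI : Irr n b) (M : Finset ι)
    (hM : ¬ Bornology.IsBounded (HP (fun k : M => n k) (fun k : M => b k)))
    (hT : 160 * ∑ i with i ∉ M, area (HP n b) (n i) (U i) (b i) ≤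
      ∑ i, area (HP n b) (n i) (U i) (b i)) :
    1684 * (volume (HP n b)).toReal ≤ L n b ^ 3 := by
  set A : ι → ℝ := fun i => area (HP n b) (n i) (U i) (b i) with hA
  have hA0 : ∀ i, 0 ≤ A i := fun i => ENNReal.toReal_nonneg
  set S := ∑ i, A i with hS
  have hS0 : 0 ≤ S := Finset.sum_nonneg fun i _ => hA0 i
  have hunb := hUNB ι n b U hU hI M hM S _ rfl rfl
  -- the family without main facets
  have h0 : √Real.pi * ∑ i, √(A i) ≤ L n b := by
    have := hTWO ι n b U hU hI ∅ 1 (fun _ => 1 / 2) le_rfl (by simp) (by norm_num)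
    refine le_trans (le_of_eq ?_) this
    rw [Finset.mul_sum]
    refine Finset.sum_congr rfl fun i _ => ?_
    simp only [Finset.notMem_empty, if_false, Finset.filter_empty, Finset.card_empty, Wd]
    rw [show area (HP n b) (n i) (U i) (b i) * (Real.pi * (1 / 2) ^ 2 - ((0 : ℕ) : ℝ) *
      seg (1 / 2) (1 - 1)) = A i * (Real.pi * (1 / 2) ^ 2) by rw [hA]; push_cast; ring,
      Real.sqrt_mul (hA0 i), Real.sqrt_mul Real.pi_pos.le, Real.sqrt_sq (by norm_num)]
    ring
  have hpi : (1.7724 : ℝ) ≤ √Real.pi := by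
    refine Real.le_sqrt_of_sq_le ?_
    have := Real.pi_gt_d4
    norm_num at this ⊢
    linarith
  have h0' : 1.7724 * ∑ i, √(A i) ≤ L n b :=
    le_trans (mul_le_mul_of_nonneg_right hpi (Finset.sum_nonneg fun i _ => Real.sqrt_nonneg _)) h0
  have hL0 : 0 ≤ L n b :=
    le_trans (mul_nonneg (by norm_num) (Finset.sum_nonneg fun i _ => Real.sqrt_nonneg _)) h0'
  -- the families with two main facets
  have h2 : ∀ i j, i ≠ j → 3.179 * (√(A i) + √(A j)) ≤ L n b := by
    intro i j hij
    have := hTWO ι n b U hU hI {i, j} 1 (fun k => if k ∈ ({i, j} : Finset ι) then 1 else 1 / 2)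
      le_rfl (by intro k hk; rw [if_pos hk]; norm_num)
      (by intro k hk; rw [if_neg hk]; norm_num)
    refine le_trans ?_ this
    have hW : ∀ k ∈ ({i, j} : Finset ι), 3.179 * √(A k) ≤
        2 * √(area (HP n b) (n k) (U k) (b k) *
        Wd (if k ∈ ({i, j} : Finset ι) then 1 else 1 / 2)
        (if k ∈ ({i, j} : Finset ι) then 1 / 2 else 1 - 1)
        (({i, j} : Finset ι).filter (fun l => 0 < len n b k l)).card) := by
      intro k hk
      have hc : ((({i, j} : Finset ι).filter (fun l => 0 < len n b k l)).card : ℝ) ≤ 1 := by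
        have h1 : (({i, j} : Finset ι).filter (fun l => 0 < len n b k l)) ⊆
            ({i, j} : Finset ι).erase k := by
          intro l hl
          rw [Finset.mem_filter] at hl
          refine Finset.mem_erase.2 ⟨fun h => ?_, hl.1⟩
          rw [h, len, if_pos rfl] at hl
          exact lt_irrefl _ hl.2
        have h2 := Finset.card_le_card h1
        rw [Finset.card_erase_of_mem hk, Finset.card_pair hij] at h2
        exact_mod_cast h2
      rw [if_pos hk, if_pos hk, Wd, UNBS5.seg_half]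
      have h3 : (1.7320 : ℝ) ≤ √3 := Real.le_sqrt_of_sq_le (by norm_num)
      have h3' : √3 ≤ (1.7321 : ℝ) := Real.sqrt_le_iff.2 (by norm_num)
      have hpi1 := Real.pi_gt_d4
      have hpi2 := Real.pi_lt_d4
      have hsg : 0 ≤ Real.pi / 3 - √3 / 4 := by norm_num at h3' hpi1 ⊢; linarith
      have hle : (3.179 / 2 : ℝ) ^ 2 ≤ Real.pi * 1 ^ 2 -
          ((({i, j} : Finset ι).filter (fun l => 0 < len n b k l)).card : ℝ) *
          (Real.pi / 3 - √3 / 4) := by
        have := mul_le_mul_of_nonneg_right hc hsg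
        norm_num at h3 hpi1 this ⊢
        linarith
      have hs : √(A k) * (3.179 / 2) ≤ √(A k * (Real.pi * 1 ^ 2 -
          ((({i, j} : Finset ι).filter (fun l => 0 < len n b k l)).card : ℝ) *
          (Real.pi / 3 - √3 / 4))) := by
        rw [Real.sqrt_mul (hA0 k)]
        exact mul_le_mul_of_nonneg_left (Real.le_sqrt_of_sq_le hle) (Real.sqrt_nonneg _)
      have : 3.179 * √(A k) = 2 * (√(A k) * (3.179 / 2)) := by ring
      rw [this]
      exact mul_le_mul_of_nonneg_left hs (by norm_num)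
    calc 3.179 * (√(A i) + √(A j)) = ∑ k ∈ ({i, j} : Finset ι), 3.179 * √(A k) := by
          rw [Finset.sum_pair hij]; ring
      _ ≤ _ := Finset.sum_le_sum hW
      _ ≤ _ := Finset.sum_le_univ_sum_of_nonneg (fun k => by positivity)
  -- no facet has more than half of the area
  have h3 : ∀ i, 2 * A i ≤ S := by
    intro i
    have hcl := hCLOSE ι n b U hU hI
    have e1 := Finset.add_sum_erase Finset.univ (fun k => A k • n k) (Finset.mem_univ i)
    have e2 := Finset.add_sum_erase Finset.univ A (Finset.mem_univ i)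
    have hcl' : ∑ k, A k • n k = 0 := hcl
    rw [hcl'] at e1
    have e3 : A i • n i = - ∑ k ∈ Finset.univ.erase i, A k • n k := by
      rw [eq_neg_iff_add_eq_zero]; exact e1
    have e4 : ‖A i • n i‖ ≤ ∑ k ∈ Finset.univ.erase i, A k := by
      rw [e3, norm_neg]
      refine (norm_sum_le _ _).trans (Finset.sum_le_sum fun k _ => ?_)
      rw [norm_smul, hI.unit, mul_one, Real.norm_eq_abs, abs_of_nonneg (hA0 k)]
    rw [norm_smul, hI.unit, mul_one, Real.norm_eq_abs, abs_of_nonneg (hA0 i)] at e4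
    have : S = A i + ∑ k ∈ Finset.univ.erase i, A k := e2.symm
    linarith
  have hkey : 3.35 * √S ≤ L n b := by
    refine UNBS5.numeric (fun i => √(A i)) (√S) (L n b) (fun i => Real.sqrt_nonneg _)
      (Real.sqrt_nonneg _) hL0 ?_ h0' h2 ?_
    · rw [Real.sq_sqrt hS0]
      exact Finset.sum_congr rfl fun i _ => Real.sq_sqrt (hA0 i)
    · intro i
      show 2 * √(A i) ^ 2 ≤ √S ^ 2
      rw [Real.sq_sqrt hS0, Real.sq_sqrt (hA0 i)]
      exact h3 i
  set V := (volume (HP n b)).toReal with hV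
  have hV0 : 0 ≤ V := ENNReal.toReal_nonneg
  have hT' : (∑ i with i ∉ M, A i) * S ^ 2 ≤ S ^ 3 / 160 := by
    have : ∑ i with i ∉ M, A i ≤ S / 160 := by
      have : 160 * ∑ i with i ∉ M, A i ≤ S := hT
      linarith
    calc (∑ i with i ∉ M, A i) * S ^ 2 ≤ S / 160 * S ^ 2 :=
          mul_le_mul_of_nonneg_right this (by positivity)
      _ = S ^ 3 / 160 := by ring
  have h4 : 4 * Real.pi * V ^ 2 ≤ S ^ 3 / 160 := le_trans hunb hT'
  have hpi4 := Real.pi_gt_d4
  have h5 : (1684 * V) ^ 2 ≤ 1413 * S ^ 3 := by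
    have h5a : 4 * 3.1415 * V ^ 2 ≤ S ^ 3 / 160 := by
      refine le_trans ?_ h4
      have : (0 : ℝ) ≤ V ^ 2 := by positivity
      norm_num at hpi4 ⊢
      nlinarith
    have : (0 : ℝ) ≤ S ^ 3 := by positivity
    have : (0 : ℝ) ≤ V ^ 2 := by positivity
    nlinarith
  have h6 : 1413 * S ^ 3 ≤ (L n b ^ 3) ^ 2 := by
    have h6a : (3.35 * √S) ^ 6 ≤ L n b ^ 6 :=
      pow_le_pow_left₀ (by positivity) hkey 6
    have h6b : (3.35 * √S) ^ 6 = 3.35 ^ 6 * S ^ 3 := by
      rw [mul_pow, show √S ^ 6 = (√S ^ 2) ^ 3 by ring, Real.sq_sqrt hS0]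
    have h6c : (1413 : ℝ) * S ^ 3 ≤ 3.35 ^ 6 * S ^ 3 :=
      mul_le_mul_of_nonneg_right (by norm_num) (by positivity)
    calc 1413 * S ^ 3 ≤ 3.35 ^ 6 * S ^ 3 := h6c
      _ = (3.35 * √S) ^ 6 := h6b.symm
      _ ≤ L n b ^ 6 := h6a
      _ = (L n b ^ 3) ^ 2 := by ring
  exact abs_le_of_sq_le_sq' (h5.trans h6) (by positivity) |>.2

/-- the same for a family `m` of facets -/
theorem unbounded_bound' (hUNB : Stmt_UNB) (hTWO : Stmt_TWO) (hCLOSE : Stmt_CLOSE)
    (ι : Type) [Fintype ι] [DecidableEq ι] (n : ι → E 3) (b : ι → ℝ)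
    (U : ι → (E 2 →ₗᵢ[ℝ] E 3)) (hU : ∀ i, Frame (n i) (U i)) (hI : Irr n b) {κ : Type}
    [Fintype κ] (m : κ → ι)
    (hM : ¬ Bornology.IsBounded (HP (fun k => n (m k)) (fun k => b (m k))))
    (hT : 160 * ∑ i with i ∉ Set.range m, area (HP n b) (n i) (U i) (b i) ≤
      ∑ i, area (HP n b) (n i) (U i) (b i)) :
    1684 * (volume (HP n b)).toReal ≤ L n b ^ 3 := by
  classical
  refine unbounded_bound hUNB hTWO hCLOSE ι n b U hU hI (Finset.univ.image m) (fun h => hM ?_) ?_
  · refine h.subset fun x hx k => ?_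
    obtain ⟨j, -, hj⟩ := Finset.mem_image.1 k.2
    have := hx j
    simp only [hj] at this
    exact this
  · refine le_trans (le_of_eq ?_) hT
    congr 1
    refine Finset.sum_congr ?_ fun _ _ => rfl
    ext i
    simp [Set.mem_range]

end Pool.Agent.Work.MP_3892ce_static
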