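import Pool.Agent.Work.MP_3892ce_static.Interface2

/-! # Melzak's problem, static method: statements of the blocks, third part -/

set_option autoImplicit false

open MeasureTheory Set
open scoped ENNReal Pointwise

namespace Pool.Agent.Work.MP_3892ce_static

/-- `FAMG2`: `FAMG` with a free radius `ρ ≤ 1/2` in the facets which are not named (it may depend
on the facet, and is chosen by the set of its named neighbours) -/
def Stmt_FAMG2 : Prop :=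
  ∀ (ι : Type) [Fintype ι] [DecidableEq ι] (n : ι → E 3) (b : ι → ℝ)
    (U : ι → (E 2 →ₗᵢ[ℝ] E 3)), (∀ i, Frame (n i) (U i)) → Irr n b →
    ∀ (k : ℕ) (m : Fin k → ι), Function.Injective m →
    ∀ (h : Fin k → Fin k → ℝ) (w W : Fin k → ℝ) (t : ℝ), (∀ a b, a ≠ b → h a b + h b a = 1) →
      (∀ a b, 0 ≤ h a b) → (∀ a, 0 < w a) → (∀ a, 0 ≤ W a) → 0 ≤ t →
      (∀ a, W a ≤ (volume {y : E 2 | ‖y‖ ≤ w a ∧
        ∀ c, 0 < len n b (m a) (m c) → inner ℝ (nu n U (m a) (m c)) y ≤ h a c}).toReal) →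
      (∀ i, i ∉ Set.range m →
        (∃ ρ : ℝ, 0 < ρ ∧ ρ ≤ 1 / 2 ∧ (∀ a, 0 < len n b i (m a) → w a ≤ 1) ∧
          t ^ 2 ≤ 4 * (Real.pi * ρ ^ 2 -
            ∑ a, if 0 < len n b i (m a) then sg ρ (1 - w a) else 0))
        ∨ ∃ (a0 : Fin k) (x ρ : ℝ), 0 < len n b i (m a0) ∧ w a0 = 1 + x ∧ 0 ≤ x ∧ 0 ≤ ρ ∧
          (∀ a, a ≠ a0 → 0 < len n b i (m a) → x + 2 * ρ ≤ 1 - w a) ∧ x + 2 * ρ ≤ 1 / 2 ∧
          t ≤ 2 * √Real.pi * ρ) →
      ∑ a, 2 * √(area (HP n b) (n (m a)) (U (m a)) (b (m a)) * W a) +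
        t * ∑ i with i ∉ Set.range m, √(area (HP n b) (n i) (U i) (b i)) ≤ L n b

end Pool.Agent.Work.MP_3892ce_static
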