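import Pool.Agent.Work.MP_3892ce_static.Interface

/-! # Melzak's problem, static method: block BDD (outer bodies are bounded) -/

set_option autoImplicit false

open MeasureTheory Set
open scoped ENNReal Pointwise

namespace Pool.Agent.Work.MP_3892ce_static

theorem blk_BDD : Stmt_BDD := by
  intro d ι _ n b c hb hbd
  obtain ⟨M, hM⟩ := (Set.finite_range (fun i => c i / b i)).bddAbove
  obtain ⟨R, hR⟩ := hbd.exists_norm_le
  have hμ : (0 : ℝ) < max M 1 := lt_of_lt_of_le one_pos (le_max_right _ _)
  rw [isBounded_iff_forall_norm_le]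
  refine ⟨max M 1 * R, fun x hx => ?_⟩
  have hx' : (max M 1)⁻¹ • x ∈ HP n b := by
    intro i
    rw [inner_smul_right]
    have h1 : inner ℝ (n i) x ≤ c i := hx i
    have h2 : c i / b i ≤ max M 1 := (hM (Set.mem_range_self i)).trans (le_max_left _ _)
    rw [div_le_iff₀ (hb i)] at h2
    rw [inv_mul_le_iff₀ hμ]
    exact h1.trans h2
  have h3 := hR _ hx'
  rw [norm_smul, norm_inv, Real.norm_of_nonneg hμ.le, inv_mul_le_iff₀ hμ] at h3
  exact h3

end Pool.Agent.Work.MP_3892ce_static
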