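import Pool.Agent.Work.MP_3892ce_static.Interface

/-! # Block BM: the Brunn-Minkowski inequality -/

set_option autoImplicit false

open MeasureTheory Set
open scoped ENNReal Pointwise

namespace Pool.Agent.Work.MP_3892ce_static

namespace BM

theorem lint_ind {d : ℕ} {A : Set (E d)} (hA : MeasurableSet A) :
    ∫⁻ x : Fin d → ℝ, A.indicator (fun _ => (1 : ℝ≥0∞)) (WithLp.toLp 2 x) = volume A := by
  rw [(PiLp.volume_preserving_toLp (Fin d)).lintegral_comp
    (f := A.indicator (fun _ => (1 : ℝ≥0∞))) (measurable_const.indicator hA)]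
  rw [lintegral_indicator hA, lintegral_one, Measure.restrict_apply_univ]

/-- multiplicative form -/
theorem mult (hP : Stmt_PLN) {d : ℕ} {A B : Set (E d)} (hA : IsCompact A) (hB : IsCompact B)
    {t : ℝ} (ht : 0 < t) (ht1 : t < 1) :
    volume A ^ (1 - t) * volume B ^ t ≤ volume ((1 - t) • A + t • B) := by
  have hC : IsCompact ((1 - t) • A + t • B) := (hA.smul _).add (hB.smul _)
  have hm : ∀ {C : Set (E d)}, MeasurableSet C →
      Measurable (fun x : Fin d → ℝ => C.indicator (fun _ => (1 : ℝ≥0∞)) (WithLp.toLp 2 x)) :=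
    fun {C} h => (measurable_const.indicator h).comp
      (PiLp.volume_preserving_toLp (Fin d)).measurable
  have h1 := hP d t ht ht1 _ _ _ (hm hA.measurableSet) (hm hB.measurableSet)
    (hm hC.measurableSet) (by
      intro x y
      by_cases hx : (WithLp.toLp 2 x : E d) ∈ A
      · by_cases hy : (WithLp.toLp 2 y : E d) ∈ B
        · rw [indicator_of_mem hx, indicator_of_mem hy, ENNReal.one_rpow, ENNReal.one_rpow,
            mul_one, indicator_of_mem]
          refine ⟨(1 - t) • WithLp.toLp 2 x, smul_mem_smul_set hx, t • WithLp.toLp 2 y,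
            smul_mem_smul_set hy, ?_⟩
          rfl
        · rw [indicator_of_notMem hy, ENNReal.zero_rpow_of_pos ht, mul_zero]
          exact zero_le
      · rw [indicator_of_notMem hx, ENNReal.zero_rpow_of_pos (by linarith), zero_mul]
        exact zero_le)
  rw [lint_ind hA.measurableSet, lint_ind hB.measurableSet, lint_ind hC.measurableSet] at h1
  exact h1

theorem vol_smul {d : ℕ} (A : Set (E d)) {r : ℝ} (hr : 0 < r) :
    (volume (r • A)).toReal = r ^ d * (volume A).toReal := by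
  rw [Measure.addHaar_smul, finrank_euclideanSpace, Fintype.card_fin, ENNReal.toReal_mul,
    abs_of_pos (pow_pos hr d), ENNReal.toReal_ofReal (pow_pos hr d).le]

theorem rpow_mono {d : ℕ} {x y : ℝ} (hx : 0 ≤ x) (h : x ≤ y) :
    x ^ ((1 : ℝ) / d) ≤ y ^ ((1 : ℝ) / d) :=
  Real.rpow_le_rpow hx h (by positivity)

theorem root_pow {d : ℕ} (hd : 0 < d) {x : ℝ} (hx : 0 ≤ x) : (x ^ ((1 : ℝ) / d)) ^ d = x := by
  rw [← Real.rpow_natCast, ← Real.rpow_mul hx, one_div, inv_mul_cancel₀ (by positivity),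
    Real.rpow_one]

theorem pow_root {d : ℕ} (hd : 0 < d) {x : ℝ} (hx : 0 ≤ x) : (x ^ d) ^ ((1 : ℝ) / d) = x := by
  rw [← Real.rpow_natCast, ← Real.rpow_mul hx, one_div, mul_inv_cancel₀ (by positivity),
    Real.rpow_one]

theorem sub_case {d : ℕ} (hd : 0 < d) {A B : Set (E d)} (hA : IsCompact A) (hB : IsCompact B)
    (hA' : A.Nonempty) (h : (volume A).toReal = 0) :
    (volume A).toReal ^ ((1 : ℝ) / d) + (volume B).toReal ^ ((1 : ℝ) / d) ≤
      (volume (A + B)).toReal ^ ((1 : ℝ) / d) := by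
  obtain ⟨a, ha⟩ := hA'
  have hd' : ((1 : ℝ) / d) ≠ 0 := by positivity
  rw [h, Real.zero_rpow hd', zero_add]
  refine rpow_mono ENNReal.toReal_nonneg ?_
  refine ENNReal.toReal_mono (hA.add hB).measure_lt_top.ne ?_
  calc volume B = volume ((fun x => a + x) '' B) := by
        rw [image_add_left, measure_preimage_add]
    _ ≤ volume (A + B) := by
        refine measure_mono ?_
        rintro _ ⟨x, hx, rfl⟩
        exact add_mem_add ha hx

end BM

open BM in
theorem blk_BM (hP : Stmt_PLN) : Stmt_BM := by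
  intro d hd A B hA hB hA' hB'
  rcases eq_or_lt_of_le (ENNReal.toReal_nonneg (a := volume A)) with h0 | h0
  · exact sub_case hd hA hB hA' h0.symm
  rcases eq_or_lt_of_le (ENNReal.toReal_nonneg (a := volume B)) with h1 | h1
  · have h2 := sub_case hd hB hA hB' h1.symm
    rw [add_comm B A] at h2
    linarith
  set a := (volume A).toReal ^ ((1 : ℝ) / d) with ha
  set b := (volume B).toReal ^ ((1 : ℝ) / d) with hb
  have ha0 : 0 < a := Real.rpow_pos_of_pos h0 _
  have hb0 : 0 < b := Real.rpow_pos_of_pos h1 _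
  have hab : 0 < a + b := by positivity
  have hA1 : (volume (a⁻¹ • A)).toReal = 1 := by
    rw [vol_smul A (inv_pos.2 ha0), inv_pow, ha, root_pow hd h0.le, inv_mul_cancel₀ h0.ne']
  have hB1 : (volume (b⁻¹ • B)).toReal = 1 := by
    rw [vol_smul B (inv_pos.2 hb0), inv_pow, hb, root_pow hd h1.le, inv_mul_cancel₀ h1.ne']
  have hA2 : volume (a⁻¹ • A) = 1 := by
    rw [← ENNReal.ofReal_toReal (hA.smul a⁻¹).measure_lt_top.ne, hA1, ENNReal.ofReal_one]
  have hB2 : volume (b⁻¹ • B) = 1 := by
    rw [← ENNReal.ofReal_toReal (hB.smul b⁻¹).measure_lt_top.ne, hB1, ENNReal.ofReal_one]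
  have ht : 0 < b / (a + b) := by positivity
  have ht1 : b / (a + b) < 1 := by rw [div_lt_one hab]; linarith
  have h2 := mult hP (hA.smul a⁻¹) (hB.smul b⁻¹) ht ht1
  rw [hA2, hB2, ENNReal.one_rpow, ENNReal.one_rpow, mul_one, smul_smul, smul_smul] at h2
  have e1 : (1 - b / (a + b)) * a⁻¹ = (a + b)⁻¹ := by field_simp; ring
  have e2 : b / (a + b) * b⁻¹ = (a + b)⁻¹ := by field_simp
  rw [e1, e2, ← smul_add] at h2
  have h3 : 1 ≤ (volume ((a + b)⁻¹ • (A + B))).toReal := by
    have := ENNReal.toReal_mono ((hA.add hB).smul (a + b)⁻¹).measure_lt_top.ne h2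
    simpa using this
  rw [vol_smul _ (inv_pos.2 hab), inv_pow, ← div_eq_inv_mul, one_le_div (by positivity)] at h3
  calc a + b = ((a + b) ^ d) ^ ((1 : ℝ) / d) := (pow_root hd hab.le).symm
    _ ≤ _ := rpow_mono (by positivity) h3

end Pool.Agent.Work.MP_3892ce_static
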