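import Pool.Agent.Work.MP_3892ce_static.Interface4

/-! # Melzak's problem, static method: common part of the bridges BRB0, BRB1, BRB2 -/

set_option autoImplicit false

open MeasureTheory Set

namespace Pool.Agent.Work.MP_3892ce_static

namespace BRB

theorem len_symm {ι : Type} [DecidableEq ι] (n : ι → E 3) (b : ι → ℝ) (i j : ι) :
    len n b i j = len n b j i := by
  unfold len
  by_cases h : i = j
  · subst h
    rfl
  · rw [if_neg h, if_neg (fun h' => h h'.symm), inter_comm]

theorem len_self {ι : Type} [DecidableEq ι] (n : ι → E 3) (b : ι → ℝ) (i : ι) :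
    len n b i i = 0 := by
  unfold len
  rw [if_pos rfl]

variable {ι : Type} [Fintype ι] [DecidableEq ι]

/-- number of the named facets, with number in `J`, which are adjacent to `i` -/
noncomputable def dg (n : ι → E 3) (b : ι → ℝ) (s : Fin 6 → ι) (J : Finset (Fin 6)) (i : ι) : ℕ :=
  (J.filter fun a => 0 < len n b i (s a)).card

/-- The two-level bound with the named facets `s a`, `a ∈ J`. -/
theorem fam (hTWO : Stmt_TWO) {n : ι → E 3} {b : ι → ℝ} {U : ι → (E 2 →ₗᵢ[ℝ] E 3)}
    (hU : ∀ i, Frame (n i) (U i)) (hI : Irr n b) {s : Fin 6 → ι} (hs : Function.Injective s)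
    (J : Finset (Fin 6)) {w : ℝ} {C T : ℕ → ℝ} (hw : w ≤ 1) (hC : CB w C) (hT : TB w T) {K : ℕ}
    (hK6 : K ≤ 6) (hK : ∀ i, (∀ a, i ≠ s a) → dg n b s J i ≤ K) :
    ∑ a, (if a ∈ J then C (dg n b s J (s a)) else T (dg n b s J (s a))) * ra n b U (s a) +
      T K * rest n b U s ≤ L n b := by
  classical
  set M : Finset ι := J.image s with hM
  have hmem : ∀ a, s a ∈ M ↔ a ∈ J := by
    intro a
    rw [hM, Finset.mem_image]
    constructor
    · rintro ⟨c, hc, hca⟩
      rwa [← hs hca]
    · intro h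
      exact ⟨a, h, rfl⟩
  have hdeg : ∀ i, (M.filter fun j => 0 < len n b i j).card = dg n b s J i := by
    intro i
    rw [hM, Finset.filter_image, Finset.card_image_of_injective _ hs]
    rfl
  have hd6 : ∀ i, dg n b s J i ≤ 6 := by
    intro i
    refine (Finset.card_filter_le _ _).trans ?_
    exact (Finset.card_le_univ J).trans (by simp)
  have hd5 : ∀ i ∈ M, dg n b s J i ≤ 5 := by
    intro i hi
    rw [hM, Finset.mem_image] at hi
    obtain ⟨c, hc, rfl⟩ := hi
    have h1 : (J.filter fun a => 0 < len n b (s c) (s a)) ⊆ Finset.univ.erase c := by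
      intro a ha
      rw [Finset.mem_filter] at ha
      refine Finset.mem_erase.2 ⟨?_, Finset.mem_univ _⟩
      rintro rfl
      rw [len_self] at ha
      exact lt_irrefl _ ha.2
    refine (Finset.card_le_card h1).trans ?_
    rw [Finset.card_erase_of_mem (Finset.mem_univ _)]
    simp
  have hTanti : ∀ k ≤ 6, ∀ m, m ≤ k → T k ≤ T m := by
    intro k hk m hmk
    induction k with
    | zero =>
      have : m = 0 := by omega
      rw [this]
    | succ k ih =>
      rcases Nat.lt_or_ge m (k + 1) with h | h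
      · exact (hT.2.1 k (by omega)).trans (ih (by omega) (by omega))
      · have : m = k + 1 := by omega
        rw [this]
  choose rC hrC using hC.1
  choose rT hrT using hT.1
  obtain ⟨r, hr⟩ : ∃ r : ι → ℝ, r = fun i => if h : i ∈ M then rC (dg n b s J i) (hd5 i h) else
    rT (dg n b s J i) (hd6 i) := ⟨_, rfl⟩
  have h2 := hTWO ι n b U hU hI M w r hw (by
    intro i hi
    have := hrC (dg n b s J i) (hd5 i hi)
    rw [hr]
    simp only [dif_pos hi]
    exact ⟨this.1, this.2.1⟩) (by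
    intro i hi
    have := hrT (dg n b s J i) (hd6 i)
    rw [hr]
    simp only [dif_neg hi]
    exact ⟨this.1, this.2.1, this.2.2.1⟩)
  refine le_trans ?_ h2
  have hterm : ∀ i, (if i ∈ M then C (dg n b s J i) else T (dg n b s J i)) * ra n b U i ≤
      2 * √(area (HP n b) (n i) (U i) (b i) * Wd (r i) (if i ∈ M then 1 / 2 else 1 - w)
        (M.filter (fun j => 0 < len n b i j)).card) := by
    intro i
    rw [hdeg, Real.sqrt_mul (by unfold area; exact ENNReal.toReal_nonneg)]
    have hra : 0 ≤ ra n b U i := Real.sqrt_nonneg _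
    have hra' : ra n b U i = √(area (HP n b) (n i) (U i) (b i)) := rfl
    rw [← hra']
    by_cases hi : i ∈ M
    · have h3 := (hrC (dg n b s J i) (hd5 i hi)).2.2
      rw [hr]
      simp only [if_pos hi, dif_pos hi]
      nlinarith
    · have h3 := (hrT (dg n b s J i) (hd6 i)).2.2.2
      rw [hr]
      simp only [if_neg hi, dif_neg hi]
      nlinarith
  refine le_trans ?_ (Finset.sum_le_sum fun i _ => hterm i)
  rw [← Finset.sum_add_sum_compl (Finset.univ.image s)
    (fun i => (if i ∈ M then C (dg n b s J i) else T (dg n b s J i)) * ra n b U i)]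
  refine add_le_add ?_ ?_
  · rw [Finset.sum_image fun a _ c _ h => hs h]
    refine le_of_eq (Finset.sum_congr rfl fun a _ => ?_)
    simp only [hmem]
  · unfold rest
    rw [Finset.mul_sum]
    have hfe : (Finset.univ.filter fun i => i ∉ Finset.univ.image s) = (Finset.univ.image s)ᶜ := by
      ext i
      simp
    rw [hfe]
    refine Finset.sum_le_sum fun i hi => ?_
    rw [Finset.mem_compl, Finset.mem_image] at hi
    push Not at hi
    have hne : ∀ a, i ≠ s a := fun a h => hi a (Finset.mem_univ _) h.symm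
    have hiM : i ∉ M := by
      rw [hM, Finset.mem_image]
      rintro ⟨c, _, hc⟩
      exact hne c hc.symm
    rw [if_neg hiM]
    have hra : 0 ≤ ra n b U i := Real.sqrt_nonneg _
    exact mul_le_mul_of_nonneg_right (hTanti K hK6 _ (hK i hne)) hra

/-- no facet is adjacent to all of four pairwise adjacent facets -/
theorem noK5 (hRAD5 : Stmt_RAD5) (hADJ : Stmt_ADJ) {n : ι → E 3} {b : ι → ℝ} (hI : Irr n b)
    {p q r t u : ι} (h1 : 0 < len n b p q) (h2 : 0 < len n b p r) (h3 : 0 < len n b p t)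
    (h4 : 0 < len n b q r) (h5 : 0 < len n b q t) (h6 : 0 < len n b r t)
    (g1 : 0 < len n b u p) (g2 : 0 < len n b u q) (g3 : 0 < len n b u r) (g4 : 0 < len n b u t) :
    False := by
  have hne : ∀ i j : ι, 0 < len n b i j → i ≠ j := by
    rintro i j h rfl
    rw [len_self] at h
    exact lt_irrefl _ h
  have hadj : ∀ i j : ι, 0 < len n b i j → Adj n b i j := fun i j h => hADJ ι n b hI i j h
  have hsym : ∀ i j : ι, 0 < len n b i j → 0 < len n b j i := fun i j h => by rwa [len_symm]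
  refine hRAD5 ι n b hI.int ![p, q, r, t, u] ?_ ?_
  · intro i j hij
    have := hne _ _ h1
    have := hne _ _ h2
    have := hne _ _ h3
    have := hne _ _ h4
    have := hne _ _ h5
    have := hne _ _ h6
    have := hne _ _ g1
    have := hne _ _ g2
    have := hne _ _ g3
    have := hne _ _ g4
    fin_cases i <;> fin_cases j <;> simp_all
  · have i1 := hsym _ _ h1
    have i2 := hsym _ _ h2
    have i3 := hsym _ _ h3
    have i4 := hsym _ _ h4
    have i5 := hsym _ _ h5
    have i6 := hsym _ _ h6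
    have j1 := hsym _ _ g1
    have j2 := hsym _ _ g2
    have j3 := hsym _ _ g3
    have j4 := hsym _ _ g4
    intro i j hij
    apply hadj
    fin_cases i <;> fin_cases j <;> first | exact absurd rfl hij | (simp; assumption)

omit [Fintype ι] [DecidableEq ι] in
theorem ra_anti {n : ι → E 3} {b : ι → ℝ} {U : ι → (E 2 →ₗᵢ[ℝ] E 3)} {s : Fin 6 → ι}
    (h : Six n b U s) {i j : Fin 6} (hij : i ≤ j) : ra n b U (s j) ≤ ra n b U (s i) :=
  Real.sqrt_le_sqrt (h.2 i j hij)

omit [Fintype ι] [DecidableEq ι] in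
theorem ra_nonneg (n : ι → E 3) (b : ι → ℝ) (U : ι → (E 2 →ₗᵢ[ℝ] E 3)) (i : ι) :
    0 ≤ ra n b U i := Real.sqrt_nonneg _

/-- Abel summation for six terms -/
theorem abel {x0 x1 x2 x3 x4 x5 c0 c1 c2 c3 c4 c5 d0 d1 d2 d3 d4 d5 : ℝ} (h5 : 0 ≤ x5)
    (h45 : x5 ≤ x4) (h34 : x4 ≤ x3) (h23 : x3 ≤ x2) (h12 : x2 ≤ x1) (h01 : x1 ≤ x0)
    (g0 : d0 ≤ c0) (g1 : d0 + d1 ≤ c0 + c1) (g2 : d0 + d1 + d2 ≤ c0 + c1 + c2)
    (g3 : d0 + d1 + d2 + d3 ≤ c0 + c1 + c2 + c3)
    (g4 : d0 + d1 + d2 + d3 + d4 ≤ c0 + c1 + c2 + c3 + c4)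
    (g5 : d0 + d1 + d2 + d3 + d4 + d5 ≤ c0 + c1 + c2 + c3 + c4 + c5) :
    d0 * x0 + d1 * x1 + d2 * x2 + d3 * x3 + d4 * x4 + d5 * x5 ≤
      c0 * x0 + c1 * x1 + c2 * x2 + c3 * x3 + c4 * x4 + c5 * x5 := by
  have e0 := mul_nonneg (sub_nonneg.2 g0) (sub_nonneg.2 h01)
  have e1 := mul_nonneg (sub_nonneg.2 g1) (sub_nonneg.2 h12)
  have e2 := mul_nonneg (sub_nonneg.2 g2) (sub_nonneg.2 h23)
  have e3 := mul_nonneg (sub_nonneg.2 g3) (sub_nonneg.2 h34)
  have e4 := mul_nonneg (sub_nonneg.2 g4) (sub_nonneg.2 h45)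
  have e5 := mul_nonneg (sub_nonneg.2 g5) h5
  linarith

end BRB

end Pool.Agent.Work.MP_3892ce_static
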