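import Pool.Agent.Work.MP_3892ce_static.Interface

/-! # Melzak's problem, static method: block CAP (volume of a cap of the unit ball) -/

set_option autoImplicit false

open MeasureTheory Set
open scoped ENNReal Pointwise

namespace Pool.Agent.Work.MP_3892ce_static

namespace CAP

theorem integral_cap {k : ℝ} (hk : 0 ≤ k) (hk1 : k ≤ 1) :
    ∫⁻ s in Ioc k 1, ENNReal.ofReal (Real.pi * (1 - s ^ 2)) =
      ENNReal.ofReal (Real.pi * (1 - k) ^ 2 * (2 + k) / 3) := by
  have hc : Continuous fun s : ℝ => Real.pi * (1 - s ^ 2) := by fun_prop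
  have hi : IntegrableOn (fun s : ℝ => Real.pi * (1 - s ^ 2)) (Ioc k 1) :=
    (hc.integrableOn_Icc).mono_set Ioc_subset_Icc_self
  have hnn : 0 ≤ᵐ[volume.restrict (Ioc k 1)] fun s : ℝ => Real.pi * (1 - s ^ 2) := by
    refine (ae_restrict_mem measurableSet_Ioc).mono fun s hs => ?_
    have h0 : 0 ≤ s := hk.trans hs.1.le
    have h1 : s ≤ 1 := hs.2
    exact mul_nonneg Real.pi_pos.le (by nlinarith)
  rw [← ofReal_integral_eq_lintegral_ofReal hi hnn, ← intervalIntegral.integral_of_le hk1]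
  congr 1
  rw [intervalIntegral.integral_const_mul, intervalIntegral.integral_sub
    (continuous_const.intervalIntegrable _ _) ((continuous_pow 2).intervalIntegrable _ _),
    integral_pow,
    intervalIntegral.integral_const, smul_eq_mul]
  push_cast
  ring

end CAP

open CAP in
theorem blk_CAP (hFR1 : Stmt_FR1) (hFR2 : Stmt_FR2) : Stmt_CAP := by
  intro n k hn hk hk1
  obtain ⟨U, hF⟩ := hFR1 2 n hn
  have hmp := (hFR2 2 n U hF).1
  have hm1 : Measurable fun x : E 3 => inner ℝ n x :=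
    (continuous_const.inner continuous_id).measurable
  have hm2 : Measurable fun x : E 3 => ‖x‖ := continuous_norm.measurable
  have hCm : MeasurableSet {x : E 3 | ‖x‖ ≤ 1 ∧ k < inner ℝ n x} :=
    (measurableSet_le hm2 measurable_const).inter (measurableSet_lt measurable_const hm1)
  rw [← hmp.measure_preimage hCm.nullMeasurableSet, Measure.prod_apply (hmp.measurable hCm),
    ← integral_cap hk hk1]
  have hinn : ∀ (s : ℝ) (y : E 2), inner ℝ n (s • n + U y) = s := by
    intro s y
    rw [inner_add_right, inner_smul_right, hF.orth, real_inner_self_eq_norm_sq, hF.unit]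
    ring
  have hnorm : ∀ (s : ℝ) (y : E 2), ‖s • n + U y‖ ^ 2 = s ^ 2 + ‖y‖ ^ 2 := by
    intro s y
    rw [norm_add_sq_real, inner_smul_left, hF.orth, U.norm_map, norm_smul, hF.unit,
      Real.norm_eq_abs, mul_one, sq_abs]
    ring
  have hsl : ∀ s : ℝ, volume (Prod.mk s ⁻¹' ((fun p : ℝ × E 2 => p.1 • n + U p.2) ⁻¹'
      {x : E 3 | ‖x‖ ≤ 1 ∧ k < inner ℝ n x})) =
      (Ioc k 1).indicator (fun s => ENNReal.ofReal (Real.pi * (1 - s ^ 2))) s := by
    intro s
    by_cases hs : s ∈ Ioc k 1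
    · have h0 : 0 ≤ s := hk.trans hs.1.le
      have h1 : s ≤ 1 := hs.2
      have h2 : 0 ≤ 1 - s ^ 2 := by nlinarith
      have e1 : Prod.mk s ⁻¹' ((fun p : ℝ × E 2 => p.1 • n + U p.2) ⁻¹'
          {x : E 3 | ‖x‖ ≤ 1 ∧ k < inner ℝ n x}) = Metric.closedBall 0 (√(1 - s ^ 2)) := by
        ext y
        simp only [mem_preimage, mem_ofPred_eq, hinn, mem_closedBall_zero_iff]
        rw [Real.le_sqrt (norm_nonneg _) h2, ← sq_le_one_iff₀ (norm_nonneg _), hnorm]
        exact ⟨fun h => by linarith [h.1], fun h => ⟨by linarith, hs.1⟩⟩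
      rw [e1, indicator_of_mem hs, EuclideanSpace.volume_closedBall_fin_two,
        ← ENNReal.ofReal_pow (Real.sqrt_nonneg _), Real.sq_sqrt h2, ← ENNReal.ofReal_mul h2,
        mul_comm]
    · rw [indicator_of_notMem hs]
      have e1 : Prod.mk s ⁻¹' ((fun p : ℝ × E 2 => p.1 • n + U p.2) ⁻¹'
          {x : E 3 | ‖x‖ ≤ 1 ∧ k < inner ℝ n x}) = ∅ := by
        ext y
        simp only [mem_preimage, mem_ofPred_eq, hinn, mem_empty_iff_false, iff_false]
        rintro ⟨h1, h2⟩
        apply hs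
        refine ⟨h2, ?_⟩
        have h3 : ‖s • n + U y‖ ^ 2 ≤ 1 := (sq_le_one_iff₀ (norm_nonneg _)).2 h1
        rw [hnorm] at h3
        have h4 : 0 ≤ ‖y‖ ^ 2 := by positivity
        nlinarith
      rw [e1, measure_empty]
  simp_rw [hsl]
  rw [lintegral_indicator measurableSet_Ioc]

end Pool.Agent.Work.MP_3892ce_static
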