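import Pool.Agent.Work.MP_3892ce_static.Interface

/-! # Block CLOSE: the closing relation -/

set_option autoImplicit false

open MeasureTheory Set
open scoped ENNReal Pointwise

namespace Pool.Agent.Work.MP_3892ce_static

namespace CLOSE

/-- the frame map is onto the orthogonal complement -/
theorem onto {k : ℕ} {n : E (k + 1)} {U : E k →ₗᵢ[ℝ] E (k + 1)} (hU : Frame n U) (x : E (k + 1)) :
    ∃ y : E k, x = inner ℝ n x • n + U y := by
  have hn0 : n ≠ 0 := by
    intro h
    have := hU.unit
    rw [h, norm_zero] at this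
    norm_num at this
  have : Fact (Module.finrank ℝ (E (k + 1)) = k + 1) := ⟨by
    rw [finrank_euclideanSpace, Fintype.card_fin]⟩
  have h1 : LinearMap.range U.toLinearMap ≤ (ℝ ∙ n)ᗮ := by
    rintro _ ⟨y, rfl⟩
    rw [Submodule.mem_orthogonal_singleton_iff_inner_right]
    exact hU.orth y
  have h2 : Module.finrank ℝ (LinearMap.range U.toLinearMap)
      = Module.finrank ℝ ((ℝ ∙ n)ᗮ : Submodule ℝ (E (k + 1))) := by
    rw [LinearMap.finrank_range_of_inj U.injective, finrank_euclideanSpace, Fintype.card_fin,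
      Submodule.finrank_orthogonal_span_singleton (n := k) hn0]
  have h3 := Submodule.eq_of_le_of_finrank_eq h1 h2
  have h4 : x - inner ℝ n x • n ∈ (ℝ ∙ n)ᗮ := by
    rw [Submodule.mem_orthogonal_singleton_iff_inner_right, inner_sub_right, inner_smul_right,
      real_inner_self_eq_norm_sq, hU.unit]
    ring
  rw [← h3] at h4
  obtain ⟨y, hy⟩ := h4
  refine ⟨y, ?_⟩
  have h5 : U y = x - inner ℝ n x • n := hy
  rw [h5]
  abel

/-- translation of a polytope -/
theorem HP_trans {d : ℕ} {ι : Type} (n : ι → E d) (b : ι → ℝ) (v : E d) :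
    HP n (fun i => b i - inner ℝ (n i) v) = (fun x => x + v) ⁻¹' (HP n b) := by
  ext x
  simp only [HP, mem_ofPred_eq, mem_preimage, inner_add_right]
  exact forall_congr' fun i => le_sub_iff_add_le

theorem area_trans {k : ℕ} {ι : Type} (n : ι → E (k + 1)) (b : ι → ℝ) (v : E (k + 1)) {i : ι}
    {U : E k →ₗᵢ[ℝ] E (k + 1)} (hU : Frame (n i) U) :
    area (HP n (fun i => b i - inner ℝ (n i) v)) (n i) U (b i - inner ℝ (n i) v)
      = area (HP n b) (n i) U (b i) := by
  obtain ⟨w, hw⟩ := onto hU v
  unfold area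
  have e : Sec (HP n (fun i => b i - inner ℝ (n i) v)) (n i) U (b i - inner ℝ (n i) v)
      = (fun y => y + w) ⁻¹' (Sec (HP n b) (n i) U (b i)) := by
    ext y
    rw [HP_trans]
    simp only [Sec, mem_ofPred_eq, mem_preimage]
    have e1 : (b i - inner ℝ (n i) v) • n i + U y + v = b i • n i + U (y + w) := by
      rw [map_add, sub_smul]
      nth_rw 2 [hw]
      abel
    rw [e1]
  rw [e, measure_preimage_add_right]

theorem Irr_trans {d : ℕ} {ι : Type} {n : ι → E d} {b : ι → ℝ} (hI : Irr n b) (v : E d) :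
    Irr n (fun i => b i - inner ℝ (n i) v) where
  unit := hI.unit
  int := by
    obtain ⟨x, hx⟩ := hI.int
    refine ⟨x - v, fun i => ?_⟩
    rw [inner_sub_right]
    have := hx i
    linarith
  bdd := by
    rw [HP_trans]
    have e : (fun x => x + v) ⁻¹' (HP n b) = (fun x => x - v) '' (HP n b) := by
      ext x
      constructor
      · intro h
        exact ⟨x + v, h, by simp⟩
      · rintro ⟨y, hy, rfl⟩
        simpa using hy
    rw [e]
    have h1 : LipschitzWith 1 (fun x : E d => x - v) := by
      refine LipschitzWith.of_dist_le_mul fun x y => ?_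
      rw [dist_sub_right]
      simp
    exact h1.isBounded_image hI.bdd
  wit := by
    intro i
    obtain ⟨x, hx1, hx2⟩ := hI.wit i
    refine ⟨x - v, ?_, fun j hj => ?_⟩
    · rw [inner_sub_right, hx1]
    · rw [inner_sub_right]
      have := hx2 j hj
      linarith

end CLOSE

open CLOSE in
theorem blk_CLOSE (hVOL : Stmt_VOL) : Stmt_CLOSE := by
  intro ι _ n b U hU hI
  have key : ∀ v : E 3, (∀ i, inner ℝ (n i) v < b i) →
      (volume (HP n b)).toReal = (1 / 3) * ∑ i, area (HP n b) (n i) (U i) (b i) * b i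
        - (1 / 3) * inner ℝ (∑ i, area (HP n b) (n i) (U i) (b i) • n i) v := by
    intro v hv
    have h1 := hVOL ι n (fun i => b i - inner ℝ (n i) v) U hU (Irr_trans hI v)
      (fun i => by have := hv i; linarith)
    rw [HP_trans, measure_preimage_add_right] at h1
    rw [h1, sum_inner]
    rw [← mul_sub, ← Finset.sum_sub_distrib]
    congr 1
    refine Finset.sum_congr rfl fun i _ => ?_
    rw [← HP_trans, area_trans n b v (hU i), real_inner_smul_left]
    ring
  obtain ⟨v0, hv0⟩ := hI.int
  set S := ∑ i, area (HP n b) (n i) (U i) (b i) • n i with hS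
  have hopen : IsOpen {x : E 3 | ∀ i, inner ℝ (n i) x < b i} := by
    have : {x : E 3 | ∀ i, inner ℝ (n i) x < b i} = ⋂ i, {x | inner ℝ (n i) x < b i} := by
      ext x; simp
    rw [this]
    exact isOpen_iInter_of_finite fun i => isOpen_lt (by fun_prop) continuous_const
  have hcont : Continuous (fun t : ℝ => v0 + t • S) := by fun_prop
  have h1 : {t : ℝ | v0 + t • S ∈ {x : E 3 | ∀ i, inner ℝ (n i) x < b i}} ∈ nhds (0 : ℝ) := by
    refine hcont.continuousAt.preimage_mem_nhds (hopen.mem_nhds ?_)
    simpa using hv0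
  obtain ⟨ε, hε, hball⟩ := Metric.mem_nhds_iff.1 h1
  have h2 : ∀ i, inner ℝ (n i) (v0 + (ε / 2) • S) < b i := by
    have : (ε / 2) ∈ Metric.ball (0 : ℝ) ε := by
      rw [Metric.mem_ball, dist_zero_right, Real.norm_eq_abs, abs_of_pos (by positivity)]
      linarith
    exact hball this
  have h3 := key v0 hv0
  have h4 := key _ h2
  rw [inner_add_right, inner_smul_right] at h4
  have h5 : ε / 2 * inner ℝ S S = 0 := by linarith
  have h6 : inner ℝ S S = 0 := by
    rcases mul_eq_zero.1 h5 with h | h
    · linarith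
    · exact h
  exact inner_self_eq_zero.1 h6

end Pool.Agent.Work.MP_3892ce_static
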