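import Pool.Agent.Work.MP_3892ce_static.Interface

/-! # Melzak's problem, static method: block CONE (cone decomposition) -/

set_option autoImplicit false

open MeasureTheory Set
open scoped ENNReal Pointwise

namespace Pool.Agent.Work.MP_3892ce_static

namespace CONE

theorem isClosed_HP {d : ℕ} {ι : Type} (n : ι → E d) (b : ι → ℝ) : IsClosed (HP n b) := by
  have h : HP n b = ⋂ i, {x | inner ℝ (n i) x ≤ b i} := by
    ext x; simp [HP]
  rw [h]
  exact isClosed_iInter fun i =>
    isClosed_le (continuous_const.inner continuous_id) continuous_const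

/-- the truncated cone over a facet, between the levels `b` and `c` -/
def Cn {k : ℕ} (P : Set (E (k + 1))) (n : E (k + 1)) (b c : ℝ) : Set (E (k + 1)) :=
  {x | b < inner ℝ n x ∧ inner ℝ n x ≤ c ∧ (b / inner ℝ n x) • x ∈ P}

theorem measurableSet_Cn {k : ℕ} {P : Set (E (k + 1))} (hP : IsClosed P) (n : E (k + 1))
    (b c : ℝ) : MeasurableSet (Cn P n b c) := by
  have h1 : Measurable fun x : E (k + 1) => inner ℝ n x :=
    (continuous_const.inner continuous_id).measurable
  have h2 : Measurable fun x : E (k + 1) => (b / inner ℝ n x) • x :=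
    (measurable_const.div h1).smul measurable_id
  exact (measurableSet_lt measurable_const h1).inter
    ((measurableSet_le h1 measurable_const).inter (h2 hP.measurableSet))

theorem integral_pow_div {k : ℕ} {b c : ℝ} (hb : 0 < b) (hbc : b ≤ c) :
    ∫⁻ s in Ioc b c, ENNReal.ofReal ((s / b) ^ k) =
      ENNReal.ofReal (b / (k + 1) * ((c / b) ^ (k + 1) - 1)) := by
  have hc : Continuous fun s : ℝ => (s / b) ^ k := by fun_prop
  have hi : IntegrableOn (fun s : ℝ => (s / b) ^ k) (Ioc b c) :=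
    (hc.integrableOn_Icc).mono_set Ioc_subset_Icc_self
  have hnn : 0 ≤ᵐ[volume.restrict (Ioc b c)] fun s : ℝ => (s / b) ^ k := by
    refine (ae_restrict_mem measurableSet_Ioc).mono fun s hs => ?_
    have : 0 < s := hb.trans hs.1
    exact pow_nonneg (div_nonneg this.le hb.le) k
  rw [← ofReal_integral_eq_lintegral_ofReal hi hnn, ← intervalIntegral.integral_of_le hbc]
  congr 1
  have h1 := intervalIntegral.integral_comp_div (a := b) (b := c) (c := b)
    (f := fun x : ℝ => x ^ k) hb.ne'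
  rw [h1, integral_pow, div_self hb.ne', one_pow, smul_eq_mul]
  ring

theorem volume_Cn (hFR2 : Stmt_FR2) {k : ℕ} {P : Set (E (k + 1))} (hP : IsClosed P)
    {n : E (k + 1)} {U : E k →ₗᵢ[ℝ] E (k + 1)} (hF : Frame n U) {b c : ℝ} (hb : 0 < b)
    (hbc : b ≤ c) :
    volume (Cn P n b c) =
      ENNReal.ofReal (b / (k + 1) * ((c / b) ^ (k + 1) - 1)) * volume (Sec P n U b) := by
  have hmp := (hFR2 k n U hF).1
  have hCm := measurableSet_Cn hP n b c
  rw [← hmp.measure_preimage hCm.nullMeasurableSet, Measure.prod_apply (hmp.measurable hCm)]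
  have hinn : ∀ (s : ℝ) (y : E k), inner ℝ n (s • n + U y) = s := by
    intro s y
    rw [inner_add_right, inner_smul_right, hF.orth, real_inner_self_eq_norm_sq, hF.unit]
    ring
  have hsl : ∀ s : ℝ, volume (Prod.mk s ⁻¹'
      ((fun p : ℝ × E k => p.1 • n + U p.2) ⁻¹' Cn P n b c)) =
      (Ioc b c).indicator (fun s => ENNReal.ofReal ((s / b) ^ k) * volume (Sec P n U b)) s := by
    intro s
    by_cases hs : s ∈ Ioc b c
    · have hs0 : 0 < s := hb.trans hs.1
      have hr : b / s ≠ 0 := (div_pos hb hs0).ne'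
      have e1 : Prod.mk s ⁻¹' ((fun p : ℝ × E k => p.1 • n + U p.2) ⁻¹' Cn P n b c) =
          (fun y : E k => (b / s) • y) ⁻¹' (Sec P n U b) := by
        ext y
        simp only [mem_preimage, Cn, Sec, mem_ofPred_eq, hinn]
        have e2 : (b / s) • (s • n + U y) = b • n + U ((b / s) • y) := by
          rw [smul_add, smul_smul, div_mul_cancel₀ _ hs0.ne', map_smul]
        rw [e2]
        exact ⟨fun h => h.2.2, fun h => ⟨hs.1, hs.2, h⟩⟩
      rw [e1, indicator_of_mem hs, Measure.addHaar_preimage_smul volume hr]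
      congr 2
      rw [finrank_euclideanSpace, Fintype.card_fin, abs_of_pos (inv_pos.2 (pow_pos
        (div_pos hb hs0) k)), ← inv_pow, inv_div]
    · rw [indicator_of_notMem hs]
      have e1 : Prod.mk s ⁻¹' ((fun p : ℝ × E k => p.1 • n + U p.2) ⁻¹' Cn P n b c) = ∅ := by
        ext y
        simp only [mem_preimage, Cn, mem_ofPred_eq, hinn, mem_empty_iff_false, iff_false]
        exact fun h => hs ⟨h.1, h.2.1⟩
      rw [e1, measure_empty]
  simp_rw [hsl]
  rw [lintegral_indicator measurableSet_Ioc, lintegral_mul_const, integral_pow_div hb hbc]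
  exact ((measurable_id.div_const b).pow_const k).ennreal_ofReal

theorem volume_Sec_lt_top {k : ℕ} {P : Set (E (k + 1))} (hP : Bornology.IsBounded P)
    {n : E (k + 1)} {U : E k →ₗᵢ[ℝ] E (k + 1)} (b : ℝ) : volume (Sec P n U b) < ⊤ := by
  obtain ⟨R, hR⟩ := hP.subset_closedBall 0
  have h1 : Sec P n U b ⊆ Metric.closedBall 0 (R + ‖b • n‖) := by
    intro y hy
    have h2 := hR hy
    rw [mem_closedBall_zero_iff] at h2 ⊢
    have h3 : ‖U y‖ ≤ ‖b • n + U y‖ + ‖b • n‖ := by
      have := norm_sub_le (b • n + U y) (b • n)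
      rwa [add_sub_cancel_left] at this
    rw [U.norm_map] at h3
    linarith
  exact (Metric.isBounded_closedBall.subset h1).measure_lt_top

theorem subset_cones {k : ℕ} {ι : Type} [Fintype ι] (n : ι → E (k + 1)) (b c : ι → ℝ)
    (hb : ∀ i, 0 < b i) : HP n c ⊆ HP n b ∪ ⋃ i, Cn (HP n b) (n i) (b i) (c i) := by
  intro x hx
  by_cases hxb : x ∈ HP n b
  · exact Or.inl hxb
  · right
    have h1 : ∃ j, b j < inner ℝ (n j) x := by
      by_contra h
      exact hxb fun i => not_lt.1 fun h2 => h ⟨i, h2⟩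
    obtain ⟨j, hj⟩ := h1
    have : Nonempty ι := ⟨j⟩
    obtain ⟨i, hi⟩ := Finite.exists_max (fun i => inner ℝ (n i) x / b i)
    have hi1 : 1 < inner ℝ (n i) x / b i := ((one_lt_div (hb j)).2 hj).trans_le (hi j)
    have hi2 : b i < inner ℝ (n i) x := (one_lt_div (hb i)).1 hi1
    refine mem_iUnion.2 ⟨i, hi2, hx i, fun l => ?_⟩
    have hpos : 0 < inner ℝ (n i) x := (hb i).trans hi2
    rw [inner_smul_right, div_mul_eq_mul_div, div_le_iff₀ hpos]
    have h3 := (div_le_div_iff₀ (hb l) (hb i)).1 (hi l)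
    linarith

end CONE

open CONE in
theorem blk_CONE (hFR2 : Stmt_FR2) : Stmt_CONE := by
  intro k ι _ n b U hU hb hbd κ hκ t ht
  have hcl := isClosed_HP n b
  set A : ι → ℝ≥0∞ := fun i => ENNReal.ofReal (b i / (k + 1) *
    (((b i + t * κ i) / b i) ^ (k + 1) - 1)) * volume (Sec (HP n b) (n i) (U i) (b i)) with hA
  have h1 : volume (HP n (fun i => b i + t * κ i)) ≤ volume (HP n b) + ∑ i, A i := by
    refine (measure_mono (subset_cones n b _ hb)).trans ((measure_union_le _ _).trans ?_)
    gcongr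
    refine (measure_iUnion_le _).trans ?_
    rw [tsum_fintype]
    refine Finset.sum_le_sum fun i _ => ?_
    rw [volume_Cn hFR2 hcl (hU i) (hb i) (by nlinarith [mul_nonneg ht (hκ i)])]
  have hAfin : ∀ i, A i ≠ ⊤ := fun i =>
    ENNReal.mul_ne_top ENNReal.ofReal_ne_top (volume_Sec_lt_top hbd (b i)).ne
  have hVfin : volume (HP n b) ≠ ⊤ := hbd.measure_lt_top.ne
  have h2 : (volume (HP n b) + ∑ i, A i) ≠ ⊤ :=
    ENNReal.add_ne_top.2 ⟨hVfin, (ENNReal.sum_ne_top.2 fun i _ => hAfin i)⟩
  have h3 := ENNReal.toReal_mono h2 h1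
  rw [ENNReal.toReal_add hVfin (ENNReal.sum_ne_top.2 fun i _ => hAfin i),
    ENNReal.toReal_sum fun i _ => hAfin i] at h3
  refine h3.trans (le_of_eq ?_)
  congr 1
  refine Finset.sum_congr rfl fun i _ => ?_
  have hbi := hb i
  have h4 : 1 ≤ (b i + t * κ i) / b i := by
    rw [le_div_iff₀ hbi]; nlinarith [mul_nonneg ht (hκ i)]
  have h5 : 0 ≤ b i / (k + 1) * (((b i + t * κ i) / b i) ^ (k + 1) - 1) := by
    have := one_le_pow₀ (n := k + 1) h4
    have h6 : (0 : ℝ) < k + 1 := by positivity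
    exact mul_nonneg (div_nonneg hbi.le h6.le) (by linarith)
  rw [hA]
  simp only
  rw [ENNReal.toReal_mul, ENNReal.toReal_ofReal h5, area]
  have h6 : (b i + t * κ i) / b i = 1 + t * κ i / b i := by
    rw [add_div, div_self hbi.ne']
  rw [h6]
  ring

end Pool.Agent.Work.MP_3892ce_static
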