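import Pool.Agent.Work.MP_3892ce_gt.Defs

/-! # Melzak's problem: the static method, definitions

`HP n b` is the polytope `{x : ⟪n i, x⟫ ≤ b i for all i}` in `E d = ℝ^d`.
A frame `(n, U)` is a unit vector `n` of `ℝ^(k+1)` with a linear isometry `U` of `ℝ^k` onto the
orthogonal complement of `n`. -/

set_option autoImplicit false

open MeasureTheory Set
open scoped ENNReal Pointwise

namespace Pool.Agent.Work.MP_3892ce_static

abbrev E (d : ℕ) := EuclideanSpace ℝ (Fin d)

/-- intersection of half-spaces -/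
def HP {d : ℕ} {ι : Type} (n : ι → E d) (b : ι → ℝ) : Set (E d) := {x | ∀ i, inner ℝ (n i) x ≤ b i}

/-- `n` is a unit vector and `U` a linear isometry of `ℝ^k` onto the complement of `n`
(onto for reasons of dimension) -/
structure Frame {k : ℕ} (n : E (k + 1)) (U : E k →ₗᵢ[ℝ] E (k + 1)) : Prop where
  unit : ‖n‖ = 1
  orth : ∀ y, inner ℝ n (U y) = 0

/-- the part of the hyperplane `⟪n, x⟫ = b` inside `P`, in the coordinates of the frame -/
def Sec {k : ℕ} (P : Set (E (k + 1))) (n : E (k + 1)) (U : E k →ₗᵢ[ℝ] E (k + 1)) (b : ℝ) :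
    Set (E k) := {y | b • n + U y ∈ P}

/-- `k`-dimensional volume of a facet -/
noncomputable def area {k : ℕ} (P : Set (E (k + 1))) (n : E (k + 1))
    (U : E k →ₗᵢ[ℝ] E (k + 1)) (b : ℝ) : ℝ := (volume (Sec P n U b)).toReal

/-- the face of `HP n b` in the hyperplane number `i` -/
def Face {d : ℕ} {ι : Type} (n : ι → E d) (b : ι → ℝ) (i : ι) : Set (E d) :=
  {x | x ∈ HP n b ∧ inner ℝ (n i) x = b i}

/-- length of the common part of two faces (`0` for `i = j`) -/
noncomputable def len {ι : Type} [DecidableEq ι] (n : ι → E 3) (b : ι → ℝ) (i j : ι) : ℝ :=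
  if i = j then 0 else Metric.diam (Face n b i ∩ Face n b j)

/-- total edge length -/
noncomputable def L {ι : Type} [Fintype ι] [DecidableEq ι] (n : ι → E 3) (b : ι → ℝ) : ℝ :=
  (1 / 2) * ∑ i, ∑ j, len n b i j

/-- irredundant description of a polytope: unit normals, an interior point, bounded, and every
constraint has a point where it alone is tight -/
structure Irr {d : ℕ} {ι : Type} (n : ι → E d) (b : ι → ℝ) : Prop where
  unit : ∀ i, ‖n i‖ = 1
  int : ∃ x, ∀ i, inner ℝ (n i) x < b i
  bdd : Bornology.IsBounded (HP n b)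
  wit : ∀ i, ∃ x, inner ℝ (n i) x = b i ∧ ∀ j, j ≠ i → inner ℝ (n j) x < b j

/-- two faces are adjacent: there is a point where exactly these two constraints are tight -/
def Adj {d : ℕ} {ι : Type} (n : ι → E d) (b : ι → ℝ) (i j : ι) : Prop :=
  i ≠ j ∧ ∃ x, inner ℝ (n i) x = b i ∧ inner ℝ (n j) x = b j ∧
    ∀ k, k ≠ i → k ≠ j → inner ℝ (n k) x < b k

end Pool.Agent.Work.MP_3892ce_static
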