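import Pool.Agent.Work.MP_3892ce_static.Interface

/-! # Melzak's problem, static method: block EXT (from polytopes to limits) -/

set_option autoImplicit false

open MeasureTheory Set
open scoped ENNReal Pointwise

namespace Pool.Agent.Work.MP_3892ce_static

namespace EXT

/-- a shrunk copy of `K` is contained in every polytope near `K` -/
theorem shrink {ι : Type} (n : ι → E 3) (b : ι → ℝ) {K : Set (E 3)} {x0 : E 3} {r s : ℝ}
    (hr : 0 < r) (hs0 : 0 ≤ s) (hs1 : s < 1) (hball : Metric.closedBall x0 r ⊆ K)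
    (hconv : Convex ℝ K) (hK : Bornology.IsBounded K) (hP : Bornology.IsBounded (HP n b))
    (hPn : (HP n b).Nonempty) (hd : Metric.hausdorffDist (HP n b) K < (1 - s) * r) :
    AffineMap.homothety x0 s '' K ⊆ HP n b := by
  rintro _ ⟨z, hz, rfl⟩
  by_contra hy
  have hy2 : ∃ i, b i < inner ℝ (n i) (AffineMap.homothety x0 s z) := by
    by_contra h
    push Not at h
    exact hy h
  obtain ⟨i, hi⟩ := hy2
  set y : E 3 := AffineMap.homothety x0 s z with hydef
  have hy0 : y = s • z + (1 - s) • x0 := by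
    rw [hydef, AffineMap.homothety_apply, vsub_eq_sub, vadd_eq_add, smul_sub, sub_smul, one_smul]
    abel
  have hni : n i ≠ 0 := by
    intro h0
    obtain ⟨p, hp⟩ := hPn
    have h1 := hp i
    rw [h0, inner_zero_left] at h1 hi
    linarith
  have hnp : 0 < ‖n i‖ := norm_pos_iff.2 hni
  set u : E 3 := (‖n i‖)⁻¹ • n i with hu
  have hun : ‖u‖ = 1 := by
    rw [hu, norm_smul, norm_inv, norm_norm, inv_mul_cancel₀ hnp.ne']
  have hxK : x0 + r • u ∈ K := by
    apply hball
    rw [Metric.mem_closedBall, dist_eq_norm, add_sub_cancel_left, norm_smul, hun, mul_one,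
      Real.norm_of_nonneg hr.le]
  have hyK : y + ((1 - s) * r) • u ∈ K := by
    have h1 := hconv hz hxK hs0 (by linarith : (0 : ℝ) ≤ 1 - s) (by ring)
    have h2 : s • z + (1 - s) • (x0 + r • u) = y + ((1 - s) * r) • u := by
      rw [hy0, smul_add, smul_smul]
      abel
    rwa [h2] at h1
  have hfin : Metric.hausdorffEDist (HP n b) K ≠ ⊤ :=
    Metric.hausdorffEDist_ne_top_of_nonempty_of_bounded hPn ⟨z, hz⟩ hP hK
  obtain ⟨p, hp, hdist⟩ := Metric.exists_dist_lt_of_hausdorffDist_lt' hyK hd hfin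
  have h1 : inner ℝ (n i) p ≤ b i := hp i
  have h2 : inner ℝ u (y + ((1 - s) * r) • u - p)
      = (‖n i‖)⁻¹ * (inner ℝ (n i) y - inner ℝ (n i) p) + (1 - s) * r := by
    rw [inner_sub_right, inner_add_right, inner_smul_right, real_inner_self_eq_norm_sq, hun, hu,
      real_inner_smul_left, real_inner_smul_left]
    ring
  have h3 : inner ℝ u (y + ((1 - s) * r) • u - p) ≤ ‖y + ((1 - s) * r) • u - p‖ := by
    have := real_inner_le_norm u (y + ((1 - s) * r) • u - p)
    rwa [hun, one_mul] at this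
  have h4 : 0 < (‖n i‖)⁻¹ * (inner ℝ (n i) y - inner ℝ (n i) p) :=
    mul_pos (inv_pos.2 hnp) (by linarith)
  rw [dist_comm, dist_eq_norm] at hdist
  linarith

theorem cube_root {A z : ℝ≥0∞} (h : A ≤ z ^ 3) : A ^ ((1 : ℝ) / 3) ≤ z := by
  have h1 : (z ^ 3) ^ ((1 : ℝ) / 3) = z := by
    rw [← ENNReal.rpow_natCast, ← ENNReal.rpow_mul]
    norm_num
  calc A ^ ((1 : ℝ) / 3) ≤ (z ^ 3) ^ ((1 : ℝ) / 3) :=
        ENNReal.rpow_le_rpow h (by norm_num)
    _ = z := h1

theorem cube_root' {A z : ℝ≥0∞} (h : A ^ ((1 : ℝ) / 3) ≤ z) : A ≤ z ^ 3 := by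
  have h1 : (A ^ ((1 : ℝ) / 3)) ^ 3 = A := by
    rw [← ENNReal.rpow_natCast, ← ENNReal.rpow_mul]
    norm_num
  calc A = (A ^ ((1 : ℝ) / 3)) ^ 3 := h1.symm
    _ ≤ z ^ 3 := pow_le_pow_left' h 3

end EXT

open EXT in
theorem blk_EXT : Stmt_EXT := by
  intro c hc K P hKc hKconv hKint hP hlim
  have hPz : ∀ j, c * volume (P j) ≤ Pool.Agent.Work.MP_3892ce_gt.zeta1 (P j) ^ 3 := by
    intro j
    obtain ⟨m, n, b, h1, h2, h3⟩ := hP j
    rw [h3]
    exact hc m n b h1 h2
  obtain ⟨x0, hx0⟩ := hKint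
  obtain ⟨r0, hr0, hball0⟩ := Metric.isOpen_iff.1 isOpen_interior x0 hx0
  have hball : Metric.closedBall x0 (r0 / 2) ⊆ K :=
    (Metric.closedBall_subset_ball (by linarith)).trans (hball0.trans interior_subset)
  have hr : 0 < r0 / 2 := by linarith
  have hvol0 : volume K ≠ 0 := by
    have h1 : 0 < volume (Metric.ball x0 (r0 / 2)) := Metric.measure_ball_pos _ _ hr
    exact (h1.trans_le (measure_mono (Metric.ball_subset_closedBall.trans hball))).ne'
  -- the bound for every factor less than one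
  have key : ∀ s : ℝ, 0 < s → s < 1 → c * (ENNReal.ofReal |s ^ 3| * volume K) ≤
      (Filter.liminf (fun j => Pool.Agent.Work.MP_3892ce_gt.zeta1 (P j)) Filter.atTop) ^ 3 := by
    intro s hs0 hs1
    apply cube_root'
    apply Filter.le_liminf_of_le
    · isBoundedDefault
    have hev : ∀ᶠ j in Filter.atTop, Metric.hausdorffDist (P j) K < (1 - s) * (r0 / 2) :=
      hlim.eventually (gt_mem_nhds (mul_pos (by linarith) hr))
    filter_upwards [hev] with j hj
    apply cube_root
    refine le_trans (mul_le_mul_right ?_ c) (hPz j)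
    obtain ⟨m, n, b, h1, h2, h3⟩ := hP j
    rw [h3] at hj ⊢
    have h4 := shrink n b hr hs0.le hs1 hball hKconv hKc.isBounded h1
      (h2.mono interior_subset) hj
    have h5 := Measure.addHaar_image_homothety (volume : Measure (E 3)) x0 s K
    have h6 : Module.finrank ℝ (E 3) = 3 := by simp
    rw [h6] at h5
    rw [← h5]
    exact measure_mono h4
  have htend : Filter.Tendsto (fun s : ℝ => c * (ENNReal.ofReal |s ^ 3| * volume K))
      (nhdsWithin 1 (Set.Iio 1)) (nhds (c * volume K)) := by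
    apply ENNReal.Tendsto.const_mul _ (Or.inl hvol0)
    have h1 : Filter.Tendsto (fun s : ℝ => ENNReal.ofReal |s ^ 3|)
        (nhdsWithin 1 (Set.Iio 1)) (nhds 1) := by
      have h2 : Continuous fun s : ℝ => ENNReal.ofReal |s ^ 3| :=
        ENNReal.continuous_ofReal.comp (by fun_prop)
      have h3 := (h2.tendsto 1).mono_left (nhdsWithin_le_nhds (s := Set.Iio (1 : ℝ)))
      simpa using h3
    have h4 := ENNReal.Tendsto.mul_const (b := volume K) h1 (Or.inl one_ne_zero)
    rwa [one_mul] at h4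
  refine le_of_tendsto htend ?_
  have hev : ∀ᶠ s : ℝ in nhdsWithin 1 (Set.Iio 1), 0 < s :=
    (lt_mem_nhds one_pos).filter_mono nhdsWithin_le_nhds
  filter_upwards [hev, self_mem_nhdsWithin] with s h1 h2
  exact key s h1 h2

end Pool.Agent.Work.MP_3892ce_static
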