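import Mathlib

/-! # Melzak's problem, static method: the certificate checker (definitions)

Unknowns: `x_0, ..., x_(k-1)` (square roots of the relative areas of the named facets), `y` (the same
for the other facets), `s_0, s_1, s_2` (sines of half angles at a vertex), `l = L / √S`.

Scales: `x` by `10^3`, `y^2`-sums `T` by `10^6`, `Y = 1 - 3 q + 2 c` by `10^3`, `s` by `10^4`,
coefficients of the families by `10^5`, weights of a mixture have sum `1000`, `a, b, p, m` by `10^4`,
`lam, lamT` by `10^8`, `nu` by `10^11`. -/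

set_option autoImplicit false

namespace Pool.Agent.Work.MP_3892ce_static.Eng

/-- a family: `∑ c_i x_i + t ∑ y - ∑_j m_j s_j x_(pos j) ≤ 10^5 l`, valid for `s` in the box `sb`.
For families without angles `m` and `sb` are empty lists. -/
structure Fam where
  c : List ℤ
  t : ℤ
  m : List ℤ
  sb : List (ℤ × ℤ)

/-- the fixed data of a problem -/
structure Prob where
  /-- `dn[i]`: indices `j` with `x_j ≤ x_i` (including `i`) -/
  dn : List (List ℕ)
  /-- `up[i]`: indices `j` with `x_i ≤ x_j` (including `i`) -/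
  up : List (List ℕ)
  /-- the coordinates which carry an angle -/
  pos : List ℕ
  /-- the named coordinates whose squares are counted in `T` -/
  gr : List ℕ
  /-- bound for the sum of the `s_j` -/
  S0 : ℤ
  /-- `10^8 κ^2` -/
  K2 : ℤ
  fams : List Fam

/-- a cell -/
structure Cell where
  lo : List ℤ
  hi : List ℤ
  Y1 : ℤ
  Y2 : ℤ
  T1 : ℤ
  T2 : ℤ
  /-- bound for the tails: `1000 y ≤ H` -/
  H : ℤ
  sb : List (ℤ × ℤ)

structure Leaf where
  /-- mixture: index of the family, weight (sum of the weights: `1000`) -/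
  mix : List (ℕ × ℤ)
  lam : ℤ
  lamT : ℤ
  a : ℤ
  b : ℤ
  p : ℤ
  m : ℤ
  nu : ℤ
  /-- for each coordinate: number of pieces and index of the pivot -/
  np : List (ℕ × ℕ)
  /-- break points for the tails -/
  tb : List ℤ

inductive Tree where
  | leaf (L : Leaf) : Tree
  | sx (k : ℕ) (v : ℤ) (l r : Tree) : Tree
  | sy (v : ℤ) (l r : Tree) : Tree
  | st (v : ℤ) (l r : Tree) : Tree
  | ss (j : ℕ) (v : ℤ) (l r : Tree) : Tree

/-- lower bound on `[a, b]` of `Cl x - lam x^2 + B x^4 + C x^6` (scale `10^26`); `x^4` is bounded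
by its tangent (`0 ≤ B`) or its secant (`B < 0`) in the variable `x^2` -/
def pieceMin (Cl lam B C a b : ℤ) : ℤ :=
  let Z := (a * a + b * b) / 2
  let P1 := if 0 ≤ B then 2 * Z else a * a + b * b
  let P0 := if 0 ≤ B then Z * Z else a * a * (b * b)
  let D := lam * 1000000000000 - B * P1 * 1000000 - 3 * C * (Z * Z)
  let e := B * P0 * 1000000 + 2 * C * (Z * Z * Z)
  min (Cl * a * 100000000000 - D * (a * a) - e) (Cl * b * 100000000000 - D * (b * b) - e)

/-- minimum over the pieces `i, ..., i + fuel - 1` of the interval `[lo, hi]` cut into `n` pieces;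
`C0` scale `10^8`, `M` scale `10^8`, `sa, sb` scale `10^4` -/
def coordMin (C0 lam B C lo hi : ℤ) (n pv : ℕ) (M sa sb : ℤ) : ℕ → ℕ → ℤ → ℤ
  | 0, _, acc => acc
  | fuel + 1, i, acc =>
    let a := lo + (hi - lo) * i / n
    let b := lo + (hi - lo) * (i + 1) / n
    let piv := lo + (hi - lo) * pv / n
    let u := if i < pv then sa else sb
    let r := pieceMin (C0 * 10000 - M * u) lam B C a b + M * u * piv * 100000000000
    coordMin C0 lam B C lo hi n pv M sa sb fuel (i + 1) (min acc r)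

/-- the pieces of the tails: all values are nonnegative -/
def tailOk (t lam B C : ℤ) : ℤ → List ℤ → Bool
  | _, [] => true
  | a, b :: l => decide (0 ≤ a) && decide (0 ≤ pieceMin (t * 10000) lam B C a b) &&
    tailOk t lam B C b l

def updHi (js : List ℕ) (v : ℤ) : ℕ → List ℤ → List ℤ
  | _, [] => []
  | i, h :: l => (if js.contains i then min h v else h) :: updHi js v (i + 1) l

def updLo (js : List ℕ) (v : ℤ) : ℕ → List ℤ → List ℤ
  | _, [] => []
  | i, h :: l => (if js.contains i then max h v else h) :: updLo js v (i + 1) l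

def setHi (c : Cell) (js : List ℕ) (v : ℤ) : Cell := { c with hi := updHi js v 0 c.hi }

def setLo (c : Cell) (js : List ℕ) (v : ℤ) : Cell := { c with lo := updLo js v 0 c.lo }

/-- change entry number `j` of the box of the angles: upper end -/
def updSHi (v : ℤ) : ℕ → List (ℤ × ℤ) → List (ℤ × ℤ)
  | _, [] => []
  | 0, q :: l => (q.1, min q.2 v) :: l
  | j + 1, q :: l => q :: updSHi v j l

/-- change entry number `j` of the box of the angles: lower end -/
def updSLo (v : ℤ) : ℕ → List (ℤ × ℤ) → List (ℤ × ℤ)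
  | _, [] => []
  | 0, q :: l => (max q.1 v, q.2) :: l
  | j + 1, q :: l => q :: updSLo v j l

def mixC (P : Prob) (mix : List (ℕ × ℤ)) (i : ℕ) : ℤ :=
  (mix.map fun fw => fw.2 * ((P.fams.getD fw.1 ⟨[], 0, [], []⟩).c.getD i 0)).sum

def mixT (P : Prob) (mix : List (ℕ × ℤ)) : ℤ :=
  (mix.map fun fw => fw.2 * (P.fams.getD fw.1 ⟨[], 0, [], []⟩).t).sum

def mixM (P : Prob) (mix : List (ℕ × ℤ)) (j : ℕ) : ℤ :=
  (mix.map fun fw => fw.2 * ((P.fams.getD fw.1 ⟨[], 0, [], []⟩).m.getD j 0)).sum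

/-- the box `sb` is contained in the box `fb` -/
def boxLe : List (ℤ × ℤ) → List (ℤ × ℤ) → Bool
  | _, [] => true
  | [], _ :: _ => false
  | p :: l, q :: l' => decide (q.1 ≤ p.1) && decide (p.2 ≤ q.2) && boxLe l l'

/-- index of the angle of the coordinate `i` -/
def angOf (P : Prob) (i : ℕ) : ℕ := P.pos.findIdx (· == i)

def leafOk (P : Prob) (c : Cell) (L : Leaf) : Bool :=
  let A := L.a * 10000 + L.b * (L.p - L.m)
  let B := 2 * L.a * 10000 - 3 * L.b * L.m
  let C := 2 * L.b * L.m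
  let t := mixT P L.mix
  let n := c.lo.length
  -- signs
  (L.mix.all fun fw => decide (0 ≤ fw.2) && decide (fw.1 < P.fams.length) &&
    boxLe c.sb (P.fams.getD fw.1 ⟨[], 0, [], []⟩).sb) &&
  decide ((L.mix.map fun fw => fw.2).sum = 1000) &&
  decide (0 ≤ L.a) && decide (0 < L.b) && decide (0 ≤ L.m) && decide (0 ≤ L.nu) &&
  -- the product
  decide (P.K2 ≤ 4 * L.a * L.b) &&
  -- the chord
  decide (0 < 1000 * L.p - L.m * c.Y2) &&
  decide (1000000000000000000000000 ≤ (1000 * L.p - L.m * c.Y1) *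
    (1000 * L.p - L.m * c.Y1) * (1000 * L.p - L.m * c.Y1) * c.Y1) &&
  decide (1000000000000000000000000 ≤ (1000 * L.p - L.m * c.Y2) *
    (1000 * L.p - L.m * c.Y2) * (1000 * L.p - L.m * c.Y2) * c.Y2) &&
  -- the tails
  decide (0 ≤ t) &&
  (match L.tb with
    | [] => false
    | b0 :: l => decide (0 ≤ b0) &&
      (decide (0 ≤ t * 1000000000 - max L.lamT 0 * b0 * 1000000 + min B 0 * (b0 * b0 * b0)) ||
        decide (0 ≤ -L.lamT * 1000000 + min B 0 * (b0 * b0))) &&
      tailOk t L.lamT B C b0 l &&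
      decide (c.hi.foldr min c.H ≤ (b0 :: l).getLastD 0)) &&
  -- linear coefficients are nonnegative
  ((List.range n).all fun i => decide (0 ≤ mixC P L.mix i * 10000 -
    mixM P L.mix (angOf P i) * (c.sb.getD (angOf P i) (0, 0)).2)) &&
  ((List.range P.pos.length).all fun j => decide (0 ≤ mixM P L.mix j)) &&
  ((List.range n).all fun i => decide (0 < (L.np.getD i (0, 0)).1)) &&
  -- the inequality
  decide (0 ≤
    ((List.range n).map fun i =>
      let lo := c.lo.getD i 0
      let hi := c.hi.getD i 0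
      let np := L.np.getD i (1, 0)
      let sb := c.sb.getD (angOf P i) (0, 0)
      coordMin (mixC P L.mix i) (if P.gr.contains i then L.lamT else L.lam) B C lo hi np.1 np.2
        (mixM P L.mix (angOf P i)) sb.1 sb.2
        np.1 0 10000000000000000000000000000000000000000).sum +
    L.lam * 1000000000000000000 +
    (L.lamT - L.lam) * (if L.lam ≤ L.lamT then c.T1 else c.T2) * 1000000000000 -
    A * 1000000000000000000 -
    (L.nu * P.S0 + ((List.range P.pos.length).map fun j =>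
      let i := P.pos.getD j 0
      let np := L.np.getD i (1, 0)
      let piv := c.lo.getD i 0 + (c.hi.getD i 0 - c.lo.getD i 0) * np.2 / np.1
      let e := mixM P L.mix j * piv - L.nu
      let sb := c.sb.getD j (0, 0)
      max (e * sb.1) (e * sb.2)).sum) * 100000000000)

def check (P : Prob) : Cell → Tree → Bool
  | c, .leaf L => leafOk P c L || ((List.range c.lo.length).any fun i =>
      decide (c.hi.getD i 0 < c.lo.getD i 0)) || decide (c.T2 < c.T1) || decide (c.Y2 < c.Y1)
  | c, .sx k v l r => decide (k < c.lo.length) && check P (setHi c (P.dn.getD k []) v) l &&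
      check P (setLo c (P.up.getD k []) v) r
  | c, .sy v l r => check P { c with Y2 := min c.Y2 v } l && check P { c with Y1 := max c.Y1 v } r
  | c, .st v l r => check P { c with T2 := min c.T2 v } l && check P { c with T1 := max c.T1 v } r
  | c, .ss j v l r => check P { c with sb := updSHi v j c.sb } l &&
    check P { c with sb := updSLo v j c.sb } r

/-- `ENG`: soundness of the checker -/
def Stmt_ENG : Prop :=
  ∀ (P : Prob) (c : Cell) (tr : Tree), check P c tr = true → c.hi.length = c.lo.length →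
    (∀ i ∈ P.pos, i < c.lo.length) → P.pos.Nodup → c.sb.length = P.pos.length →
    (∀ f ∈ P.fams, f.c.length = c.lo.length ∧ f.m.length ≤ P.pos.length) →
    (∀ h ∈ c.lo, 0 ≤ h) → 0 < c.Y1 →
    ∀ (σ : Type) [Fintype σ] (x : ℕ → ℝ) (y : σ → ℝ) (s : ℕ → ℝ) (l q cc T : ℝ),
      (∀ i < c.lo.length, (c.lo.getD i 0 : ℝ) ≤ 1000 * x i ∧ 1000 * x i ≤ (c.hi.getD i 0 : ℝ)) →
      (∀ a, 0 ≤ y a) → (∀ a, ∀ i < c.lo.length, y a ≤ x i) → (∀ a, 1000 * y a ≤ (c.H : ℝ)) →
      (∀ i < c.lo.length, ∀ j ∈ P.dn.getD i [], x j ≤ x i) →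
      (∀ i < c.lo.length, ∀ j ∈ P.up.getD i [], x i ≤ x j) →
      (∀ j < c.sb.length, ((c.sb.getD j (0, 0)).1 : ℝ) ≤ 10000 * s j ∧
        10000 * s j ≤ ((c.sb.getD j (0, 0)).2 : ℝ)) →
      10000 * ∑ j ∈ Finset.range P.pos.length, s j ≤ (P.S0 : ℝ) →
      T = ∑ i ∈ (Finset.range c.lo.length).filter (fun i => i ∈ P.gr), x i ^ 2 + ∑ a, y a ^ 2 →
      ∑ i ∈ Finset.range c.lo.length, x i ^ 2 + ∑ a, y a ^ 2 = 1 →
      q = ∑ i ∈ Finset.range c.lo.length, x i ^ 4 + ∑ a, y a ^ 4 →
      cc = ∑ i ∈ Finset.range c.lo.length, x i ^ 6 + ∑ a, y a ^ 6 →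
      (c.T1 : ℝ) ≤ 1000000 * T → 1000000 * T ≤ (c.T2 : ℝ) →
      (c.Y1 : ℝ) ≤ 1000 * (1 - 3 * q + 2 * cc) → 1000 * (1 - 3 * q + 2 * cc) ≤ (c.Y2 : ℝ) →
      0 ≤ 1 - 2 * q →
      (∀ f ∈ P.fams, (∀ j < f.sb.length, ((f.sb.getD j (0, 0)).1 : ℝ) ≤ 10000 * s j ∧
          10000 * s j ≤ ((f.sb.getD j (0, 0)).2 : ℝ)) →
        ∑ i ∈ Finset.range c.lo.length, (f.c.getD i 0 : ℝ) * x i + (f.t : ℝ) * ∑ a, y a -
          ∑ j ∈ Finset.range P.pos.length, (f.m.getD j 0 : ℝ) * s j * x (P.pos.getD j 0) ≤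
          100000 * l) →
      ((P.K2 : ℝ) / 100000000) ^ 3 * (1 - 2 * q) ^ 3 ≤ l ^ 6 * (1 - 3 * q + 2 * cc)

end Pool.Agent.Work.MP_3892ce_static.Eng
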