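import Pool.Agent.Work.MP_3892ce_static.Eng

set_option autoImplicit false

/-! # The certificate checker, fast form for kernel evaluation

`checkF` evaluates the same data as `check`, with natural numbers in the inner loops
(`checkF_sound : checkF P c tr = true → check P c tr = true`). -/

namespace Pool.Agent.Work.MP_3892ce_static.Eng

/-- value at the better end point, shifted by `K`, for `0 ≤ B` -/
def pieceNp (Cl11 lp ln B6 C3 C2 K a b : ℕ) : ℕ :=
  let a2 := Nat.mul a a
  let b2 := Nat.mul b b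
  let Z := Nat.div (Nat.add a2 b2) 2
  let Z2 := Nat.mul Z Z
  let t := Nat.mul B6 Z
  let dn := Nat.add ln (Nat.add (Nat.add t t) (Nat.mul C3 Z2))
  let e := Nat.add (Nat.mul t Z) (Nat.mul (Nat.mul C2 Z2) Z)
  let va := Nat.sub (Nat.add K (Nat.add (Nat.mul Cl11 a) (Nat.mul dn a2))) (Nat.add (Nat.mul lp a2) e)
  let vb := Nat.sub (Nat.add K (Nat.add (Nat.mul Cl11 b) (Nat.mul dn b2))) (Nat.add (Nat.mul lp b2) e)
  bif Nat.ble va vb then va else vb

/-- the same for `B < 0` (`B6 = |B| 10^6`) -/
def pieceNn (Cl11 lp ln B6 C3 C2 K a b : ℕ) : ℕ :=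
  let a2 := Nat.mul a a
  let b2 := Nat.mul b b
  let Z := Nat.div (Nat.add a2 b2) 2
  let Z2 := Nat.mul Z Z
  let dp := Nat.add lp (Nat.mul B6 (Nat.add a2 b2))
  let dn := Nat.add ln (Nat.mul C3 Z2)
  let en := Nat.mul B6 (Nat.mul a2 b2)
  let e := Nat.mul (Nat.mul C2 Z2) Z
  let va := Nat.sub (Nat.add (Nat.add K en) (Nat.add (Nat.mul Cl11 a) (Nat.mul dn a2)))
    (Nat.add (Nat.mul dp a2) e)
  let vb := Nat.sub (Nat.add (Nat.add K en) (Nat.add (Nat.mul Cl11 b) (Nat.mul dn b2)))
    (Nat.add (Nat.mul dp b2) e)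
  bif Nat.ble va vb then va else vb

def coordMinN (Bn : Bool) (Cs Cb lp ln B6 C3 C2 Ks Kb lo d n pv : ℕ) : ℕ → ℕ → ℕ → ℕ
  | 0, _, acc => acc
  | fuel + 1, i, acc =>
    let a := Nat.add lo (Nat.div (Nat.mul d i) n)
    let b := Nat.add lo (Nat.div (Nat.mul d (Nat.succ i)) n)
    let r := bif Nat.ble pv i then
        (bif Bn then pieceNn Cb lp ln B6 C3 C2 Kb a b else pieceNp Cb lp ln B6 C3 C2 Kb a b)
      else (bif Bn then pieceNn Cs lp ln B6 C3 C2 Ks a b else pieceNp Cs lp ln B6 C3 C2 Ks a b)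
    coordMinN Bn Cs Cb lp ln B6 C3 C2 Ks Kb lo d n pv fuel (Nat.succ i)
      (bif Nat.ble acc r then acc else r)

theorem sub_cast (x y : ℕ) : ((Nat.sub x y : ℕ) : ℤ) = max 0 ((x : ℤ) - y) := by
  show ((x - y : ℕ) : ℤ) = _
  omega

theorem min_cast (x y : ℕ) (a b : ℤ) (hx : (x : ℤ) = max 0 a) (hy : (y : ℤ) = max 0 b) :
    ((bif Nat.ble x y then x else y : ℕ) : ℤ) = max 0 (min a b) := by
  by_cases h : x ≤ y
  · have : Nat.ble x y = true := Nat.ble_eq_true_of_le h
    rw [this, cond_true]; omega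
  · have : Nat.ble x y = false := by
      rw [Bool.eq_false_iff]; intro h'; exact h (Nat.le_of_ble_eq_true h')
    rw [this, cond_false]; omega

theorem pieceNp_eq (Cl lam B C : ℤ) (hCl : 0 ≤ Cl) (hB : 0 ≤ B) (hC : 0 ≤ C) (K a b : ℕ) :
    (pieceNp (Cl.toNat * 100000000000) (lam.toNat * 1000000000000) ((-lam).toNat * 1000000000000)
      (B.toNat * 1000000) (3 * C.toNat) (2 * C.toNat) K a b : ℤ) =
      max 0 (pieceMin Cl lam B C a b + K) := by
  unfold pieceNp pieceMin
  simp only []
  rw [if_pos hB, if_pos hB]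
  have h1 : (Cl.toNat : ℤ) = Cl := Int.toNat_of_nonneg hCl
  have h2 : (B.toNat : ℤ) = B := Int.toNat_of_nonneg hB
  have h3 : (C.toNat : ℤ) = C := Int.toNat_of_nonneg hC
  have h4 : (lam.toNat : ℤ) - ((-lam).toNat : ℤ) = lam := by omega
  rw [min_cast _ _ (Cl * a * 100000000000 - (lam * 1000000000000 -
      B * (2 * (((a : ℤ) * a + b * b) / 2)) * 1000000 -
      3 * C * ((((a : ℤ) * a + b * b) / 2) * (((a : ℤ) * a + b * b) / 2))) * (a * a) -
      (B * ((((a : ℤ) * a + b * b) / 2) * (((a : ℤ) * a + b * b) / 2)) * 1000000 +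
        2 * C * ((((a : ℤ) * a + b * b) / 2) * (((a : ℤ) * a + b * b) / 2) *
          (((a : ℤ) * a + b * b) / 2))) + K)
      (Cl * b * 100000000000 - (lam * 1000000000000 -
      B * (2 * (((a : ℤ) * a + b * b) / 2)) * 1000000 -
      3 * C * ((((a : ℤ) * a + b * b) / 2) * (((a : ℤ) * a + b * b) / 2))) * (b * b) -
      (B * ((((a : ℤ) * a + b * b) / 2) * (((a : ℤ) * a + b * b) / 2)) * 1000000 +
        2 * C * ((((a : ℤ) * a + b * b) / 2) * (((a : ℤ) * a + b * b) / 2) *
          (((a : ℤ) * a + b * b) / 2))) + K)]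
  · rw [min_add_add_right]
  · rw [sub_cast]
    congr 1
    show (((K + (Cl.toNat * 100000000000 * a + ((-lam).toNat * 1000000000000 +
      ((B.toNat * 1000000 * ((a * a + b * b) / 2) + B.toNat * 1000000 * ((a * a + b * b) / 2)) +
        3 * C.toNat * (((a * a + b * b) / 2) * ((a * a + b * b) / 2)))) * (a * a)) : ℕ) : ℤ) -
      ((lam.toNat * 1000000000000 * (a * a) + (B.toNat * 1000000 * ((a * a + b * b) / 2) *
        ((a * a + b * b) / 2) + 2 * C.toNat * (((a * a + b * b) / 2) * ((a * a + b * b) / 2)) *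
          ((a * a + b * b) / 2)) : ℕ) : ℤ)) = _
    push_cast
    rw [h1, h2, h3]
    generalize ((a : ℤ) * a + b * b) / 2 = Z
    have h5 : (lam.toNat : ℤ) = lam + ((-lam).toNat : ℤ) := by omega
    rw [h5]; ring
  · rw [sub_cast]
    congr 1
    show (((K + (Cl.toNat * 100000000000 * b + ((-lam).toNat * 1000000000000 +
      ((B.toNat * 1000000 * ((a * a + b * b) / 2) + B.toNat * 1000000 * ((a * a + b * b) / 2)) +
        3 * C.toNat * (((a * a + b * b) / 2) * ((a * a + b * b) / 2)))) * (b * b)) : ℕ) : ℤ) -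
      ((lam.toNat * 1000000000000 * (b * b) + (B.toNat * 1000000 * ((a * a + b * b) / 2) *
        ((a * a + b * b) / 2) + 2 * C.toNat * (((a * a + b * b) / 2) * ((a * a + b * b) / 2)) *
          ((a * a + b * b) / 2)) : ℕ) : ℤ)) = _
    push_cast
    rw [h1, h2, h3]
    generalize ((a : ℤ) * a + b * b) / 2 = Z
    have h5 : (lam.toNat : ℤ) = lam + ((-lam).toNat : ℤ) := by omega
    rw [h5]; ring

theorem pieceNn_eq (Cl lam B C : ℤ) (hCl : 0 ≤ Cl) (hB : ¬ 0 ≤ B) (hC : 0 ≤ C) (K a b : ℕ) :
    (pieceNn (Cl.toNat * 100000000000) (lam.toNat * 1000000000000) ((-lam).toNat * 1000000000000)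
      ((-B).toNat * 1000000) (3 * C.toNat) (2 * C.toNat) K a b : ℤ) =
      max 0 (pieceMin Cl lam B C a b + K) := by
  unfold pieceNn pieceMin
  simp only []
  rw [if_neg hB, if_neg hB]
  have h1 : (Cl.toNat : ℤ) = Cl := Int.toNat_of_nonneg hCl
  have h2 : ((-B).toNat : ℤ) = -B := Int.toNat_of_nonneg (by omega)
  have h3 : (C.toNat : ℤ) = C := Int.toNat_of_nonneg hC
  rw [min_cast _ _ (Cl * a * 100000000000 - (lam * 1000000000000 -
      B * ((a : ℤ) * a + b * b) * 1000000 -
      3 * C * ((((a : ℤ) * a + b * b) / 2) * (((a : ℤ) * a + b * b) / 2))) * (a * a) -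
      (B * ((a : ℤ) * a * (b * b)) * 1000000 +
        2 * C * ((((a : ℤ) * a + b * b) / 2) * (((a : ℤ) * a + b * b) / 2) *
          (((a : ℤ) * a + b * b) / 2))) + K)
      (Cl * b * 100000000000 - (lam * 1000000000000 -
      B * ((a : ℤ) * a + b * b) * 1000000 -
      3 * C * ((((a : ℤ) * a + b * b) / 2) * (((a : ℤ) * a + b * b) / 2))) * (b * b) -
      (B * ((a : ℤ) * a * (b * b)) * 1000000 +
        2 * C * ((((a : ℤ) * a + b * b) / 2) * (((a : ℤ) * a + b * b) / 2) *
          (((a : ℤ) * a + b * b) / 2))) + K)]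
  · rw [min_add_add_right]
  · rw [sub_cast]
    congr 1
    show ((((K + (-B).toNat * 1000000 * (a * a * (b * b))) + (Cl.toNat * 100000000000 * a +
      ((-lam).toNat * 1000000000000 +
        3 * C.toNat * (((a * a + b * b) / 2) * ((a * a + b * b) / 2))) * (a * a)) : ℕ) : ℤ) -
      (((lam.toNat * 1000000000000 + (-B).toNat * 1000000 * (a * a + b * b)) * (a * a) +
        2 * C.toNat * (((a * a + b * b) / 2) * ((a * a + b * b) / 2)) *
          ((a * a + b * b) / 2) : ℕ) : ℤ)) = _
    push_cast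
    rw [h1, h2, h3]
    generalize ((a : ℤ) * a + b * b) / 2 = Z
    have h5 : (lam.toNat : ℤ) = lam + ((-lam).toNat : ℤ) := by omega
    rw [h5]; ring
  · rw [sub_cast]
    congr 1
    show ((((K + (-B).toNat * 1000000 * (a * a * (b * b))) + (Cl.toNat * 100000000000 * b +
      ((-lam).toNat * 1000000000000 +
        3 * C.toNat * (((a * a + b * b) / 2) * ((a * a + b * b) / 2))) * (b * b)) : ℕ) : ℤ) -
      (((lam.toNat * 1000000000000 + (-B).toNat * 1000000 * (a * a + b * b)) * (b * b) +
        2 * C.toNat * (((a * a + b * b) / 2) * ((a * a + b * b) / 2)) *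
          ((a * a + b * b) / 2) : ℕ) : ℤ)) = _
    push_cast
    rw [h1, h2, h3]
    generalize ((a : ℤ) * a + b * b) / 2 = Z
    have h5 : (lam.toNat : ℤ) = lam + ((-lam).toNat : ℤ) := by omega
    rw [h5]; ring

/-- one piece, by the sign of `B` -/
def pieceNB (Bn : Bool) (Cl lp ln B6 C3 C2 K a b : ℕ) : ℕ :=
  bif Bn then pieceNn Cl lp ln B6 C3 C2 K a b else pieceNp Cl lp ln B6 C3 C2 K a b

theorem pieceNB_eq (Cl lam B C K : ℤ) (hCl : 0 ≤ Cl) (hC : 0 ≤ C) (hK : 0 ≤ K) (a b : ℕ) :
    (pieceNB (decide (B < 0)) (Cl.toNat * 100000000000) (lam.toNat * 1000000000000)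
      ((-lam).toNat * 1000000000000) (B.natAbs * 1000000) (3 * C.toNat) (2 * C.toNat) K.toNat a b : ℤ) =
      max 0 (pieceMin Cl lam B C a b + K) := by
  unfold pieceNB
  have hKt : (K.toNat : ℤ) = K := Int.toNat_of_nonneg hK
  by_cases hB : 0 ≤ B
  · have h1 : decide (B < 0) = false := by simp; exact hB
    have h2 : B.natAbs = B.toNat := by omega
    rw [h1, cond_false, h2, pieceNp_eq Cl lam B C hCl hB hC, hKt]
  · have h1 : decide (B < 0) = true := by simp; omega
    have h2 : B.natAbs = (-B).toNat := by omega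
    rw [h1, cond_true, h2, pieceNn_eq Cl lam B C hCl hB hC, hKt]

theorem coordMinN_eq (C0 lam B C lo hi : ℤ) (n pv : ℕ) (M sa sb K : ℤ) (hC : 0 ≤ C)
    (hCs : 0 ≤ C0 * 10000 - M * sa) (hCb : 0 ≤ C0 * 10000 - M * sb) (hlo : 0 ≤ lo) (hhi : lo ≤ hi)
    (hKs : 0 ≤ K + M * sa * (lo + (hi - lo) * pv / n) * 100000000000)
    (hKb : 0 ≤ K + M * sb * (lo + (hi - lo) * pv / n) * 100000000000) :
    ∀ (fuel i : ℕ) (acc : ℤ) (accN : ℕ), (accN : ℤ) = max 0 (acc + K) →
      (coordMinN (decide (B < 0)) ((C0 * 10000 - M * sa).toNat * 100000000000)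
        ((C0 * 10000 - M * sb).toNat * 100000000000) (lam.toNat * 1000000000000)
        ((-lam).toNat * 1000000000000) (B.natAbs * 1000000) (3 * C.toNat) (2 * C.toNat)
        (K + M * sa * (lo + (hi - lo) * pv / n) * 100000000000).toNat
        (K + M * sb * (lo + (hi - lo) * pv / n) * 100000000000).toNat
        lo.toNat (hi - lo).toNat n pv fuel i accN : ℤ) =
      max 0 (coordMin C0 lam B C lo hi n pv M sa sb fuel i acc + K) := by
  intro fuel
  induction fuel with
  | zero => intro i acc accN h; rw [coordMinN, coordMin, h]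
  | succ f ih =>
    intro i acc accN h
    rw [coordMin_succ, coordMinN]
    apply ih
    have ha : ((Nat.add lo.toNat (Nat.div (Nat.mul (hi - lo).toNat i) n) : ℕ) : ℤ) =
        lo + (hi - lo) * i / n := by
      show ((lo.toNat + (hi - lo).toNat * i / n : ℕ) : ℤ) = _
      push_cast
      rw [Int.toNat_of_nonneg hlo, Int.toNat_of_nonneg (by omega : 0 ≤ hi - lo)]
    have hb : ((Nat.add lo.toNat (Nat.div (Nat.mul (hi - lo).toNat (Nat.succ i)) n) : ℕ) : ℤ) =
        lo + (hi - lo) * (i + 1) / n := by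
      show ((lo.toNat + (hi - lo).toNat * (i + 1) / n : ℕ) : ℤ) = _
      push_cast
      rw [Int.toNat_of_nonneg hlo, Int.toNat_of_nonneg (by omega : 0 ≤ hi - lo)]
    generalize Nat.add lo.toNat (Nat.div (Nat.mul (hi - lo).toNat i) n) = a' at ha
    generalize Nat.add lo.toNat (Nat.div (Nat.mul (hi - lo).toNat (Nat.succ i)) n) = b' at hb
    have key : ((bif Nat.ble pv i then
        (bif decide (B < 0) then pieceNn ((C0 * 10000 - M * sb).toNat * 100000000000)
          (lam.toNat * 1000000000000) ((-lam).toNat * 1000000000000) (B.natAbs * 1000000)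
          (3 * C.toNat) (2 * C.toNat)
          (K + M * sb * (lo + (hi - lo) * pv / n) * 100000000000).toNat a' b'
        else pieceNp ((C0 * 10000 - M * sb).toNat * 100000000000)
          (lam.toNat * 1000000000000) ((-lam).toNat * 1000000000000) (B.natAbs * 1000000)
          (3 * C.toNat) (2 * C.toNat)
          (K + M * sb * (lo + (hi - lo) * pv / n) * 100000000000).toNat a' b')
      else (bif decide (B < 0) then pieceNn ((C0 * 10000 - M * sa).toNat * 100000000000)
          (lam.toNat * 1000000000000) ((-lam).toNat * 1000000000000) (B.natAbs * 1000000)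
          (3 * C.toNat) (2 * C.toNat)
          (K + M * sa * (lo + (hi - lo) * pv / n) * 100000000000).toNat a' b'
        else pieceNp ((C0 * 10000 - M * sa).toNat * 100000000000)
          (lam.toNat * 1000000000000) ((-lam).toNat * 1000000000000) (B.natAbs * 1000000)
          (3 * C.toNat) (2 * C.toNat)
          (K + M * sa * (lo + (hi - lo) * pv / n) * 100000000000).toNat a' b') : ℕ) : ℤ) =
        max 0 (pieceVal C0 lam B C lo hi n pv M sa sb i + K) := by
      unfold pieceVal
      by_cases hp : i < pv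
      · have h1 : Nat.ble pv i = false := by
          rw [Bool.eq_false_iff]; intro h'; have := Nat.le_of_ble_eq_true h'; omega
        have h2 := pieceNB_eq (C0 * 10000 - M * sa) lam B C _ hCs hC hKs a' b'
        unfold pieceNB at h2
        rw [h1, cond_false, h2, if_pos hp, ha, hb]
        congr 1; ring
      · have h1 : Nat.ble pv i = true := Nat.ble_eq_true_of_le (by omega)
        have h2 := pieceNB_eq (C0 * 10000 - M * sb) lam B C _ hCb hC hKb a' b'
        unfold pieceNB at h2
        rw [h1, cond_true, h2, if_neg hp, ha, hb]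
        congr 1; ring
    rw [min_cast accN _ (acc + K) (pieceVal C0 lam B C lo hi n pv M sa sb i + K) h key,
      min_add_add_right]

/-- the tail pieces -/
def tailPc (Bn : Bool) (Cl11 lp ln B6 C3 C2 a b : ℕ) : Bool :=
  Nat.ble 1 (pieceNB Bn Cl11 lp ln B6 C3 C2 1 a b)

def tailN (Bn : Bool) (Cl11 lp ln B6 C3 C2 : ℕ) : ℕ → List ℤ → Bool
  | _, [] => true
  | a, b :: l => decide (0 ≤ b) && tailPc Bn Cl11 lp ln B6 C3 C2 a b.toNat &&
      tailN Bn Cl11 lp ln B6 C3 C2 b.toNat l

theorem tailN_ok (t lam B C : ℤ) (ht : 0 ≤ t) (hC : 0 ≤ C) : ∀ (l : List ℤ) (a : ℕ),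
    tailN (decide (B < 0)) ((t * 10000).toNat * 100000000000) (lam.toNat * 1000000000000)
      ((-lam).toNat * 1000000000000) (B.natAbs * 1000000) (3 * C.toNat) (2 * C.toNat) a l = true →
    tailOk t lam B C (a : ℤ) l = true := by
  intro l
  induction l with
  | nil => intro a _; rfl
  | cons b l ih =>
    intro a h
    rw [tailN] at h
    simp only [Bool.and_eq_true, decide_eq_true_eq] at h
    obtain ⟨⟨hb, hp⟩, hr⟩ := h
    unfold tailPc at hp
    have h1 := Nat.le_of_ble_eq_true hp
    have h2 := pieceNB_eq (t * 10000) lam B C 1 (by omega) hC (by norm_num) a b.toNat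
    have h3 : ((1 : ℤ).toNat) = 1 := rfl
    rw [h3, Int.toNat_of_nonneg hb] at h2
    have h4 := ih b.toNat hr
    rw [Int.toNat_of_nonneg hb] at h4
    rw [tailOk]
    simp only [Bool.and_eq_true, decide_eq_true_eq]
    refine ⟨⟨by omega, ?_⟩, h4⟩
    have h5 : (1 : ℤ) ≤ (pieceNB (decide (B < 0)) ((t * 10000).toNat * 100000000000)
      (lam.toNat * 1000000000000) ((-lam).toNat * 1000000000000) (B.natAbs * 1000000)
      (3 * C.toNat) (2 * C.toNat) 1 a b.toNat : ℤ) := by exact_mod_cast h1
    rw [h2] at h5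
    omega

/-- minimum over one coordinate, with all guards; `none` if something does not fit -/
def coordF (C0 lam B C lo hi : ℤ) (n pv : ℕ) (M sa sb : ℤ) : Option ℤ :=
  let Cs := C0 * 10000 - M * sa
  let Cb := C0 * 10000 - M * sb
  let piv := lo + (hi - lo) * pv / n
  let Ks := 10000000000000000000000000000000000000000 + M * sa * piv * 100000000000
  let Kb := 10000000000000000000000000000000000000000 + M * sb * piv * 100000000000
  bif decide (0 ≤ Cs) && decide (0 ≤ Cb) && decide (0 ≤ lo) && decide (lo ≤ hi) &&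
    decide (0 ≤ Ks) && decide (0 ≤ Kb) then
    let r := coordMinN (decide (B < 0)) (Cs.toNat * 100000000000) (Cb.toNat * 100000000000)
      (lam.toNat * 1000000000000) ((-lam).toNat * 1000000000000) (B.natAbs * 1000000)
      (3 * C.toNat) (2 * C.toNat) Ks.toNat Kb.toNat lo.toNat (hi - lo).toNat n pv n 0
      20000000000000000000000000000000000000000
    bif Nat.ble 1 r then some ((r : ℤ) - 10000000000000000000000000000000000000000) else none
  else none

theorem coordF_eq (C0 lam B C lo hi : ℤ) (n pv : ℕ) (M sa sb v : ℤ) (hC : 0 ≤ C)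
    (h : coordF C0 lam B C lo hi n pv M sa sb = some v) :
    coordMin C0 lam B C lo hi n pv M sa sb n 0 10000000000000000000000000000000000000000 = v := by
  unfold coordF at h
  simp only [] at h
  cases hg : (decide (0 ≤ C0 * 10000 - M * sa) && decide (0 ≤ C0 * 10000 - M * sb) &&
    decide (0 ≤ lo) && decide (lo ≤ hi) &&
    decide (0 ≤ 10000000000000000000000000000000000000000 +
      M * sa * (lo + (hi - lo) * pv / n) * 100000000000) &&
    decide (0 ≤ 10000000000000000000000000000000000000000 +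
      M * sb * (lo + (hi - lo) * pv / n) * 100000000000)) with
  | false => rw [hg, cond_false] at h; cases h
  | true =>
    rw [hg, cond_true] at h
    simp only [Bool.and_eq_true, decide_eq_true_eq] at hg
    obtain ⟨⟨⟨⟨⟨g1, g2⟩, g3⟩, g4⟩, g5⟩, g6⟩ := hg
    have he := coordMinN_eq C0 lam B C lo hi n pv M sa sb 10000000000000000000000000000000000000000
      hC g1 g2 g3 g4 g5 g6 n 0 10000000000000000000000000000000000000000
      20000000000000000000000000000000000000000 (by norm_num)
    generalize coordMinN (decide (B < 0)) ((C0 * 10000 - M * sa).toNat * 100000000000)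
        ((C0 * 10000 - M * sb).toNat * 100000000000) (lam.toNat * 1000000000000)
        ((-lam).toNat * 1000000000000) (B.natAbs * 1000000) (3 * C.toNat) (2 * C.toNat)
        (10000000000000000000000000000000000000000 +
          M * sa * (lo + (hi - lo) * pv / n) * 100000000000).toNat
        (10000000000000000000000000000000000000000 +
          M * sb * (lo + (hi - lo) * pv / n) * 100000000000).toNat
        lo.toNat (hi - lo).toNat n pv n 0 20000000000000000000000000000000000000000 = r at h he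
    cases hr : Nat.ble 1 r with
    | false => rw [hr, cond_false] at h; cases h
    | true =>
      rw [hr, cond_true] at h
      have h1 := Nat.le_of_ble_eq_true hr
      injection h with h
      omega

def sumOpt : List (Option ℤ) → Option ℤ
  | [] => some 0
  | none :: _ => none
  | some a :: l =>
    match sumOpt l with
    | none => none
    | some b => some (a + b)

theorem sumOpt_map {ι : Type} (f : ι → Option ℤ) (g : ι → ℤ) : ∀ (l : List ι) (v : ℤ),
    sumOpt (l.map f) = some v → (∀ i ∈ l, ∀ w, f i = some w → g i = w) → (l.map g).sum = v := by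
  intro l
  induction l with
  | nil => intro v h _; simp only [List.map_nil, sumOpt, Option.some.injEq] at h ⊢; simpa using h
  | cons i l ih =>
    intro v h hfg
    simp only [List.map_cons] at h ⊢
    cases hf : f i with
    | none => rw [hf] at h; simp [sumOpt] at h
    | some a =>
      rw [hf, sumOpt] at h
      cases hs : sumOpt (l.map f) with
      | none => rw [hs] at h; simp at h
      | some b =>
        rw [hs] at h
        simp only [Option.some.injEq] at h
        rw [List.sum_cons, hfg i List.mem_cons_self a hf,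
          ih b hs (fun j hj => hfg j (List.mem_cons_of_mem _ hj))]
        exact h

def leafOkF (P : Prob) (c : Cell) (L : Leaf) : Bool :=
  let A := L.a * 10000 + L.b * (L.p - L.m)
  let B := 2 * L.a * 10000 - 3 * L.b * L.m
  let C := 2 * L.b * L.m
  let t := mixT P L.mix
  let n := c.lo.length
  -- signs
  (L.mix.all fun fw => decide (0 ≤ fw.2) && decide (fw.1 < P.fams.length) &&
    boxLe c.sb (P.fams.getD fw.1 ⟨[], 0, [], []⟩).sb) &&
  decide ((L.mix.map fun fw => fw.2).sum = 1000) &&
  decide (0 ≤ L.a) && decide (0 < L.b) && decide (0 ≤ L.m) && decide (0 ≤ L.nu) &&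
  -- the product
  decide (P.K2 ≤ 4 * L.a * L.b) &&
  -- the chord
  decide (0 < 1000 * L.p - L.m * c.Y2) &&
  decide (1000000000000000000000000 ≤ (1000 * L.p - L.m * c.Y1) *
    (1000 * L.p - L.m * c.Y1) * (1000 * L.p - L.m * c.Y1) * c.Y1) &&
  decide (1000000000000000000000000 ≤ (1000 * L.p - L.m * c.Y2) *
    (1000 * L.p - L.m * c.Y2) * (1000 * L.p - L.m * c.Y2) * c.Y2) &&
  -- the tails
  decide (0 ≤ t) &&
  (match L.tb with
    | [] => false
    | b0 :: l => decide (0 ≤ b0) &&
      (decide (0 ≤ t * 1000000000 - max L.lamT 0 * b0 * 1000000 + min B 0 * (b0 * b0 * b0)) ||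
        decide (0 ≤ -L.lamT * 1000000 + min B 0 * (b0 * b0))) &&
      tailN (decide (B < 0)) ((t * 10000).toNat * 100000000000) (L.lamT.toNat * 1000000000000)
        ((-L.lamT).toNat * 1000000000000) (B.natAbs * 1000000) (3 * C.toNat) (2 * C.toNat)
        b0.toNat l &&
      decide (c.hi.foldr min c.H ≤ (b0 :: l).getLastD 0)) &&
  -- linear coefficients are nonnegative
  ((List.range n).all fun i => decide (0 ≤ mixC P L.mix i * 10000 -
    mixM P L.mix (angOf P i) * (c.sb.getD (angOf P i) (0, 0)).2)) &&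
  ((List.range P.pos.length).all fun j => decide (0 ≤ mixM P L.mix j)) &&
  ((List.range n).all fun i => decide (0 < (L.np.getD i (0, 0)).1)) &&
  -- the inequality
  (match sumOpt ((List.range n).map fun i =>
      let np := L.np.getD i (1, 0)
      let sb := c.sb.getD (angOf P i) (0, 0)
      coordF (mixC P L.mix i) (if P.gr.contains i then L.lamT else L.lam) B C (c.lo.getD i 0)
        (c.hi.getD i 0) np.1 np.2 (mixM P L.mix (angOf P i)) sb.1 sb.2) with
    | none => false
    | some v => decide (0 ≤ v +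
    L.lam * 1000000000000000000 +
    (L.lamT - L.lam) * (if L.lam ≤ L.lamT then c.T1 else c.T2) * 1000000000000 -
    A * 1000000000000000000 -
    (L.nu * P.S0 + ((List.range P.pos.length).map fun j =>
      let i := P.pos.getD j 0
      let np := L.np.getD i (1, 0)
      let piv := c.lo.getD i 0 + (c.hi.getD i 0 - c.lo.getD i 0) * np.2 / np.1
      let e := mixM P L.mix j * piv - L.nu
      let sb := c.sb.getD j (0, 0)
      max (e * sb.1) (e * sb.2)).sum) * 100000000000))

theorem leafOkF_sound (P : Prob) (c : Cell) (L : Leaf) (h : leafOkF P c L = true) :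
    leafOk P c L = true := by
  unfold leafOkF at h
  unfold leafOk
  simp only [Bool.and_eq_true] at h ⊢
  obtain ⟨⟨⟨⟨⟨⟨⟨⟨⟨⟨⟨⟨⟨⟨⟨hmix, hsum⟩, ha⟩, hb⟩, hm⟩, hnu⟩, hK⟩, hp2⟩, hc1⟩, hc2⟩, ht⟩, htb⟩, hlin⟩,
    hM⟩, hnp⟩, hmain⟩ := h
  have hb' := of_decide_eq_true hb
  have hm' := of_decide_eq_true hm
  have hC : 0 ≤ 2 * L.b * L.m := by positivity
  refine ⟨⟨⟨⟨⟨⟨⟨⟨⟨⟨⟨⟨⟨⟨⟨hmix, hsum⟩, ha⟩, hb⟩, hm⟩, hnu⟩, hK⟩, hp2⟩, hc1⟩, hc2⟩, ht⟩, ?_⟩, hlin⟩,
    hM⟩, hnp⟩, ?_⟩
  · cases htbd : L.tb with
    | nil => rw [htbd] at htb; simp at htb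
    | cons b0 lst =>
      rw [htbd] at htb
      simp only [Bool.and_eq_true] at htb ⊢
      obtain ⟨⟨⟨t0, t1⟩, t2⟩, t3⟩ := htb
      refine ⟨⟨⟨t0, t1⟩, ?_⟩, t3⟩
      have h1 := tailN_ok (mixT P L.mix) L.lamT (2 * L.a * 10000 - 3 * L.b * L.m) (2 * L.b * L.m)
        (of_decide_eq_true ht) hC lst b0.toNat t2
      rwa [Int.toNat_of_nonneg (of_decide_eq_true t0)] at h1
  · split at hmain
    · simp at hmain
    · rename_i v hv
      have h1 := sumOpt_map _ (fun i =>
        coordMin (mixC P L.mix i) (if P.gr.contains i then L.lamT else L.lam)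
          (2 * L.a * 10000 - 3 * L.b * L.m) (2 * L.b * L.m) (c.lo.getD i 0)
          (c.hi.getD i 0) (L.np.getD i (1, 0)).1 (L.np.getD i (1, 0)).2
          (mixM P L.mix (angOf P i)) (c.sb.getD (angOf P i) (0, 0)).1
          (c.sb.getD (angOf P i) (0, 0)).2 (L.np.getD i (1, 0)).1 0
          10000000000000000000000000000000000000000) _ v hv (by
        intro i _ w hw
        exact coordF_eq _ _ _ _ _ _ _ _ _ _ _ _ hC hw)
      simp only [h1]
      exact hmain

def checkF (P : Prob) : Cell → Tree → Bool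
  | c, .leaf L => leafOkF P c L || ((List.range c.lo.length).any fun i =>
      decide (c.hi.getD i 0 < c.lo.getD i 0)) || decide (c.T2 < c.T1) || decide (c.Y2 < c.Y1)
  | c, .sx k v l r => decide (k < c.lo.length) && checkF P (setHi c (P.dn.getD k []) v) l &&
      checkF P (setLo c (P.up.getD k []) v) r
  | c, .sy v l r => checkF P { c with Y2 := min c.Y2 v } l && checkF P { c with Y1 := max c.Y1 v } r
  | c, .st v l r => checkF P { c with T2 := min c.T2 v } l && checkF P { c with T1 := max c.T1 v } r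
  | c, .ss j v l r => checkF P { c with sb := updSHi v j c.sb } l &&
    checkF P { c with sb := updSLo v j c.sb } r

theorem checkF_sound (P : Prob) : ∀ (tr : Tree) (c : Cell), checkF P c tr = true →
    check P c tr = true := by
  intro tr
  induction tr with
  | leaf L =>
    intro c h
    simp only [checkF, check, Bool.or_eq_true] at h ⊢
    rcases h with ((h | h) | h) | h
    · exact Or.inl (Or.inl (Or.inl (leafOkF_sound P c L h)))
    · exact Or.inl (Or.inl (Or.inr h))
    · exact Or.inl (Or.inr h)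
    · exact Or.inr h
  | sx k v l r ihl ihr =>
    intro c h
    simp only [checkF, check, Bool.and_eq_true] at h ⊢
    exact ⟨⟨h.1.1, ihl _ h.1.2⟩, ihr _ h.2⟩
  | sy v l r ihl ihr =>
    intro c h
    simp only [checkF, check, Bool.and_eq_true] at h ⊢
    exact ⟨ihl _ h.1, ihr _ h.2⟩
  | st v l r ihl ihr =>
    intro c h
    simp only [checkF, check, Bool.and_eq_true] at h ⊢
    exact ⟨ihl _ h.1, ihr _ h.2⟩
  | ss j v l r ihl ihr =>
    intro c h
    simp only [checkF, check, Bool.and_eq_true] at h ⊢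
    exact ⟨ihl _ h.1, ihr _ h.2⟩

end Pool.Agent.Work.MP_3892ce_static.Eng
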