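import Pool.Agent.Work.MP_3892ce_static.Interface

/-! # Melzak's problem, static method: block IRR (irredundant description) -/

set_option autoImplicit false

open MeasureTheory Set
open scoped ENNReal Pointwise

namespace Pool.Agent.Work.MP_3892ce_static

namespace IRR

/-- restriction of the constraints to a finite subset -/
def R {d : ℕ} {ι : Type} (n : ι → E d) (b : ι → ℝ) (s : Finset ι) : Set (E d) :=
  {x | ∀ i ∈ s, inner ℝ (n i) x ≤ b i}

end IRR

open IRR in
theorem blk_IRR : Stmt_IRR := by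
  intro ι _ n b hbd hint
  classical
  have := Fintype.ofFinite ι
  -- minimal subset
  obtain ⟨s, hs, hmin⟩ : ∃ s : Finset ι, R n b s = HP n b ∧
      ∀ t : Finset ι, R n b t = HP n b → s.card ≤ t.card := by
    have hex : ∃ m : ℕ, ∃ s : Finset ι, R n b s = HP n b ∧ s.card = m :=
      ⟨_, Finset.univ, by ext x; simp [R, HP], rfl⟩
    obtain ⟨s, hs, hc⟩ := Nat.find_spec hex
    refine ⟨s, hs, fun t ht => ?_⟩
    rw [hc]
    exact Nat.find_min' hex ⟨t, ht, rfl⟩
  obtain ⟨x0, hx0⟩ := hint
  -- every constraint is needed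
  have hneed : ∀ i ∈ s, ∃ x, b i < inner ℝ (n i) x ∧ ∀ j ∈ s, j ≠ i → inner ℝ (n j) x ≤ b j := by
    intro i hi
    have h1 : R n b (s.erase i) ≠ HP n b := by
      intro h
      have := hmin _ h
      rw [Finset.card_erase_of_mem hi] at this
      have := Finset.card_pos.2 ⟨i, hi⟩
      omega
    have h2 : ¬ R n b (s.erase i) ⊆ HP n b := by
      intro h
      refine h1 (h.antisymm ?_)
      intro x hx j _
      exact hx j
    obtain ⟨x, hx, hx'⟩ := not_subset.1 h2
    refine ⟨x, ?_, fun j hj hji => hx j (Finset.mem_erase.2 ⟨hji, hj⟩)⟩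
    by_contra h3
    apply hx'
    rw [← hs]
    intro j hj
    by_cases hji : j = i
    · subst hji; exact not_lt.1 h3
    · exact hx j (Finset.mem_erase.2 ⟨hji, hj⟩)
  have hx0' : x0 ∈ HP n b := interior_subset hx0
  have hn0 : ∀ i ∈ s, n i ≠ 0 := by
    intro i hi h0
    obtain ⟨x, hx, -⟩ := hneed i hi
    have h1 := hx0' i
    rw [h0, inner_zero_left] at hx h1
    linarith
  -- strictness of the interior point
  have hstr : ∀ i ∈ s, inner ℝ (n i) x0 < b i := by
    intro i hi
    rw [mem_interior_iff_mem_nhds, Metric.mem_nhds_iff] at hx0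
    obtain ⟨ε, hε, hb⟩ := hx0
    have hnp : 0 < ‖n i‖ := norm_pos_iff.2 (hn0 i hi)
    have h1 : x0 + (ε / 2 / ‖n i‖) • n i ∈ Metric.ball x0 ε := by
      rw [Metric.mem_ball, dist_eq_norm, add_sub_cancel_left, norm_smul, Real.norm_eq_abs,
        abs_of_pos (by positivity), div_mul_cancel₀ _ hnp.ne']
      linarith
    have h2 := hb h1 i
    rw [inner_add_right, inner_smul_right, real_inner_self_eq_norm_sq] at h2
    have h3 : 0 < ε / 2 / ‖n i‖ * ‖n i‖ ^ 2 := by positivity
    linarith
  let e : s ≃ Fin s.card := s.equivFin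
  let g : Fin s.card → ι := fun m => (e.symm m).1
  have hg : ∀ m, g m ∈ s := fun m => (e.symm m).2
  have hginj : Function.Injective g := fun m m' h => e.symm.injective (Subtype.ext h)
  have hgsurj : ∀ i ∈ s, ∃ m, g m = i := fun i hi =>
    ⟨e ⟨i, hi⟩, by simp [g]⟩
  have hpos : ∀ m, 0 < ‖n (g m)‖ := fun m => norm_pos_iff.2 (hn0 _ (hg m))
  have hin : ∀ m x, inner ℝ ((‖n (g m)‖)⁻¹ • n (g m)) x = (‖n (g m)‖)⁻¹ * inner ℝ (n (g m)) x :=
    fun m x => real_inner_smul_left _ _ _
  have hHP : HP (fun m => (‖n (g m)‖)⁻¹ • n (g m)) (fun m => (‖n (g m)‖)⁻¹ * b (g m)) =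
      HP n b := by
    rw [← hs]
    ext x
    constructor
    · intro hx i hi
      obtain ⟨m, rfl⟩ := hgsurj i hi
      have h1 := hx m
      rw [hin] at h1
      exact le_of_mul_le_mul_left h1 (inv_pos.2 (hpos m))
    · intro hx m
      rw [hin]
      exact mul_le_mul_of_nonneg_left (hx _ (hg m)) (inv_nonneg.2 (hpos m).le)
  refine ⟨s.card, fun m => (‖n (g m)‖)⁻¹ • n (g m), fun m => (‖n (g m)‖)⁻¹ * b (g m), ?_, hHP⟩
  constructor
  · intro m
    rw [norm_smul, norm_inv, norm_norm, inv_mul_cancel₀ (hpos m).ne']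
  · refine ⟨x0, fun m => ?_⟩
    rw [hin]
    exact mul_lt_mul_of_pos_left (hstr _ (hg m)) (inv_pos.2 (hpos m))
  · rw [hHP]
    exact hbd
  · intro m
    obtain ⟨x, hx1, hx2⟩ := hneed (g m) (hg m)
    set α := inner ℝ (n (g m)) x0 with hα
    set β := inner ℝ (n (g m)) x with hβ
    have h1 : α < b (g m) := hstr _ (hg m)
    have h2 : α < β := h1.trans hx1
    set t := (b (g m) - α) / (β - α) with ht
    have ht0 : 0 < t := div_pos (by linarith) (by linarith)
    have ht1 : t < 1 := (div_lt_one (by linarith)).2 (by linarith)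
    refine ⟨x0 + t • (x - x0), ?_, ?_⟩
    · rw [hin]
      congr 1
      rw [inner_add_right, inner_smul_right, inner_sub_right, ← hα, ← hβ, ht,
        div_mul_cancel₀ _ (by linarith)]
      ring
    · intro l hl
      rw [hin]
      refine mul_lt_mul_of_pos_left ?_ (inv_pos.2 (hpos l))
      have hgl : g l ≠ g m := fun h => hl (hginj h)
      have h3 := hx2 (g l) (hg l) hgl
      have h4 := hstr _ (hg l)
      rw [inner_add_right, inner_smul_right, inner_sub_right]
      nlinarith

end Pool.Agent.Work.MP_3892ce_static
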