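import Pool.Agent.Work.MP_3892ce_static.Interface

/-! # Block ISO: isoperimetric inequality with the areas of the facets -/

set_option autoImplicit false

open MeasureTheory Set
open scoped ENNReal Pointwise

namespace Pool.Agent.Work.MP_3892ce_static

namespace ISO

/-- the truncated ball -/
def KK {ι : Type} (n : ι → E 3) (κ : ι → ℝ) : Set (E 3) := {x | ‖x‖ ≤ 1 ∧ x ∈ HP n κ}

theorem closed_HP {d : ℕ} {ι : Type} (n : ι → E d) (b : ι → ℝ) : IsClosed (HP n b) := by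
  have : HP n b = ⋂ i, {x | inner ℝ (n i) x ≤ b i} := by
    ext x; simp [HP]
  rw [this]
  refine isClosed_iInter fun i => ?_
  exact isClosed_le (by fun_prop) continuous_const

theorem compact_KK {ι : Type} (n : ι → E 3) (κ : ι → ℝ) : IsCompact (KK n κ) := by
  have e : KK n κ = Metric.closedBall 0 1 ∩ HP n κ := by
    ext x
    simp [KK, Metric.mem_closedBall, dist_zero_right]
  rw [e]
  exact (isCompact_closedBall _ _).inter_right (closed_HP n κ)

theorem vol_KK (hCAP : Stmt_CAP) {ι : Type} [Fintype ι] (n : ι → E 3) (α : ι → ℝ)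
    (hn : ∀ i, ‖n i‖ = 1) (h0 : ∀ i, 0 ≤ α i) (h1 : ∀ i, α i ≤ 1 / 2) :
    4 * Real.pi / 3 * (1 - 3 * ∑ i, α i ^ 2 + 2 * ∑ i, α i ^ 3)
      ≤ (volume (KK n (fun i => 1 - 2 * α i))).toReal := by
  classical
  set K := KK n (fun i => 1 - 2 * α i) with hK
  have hcov : Metric.closedBall (0 : E 3) 1 ⊆ K ∪ ⋃ i ∈ (Finset.univ : Finset ι),
      {x : E 3 | ‖x‖ ≤ 1 ∧ 1 - 2 * α i < inner ℝ (n i) x} := by
    intro x hx
    rw [Metric.mem_closedBall, dist_zero_right] at hx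
    by_cases h : x ∈ HP n (fun i => 1 - 2 * α i)
    · exact Or.inl ⟨hx, h⟩
    · right
      have h2 : ∃ i, 1 - 2 * α i < inner ℝ (n i) x := by
        by_contra hcon
        push Not at hcon
        exact h hcon
      obtain ⟨i, hi⟩ := h2
      refine mem_iUnion₂.2 ⟨i, Finset.mem_univ i, hx, hi⟩
  have hcap : ∀ i, volume {x : E 3 | ‖x‖ ≤ 1 ∧ 1 - 2 * α i < inner ℝ (n i) x}
      ≤ ENNReal.ofReal (4 * Real.pi / 3 * (3 * α i ^ 2 - 2 * α i ^ 3)) := by
    intro i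
    have h2 := hCAP (n i) (1 - 2 * α i) (hn i) (by have := h1 i; linarith)
      (by have := h0 i; linarith)
    refine h2.trans (le_of_eq ?_)
    congr 1
    ring
  have hnn : ∀ i, 0 ≤ 4 * Real.pi / 3 * (3 * α i ^ 2 - 2 * α i ^ 3) := by
    intro i
    have h2 := h0 i
    have h3 := h1 i
    have h4 : 0 ≤ 3 * α i ^ 2 - 2 * α i ^ 3 := by
      have : 3 * α i ^ 2 - 2 * α i ^ 3 = α i ^ 2 * (3 - 2 * α i) := by ring
      rw [this]
      exact mul_nonneg (sq_nonneg _) (by linarith)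
    have := Real.pi_pos
    positivity
  have hball : volume (Metric.closedBall (0 : E 3) 1) = ENNReal.ofReal (4 * Real.pi / 3) := by
    rw [Measure.addHaar_closedBall_eq_addHaar_ball, EuclideanSpace.volume_ball_fin_three]
    rw [ENNReal.ofReal_one, one_pow, one_mul]
    congr 1
    ring
  have hle : volume (Metric.closedBall (0 : E 3) 1) ≤ volume K
      + ENNReal.ofReal (∑ i, 4 * Real.pi / 3 * (3 * α i ^ 2 - 2 * α i ^ 3)) := by
    calc volume (Metric.closedBall (0 : E 3) 1)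
        ≤ volume (K ∪ ⋃ i ∈ (Finset.univ : Finset ι),
          {x : E 3 | ‖x‖ ≤ 1 ∧ 1 - 2 * α i < inner ℝ (n i) x}) := measure_mono hcov
      _ ≤ volume K + volume (⋃ i ∈ (Finset.univ : Finset ι),
          {x : E 3 | ‖x‖ ≤ 1 ∧ 1 - 2 * α i < inner ℝ (n i) x}) := measure_union_le _ _
      _ ≤ volume K + ∑ i, volume {x : E 3 | ‖x‖ ≤ 1 ∧ 1 - 2 * α i < inner ℝ (n i) x} := by
          gcongr
          exact measure_biUnion_finset_le _ _
      _ ≤ volume K + ∑ i, ENNReal.ofReal (4 * Real.pi / 3 * (3 * α i ^ 2 - 2 * α i ^ 3)) := by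
          gcongr with i _
          exact hcap i
      _ = _ := by rw [ENNReal.ofReal_sum_of_nonneg (fun i _ => hnn i)]
  have hfin : volume K ≠ ∞ := (compact_KK n _).measure_lt_top.ne
  rw [hball] at hle
  have h5 := (ENNReal.ofReal_le_iff_le_toReal (by
    exact ENNReal.add_ne_top.2 ⟨hfin, ENNReal.ofReal_ne_top⟩)).1 hle
  rw [ENNReal.toReal_add hfin ENNReal.ofReal_ne_top,
    ENNReal.toReal_ofReal (Finset.sum_nonneg fun i _ => hnn i)] at h5
  have h6 : ∑ i, 4 * Real.pi / 3 * (3 * α i ^ 2 - 2 * α i ^ 3)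
      = 4 * Real.pi / 3 * (3 * ∑ i, α i ^ 2 - 2 * ∑ i, α i ^ 3) := by
    rw [← Finset.mul_sum, Finset.sum_sub_distrib, ← Finset.mul_sum, ← Finset.mul_sum]
  rw [h6] at h5
  linarith

end ISO

open ISO in
theorem blk_ISO (hMINK : Stmt_MINK) (hCAP : Stmt_CAP) (hCLOSE : Stmt_CLOSE) (hPOS : Stmt_POS) :
    Stmt_ISO := by
  classical
  intro ι _ n b U hU hI α S hS hα
  set A : ι → ℝ := fun i => area (HP n b) (n i) (U i) (b i) with hA
  have hApos : ∀ i, 0 < A i := fun i => hPOS ι n b U hU hI i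
  have hne : Nonempty ι := by
    by_contra hcon
    rw [not_nonempty_iff] at hcon
    have h1 : HP n b = univ := by
      ext x
      simp [HP]
    have h2 := hI.bdd
    rw [h1] at h2
    exact NormedSpace.unbounded_univ ℝ (E 3) h2
  have hSpos : 0 < S := by
    rw [hS]
    exact Finset.sum_pos (fun i _ => hApos i) Finset.univ_nonempty
  have hAα : ∀ i, A i = S * α i := by
    intro i
    rw [hα i]
    field_simp
    rfl
  have hα0 : ∀ i, 0 ≤ α i := by
    intro i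
    rw [hα i]
    exact div_nonneg (hApos i).le hSpos.le
  have hα1 : ∀ i, α i ≤ 1 / 2 := by
    intro i
    have hc := hCLOSE ι n b U hU hI
    rw [← Finset.add_sum_erase _ _ (Finset.mem_univ i)] at hc
    have h1 : A i • n i = - ∑ j ∈ Finset.univ.erase i, A j • n j := eq_neg_of_add_eq_zero_left hc
    have h2 : A i ≤ ∑ j ∈ Finset.univ.erase i, A j := by
      calc A i = ‖A i • n i‖ := by
            rw [norm_smul, hI.unit, mul_one, Real.norm_eq_abs, abs_of_pos (hApos i)]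
        _ = ‖∑ j ∈ Finset.univ.erase i, A j • n j‖ := by rw [h1, norm_neg]
        _ ≤ ∑ j ∈ Finset.univ.erase i, ‖A j • n j‖ := norm_sum_le _ _
        _ = ∑ j ∈ Finset.univ.erase i, A j := by
            refine Finset.sum_congr rfl fun j _ => ?_
            rw [norm_smul, hI.unit, mul_one, Real.norm_eq_abs, abs_of_pos (hApos j)]
    have h3 : S = A i + ∑ j ∈ Finset.univ.erase i, A j := by
      rw [hS, ← Finset.add_sum_erase _ _ (Finset.mem_univ i)]
    rw [hα i, div_le_iff₀ hSpos]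
    have h4 : area (HP n b) (n i) (U i) (b i) = A i := rfl
    rw [h4]
    linarith
  set κ : ι → ℝ := fun i => 1 - 2 * α i with hκ
  have hκ0 : ∀ i, 0 ≤ κ i := by
    intro i
    have := hα1 i
    simp only [hκ]
    linarith
  have hzero : (0 : E 3) ∈ KK n κ := by
    refine ⟨by simp, fun i => ?_⟩
    rw [inner_zero_right]
    exact hκ0 i
  have hm := hMINK 2 ι n b U hU hI.int hI.bdd (KK n κ) κ (compact_KK n κ) ⟨0, hzero⟩ hκ0
    (fun x hx => hx.2)
  have hvol := vol_KK hCAP n α hI.unit hα0 hα1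
  set V := (volume (HP n b)).toReal with hV
  set W := (volume (KK n κ)).toReal with hW
  have hV0 : 0 ≤ V := ENNReal.toReal_nonneg
  have hW0 : 0 ≤ W := ENNReal.toReal_nonneg
  have hsum : ∑ i, A i * κ i = S * (1 - 2 * ∑ i, α i ^ 2) := by
    have h1 : ∀ i, A i * κ i = S * α i - 2 * S * α i ^ 2 := by
      intro i
      rw [hAα i]
      simp only [hκ]
      ring
    simp_rw [h1]
    rw [Finset.sum_sub_distrib, ← Finset.mul_sum, ← Finset.mul_sum]
    have h2 : S * ∑ i, α i = S := by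
      rw [Finset.mul_sum]
      conv_rhs => rw [hS]
      exact Finset.sum_congr rfl fun i _ => (hAα i).symm
    rw [h2]
    ring
  have hm' : (((2 : ℕ) : ℝ) + 1) * V ^ (((2 : ℕ) : ℝ) / (((2 : ℕ) : ℝ) + 1))
      * W ^ ((1 : ℝ) / (((2 : ℕ) : ℝ) + 1)) ≤ S * (1 - 2 * ∑ i, α i ^ 2) := by
    rw [← hsum]
    exact hm
  have hX0 : 0 ≤ (((2 : ℕ) : ℝ) + 1) * V ^ (((2 : ℕ) : ℝ) / (((2 : ℕ) : ℝ) + 1))
      * W ^ ((1 : ℝ) / (((2 : ℕ) : ℝ) + 1)) := by positivity
  have hcube := pow_le_pow_left₀ hX0 hm' 3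
  have e1 : ((((2 : ℕ) : ℝ) + 1) * V ^ (((2 : ℕ) : ℝ) / (((2 : ℕ) : ℝ) + 1))
      * W ^ ((1 : ℝ) / (((2 : ℕ) : ℝ) + 1))) ^ 3 = 27 * V ^ 2 * W := by
    rw [mul_pow, mul_pow, ← Real.rpow_natCast (V ^ _) 3, ← Real.rpow_mul hV0,
      ← Real.rpow_natCast (W ^ _) 3, ← Real.rpow_mul hW0]
    have e2 : (((2 : ℕ) : ℝ) / (((2 : ℕ) : ℝ) + 1)) * ((3 : ℕ) : ℝ) = ((2 : ℕ) : ℝ) := by
      norm_num
    have e3 : ((1 : ℝ) / (((2 : ℕ) : ℝ) + 1)) * ((3 : ℕ) : ℝ) = 1 := by norm_num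
    rw [e2, e3, Real.rpow_natCast, Real.rpow_one]
    norm_num
  rw [e1] at hcube
  refine le_trans ?_ hcube
  have h7 := mul_le_mul_of_nonneg_left hvol (sq_nonneg V)
  calc 36 * Real.pi * (1 - 3 * ∑ i, α i ^ 2 + 2 * ∑ i, α i ^ 3) * V ^ 2
      = 27 * (V ^ 2 * (4 * Real.pi / 3 * (1 - 3 * ∑ i, α i ^ 2 + 2 * ∑ i, α i ^ 3))) := by ring
    _ ≤ 27 * (V ^ 2 * W) := mul_le_mul_of_nonneg_left h7 (by norm_num)
    _ = 27 * V ^ 2 * W := by ring

end Pool.Agent.Work.MP_3892ce_static
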