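import Pool.Agent.Work.MP_3892ce_static.Defs

/-! # Melzak's problem, static method: statements of the blocks (geometry core) -/

set_option autoImplicit false

open MeasureTheory Set
open scoped ENNReal Pointwise

namespace Pool.Agent.Work.MP_3892ce_static

/-- `PL1`: Prekopa-Leindler on the line -/
def Stmt_PL1 : Prop :=
  ∀ (t : ℝ), 0 < t → t < 1 → ∀ f g h : ℝ → ℝ≥0∞, Measurable f → Measurable g → Measurable h →
    (∀ x y, f x ^ (1 - t) * g y ^ t ≤ h ((1 - t) * x + t * y)) →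
    (∫⁻ x, f x) ^ (1 - t) * (∫⁻ x, g x) ^ t ≤ ∫⁻ x, h x

/-- `PLN`: Prekopa-Leindler in `ℝ^d` -/
def Stmt_PLN : Prop :=
  ∀ (d : ℕ) (t : ℝ), 0 < t → t < 1 → ∀ f g h : (Fin d → ℝ) → ℝ≥0∞,
    Measurable f → Measurable g → Measurable h →
    (∀ x y, f x ^ (1 - t) * g y ^ t ≤ h ((1 - t) • x + t • y)) →
    (∫⁻ x, f x) ^ (1 - t) * (∫⁻ x, g x) ^ t ≤ ∫⁻ x, h x

/-- `BM`: the Brunn-Minkowski inequality for nonempty compact sets -/
def Stmt_BM : Prop :=
  ∀ (d : ℕ), 0 < d → ∀ A B : Set (E d), IsCompact A → IsCompact B → A.Nonempty → B.Nonempty →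
    (volume A).toReal ^ ((1 : ℝ) / d) + (volume B).toReal ^ ((1 : ℝ) / d) ≤
      (volume (A + B)).toReal ^ ((1 : ℝ) / d)

/-- `FR1`: frames exist -/
def Stmt_FR1 : Prop := ∀ (k : ℕ) (n : E (k + 1)), ‖n‖ = 1 → ∃ U : E k →ₗᵢ[ℝ] E (k + 1), Frame n U

/-- `FR2`: coordinates of a frame: measure preserving, and onto -/
def Stmt_FR2 : Prop :=
  ∀ (k : ℕ) (n : E (k + 1)) (U : E k →ₗᵢ[ℝ] E (k + 1)), Frame n U →
    MeasurePreserving (fun p : ℝ × E k => p.1 • n + U p.2) (volume.prod volume) volume ∧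
    ∀ x : E (k + 1), ∃ y : E k, x = inner ℝ n x • n + U y

/-- `CONE`: volume of the outer body with the same normals (cone decomposition) -/
def Stmt_CONE : Prop :=
  ∀ (k : ℕ) (ι : Type) [Fintype ι] (n : ι → E (k + 1)) (b : ι → ℝ)
    (U : ι → (E k →ₗᵢ[ℝ] E (k + 1))), (∀ i, Frame (n i) (U i)) → (∀ i, 0 < b i) →
    Bornology.IsBounded (HP n b) → ∀ κ : ι → ℝ, (∀ i, 0 ≤ κ i) → ∀ t : ℝ, 0 ≤ t →
      (volume (HP n (fun i => b i + t * κ i))).toReal ≤ (volume (HP n b)).toReal +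
        ∑ i, area (HP n b) (n i) (U i) (b i) * b i / (k + 1) *
          ((1 + t * κ i / b i) ^ (k + 1) - 1)

/-- `BDD`: outer bodies are bounded -/
def Stmt_BDD : Prop :=
  ∀ (d : ℕ) (ι : Type) [Finite ι] (n : ι → E d) (b c : ι → ℝ), (∀ i, 0 < b i) →
    Bornology.IsBounded (HP n b) → Bornology.IsBounded (HP n c)

/-- `MINK`: Minkowski's first inequality for polytopes -/
def Stmt_MINK : Prop :=
  ∀ (k : ℕ) (ι : Type) [Fintype ι] (n : ι → E (k + 1)) (b : ι → ℝ)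
    (U : ι → (E k →ₗᵢ[ℝ] E (k + 1))), (∀ i, Frame (n i) (U i)) →
    (∃ x, ∀ i, inner ℝ (n i) x < b i) → Bornology.IsBounded (HP n b) →
    ∀ (K : Set (E (k + 1))) (κ : ι → ℝ), IsCompact K → K.Nonempty → (∀ i, 0 ≤ κ i) →
      K ⊆ HP n κ →
      ((k : ℝ) + 1) * (volume (HP n b)).toReal ^ ((k : ℝ) / (k + 1)) *
        (volume K).toReal ^ ((1 : ℝ) / (k + 1)) ≤
      ∑ i, area (HP n b) (n i) (U i) (b i) * κ i

/-- `VOL`: volume as a sum of cones over the facets -/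
def Stmt_VOL : Prop :=
  ∀ (ι : Type) [Fintype ι] (n : ι → E 3) (b : ι → ℝ) (U : ι → (E 2 →ₗᵢ[ℝ] E 3)),
    (∀ i, Frame (n i) (U i)) → Irr n b → (∀ i, 0 < b i) →
    (volume (HP n b)).toReal = (1 / 3) * ∑ i, area (HP n b) (n i) (U i) (b i) * b i

/-- `CLOSE`: the closing relation `∑ A_i n_i = 0` -/
def Stmt_CLOSE : Prop :=
  ∀ (ι : Type) [Fintype ι] (n : ι → E 3) (b : ι → ℝ) (U : ι → (E 2 →ₗᵢ[ℝ] E 3)),
    (∀ i, Frame (n i) (U i)) → Irr n b →
    ∑ i, area (HP n b) (n i) (U i) (b i) • n i = 0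

/-- `LEN`: one-dimensional sections of convex sets: length is diameter -/
def Stmt_LEN : Prop :=
  ∀ (P : Set (E 2)) (n : E 2) (W : E 1 →ₗᵢ[ℝ] E 2) (b : ℝ), Frame n W → Convex ℝ P →
    IsClosed P → Bornology.IsBounded P →
    area P n W b = Metric.diam {x | x ∈ P ∧ inner ℝ n x = b}

/-- `POS`: facets of an irredundant polytope have interior points, so positive area; and the
area is finite -/
def Stmt_POS : Prop :=
  ∀ (ι : Type) [Fintype ι] (n : ι → E 3) (b : ι → ℝ) (U : ι → (E 2 →ₗᵢ[ℝ] E 3)),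
    (∀ i, Frame (n i) (U i)) → Irr n b → ∀ i, 0 < area (HP n b) (n i) (U i) (b i)

/-- `STAT`: planar Minkowski inequality in every facet. `ν i j` is the outer unit normal, in the
plane of the facet `i`, of the edge between the facets `i` and `j`. -/
def Stmt_STAT : Prop :=
  ∀ (ι : Type) [Fintype ι] [DecidableEq ι] (n : ι → E 3) (b : ι → ℝ)
    (U : ι → (E 2 →ₗᵢ[ℝ] E 3)), (∀ i, Frame (n i) (U i)) → Irr n b →
    ∃ ν : ι → ι → E 2, (∀ i j, 0 < len n b i j → ‖ν i j‖ = 1) ∧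
      ∀ (i : ι) (K : Set (E 2)) (κ : ι → ℝ), IsCompact K → K.Nonempty → (∀ j, 0 ≤ κ j) →
        (∀ y ∈ K, ∀ j, 0 < len n b i j → inner ℝ (ν i j) y ≤ κ j) →
        2 * √(area (HP n b) (n i) (U i) (b i) * (volume K).toReal) ≤ ∑ j, len n b i j * κ j

/-- `ADJ`: a common segment of two facets gives a point where exactly these two are tight -/
def Stmt_ADJ : Prop :=
  ∀ (ι : Type) [Finite ι] [DecidableEq ι] (n : ι → E 3) (b : ι → ℝ), Irr n b →
    ∀ i j, 0 < len n b i j → Adj n b i j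

/-- `ZETA`: the total edge length is at least the sum over all pairs of facets -/
def Stmt_ZETA : Prop :=
  ∀ (ι : Type) [Fintype ι] [DecidableEq ι] (n : ι → E 3) (b : ι → ℝ), Irr n b →
    ENNReal.ofReal (L n b) ≤ Pool.Agent.Work.MP_3892ce_gt.zeta1 (HP n b)

/-- `IRR`: every polytope given by finitely many inequalities has an irredundant description -/
def Stmt_IRR : Prop :=
  ∀ (ι : Type) [Finite ι] (n : ι → E 3) (b : ι → ℝ), Bornology.IsBounded (HP n b) →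
    (interior (HP n b)).Nonempty →
    ∃ (m : ℕ) (n' : Fin m → E 3) (b' : Fin m → ℝ), Irr n' b' ∧ HP n' b' = HP n b

/-- `CAP`: volume of a cap of the unit ball -/
def Stmt_CAP : Prop :=
  ∀ (n : E 3) (k : ℝ), ‖n‖ = 1 → 0 ≤ k → k ≤ 1 →
    volume {x : E 3 | ‖x‖ ≤ 1 ∧ k < inner ℝ n x} ≤
      ENNReal.ofReal (Real.pi * (1 - k) ^ 2 * (2 + k) / 3)

/-- `ISO`: isoperimetric inequality with the areas of the facets -/
def Stmt_ISO : Prop :=
  ∀ (ι : Type) [Fintype ι] (n : ι → E 3) (b : ι → ℝ) (U : ι → (E 2 →ₗᵢ[ℝ] E 3)),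
    (∀ i, Frame (n i) (U i)) → Irr n b →
    ∀ (α : ι → ℝ) (S : ℝ), S = ∑ i, area (HP n b) (n i) (U i) (b i) →
      (∀ i, α i = area (HP n b) (n i) (U i) (b i) / S) →
      36 * Real.pi * (1 - 3 * ∑ i, α i ^ 2 + 2 * ∑ i, α i ^ 3) * (volume (HP n b)).toReal ^ 2 ≤
        (S * (1 - 2 * ∑ i, α i ^ 2)) ^ 3

/-- area of a circular segment: disc of radius `r`, chord at distance `d` -/
noncomputable def seg (r d : ℝ) : ℝ := r ^ 2 * Real.arccos (d / r) - d * √(r ^ 2 - d ^ 2)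

/-- lower bound for the area of a disc of radius `r` cut by `k` chords at distance `d` -/
noncomputable def Wd (r d : ℝ) (k : ℕ) : ℝ := Real.pi * r ^ 2 - k * seg r d

/-- `SEG`: a disc of radius `r` cut by half-planes at distance `d` -/
def Stmt_SEG : Prop :=
  ∀ (ι : Type) (s : Finset ι) (ν : ι → E 2) (r d : ℝ), (∀ j ∈ s, ‖ν j‖ = 1) → 0 ≤ d → d ≤ r →
    0 < r → Wd r d s.card ≤
      (volume {y : E 2 | ‖y‖ ≤ r ∧ ∀ j ∈ s, inner ℝ (ν j) y ≤ d}).toReal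

/-- `RAD5`: no five facets are pairwise adjacent -/
def Stmt_RAD5 : Prop :=
  ∀ (ι : Type) (n : ι → E 3) (b : ι → ℝ), (∃ x, ∀ i, inner ℝ (n i) x < b i) →
    ∀ s : Fin 5 → ι, Function.Injective s → ¬ ∀ i j, i ≠ j → Adj n b (s i) (s j)

/-- `RAD6`: no six facets `0, ..., 5` with all pairs adjacent except perhaps `{0,1}` and `{2,3}` -/
def Stmt_RAD6 : Prop :=
  ∀ (ι : Type) (n : ι → E 3) (b : ι → ℝ), (∃ x, ∀ i, inner ℝ (n i) x < b i) →
    ∀ s : Fin 6 → ι, Function.Injective s →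
      ¬ ∀ i j : Fin 6, i < j → ¬ (i = 0 ∧ j = 1) → ¬ (i = 2 ∧ j = 3) → Adj n b (s i) (s j)

/-- `TWO`: the two-level bound. `M` is the set of main facets, weight `1/2` inside `M` and outside
`M`, weight `w` for a main facet against another one. -/
def Stmt_TWO : Prop :=
  ∀ (ι : Type) [Fintype ι] [DecidableEq ι] (n : ι → E 3) (b : ι → ℝ)
    (U : ι → (E 2 →ₗᵢ[ℝ] E 3)), (∀ i, Frame (n i) (U i)) → Irr n b →
    ∀ (M : Finset ι) (w : ℝ) (r : ι → ℝ), w ≤ 1 →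
      (∀ i ∈ M, 1 / 2 ≤ r i ∧ r i ≤ w) → (∀ i, i ∉ M → 1 - w ≤ r i ∧ 0 < r i ∧ r i ≤ 1 / 2) →
      ∑ i, 2 * √(area (HP n b) (n i) (U i) (b i) *
        Wd (r i) (if i ∈ M then 1 / 2 else 1 - w) (M.filter (fun j => 0 < len n b i j)).card) ≤
      L n b

/-- `EXT`: from polytopes to limits. `c * volume ≤ zeta1 ^ 3` for all polytopes given by finitely
many inequalities passes to limits in the Hausdorff metric -/
def Stmt_EXT : Prop :=
  ∀ (c : ℝ≥0∞), (∀ (m : ℕ) (n : Fin m → E 3) (b : Fin m → ℝ), Bornology.IsBounded (HP n b) →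
      (interior (HP n b)).Nonempty →
      c * volume (HP n b) ≤ Pool.Agent.Work.MP_3892ce_gt.zeta1 (HP n b) ^ 3) →
    ∀ (K : Set (E 3)) (P : ℕ → Set (E 3)), IsCompact K → Convex ℝ K → (interior K).Nonempty →
      (∀ j, ∃ (m : ℕ) (n : Fin m → E 3) (b : Fin m → ℝ), Bornology.IsBounded (HP n b) ∧
        (interior (HP n b)).Nonempty ∧ P j = HP n b) →
      Filter.Tendsto (fun j => Metric.hausdorffDist (P j) K) Filter.atTop (nhds 0) →
      c * volume K ≤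
        (Filter.liminf (fun j => Pool.Agent.Work.MP_3892ce_gt.zeta1 (P j)) Filter.atTop) ^ 3

end Pool.Agent.Work.MP_3892ce_static
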