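import Pool.Agent.Work.MP_3892ce_static.Interface3

/-! # Melzak's problem, static method: statements of the bridges for case B (two non-adjacent
pairs among the five largest facets) -/

set_option autoImplicit false

open MeasureTheory Set

namespace Pool.Agent.Work.MP_3892ce_static

/-- `C d` is a lower bound for the coefficient of a named facet which has `d` named neighbours
(weight `w` against the facets which are not named, `1/2` against the named ones) -/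
def CB (w : ℝ) (C : ℕ → ℝ) : Prop :=
  (∀ d ≤ 5, ∃ r, 1 / 2 ≤ r ∧ r ≤ w ∧ C d ≤ 2 * √(Wd r (1 / 2) d)) ∧
  (∀ d < 5, C (d + 1) ≤ C d) ∧ (∀ d < 4, 2 * C (d + 1) ≤ C d + C (d + 2)) ∧ 0 ≤ C 5

/-- `T k` is a lower bound for the coefficient of a facet which is not named and has `k` named
neighbours -/
def TB (w : ℝ) (T : ℕ → ℝ) : Prop :=
  (∀ k ≤ 6, ∃ ρ, 1 - w ≤ ρ ∧ 0 < ρ ∧ ρ ≤ 1 / 2 ∧ T k ≤ 2 * √(Wd ρ (1 - w) k)) ∧
  (∀ k < 6, T (k + 1) ≤ T k) ∧ 0 ≤ T 6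

/-- six facets in the order of decreasing area -/
def Six {ι : Type} (n : ι → E 3) (b : ι → ℝ) (U : ι → (E 2 →ₗᵢ[ℝ] E 3)) (s : Fin 6 → ι) : Prop :=
  Function.Injective s ∧ ∀ i j : Fin 6, i ≤ j →
    area (HP n b) (n (s j)) (U (s j)) (b (s j)) ≤ area (HP n b) (n (s i)) (U (s i)) (b (s i))

/-- root of the area -/
noncomputable def ra {ι : Type} (n : ι → E 3) (b : ι → ℝ) (U : ι → (E 2 →ₗᵢ[ℝ] E 3)) (i : ι) : ℝ :=
  √(area (HP n b) (n i) (U i) (b i))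

/-- sum of the roots of the areas of the facets which are not in the range of `s` -/
noncomputable def rest {ι : Type} [Fintype ι] [DecidableEq ι] (n : ι → E 3) (b : ι → ℝ)
    (U : ι → (E 2 →ₗᵢ[ℝ] E 3)) (s : Fin 6 → ι) : ℝ :=
  ∑ i with i ∉ Finset.univ.image s, ra n b U i

/-- `BRB0`: the families without and with three named facets -/
def Stmt_BRB0 : Prop :=
  ∀ (ι : Type) [Fintype ι] [DecidableEq ι] (n : ι → E 3) (b : ι → ℝ)
    (U : ι → (E 2 →ₗᵢ[ℝ] E 3)), (∀ i, Frame (n i) (U i)) → Irr n b →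
    ∀ s : Fin 6 → ι, Six n b U s →
    √Real.pi * (ra n b U (s 0) + ra n b U (s 1) + ra n b U (s 2) + ra n b U (s 3) +
      ra n b U (s 4) + ra n b U (s 5) + rest n b U s) ≤ L n b ∧
    ∀ (w : ℝ) (C T : ℕ → ℝ), w ≤ 1 → CB w C → TB w T →
      C 2 * (ra n b U (s 0) + ra n b U (s 1) + ra n b U (s 2)) +
      T 3 * (ra n b U (s 3) + ra n b U (s 4) + ra n b U (s 5) + rest n b U s) ≤ L n b

/-- `BRB1`: the four largest facets are pairwise adjacent, the fifth is adjacent to at most two of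
them -/
def Stmt_BRB1 : Prop :=
  ∀ (ι : Type) [Fintype ι] [DecidableEq ι] (n : ι → E 3) (b : ι → ℝ)
    (U : ι → (E 2 →ₗᵢ[ℝ] E 3)), (∀ i, Frame (n i) (U i)) → Irr n b →
    ∀ s : Fin 6 → ι, Six n b U s →
    (∀ i j : Fin 6, i < j → j < 4 → 0 < len n b (s i) (s j)) →
    (∃ i j : Fin 6, i < j ∧ j < 4 ∧ ¬ 0 < len n b (s i) (s 4) ∧ ¬ 0 < len n b (s j) (s 4)) →
    ∀ (w : ℝ) (C T : ℕ → ℝ), w ≤ 1 → CB w C → TB w T →
      (C 3 * (ra n b U (s 0) + ra n b U (s 1) + ra n b U (s 2) + ra n b U (s 3)) +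
        T 3 * (ra n b U (s 4) + ra n b U (s 5) + rest n b U s) ≤ L n b) ∧
      (C 4 * (ra n b U (s 0) + ra n b U (s 1)) + C 3 * (ra n b U (s 2) + ra n b U (s 3)) +
        C 2 * ra n b U (s 4) + T 4 * (ra n b U (s 5) + rest n b U s) ≤ L n b) ∧
      (C 5 * (ra n b U (s 0) + ra n b U (s 1)) + C 4 * ra n b U (s 2) +
        (2 * C 4 - C 5) * ra n b U (s 3) + C 3 * ra n b U (s 4) + C 4 * ra n b U (s 5) +
        T 5 * rest n b U s ≤ L n b)

/-- `BRB2`: the four largest facets are not pairwise adjacent, and there is a second non-adjacent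
pair among the five largest -/
def Stmt_BRB2 : Prop :=
  ∀ (ι : Type) [Fintype ι] [DecidableEq ι] (n : ι → E 3) (b : ι → ℝ)
    (U : ι → (E 2 →ₗᵢ[ℝ] E 3)), (∀ i, Frame (n i) (U i)) → Irr n b →
    ∀ s : Fin 6 → ι, Six n b U s →
    (∃ i j i' j' : Fin 6, i < j ∧ j < 4 ∧ ¬ 0 < len n b (s i) (s j) ∧ i' < j' ∧ j' < 5 ∧
      ¬ 0 < len n b (s i') (s j') ∧ ¬ (i = i' ∧ j = j')) →
    ∀ (w : ℝ) (C T : ℕ → ℝ), w ≤ 1 → CB w C → TB w T →
      (C 3 * (ra n b U (s 0) + ra n b U (s 1)) + C 2 * (ra n b U (s 2) + ra n b U (s 3)) +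
        T 4 * (ra n b U (s 4) + ra n b U (s 5) + rest n b U s) ≤ L n b) ∧
      (C 4 * (ra n b U (s 0) + ra n b U (s 1)) + C 3 * ra n b U (s 2) +
        (2 * C 3 - C 4) * ra n b U (s 3) + C 3 * ra n b U (s 4) +
        T 5 * (ra n b U (s 5) + rest n b U s) ≤ L n b) ∧
      (C 5 * (ra n b U (s 0) + ra n b U (s 1)) + C 4 * ra n b U (s 2) +
        (2 * C 4 - C 5) * (ra n b U (s 3) + ra n b U (s 4)) + C 4 * ra n b U (s 5) +
        T 6 * rest n b U s ≤ L n b)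

/-- `SIX`: at least six facets and two non-adjacent pairs among the five largest: a numbering for
`BRB1` or `BRB2`, the other facets are not larger -/
def Stmt_SIX : Prop :=
  ∀ (ι : Type) [Fintype ι] [DecidableEq ι] (n : ι → E 3) (b : ι → ℝ)
    (U : ι → (E 2 →ₗᵢ[ℝ] E 3)), Irr n b → 6 ≤ Fintype.card ι →
    ∀ s : Fin 5 → ι, Function.Injective s →
      (∀ k, k ∉ Set.range s → ∀ i, area (HP n b) (n k) (U k) (b k) ≤
        area (HP n b) (n (s i)) (U (s i)) (b (s i))) →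
      (¬ ∃ p : Equiv.Perm (Fin 5), ∀ i j : Fin 5, i ≠ j → ¬ (i = 0 ∧ j = 1) →
        ¬ (i = 1 ∧ j = 0) → Adj n b (s (p i)) (s (p j))) →
      ∃ r : Fin 6 → ι, Six n b U r ∧ (∀ k, k ∉ Finset.univ.image r → ∀ i,
        area (HP n b) (n k) (U k) (b k) ≤ area (HP n b) (n (r i)) (U (r i)) (b (r i))) ∧
      (((∀ i j : Fin 6, i < j → j < 4 → 0 < len n b (r i) (r j)) ∧
        (∃ i j : Fin 6, i < j ∧ j < 4 ∧ ¬ 0 < len n b (r i) (r 4) ∧ ¬ 0 < len n b (r j) (r 4))) ∨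
      (∃ i j i' j' : Fin 6, i < j ∧ j < 4 ∧ ¬ 0 < len n b (r i) (r j) ∧ i' < j' ∧ j' < 5 ∧
        ¬ 0 < len n b (r i') (r j') ∧ ¬ (i = i' ∧ j = j')))

end Pool.Agent.Work.MP_3892ce_static
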