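import Pool.Agent.Work.MP_3892ce_static.Interface

/-! # Melzak's problem, static method: block LEN -/

set_option autoImplicit false

open MeasureTheory Set
open scoped ENNReal Pointwise

namespace Pool.Agent.Work.MP_3892ce_static

namespace LEN

theorem frame_onto {k : ℕ} {n : E (k + 1)} {U : E k →ₗᵢ[ℝ] E (k + 1)} (h : Frame n U)
    (x : E (k + 1)) : ∃ y : E k, x = inner ℝ n x • n + U y := by
  have hn0 : n ≠ 0 := by
    intro h0
    have := h.unit
    rw [h0, norm_zero] at this
    exact zero_ne_one this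
  have hfact : Fact (Module.finrank ℝ (E (k + 1)) = k + 1) := ⟨by simp [E]⟩
  have hle : LinearMap.range U.toLinearMap ≤ (ℝ ∙ n)ᗮ := by
    rintro _ ⟨y, rfl⟩
    rw [Submodule.mem_orthogonal_singleton_iff_inner_right]
    exact h.orth y
  have hfr : Module.finrank ℝ (LinearMap.range U.toLinearMap) = Module.finrank ℝ (ℝ ∙ n)ᗮ := by
    rw [LinearMap.finrank_range_of_inj U.injective,
      Submodule.finrank_orthogonal_span_singleton (n := k) hn0]
    simp [E]
  have heq := Submodule.eq_of_le_of_finrank_eq hle hfr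
  have hmem : x - inner ℝ n x • n ∈ (ℝ ∙ n)ᗮ := by
    rw [Submodule.mem_orthogonal_singleton_iff_inner_right, inner_sub_right, inner_smul_right,
      real_inner_self_eq_norm_sq, h.unit]
    ring
  rw [← heq] at hmem
  obtain ⟨y, hy⟩ := hmem
  refine ⟨y, ?_⟩
  change U y = _ at hy
  rw [hy]
  abel

theorem frame_inner {k : ℕ} {n : E (k + 1)} {U : E k →ₗᵢ[ℝ] E (k + 1)} (h : Frame n U)
    (b : ℝ) (y : E k) : inner ℝ n (b • n + U y) = b := by
  rw [inner_add_right, inner_smul_right, h.orth, real_inner_self_eq_norm_sq, h.unit]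
  ring

theorem isometry_sec {k : ℕ} (n : E (k + 1)) (U : E k →ₗᵢ[ℝ] E (k + 1)) (b : ℝ) :
    Isometry (fun y : E k => b • n + U y) := by
  intro y z
  rw [edist_add_left]
  exact U.isometry y z

theorem bounded_sec {k : ℕ} {P : Set (E (k + 1))} (hP : Bornology.IsBounded P)
    (n : E (k + 1)) (U : E k →ₗᵢ[ℝ] E (k + 1)) (b : ℝ) : Bornology.IsBounded (Sec P n U b) :=
  (isometry_sec n U b).antilipschitz.isBounded_preimage hP

theorem real_case {T : Set ℝ} (hc : IsCompact T) (hcv : Convex ℝ T) :
    (volume T).toReal = Metric.diam T := by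
  rcases T.eq_empty_or_nonempty with h | h
  · subst h
    simp
  · have hconn : IsConnected T := ⟨h, hcv.isPreconnected⟩
    have heq := eq_Icc_of_connected_compact hconn hc
    have hle : sInf T ≤ sSup T := by
      obtain ⟨x, hx⟩ := h
      rw [heq] at hx
      exact hx.1.trans hx.2
    rw [heq, Real.volume_Icc, Real.diam_Icc hle, ENNReal.toReal_ofReal (sub_nonneg.2 hle)]

end LEN

theorem blk_LEN : Stmt_LEN := by
  intro P n W b hF hconv hclosed hbdd
  have hS : IsClosed (Sec P n W b) := hclosed.preimage (LEN.isometry_sec n W b).continuous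
  have hSb := LEN.bounded_sec hbdd n W b
  have hSc : IsCompact (Sec P n W b) := Metric.isCompact_of_isClosed_isBounded hS hSb
  have hScv : Convex ℝ (Sec P n W b) := by
    intro y hy z hz s t hs ht hst
    have h1 : s • (b • n + W y) + t • (b • n + W z) ∈ P := hconv hy hz hs ht hst
    have h2 : b • n + W (s • y + t • z) = s • (b • n + W y) + t • (b • n + W z) := by
      rw [map_add, map_smul, map_smul, smul_add, smul_add, smul_smul s b, smul_smul t b]
      have h3 : b • n = (s * b) • n + (t * b) • n := by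
        rw [← add_smul, ← add_mul, hst, one_mul]
      rw [h3]
      abel
    change b • n + W (s • y + t • z) ∈ P
    rw [h2]
    exact h1
  -- the isometry with the line
  let e : ℝ ≃ₗᵢ[ℝ] E 1 := (OrthonormalBasis.singleton (Fin 1) ℝ).repr
  have hvol : volume (Sec P n W b) = volume (e ⁻¹' (Sec P n W b)) :=
    (e.measurePreserving.measure_preimage hS.measurableSet.nullMeasurableSet).symm
  have hT : IsCompact (e ⁻¹' (Sec P n W b)) := e.toHomeomorph.isCompact_preimage.2 hSc
  have hTc : Convex ℝ (e ⁻¹' (Sec P n W b)) :=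
    hScv.linear_preimage e.toLinearEquiv.toLinearMap
  have hdiam : Metric.diam (e ⁻¹' (Sec P n W b)) = Metric.diam (Sec P n W b) := by
    rw [← e.isometry.diam_image (e ⁻¹' (Sec P n W b)), Set.image_preimage_eq _ e.surjective]
  have himg : (fun y : E 1 => b • n + W y) '' (Sec P n W b) = {x | x ∈ P ∧ inner ℝ n x = b} := by
    ext x
    constructor
    · rintro ⟨y, hy, rfl⟩
      exact ⟨hy, LEN.frame_inner hF b y⟩
    · rintro ⟨hx, hxb⟩
      obtain ⟨y, hy⟩ := LEN.frame_onto hF x
      rw [hxb] at hy
      refine ⟨y, ?_, hy.symm⟩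
      change b • n + W y ∈ P
      rw [← hy]
      exact hx
  unfold area
  rw [hvol, LEN.real_case hT hTc, hdiam, ← himg, (LEN.isometry_sec n W b).diam_image]

end Pool.Agent.Work.MP_3892ce_static
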