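import Pool.Agent.Work.MP_3892ce_static.Interface

/-! # Block MINK: Minkowski's first inequality for polytopes -/

set_option autoImplicit false

open MeasureTheory Set Filter Topology
open scoped ENNReal Pointwise

namespace Pool.Agent.Work.MP_3892ce_static

namespace MINK

/-- the range of the isometry of a frame is the complement of `n` -/
theorem surj {k : ℕ} {n : E (k + 1)} {U : E k →ₗᵢ[ℝ] E (k + 1)} (h : Frame n U) (x : E (k + 1)) :
    ∃ y : E k, x = inner ℝ n x • n + U y := by
  have hn : n ≠ 0 := by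
    intro h0
    have := h.unit
    rw [h0, norm_zero] at this
    exact zero_ne_one this
  have hle : LinearMap.range U.toLinearMap ≤ (Submodule.span ℝ {n})ᗮ := by
    rintro _ ⟨y, rfl⟩
    rw [Submodule.mem_orthogonal_singleton_iff_inner_right]
    exact h.orth y
  have : Fact (Module.finrank ℝ (E (k + 1)) = k + 1) := ⟨by simp⟩
  have hr : Module.finrank ℝ (LinearMap.range U.toLinearMap) = k := by
    rw [LinearMap.finrank_range_of_inj U.injective]
    simp
  have heq : LinearMap.range U.toLinearMap = (Submodule.span ℝ {n})ᗮ := by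
    apply Submodule.eq_of_le_of_finrank_eq hle
    rw [hr, Submodule.finrank_orthogonal_span_singleton (n := k) hn]
  have hx : x - inner ℝ n x • n ∈ (Submodule.span ℝ {n})ᗮ := by
    rw [Submodule.mem_orthogonal_singleton_iff_inner_right, inner_sub_right, inner_smul_right,
      real_inner_self_eq_norm_sq, h.unit]
    ring
  rw [← heq] at hx
  obtain ⟨y, hy⟩ := hx
  refine ⟨y, ?_⟩
  have hy' : U y = x - inner ℝ n x • n := hy
  rw [hy']
  abel

/-- a function with a minimum at the left end point has nonnegative derivative -/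
theorem deriv_nonneg {F : ℝ → ℝ} {c : ℝ} (h : HasDerivAt F c 0) (h0 : F 0 = 0)
    (hF : ∀ t, 0 < t → 0 ≤ F t) : 0 ≤ c := by
  have h1 := h.tendsto_slope_zero_right
  refine ge_of_tendsto h1 ?_
  filter_upwards [self_mem_nhdsWithin] with t ht
  have ht' : 0 < t := ht
  rw [zero_add, h0, sub_zero, smul_eq_mul]
  exact mul_nonneg (inv_nonneg.2 ht'.le) (hF t ht')

theorem isCompact_HP {d : ℕ} {ι : Type} {n : ι → E d} {b : ι → ℝ}
    (hb : Bornology.IsBounded (HP n b)) : IsCompact (HP n b) := by
  refine Metric.isCompact_of_isClosed_isBounded ?_ hb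
  have : HP n b = ⋂ i, {x | inner ℝ (n i) x ≤ b i} := by
    ext x
    simp [HP]
  rw [this]
  refine isClosed_iInter fun i => ?_
  exact isClosed_le (continuous_const.inner continuous_id) continuous_const

theorem vol_smul {d : ℕ} (A : Set (E d)) {r : ℝ} (hr : 0 < r) :
    (volume (r • A)).toReal = r ^ d * (volume A).toReal := by
  rw [Measure.addHaar_smul, finrank_euclideanSpace, Fintype.card_fin, ENNReal.toReal_mul,
    abs_of_pos (pow_pos hr d), ENNReal.toReal_ofReal (pow_pos hr d).le]

/-- the case of positive `b` -/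
theorem pos_case (hBM : Stmt_BM) (hC : Stmt_CONE) (hB : Stmt_BDD) (k : ℕ) (ι : Type) [Fintype ι]
    (n : ι → E (k + 1)) (b : ι → ℝ)
    (U : ι → (E k →ₗᵢ[ℝ] E (k + 1))) (hU : ∀ i, Frame (n i) (U i))
    (hb : ∀ i, 0 < b i) (hP : Bornology.IsBounded (HP n b))
    (K : Set (E (k + 1))) (κ : ι → ℝ) (hK : IsCompact K) (hK' : K.Nonempty) (hκ : ∀ i, 0 ≤ κ i)
    (hKκ : K ⊆ HP n κ) :
      ((k : ℝ) + 1) * (volume (HP n b)).toReal ^ ((k : ℝ) / (k + 1)) *
        (volume K).toReal ^ ((1 : ℝ) / (k + 1)) ≤
      ∑ i, area (HP n b) (n i) (U i) (b i) * κ i := by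
  set V := (volume (HP n b)).toReal with hV
  set W := (volume K).toReal with hW
  set A : ι → ℝ := fun i => area (HP n b) (n i) (U i) (b i) with hA
  have hV0 : 0 ≤ V := ENNReal.toReal_nonneg
  have hW0 : 0 ≤ W := ENNReal.toReal_nonneg
  set v := V ^ ((1 : ℝ) / (k + 1)) with hv
  set w := W ^ ((1 : ℝ) / (k + 1)) with hw
  have hv0 : 0 ≤ v := Real.rpow_nonneg hV0 _
  have hw0 : 0 ≤ w := Real.rpow_nonneg hW0 _
  have hk : (0 : ℝ) < (k : ℝ) + 1 := by positivity
  have hvV : v ^ (k + 1) = V := by
    rw [hv, ← Real.rpow_natCast, ← Real.rpow_mul hV0]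
    push_cast
    rw [one_div, inv_mul_cancel₀ hk.ne', Real.rpow_one]
  have hvk : V ^ ((k : ℝ) / (k + 1)) = v ^ k := by
    rw [hv, ← Real.rpow_natCast, ← Real.rpow_mul hV0]
    congr 1
    field_simp
  rw [hvk]
  have hcomp := isCompact_HP hP
  have hne : (HP n b).Nonempty := ⟨0, fun i => by rw [inner_zero_right]; exact (hb i).le⟩
  -- the main inequality
  have key : ∀ t : ℝ, 0 < t → 0 ≤ V + ∑ i, A i * b i / (k + 1) *
      ((1 + t * κ i / b i) ^ (k + 1) - 1) - (v + t * w) ^ (k + 1) := by
    intro t ht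
    have h1 := hC k ι n b U hU hb hP κ hκ t ht.le
    have h2 := hBM (k + 1) (Nat.succ_pos k) (HP n b) (t • K) hcomp (hK.smul t) hne
      (hK'.smul_set)
    have h3 : HP n b + t • K ⊆ HP n (fun i => b i + t * κ i) := by
      rintro _ ⟨x, hx, _, ⟨y, hy, rfl⟩, rfl⟩ i
      show inner ℝ (n i) (x + t • y) ≤ b i + t * κ i
      rw [inner_add_right, inner_smul_right]
      exact add_le_add (hx i) (mul_le_mul_of_nonneg_left (hKκ hy i) ht.le)
    have hbd : Bornology.IsBounded (HP n (fun i => b i + t * κ i)) :=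
      hB (k + 1) ι n b _ hb hP
    have h4 : (volume (HP n b + t • K)).toReal ≤
        (volume (HP n (fun i => b i + t * κ i))).toReal :=
      ENNReal.toReal_mono (isCompact_HP hbd).measure_lt_top.ne (measure_mono h3)
    have h5 : (v + t * w) ^ (k + 1) ≤ (volume (HP n b + t • K)).toReal := by
      have e1 : (volume (t • K)).toReal ^ ((1 : ℝ) / ((k + 1 : ℕ) : ℝ)) = t * w := by
        rw [vol_smul K ht, Real.mul_rpow (pow_nonneg ht.le _) hW0, ← Real.rpow_natCast,
          ← Real.rpow_mul ht.le, mul_one_div_cancel (by positivity), Real.rpow_one, hw]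
        push_cast
        rfl
      have e2 : (volume (HP n b)).toReal ^ ((1 : ℝ) / ((k + 1 : ℕ) : ℝ)) = v := by
        rw [hv]
        push_cast
        rfl
      rw [e1, e2] at h2
      have h6 := pow_le_pow_left₀ (by positivity) h2 (k + 1)
      refine h6.trans (le_of_eq ?_)
      rw [← Real.rpow_natCast, ← Real.rpow_mul ENNReal.toReal_nonneg, one_div,
        inv_mul_cancel₀ (by positivity), Real.rpow_one]
    linarith
  -- derivative at zero
  have hder : HasDerivAt (fun t : ℝ => V + ∑ i, A i * b i / (k + 1) *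
      ((1 + t * κ i / b i) ^ (k + 1) - 1) - (v + t * w) ^ (k + 1))
      ((∑ i, A i * b i / (k + 1) * (((k + 1 : ℕ) : ℝ) * (1 + 0 * κ i / b i) ^ (k + 1 - 1) *
        (1 * κ i / b i))) - ((k + 1 : ℕ) : ℝ) * (v + 0 * w) ^ (k + 1 - 1) * (1 * w)) 0 := by
    refine HasDerivAt.sub ?_ ?_
    · refine HasDerivAt.const_add _ ?_
      refine HasDerivAt.fun_sum fun i _ => ?_
      refine HasDerivAt.const_mul _ ?_
      refine HasDerivAt.sub_const _ ?_
      refine HasDerivAt.fun_pow ?_ _
      refine HasDerivAt.const_add _ ?_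
      exact ((hasDerivAt_id (0 : ℝ)).mul_const _).div_const _
    · refine HasDerivAt.fun_pow ?_ _
      refine HasDerivAt.const_add _ ?_
      exact (hasDerivAt_id (0 : ℝ)).mul_const _
  have h7 := deriv_nonneg hder (by
    simp only [zero_mul, zero_div, add_zero, one_pow, sub_self, mul_zero, Finset.sum_const_zero]
    rw [hvV, sub_self]) key
  have h8 : (∑ i, A i * b i / (k + 1) * (((k + 1 : ℕ) : ℝ) * (1 + 0 * κ i / b i) ^ (k + 1 - 1) *
        (1 * κ i / b i))) = ∑ i, A i * κ i := by
    refine Finset.sum_congr rfl fun i _ => ?_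
    have := (hb i).ne'
    simp only [zero_mul, zero_div, add_zero, one_pow, one_mul, mul_one]
    push_cast
    field_simp
  rw [h8] at h7
  simp only [zero_mul, add_zero, one_mul, Nat.add_sub_cancel] at h7
  push_cast at h7
  linarith

end MINK

open MINK in
theorem blk_MINK (hBM : Stmt_BM) (hC : Stmt_CONE) (hB : Stmt_BDD) : Stmt_MINK := by
  intro k ι _ n b U hU hx hP K κ hK hK' hκ hKκ
  obtain ⟨x0, hx0⟩ := hx
  set b' : ι → ℝ := fun i => b i - inner ℝ (n i) x0 with hb'
  have hb0 : ∀ i, 0 < b' i := fun i => sub_pos.2 (hx0 i)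
  have hmem : ∀ x : E (k + 1), x ∈ HP n b' ↔ x + x0 ∈ HP n b := by
    intro x
    constructor
    · intro h i
      have := h i
      simp only [hb'] at this
      rw [inner_add_right]
      linarith
    · intro h i
      have := h i
      rw [inner_add_right] at this
      simp only [hb']
      linarith
  have hset : HP n b' = (fun x => x + x0) ⁻¹' HP n b := by
    ext x
    exact hmem x
  have hset' : HP n b' = (fun x => x + (-x0)) '' HP n b := by
    rw [hset]
    ext x
    constructor
    · intro h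
      exact ⟨x + x0, h, by simp⟩
    · rintro ⟨y, hy, rfl⟩
      simpa using hy
  have hP' : Bornology.IsBounded (HP n b') := by
    rw [hset', image_add_right]
    obtain ⟨C, hC⟩ := hP.exists_norm_le
    rw [isBounded_iff_forall_norm_le]
    refine ⟨C + ‖x0‖, ?_⟩
    intro x hx
    have h1 : x + x0 ∈ HP n b := by simpa using hx
    have h2 := hC _ h1
    calc ‖x‖ = ‖(x + x0) - x0‖ := by rw [add_sub_cancel_right]
      _ ≤ ‖x + x0‖ + ‖x0‖ := norm_sub_le _ _
      _ ≤ C + ‖x0‖ := by linarith
  have hvol : volume (HP n b') = volume (HP n b) := by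
    rw [hset, measure_preimage_add_right]
  have harea : ∀ i, area (HP n b') (n i) (U i) (b' i) = area (HP n b) (n i) (U i) (b i) := by
    intro i
    obtain ⟨y0, hy0⟩ := surj (hU i) x0
    have h1 : Sec (HP n b') (n i) (U i) (b' i) =
        (fun y => y + y0) ⁻¹' Sec (HP n b) (n i) (U i) (b i) := by
      ext y
      show b' i • n i + U i y ∈ HP n b' ↔ b i • n i + U i (y + y0) ∈ HP n b
      rw [hmem]
      have : b' i • n i + U i y + x0 = b i • n i + U i (y + y0) := by
        rw [map_add]
        nth_rewrite 1 [hy0]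
        simp only [hb', sub_smul]
        abel
      rw [this]
    unfold area
    rw [h1, measure_preimage_add_right]
  have h := pos_case hBM hC hB k ι n b' U hU hb0 hP' K κ hK hK' hκ hKκ
  rw [hvol] at h
  simp only [harea] at h
  exact h

end Pool.Agent.Work.MP_3892ce_static
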