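import Pool.Agent.Work.MP_3892ce_static.LEN

/-! # Melzak's problem, static method: block POS -/

set_option autoImplicit false

open MeasureTheory Set
open scoped ENNReal Pointwise

namespace Pool.Agent.Work.MP_3892ce_static

theorem blk_POS : Stmt_POS := by
  intro ι _ n b U hF hI i
  obtain ⟨x, hx, hxj⟩ := hI.wit i
  obtain ⟨y0, hy0⟩ := LEN.frame_onto (hF i) x
  rw [hx] at hy0
  have hcont : Continuous (fun y : E 2 => b i • n i + U i y) :=
    (LEN.isometry_sec (n i) (U i) (b i)).continuous
  have hopen : IsOpen {y : E 2 | ∀ j, j ≠ i → inner ℝ (n j) (b i • n i + U i y) < b j} := by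
    have h1 : {y : E 2 | ∀ j, j ≠ i → inner ℝ (n j) (b i • n i + U i y) < b j} =
        ⋂ j : ι, {y : E 2 | j ≠ i → inner ℝ (n j) (b i • n i + U i y) < b j} := by
      ext y
      simp
    rw [h1]
    refine isOpen_iInter_of_finite fun j => ?_
    by_cases hj : j = i
    · have : {y : E 2 | j ≠ i → inner ℝ (n j) (b i • n i + U i y) < b j} = univ := by
        ext y
        simp [hj]
      rw [this]
      exact isOpen_univ
    · have : {y : E 2 | j ≠ i → inner ℝ (n j) (b i • n i + U i y) < b j} =
          {y : E 2 | inner ℝ (n j) (b i • n i + U i y) < b j} := by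
        ext y
        simp [hj]
      rw [this]
      exact isOpen_lt (continuous_const.inner hcont) continuous_const
  have hne : {y : E 2 | ∀ j, j ≠ i → inner ℝ (n j) (b i • n i + U i y) < b j}.Nonempty :=
    ⟨y0, fun j hj => by rw [← hy0]; exact hxj j hj⟩
  have hsub : {y : E 2 | ∀ j, j ≠ i → inner ℝ (n j) (b i • n i + U i y) < b j} ⊆
      Sec (HP n b) (n i) (U i) (b i) := by
    intro y hy j
    by_cases hj : j = i
    · subst hj
      exact (LEN.frame_inner (hF j) (b j) y).le
    · exact (hy j hj).le
  have hpos : 0 < volume (Sec (HP n b) (n i) (U i) (b i)) :=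
    (hopen.measure_pos volume hne).trans_le (measure_mono hsub)
  have hfin : volume (Sec (HP n b) (n i) (U i) (b i)) < ⊤ :=
    (LEN.bounded_sec hI.bdd (n i) (U i) (b i)).measure_lt_top
  exact ENNReal.toReal_pos hpos.ne' hfin.ne

end Pool.Agent.Work.MP_3892ce_static
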