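import Pool.Agent.Work.MP_3892ce_static.Interface

/-! # Block VOL: volume as a sum of cones over the facets -/

set_option autoImplicit false

open MeasureTheory Set
open scoped ENNReal Pointwise

namespace Pool.Agent.Work.MP_3892ce_static

namespace VOL

/-- the cone over the section `⟪n, x⟫ = b` of `P` -/
def Cn {d : ℕ} (P : Set (E d)) (n : E d) (b : ℝ) : Set (E d) :=
  {x | (0 < inner ℝ n x ∧ inner ℝ n x ≤ b) ∧ (b / inner ℝ n x) • x ∈ P}

theorem closed_HP {d : ℕ} {ι : Type} (n : ι → E d) (b : ι → ℝ) : IsClosed (HP n b) := by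
  have : HP n b = ⋂ i, {x | inner ℝ (n i) x ≤ b i} := by
    ext x; simp [HP]
  rw [this]
  refine isClosed_iInter fun i => ?_
  exact isClosed_le (by fun_prop) continuous_const

theorem meas_Cn {d : ℕ} {P : Set (E d)} (hP : IsClosed P) (n : E d) (b : ℝ) :
    MeasurableSet (Cn P n b) := by
  have h0 : Measurable (fun x : E d => inner ℝ n x) := by fun_prop
  have h1 : MeasurableSet {x : E d | 0 < inner ℝ n x ∧ inner ℝ n x ≤ b} :=
    (measurableSet_lt measurable_const h0).inter (measurableSet_le h0 measurable_const)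
  have h2 : Measurable (fun x : E d => (b / inner ℝ n x) • x) :=
    (measurable_const.div h0).smul measurable_id
  exact h1.inter (h2 hP.measurableSet)

/-- volume of a cone -/
theorem vol_Cn (hFR2 : Stmt_FR2) {k : ℕ} {P : Set (E (k + 1))} (hP : IsClosed P)
    {n : E (k + 1)} {U : E k →ₗᵢ[ℝ] E (k + 1)} (hU : Frame n U) {b : ℝ} (hb : 0 < b) :
    volume (Cn P n b) = ENNReal.ofReal (b / (k + 1)) * volume (Sec P n U b) := by
  have hm := meas_Cn hP n b
  have hmp := (hFR2 k n U hU).1
  rw [← hmp.measure_preimage hm.nullMeasurableSet,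
    Measure.prod_apply (hmp.measurable hm)]
  have hslice : ∀ s : ℝ, volume (Prod.mk s ⁻¹'
      ((fun p : ℝ × E k => p.1 • n + U p.2) ⁻¹' (Cn P n b)))
      = (Ioc (0 : ℝ) b).indicator
        (fun s => ENNReal.ofReal ((s / b) ^ k) * volume (Sec P n U b)) s := by
    intro s
    have hin : ∀ y : E k, inner ℝ n (s • n + U y) = s := by
      intro y
      rw [inner_add_right, hU.orth, inner_smul_right, real_inner_self_eq_norm_sq, hU.unit]
      ring
    by_cases hs : s ∈ Ioc (0 : ℝ) b
    · rw [indicator_of_mem hs]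
      have e1 : (Prod.mk s ⁻¹' ((fun p : ℝ × E k => p.1 • n + U p.2) ⁻¹' (Cn P n b)))
          = (fun y : E k => (b / s) • y) ⁻¹' (Sec P n U b) := by
        ext y
        simp only [mem_preimage, Cn, Sec, mem_ofPred_eq, hin]
        have e2 : (b / s) • (s • n + U y) = b • n + U ((b / s) • y) := by
          rw [smul_add, smul_smul, div_mul_cancel₀ _ hs.1.ne', map_smul]
        rw [e2]
        exact ⟨fun h => h.2, fun h => ⟨⟨hs.1, hs.2⟩, h⟩⟩
      rw [e1]
      have hne : b / s ≠ 0 := (div_pos hb hs.1).ne'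
      rw [Measure.addHaar_preimage_smul volume hne, finrank_euclideanSpace, Fintype.card_fin]
      congr 2
      have h3 : 0 < s / b := div_pos hs.1 hb
      rw [abs_of_pos (by have := div_pos hb hs.1; positivity), ← inv_pow, inv_div]
    · rw [indicator_of_notMem hs]
      have e1 : (Prod.mk s ⁻¹' ((fun p : ℝ × E k => p.1 • n + U p.2) ⁻¹' (Cn P n b))) = ∅ := by
        ext y
        simp only [mem_preimage, Cn, mem_ofPred_eq, hin, mem_empty_iff_false, iff_false]
        rintro ⟨h1, _⟩
        exact hs h1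
      rw [e1, measure_empty]
  simp_rw [hslice]
  rw [lintegral_indicator measurableSet_Ioc, lintegral_mul_const _ (by fun_prop)]
  congr 1
  rw [← ofReal_integral_eq_lintegral_ofReal]
  · congr 1
    rw [← intervalIntegral.integral_of_le hb.le]
    have e3 : ∀ s : ℝ, (s / b) ^ k = (1 / b ^ k) * s ^ k := by
      intro s; rw [div_pow]; ring
    simp_rw [e3]
    rw [intervalIntegral.integral_const_mul, integral_pow]
    have hbk : b ^ k ≠ 0 := (pow_pos hb k).ne'
    have hk : (k : ℝ) + 1 ≠ 0 := by positivity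
    field_simp
    simp
    exact pow_succ b k
  · exact (Continuous.integrableOn_Icc (by fun_prop)).mono_set Ioc_subset_Icc_self
  · refine (ae_restrict_iff' measurableSet_Ioc).2 (Filter.Eventually.of_forall fun s hs => ?_)
    have := hs.1
    have : 0 < s / b := div_pos hs.1 hb
    exact (pow_pos this k).le

/-- a point where all inner products are nonpositive is zero -/
theorem pos_max {d : ℕ} {ι : Type} (n : ι → E d) (b : ι → ℝ) (hb : ∀ i, 0 < b i)
    (hB : Bornology.IsBounded (HP n b)) {x : E d} (hx : x ≠ 0) : ∃ i, 0 < inner ℝ (n i) x := by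
  by_contra hcon
  push Not at hcon
  obtain ⟨R, hR⟩ := hB.exists_norm_le
  have hxn : 0 < ‖x‖ := norm_pos_iff.2 hx
  have h1 : ((|R| + 1) / ‖x‖) • x ∈ HP n b := by
    intro i
    rw [inner_smul_right]
    have h2 : 0 ≤ (|R| + 1) / ‖x‖ := by positivity
    exact le_trans (mul_nonpos_of_nonneg_of_nonpos h2 (hcon i)) (hb i).le
  have h4 := hR _ h1
  rw [norm_smul, Real.norm_eq_abs, abs_of_nonneg (by positivity), div_mul_cancel₀ _ hxn.ne'] at h4
  have := le_abs_self R
  linarith

/-- the part of the cone is in the polytope -/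
theorem Cn_sub {d : ℕ} {ι : Type} {n : ι → E d} {b : ι → ℝ} (hb : ∀ i, 0 < b i) (i : ι) :
    Cn (HP n b) (n i) (b i) ⊆ HP n b := by
  rintro x ⟨⟨h1, h2⟩, h3⟩ j
  have h4 := h3 j
  rw [inner_smul_right] at h4
  have h5 : b i / inner ℝ (n i) x ≥ 1 := by
    rw [ge_iff_le, le_div_iff₀ h1]; linarith
  by_contra hcon
  push Not at hcon
  have h6 : 0 < inner ℝ (n j) x := (hb j).trans hcon
  have h7 : inner ℝ (n j) x ≤ b i / inner ℝ (n i) x * inner ℝ (n j) x :=
    le_mul_of_one_le_left h6.le h5
  linarith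

/-- the cones cover the polytope -/
theorem cover {d : ℕ} {ι : Type} [Finite ι] {n : ι → E d} {b : ι → ℝ} (hb : ∀ i, 0 < b i)
    (hB : Bornology.IsBounded (HP n b)) :
    HP n b ⊆ (⋃ i, Cn (HP n b) (n i) (b i)) ∪ {0} := by
  intro x hx
  by_cases hx0 : x = 0
  · exact Or.inr hx0
  · left
    obtain ⟨i0, hi0⟩ := pos_max n b hb hB hx0
    have : Nonempty ι := ⟨i0⟩
    obtain ⟨i, hi⟩ := Finite.exists_max (fun i => inner ℝ (n i) x / b i)
    have hpos : 0 < inner ℝ (n i) x / b i := (div_pos hi0 (hb i0)).trans_le (hi i0)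
    have hpos' : 0 < inner ℝ (n i) x := by
      have := mul_pos hpos (hb i)
      rwa [div_mul_cancel₀ _ (hb i).ne'] at this
    refine mem_iUnion.2 ⟨i, ⟨hpos', hx i⟩, ?_⟩
    intro j
    rw [inner_smul_right]
    have h1 := hi j
    rw [div_le_div_iff₀ (hb j) (hb i)] at h1
    rw [div_mul_eq_mul_div, div_le_iff₀ hpos']
    linarith

/-- different cones meet in a null set -/
theorem null {d : ℕ} {ι : Type} {n : ι → E d} {b : ι → ℝ} (hI : Irr n b) (hb : ∀ i, 0 < b i)
    {i j : ι} (hij : i ≠ j) :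
    volume (Cn (HP n b) (n i) (b i) ∩ Cn (HP n b) (n j) (b j)) = 0 := by
  set v : E d := b i • n j - b j • n i with hv
  have hv0 : v ≠ 0 := by
    intro h
    have h1 : b i • n j = b j • n i := sub_eq_zero.1 h
    have h2 : ‖b i • n j‖ = ‖b j • n i‖ := by rw [h1]
    rw [norm_smul, norm_smul, hI.unit, hI.unit, Real.norm_eq_abs, Real.norm_eq_abs,
      abs_of_pos (hb i), abs_of_pos (hb j), mul_one, mul_one] at h2
    rw [h2] at h1
    have h3 : n j = n i := smul_right_injective _ (hb j).ne' h1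
    obtain ⟨x, hx1, hx2⟩ := hI.wit i
    have h4 := hx2 j hij.symm
    rw [h3, hx1, h2] at h4
    exact lt_irrefl _ h4
  set K : Submodule ℝ (E d) := LinearMap.ker ((innerSL ℝ v).toLinearMap) with hK
  have hKtop : K ≠ ⊤ := by
    intro h
    have h1 : v ∈ K := by rw [h]; trivial
    rw [hK, LinearMap.mem_ker] at h1
    have h2 : inner ℝ v v = 0 := h1
    exact hv0 (inner_self_eq_zero.1 h2)
  refine measure_mono_null ?_ (Measure.addHaar_submodule volume K hKtop)
  rintro x ⟨⟨⟨h1, _⟩, h2⟩, ⟨⟨h3, _⟩, h4⟩⟩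
  have h5 := h2 j
  have h6 := h4 i
  rw [inner_smul_right, div_mul_eq_mul_div, div_le_iff₀ h1] at h5
  rw [inner_smul_right, div_mul_eq_mul_div, div_le_iff₀ h3] at h6
  have h7 : inner ℝ v x = 0 := by
    rw [hv, inner_sub_left, real_inner_smul_left, real_inner_smul_left]
    linarith
  exact h7

end VOL

open VOL in
theorem blk_VOL (hFR2 : Stmt_FR2) : Stmt_VOL := by
  classical
  intro ι _ n b U hU hI hb
  have hd : Pairwise (Function.onFun (AEDisjoint (volume : Measure (E 3)))
      (fun i => Cn (HP n b) (n i) (b i))) := fun i j hij => null hI hb hij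
  have hm : ∀ i, NullMeasurableSet (Cn (HP n b) (n i) (b i)) volume :=
    fun i => (meas_Cn (closed_HP n b) (n i) (b i)).nullMeasurableSet
  have h1 : volume (HP n b) = ∑ i, volume (Cn (HP n b) (n i) (b i)) := by
    have h2 : volume (⋃ i, Cn (HP n b) (n i) (b i)) = ∑ i, volume (Cn (HP n b) (n i) (b i)) := by
      rw [measure_iUnion₀ hd hm, tsum_fintype]
    rw [← h2]
    refine le_antisymm ?_ (measure_mono (iUnion_subset fun i => Cn_sub hb i))
    calc volume (HP n b) ≤ volume ((⋃ i, Cn (HP n b) (n i) (b i)) ∪ {0}) :=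
          measure_mono (cover hb hI.bdd)
      _ ≤ volume (⋃ i, Cn (HP n b) (n i) (b i)) + volume ({0} : Set (E 3)) :=
          measure_union_le _ _
      _ = volume (⋃ i, Cn (HP n b) (n i) (b i)) := by rw [measure_singleton, add_zero]
  have hfin : volume (HP n b) ≠ ∞ := hI.bdd.measure_lt_top.ne
  have hfin' : ∀ i, volume (Cn (HP n b) (n i) (b i)) ≠ ∞ :=
    fun i => ne_top_of_le_ne_top hfin (measure_mono (Cn_sub hb i))
  rw [h1, ENNReal.toReal_sum (fun i _ => hfin' i), Finset.mul_sum]
  refine Finset.sum_congr rfl fun i _ => ?_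
  rw [vol_Cn hFR2 (closed_HP n b) (hU i) (hb i), ENNReal.toReal_mul,
    ENNReal.toReal_ofReal (by have := hb i; positivity)]
  unfold area
  push_cast
  ring

end Pool.Agent.Work.MP_3892ce_static
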