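import Pool.Agent.Work.MP_3892ce_static.Interface2
import Pool.Agent.Work.MP_3892ce_static.STAT
import Pool.Agent.Work.MP_3892ce_static.VOL
import Pool.Agent.Work.MP_3892ce_static.CLOSE
import Pool.Agent.Work.MP_3892ce_static.LEN

/-! # Melzak's problem, static method: block STATN (planar closing relation, signed weights) -/

set_option autoImplicit false

open MeasureTheory Set
open scoped ENNReal Pointwise

namespace Pool.Agent.Work.MP_3892ce_static

namespace STATN

open VOL CLOSE

/-- different cones meet in a null set -/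
theorem null' (hFR2 : Stmt_FR2) {k : ℕ} {ι : Type} {n : ι → E (k + 1)} {b : ι → ℝ}
    {U : ι → (E k →ₗᵢ[ℝ] E (k + 1))} (hU : ∀ i, Frame (n i) (U i))
    (hB : Bornology.IsBounded (HP n b)) (hb : ∀ i, 0 < b i)
    (hd : ∀ i j, i ≠ j → n i = n j → b i = b j → area (HP n b) (n i) (U i) (b i) = 0)
    {i j : ι} (hij : i ≠ j) :
    volume (Cn (HP n b) (n i) (b i) ∩ Cn (HP n b) (n j) (b j)) = 0 := by
  by_cases hc : n i = n j ∧ b i = b j
  · have h1 := hd i j hij hc.1 hc.2
    have h2 : volume (Sec (HP n b) (n i) (U i) (b i)) = 0 := by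
      unfold area at h1
      rcases (ENNReal.toReal_eq_zero_iff _).1 h1 with h | h
      · exact h
      · exact absurd h (LEN.bounded_sec hB (n i) (U i) (b i)).measure_lt_top.ne
    refine measure_mono_null inter_subset_left ?_
    rw [vol_Cn hFR2 (closed_HP n b) (hU i) (hb i), h2, mul_zero]
  set v : E (k + 1) := b i • n j - b j • n i with hv
  have hv0 : v ≠ 0 := by
    intro h
    have h1 : b i • n j = b j • n i := sub_eq_zero.1 h
    have h2 : ‖b i • n j‖ = ‖b j • n i‖ := by rw [h1]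
    rw [norm_smul, norm_smul, (hU i).unit, (hU j).unit, Real.norm_eq_abs, Real.norm_eq_abs,
      abs_of_pos (hb i), abs_of_pos (hb j), mul_one, mul_one] at h2
    rw [h2] at h1
    have h3 : n j = n i := smul_right_injective _ (hb j).ne' h1
    exact hc ⟨h3.symm, h2⟩
  set K : Submodule ℝ (E (k + 1)) := LinearMap.ker ((innerSL ℝ v).toLinearMap) with hK
  have hKtop : K ≠ ⊤ := by
    intro h
    have h1 : v ∈ K := by rw [h]; trivial
    rw [hK, LinearMap.mem_ker] at h1
    have h2 : inner ℝ v v = 0 := h1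
    exact hv0 (inner_self_eq_zero.1 h2)
  refine measure_mono_null ?_ (Measure.addHaar_submodule volume K hKtop)
  rintro x ⟨⟨⟨h1, _⟩, h2⟩, ⟨⟨h3, _⟩, h4⟩⟩
  have h5 := h2 j
  have h6 := h4 i
  rw [inner_smul_right, div_mul_eq_mul_div, div_le_iff₀ h1] at h5
  rw [inner_smul_right, div_mul_eq_mul_div, div_le_iff₀ h3] at h6
  have h7 : inner ℝ v x = 0 := by
    rw [hv, inner_sub_left, real_inner_smul_left, real_inner_smul_left]
    linarith
  exact h7

theorem vol' (hFR2 : Stmt_FR2) {k : ℕ} {ι : Type} [Fintype ι] {n : ι → E (k + 1)} {b : ι → ℝ}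
    {U : ι → (E k →ₗᵢ[ℝ] E (k + 1))} (hU : ∀ i, Frame (n i) (U i))
    (hB : Bornology.IsBounded (HP n b)) (hb : ∀ i, 0 < b i)
    (hd : ∀ i j, i ≠ j → n i = n j → b i = b j → area (HP n b) (n i) (U i) (b i) = 0) :
    (volume (HP n b)).toReal = (1 / ((k : ℝ) + 1)) * ∑ i, area (HP n b) (n i) (U i) (b i) * b i := by
  classical
  have hd' : Pairwise (Function.onFun (AEDisjoint (volume : Measure (E (k + 1))))
      (fun i => Cn (HP n b) (n i) (b i))) := fun i j hij => null' hFR2 hU hB hb hd hij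
  have hm : ∀ i, NullMeasurableSet (Cn (HP n b) (n i) (b i)) volume :=
    fun i => (meas_Cn (closed_HP n b) (n i) (b i)).nullMeasurableSet
  have h1 : volume (HP n b) = ∑ i, volume (Cn (HP n b) (n i) (b i)) := by
    have h2 : volume (⋃ i, Cn (HP n b) (n i) (b i)) = ∑ i, volume (Cn (HP n b) (n i) (b i)) := by
      rw [measure_iUnion₀ hd' hm, tsum_fintype]
    rw [← h2]
    refine le_antisymm ?_ (measure_mono (iUnion_subset fun i => Cn_sub hb i))
    calc volume (HP n b) ≤ volume ((⋃ i, Cn (HP n b) (n i) (b i)) ∪ {0}) :=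
          measure_mono (cover hb hB)
      _ ≤ volume (⋃ i, Cn (HP n b) (n i) (b i)) + volume ({0} : Set (E (k + 1))) :=
          measure_union_le _ _
      _ = volume (⋃ i, Cn (HP n b) (n i) (b i)) := by rw [measure_singleton, add_zero]
  have hfin : volume (HP n b) ≠ ∞ := hB.measure_lt_top.ne
  have hfin' : ∀ i, volume (Cn (HP n b) (n i) (b i)) ≠ ∞ :=
    fun i => ne_top_of_le_ne_top hfin (measure_mono (Cn_sub hb i))
  rw [h1, ENNReal.toReal_sum (fun i _ => hfin' i), Finset.mul_sum]
  refine Finset.sum_congr rfl fun i _ => ?_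
  rw [vol_Cn hFR2 (closed_HP n b) (hU i) (hb i), ENNReal.toReal_mul,
    ENNReal.toReal_ofReal (by have := hb i; positivity)]
  unfold area
  ring

/-- translated bounded -/
theorem bdd_trans {d : ℕ} {ι : Type} {n : ι → E d} {b : ι → ℝ} (hB : Bornology.IsBounded (HP n b))
    (v : E d) : Bornology.IsBounded (HP n (fun i => b i - inner ℝ (n i) v)) := by
  rw [HP_trans]
  have e : (fun x => x + v) ⁻¹' (HP n b) = (fun x => x - v) '' (HP n b) := by
    ext x
    constructor
    · intro h
      exact ⟨x + v, h, by simp⟩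
    · rintro ⟨y, hy, rfl⟩
      simpa using hy
  rw [e]
  have h1 : LipschitzWith 1 (fun x : E d => x - v) := by
    refine LipschitzWith.of_dist_le_mul fun x y => ?_
    rw [dist_sub_right]
    simp
  exact h1.isBounded_image hB

theorem close' (hFR2 : Stmt_FR2) {k : ℕ} {ι : Type} [Fintype ι] {n : ι → E (k + 1)} {b : ι → ℝ}
    {U : ι → (E k →ₗᵢ[ℝ] E (k + 1))} (hU : ∀ i, Frame (n i) (U i))
    (hB : Bornology.IsBounded (HP n b)) (hint : ∃ x, ∀ i, inner ℝ (n i) x < b i)
    (hd : ∀ i j, i ≠ j → n i = n j → b i = b j → area (HP n b) (n i) (U i) (b i) = 0) :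
    ∑ i, area (HP n b) (n i) (U i) (b i) • n i = 0 := by
  have key : ∀ v : E (k + 1), (∀ i, inner ℝ (n i) v < b i) →
      (volume (HP n b)).toReal = (1 / ((k : ℝ) + 1)) * ∑ i, area (HP n b) (n i) (U i) (b i) * b i
        - (1 / ((k : ℝ) + 1)) * inner ℝ (∑ i, area (HP n b) (n i) (U i) (b i) • n i) v := by
    intro v hv
    have h1 := vol' hFR2 (n := n) (b := fun i => b i - inner ℝ (n i) v) hU (bdd_trans hB v)
      (fun i => by have := hv i; linarith) (by
        intro i j hij h1 h2
        rw [area_trans n b v (hU i)]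
        refine hd i j hij h1 ?_
        rw [h1] at h2
        linarith)
    rw [HP_trans, measure_preimage_add_right] at h1
    rw [h1, sum_inner]
    rw [← mul_sub, ← Finset.sum_sub_distrib]
    congr 1
    refine Finset.sum_congr rfl fun i _ => ?_
    rw [← HP_trans, area_trans n b v (hU i), real_inner_smul_left]
    ring
  obtain ⟨v0, hv0⟩ := hint
  set S := ∑ i, area (HP n b) (n i) (U i) (b i) • n i with hS
  have hopen : IsOpen {x : E (k + 1) | ∀ i, inner ℝ (n i) x < b i} := by
    have : {x : E (k + 1) | ∀ i, inner ℝ (n i) x < b i} = ⋂ i, {x | inner ℝ (n i) x < b i} := by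
      ext x; simp
    rw [this]
    exact isOpen_iInter_of_finite fun i => isOpen_lt (by fun_prop) continuous_const
  have hcont : Continuous (fun t : ℝ => v0 + t • S) := by fun_prop
  have h1 : {t : ℝ | v0 + t • S ∈ {x : E (k + 1) | ∀ i, inner ℝ (n i) x < b i}} ∈ nhds (0 : ℝ) := by
    refine hcont.continuousAt.preimage_mem_nhds (hopen.mem_nhds ?_)
    simpa using hv0
  obtain ⟨ε, hε, hball⟩ := Metric.mem_nhds_iff.1 h1
  have h2 : ∀ i, inner ℝ (n i) (v0 + (ε / 2) • S) < b i := by
    have : (ε / 2) ∈ Metric.ball (0 : ℝ) ε := by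
      rw [Metric.mem_ball, dist_zero_right, Real.norm_eq_abs, abs_of_pos (by positivity)]
      linarith
    exact hball this
  have h3 := key v0 hv0
  have h4 := key _ h2
  rw [inner_add_right, inner_smul_right] at h4
  have hk : (0 : ℝ) < 1 / ((k : ℝ) + 1) := by positivity
  have h5 : (1 / ((k : ℝ) + 1)) * (ε / 2 * inner ℝ S S) = 0 := by linarith
  have h6 : inner ℝ S S = 0 := by
    rcases mul_eq_zero.1 h5 with h | h
    · linarith
    · rcases mul_eq_zero.1 h with h | h
      · linarith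
      · exact h
  exact inner_self_eq_zero.1 h6

open STAT in
/-- the facet `i` as a planar polygon -/
theorem facet (hLEN : Stmt_LEN) (hFR1 : Stmt_FR1) {ι : Type} [DecidableEq ι] {n : ι → E 3}
    {b : ι → ℝ} {U : ι → (E 2 →ₗᵢ[ℝ] E 3)} (hF : ∀ i, Frame (n i) (U i)) (hI : Irr n b) (i : ι) :
    (∀ j, 0 < len n b i j → j ≠ i ∧ pr (U i) (n j) ≠ 0) ∧
    ∃ (β : {j : ι // j ≠ i ∧ pr (U i) (n j) ≠ 0} → ℝ)
      (W : {j : ι // j ≠ i ∧ pr (U i) (n j) ≠ 0} → (E 1 →ₗᵢ[ℝ] E 2)),
      (∀ j, Frame (nu n U i j.1) (W j)) ∧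
      Sec (HP n b) (n i) (U i) (b i) =
        HP (fun j : {j : ι // j ≠ i ∧ pr (U i) (n j) ≠ 0} => nu n U i j.1) β ∧
      Bornology.IsBounded
        (HP (fun j : {j : ι // j ≠ i ∧ pr (U i) (n j) ≠ 0} => nu n U i j.1) β) ∧
      (∃ x, ∀ j : {j : ι // j ≠ i ∧ pr (U i) (n j) ≠ 0}, inner ℝ (nu n U i j.1) x < β j) ∧
      (∀ j, area (HP (fun j : {j : ι // j ≠ i ∧ pr (U i) (n j) ≠ 0} => nu n U i j.1) β)
        (nu n U i j.1) (W j) (β j) = len n b i j.1) ∧
      (∀ (j : {j : ι // j ≠ i ∧ pr (U i) (n j) ≠ 0}) (y : E 2),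
        inner ℝ (n j.1) (b i • n i + U i y) = b j.1 ↔ inner ℝ (nu n U i j.1) y = β j) := by
  classical
  set w : ι → ι → E 2 := fun i j => pr (U i) (n j) with hw
  have hwit : ∀ i, ∃ y : E 2, ∀ j, j ≠ i → b i * inner ℝ (n j) (n i) + inner ℝ (w i j) y < b j := by
    intro i
    obtain ⟨x, hx, hxj⟩ := hI.wit i
    obtain ⟨y, hy⟩ := STAT.onto (hF i) x
    refine ⟨y, fun j hj => ?_⟩
    have h1 := hxj j hj
    rw [hy, hx, inner_pt] at h1
    exact h1
  have hsub : ∀ i j, Face n b i ∩ Face n b j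
      = (fun y => b i • n i + U i y) '' {y | (b i • n i + U i y) ∈ HP n b ∧
        inner ℝ (n j) (b i • n i + U i y) = b j} := by
    intro i j
    ext x
    constructor
    · rintro ⟨⟨h1, h2⟩, h3, h4⟩
      obtain ⟨y, hy⟩ := STAT.onto (hF i) x
      rw [h2] at hy
      refine ⟨y, ?_, hy.symm⟩
      rw [mem_ofPred_eq, ← hy]
      exact ⟨h1, h4⟩
    · rintro ⟨y, hy, rfl⟩
      rw [mem_ofPred_eq] at hy
      exact ⟨⟨hy.1, inner_self_pt (hF i) _ _⟩, hy.1, hy.2⟩
  have hiso : ∀ i, Isometry (fun y => b i • n i + U i y) := by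
    intro i
    exact (IsometryEquiv.addLeft (b i • n i)).isometry.comp (U i).isometry
  have hne : ∀ i j, 0 < len n b i j → j ≠ i ∧ w i j ≠ 0 := by
    intro i j h
    have hji : j ≠ i := by
      rintro rfl
      rw [len, if_pos rfl] at h
      exact lt_irrefl _ h
    refine ⟨hji, fun hz => ?_⟩
    rw [len, if_neg (fun h' => hji h'.symm), hsub i j, (hiso i).diam_image] at h
    have hemp : {y : E 2 | (b i • n i + U i y) ∈ HP n b ∧
        inner ℝ (n j) (b i • n i + U i y) = b j} = ∅ := by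
      rw [Set.eq_empty_iff_forall_notMem]
      intro y hy
      rw [mem_ofPred_eq] at hy
      obtain ⟨y0, hy0⟩ := hwit i
      have h1 := hy0 j hji
      have h2 := hy.2
      rw [inner_pt] at h2
      change _ + inner ℝ (w i j) y = _ at h2
      rw [hz, inner_zero_left] at h1 h2
      linarith
    rw [hemp, Metric.diam_empty] at h
    exact lt_irrefl _ h
  refine ⟨hne i, ?_⟩
  set J : Type := {j : ι // j ≠ i ∧ pr (U i) (n j) ≠ 0} with hJ
  set ν : J → E 2 := fun j => nu n U i j.1 with hν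
  set β : J → ℝ := fun j => (‖w i j.1‖)⁻¹ * (b j.1 - b i * inner ℝ (n j.1) (n i)) with hβ
  have hpos : ∀ j : J, 0 < (‖w i j.1‖)⁻¹ := fun j => inv_pos.2 (norm_pos_iff.2 j.2.2)
  have hνe : ∀ j : J, ν j = (‖w i j.1‖)⁻¹ • w i j.1 := fun j => rfl
  have hνu : ∀ j : J, ‖ν j‖ = 1 := by
    intro j
    rw [hνe, norm_smul, norm_inv, norm_norm, inv_mul_cancel₀ (norm_ne_zero_iff.2 j.2.2)]
  have hin : ∀ (j : J) (y : E 2), inner ℝ (ν j) y = (‖w i j.1‖)⁻¹ * inner ℝ (w i j.1) y := by
    intro j y
    rw [hνe, real_inner_smul_left]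
  have hPhi : Sec (HP n b) (n i) (U i) (b i) = HP ν β := by
    ext y
    change (∀ j, inner ℝ (n j) (b i • n i + U i y) ≤ b j) ↔ ∀ j : J, inner ℝ (ν j) y ≤ β j
    constructor
    · intro h j
      rw [hin, hβ]
      have h1 := h j.1
      rw [inner_pt] at h1
      exact mul_le_mul_of_nonneg_left (by linarith) (hpos j).le
    · intro h j
      by_cases hji : j = i
      · rw [hji, inner_self_pt (hF i)]
      · by_cases hz : w i j = 0
        · obtain ⟨y0, hy0⟩ := hwit i
          have h1 := hy0 j hji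
          rw [inner_pt]
          change _ + inner ℝ (w i j) y ≤ _
          rw [hz, inner_zero_left] at h1 ⊢
          exact h1.le
        · have h1 := h ⟨j, hji, hz⟩
          rw [hin, hβ] at h1
          have h2 := le_of_mul_le_mul_left h1 (hpos ⟨j, hji, hz⟩)
          rw [inner_pt]
          change _ + inner ℝ (w i j) y ≤ _
          simp only at h2
          linarith
  have hbdd : Bornology.IsBounded (HP ν β) := by
    rw [← hPhi]
    exact (hiso i).antilipschitz.isBounded_preimage hI.bdd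
  have hstr : ∃ x, ∀ j : J, inner ℝ (ν j) x < β j := by
    obtain ⟨y0, hy0⟩ := hwit i
    refine ⟨y0, fun j => ?_⟩
    rw [hin, hβ]
    have h1 := hy0 j.1 j.2.1
    exact mul_lt_mul_of_pos_left (by linarith) (hpos j)
  choose W hW using fun j : J => hFR1 1 (ν j) (hνu j)
  have hclosed : IsClosed (HP ν β) := closed_HP ν β
  have hconv : Convex ℝ (HP ν β) := by
    intro x hx y hy s t hs ht hst j
    rw [inner_add_right, inner_smul_right, inner_smul_right]
    have h1 := hx j
    have h2 := hy j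
    calc s * inner ℝ (ν j) x + t * inner ℝ (ν j) y ≤ s * β j + t * β j :=
          add_le_add (mul_le_mul_of_nonneg_left h1 hs) (mul_le_mul_of_nonneg_left h2 ht)
      _ = β j := by rw [← add_mul, hst, one_mul]
  have hiff : ∀ (j : J) (y : E 2), inner ℝ (n j.1) (b i • n i + U i y) = b j.1 ↔
      inner ℝ (ν j) y = β j := by
    intro j y
    rw [hin, inner_pt]
    change b i * inner ℝ (n j.1) (n i) + inner ℝ (w i j.1) y = b j.1 ↔
      (‖w i j.1‖)⁻¹ * inner ℝ (w i j.1) y = (‖w i j.1‖)⁻¹ * _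
    rw [mul_right_inj' (hpos j).ne']
    constructor <;> intro h <;> linarith
  have harea : ∀ j : J, area (HP ν β) (ν j) (W j) (β j) = len n b i j.1 := by
    intro j
    rw [hLEN _ _ _ _ (hW j) hconv hclosed hbdd, len, if_neg (fun h' => j.2.1 h'.symm), hsub i j.1,
      (hiso i).diam_image]
    congr 1
    ext y
    rw [mem_ofPred_eq, mem_ofPred_eq, ← hPhi, ← hiff]
    rfl
  exact ⟨β, W, hW, hPhi, hbdd, hstr, harea, hiff⟩

end STATN

open STATN in
theorem blk_STATN (hMINK : Stmt_MINK) (hLEN : Stmt_LEN) (hFR1 : Stmt_FR1) (hFR2 : Stmt_FR2)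
    (hADJ : Stmt_ADJ) : Stmt_STATN := by
  classical
  intro ι _ _ n b U hF hI
  have hlen0 : ∀ i j, 0 ≤ len n b i j := by
    intro i j
    unfold len
    split_ifs
    · exact le_rfl
    · exact Metric.diam_nonneg
  have hsym : ∀ i j, len n b i j = len n b j i := by
    intro i j
    unfold len
    by_cases h : i = j
    · rw [if_pos h, if_pos h.symm]
    · rw [if_neg h, if_neg (fun h' => h h'.symm), inter_comm]
  have hsumJ : ∀ (i : ι) (f : ι → ℝ), (∀ j, ¬ 0 < len n b i j → f j = 0) →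
      (∀ j, 0 < len n b i j → j ≠ i ∧ STAT.pr (U i) (n j) ≠ 0) →
      ∑ j : {j : ι // j ≠ i ∧ STAT.pr (U i) (n j) ≠ 0}, f j.1 = ∑ j, f j := by
    intro i f h1 h2
    have h3 : ∑ j : {j : ι // j ≠ i ∧ STAT.pr (U i) (n j) ≠ 0}, f j.1
        = ∑ j ∈ Finset.univ.map
          (Function.Embedding.subtype fun j => j ≠ i ∧ STAT.pr (U i) (n j) ≠ 0), f j := by
      rw [Finset.sum_map]
      rfl
    rw [h3]
    refine Finset.sum_subset (Finset.subset_univ _) ?_
    intro j _ hj
    refine h1 j (fun h => hj ?_)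
    rw [Finset.mem_map]
    exact ⟨⟨j, h2 j h⟩, Finset.mem_univ _, rfl⟩
  have hclose : ∀ i, ∑ j, len n b i j • nu n U i j = 0 := by
    intro i
    obtain ⟨hne, β, W, hW, hPhi, hbdd, hstr, harea, hiff⟩ := facet hLEN hFR1 hF hI i
    have h1 := close' hFR2 hW hbdd hstr (by
      intro j k hjk h1 h2
      rw [harea]
      by_contra hcon
      have h3 : 0 < len n b i j.1 := lt_of_le_of_ne (hlen0 _ _) (Ne.symm hcon)
      obtain ⟨-, x, hx1, hx2, hx3⟩ := hADJ ι n b hI i j.1 h3
      obtain ⟨y, hy⟩ := STAT.onto (hF i) x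
      rw [hx1] at hy
      have h4 : inner ℝ (nu n U i j.1) y = β j := (hiff j y).1 (by rw [← hy]; exact hx2)
      rw [h1, h2] at h4
      have h5 := (hiff k y).2 h4
      rw [← hy] at h5
      have h6 := hx3 k.1 k.2.1 (fun h => hjk (Subtype.ext h.symm))
      linarith)
    rw [Finset.sum_congr rfl fun j _ => by rw [harea]] at h1
    have h2 : ∀ z : E 2, inner ℝ (∑ j, len n b i j • nu n U i j) z = 0 := by
      intro z
      rw [sum_inner]
      rw [← hsumJ i (fun j => inner ℝ (len n b i j • nu n U i j) z) (by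
        intro j hj
        have : len n b i j = 0 := le_antisymm (not_lt.1 hj) (hlen0 _ _)
        rw [this, zero_smul, inner_zero_left]) hne]
      rw [← sum_inner, h1, inner_zero_left]
    exact inner_self_eq_zero.1 (h2 _)
  refine ⟨?_, hclose, ?_⟩
  · intro i j h
    obtain ⟨hne, -⟩ := facet hLEN hFR1 hF hI i
    have h1 := (hne j h).2
    change ‖(‖STAT.pr (U i) (n j)‖)⁻¹ • STAT.pr (U i) (n j)‖ = 1
    rw [norm_smul, norm_inv, norm_norm, inv_mul_cancel₀ (norm_ne_zero_iff.2 h1)]
  intro K h hh hK hKn hsup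
  have key : ∀ i, 2 * √(area (HP n b) (n i) (U i) (b i) * (volume (K i)).toReal) ≤
      ∑ j, len n b i j * h i j := by
    intro i
    obtain ⟨hne, β, W, hW, hPhi, hbdd, hstr, harea, hiff⟩ := facet hLEN hFR1 hF hI i
    obtain ⟨y0, hy0⟩ := hKn i
    set K' : Set (E 2) := (fun y => y + y0) ⁻¹' (K i) with hK'
    have hK'e : K' = (fun y => y - y0) '' (K i) := by
      ext y
      constructor
      · intro hy
        exact ⟨y + y0, hy, by simp⟩
      · rintro ⟨z, hz, rfl⟩
        simpa [hK'] using hz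
    have hK'c : IsCompact K' := by
      rw [hK'e]
      exact (hK i).image (by fun_prop)
    have hK'n : K'.Nonempty := ⟨0, by simpa [hK'] using hy0⟩
    obtain ⟨R, hR⟩ := hK'c.isBounded.exists_norm_le
    have hunit : ∀ j : {j : ι // j ≠ i ∧ STAT.pr (U i) (n j) ≠ 0}, ‖nu n U i j.1‖ = 1 :=
      fun j => (hW j).unit
    set κ' : {j : ι // j ≠ i ∧ STAT.pr (U i) (n j) ≠ 0} → ℝ := fun j =>
      if 0 < len n b i j.1 then h i j.1 - inner ℝ (nu n U i j.1) y0 else |R| with hκ'
    have hM := hMINK 1 _ (fun j : {j : ι // j ≠ i ∧ STAT.pr (U i) (n j) ≠ 0} => nu n U i j.1) β W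
      hW hstr hbdd K' κ' hK'c hK'n
      (by
        intro j
        rw [hκ']
        simp only
        split_ifs with hl
        · have := hsup i y0 hy0 j.1 hl
          linarith
        · exact abs_nonneg _)
      (by
        intro y hy j
        rw [hκ']
        simp only
        split_ifs with hl
        · have h1 := hsup i (y + y0) hy j.1 hl
          rw [inner_add_right] at h1
          linarith
        · calc inner ℝ (nu n U i j.1) y ≤ ‖nu n U i j.1‖ * ‖y‖ := real_inner_le_norm _ _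
            _ = ‖y‖ := by rw [hunit, one_mul]
            _ ≤ R := hR y hy
            _ ≤ |R| := le_abs_self R)
    have hA : area (HP n b) (n i) (U i) (b i) =
        (volume (HP (fun j : {j : ι // j ≠ i ∧ STAT.pr (U i) (n j) ≠ 0} => nu n U i j.1)
          β)).toReal := by
      unfold area
      rw [hPhi]
    have hvK : (volume K').toReal = (volume (K i)).toReal := by
      rw [hK', measure_preimage_add_right]
    have hsum : ∑ j : {j : ι // j ≠ i ∧ STAT.pr (U i) (n j) ≠ 0},
        area (HP (fun j : {j : ι // j ≠ i ∧ STAT.pr (U i) (n j) ≠ 0} => nu n U i j.1) β)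
          (nu n U i j.1) (W j) (β j) * κ' j = ∑ j, len n b i j * h i j := by
      have h1 : ∀ j : {j : ι // j ≠ i ∧ STAT.pr (U i) (n j) ≠ 0},
          area (HP (fun j : {j : ι // j ≠ i ∧ STAT.pr (U i) (n j) ≠ 0} => nu n U i j.1) β)
          (nu n U i j.1) (W j) (β j) * κ' j
            = (fun j => len n b i j * (h i j - inner ℝ (nu n U i j) y0)) j.1 := by
        intro j
        rw [harea, hκ']
        simp only
        split_ifs with hl
        · rfl
        · have h0 : len n b i j.1 = 0 := le_antisymm (not_lt.1 hl) (hlen0 _ _)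
          rw [h0, zero_mul, zero_mul]
      rw [Finset.sum_congr rfl fun j _ => h1 j]
      rw [hsumJ i (fun j => len n b i j * (h i j - inner ℝ (nu n U i j) y0)) (by
        intro j hj
        have h0 : len n b i j = 0 := le_antisymm (not_lt.1 hj) (hlen0 _ _)
        rw [h0, zero_mul]) hne]
      have h2 : ∑ j, len n b i j * inner ℝ (nu n U i j) y0 = 0 := by
        have h3 : inner ℝ (∑ j, len n b i j • nu n U i j) y0 = (0 : ℝ) := by
          rw [hclose, inner_zero_left]
        rw [sum_inner] at h3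
        rw [← h3]
        refine Finset.sum_congr rfl fun j _ => ?_
        rw [real_inner_smul_left]
      simp only [mul_sub, Finset.sum_sub_distrib]
      rw [h2, sub_zero]
    rw [hsum] at hM
    refine le_trans ?_ hM
    rw [hA, ← hvK]
    have e1 : ((1 : ℕ) : ℝ) / (((1 : ℕ) : ℝ) + 1) = 1 / 2 := by norm_num
    have e2 : (1 : ℝ) / (((1 : ℕ) : ℝ) + 1) = 1 / 2 := by norm_num
    rw [e1, e2, ← Real.sqrt_eq_rpow, ← Real.sqrt_eq_rpow, Real.sqrt_mul ENNReal.toReal_nonneg,
      Nat.cast_one]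
    apply le_of_eq
    ring
  refine (Finset.sum_le_sum fun i _ => key i).trans ?_
  have h1 : ∑ i, ∑ j, len n b i j * h i j = ∑ i, ∑ j, len n b i j * h j i := by
    rw [Finset.sum_comm]
    refine Finset.sum_congr rfl fun i _ => Finset.sum_congr rfl fun j _ => ?_
    rw [hsym]
  have h2 : ∑ i, ∑ j, len n b i j * h i j + ∑ i, ∑ j, len n b i j * h j i =
      ∑ i, ∑ j, len n b i j := by
    rw [← Finset.sum_add_distrib]
    refine Finset.sum_congr rfl fun i _ => ?_
    rw [← Finset.sum_add_distrib]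
    refine Finset.sum_congr rfl fun j _ => ?_
    by_cases hij : i = j
    · rw [len, if_pos hij]; ring
    · rw [← mul_add, hh i j hij, mul_one]
  unfold L
  linarith

end Pool.Agent.Work.MP_3892ce_static
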