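import Pool.Agent.Work.MP_3892ce_static.Interface

/-! TWO: the two-level bound (helper15). -/

set_option autoImplicit false

open MeasureTheory Set
open scoped ENNReal Pointwise

namespace Pool.Agent.Work.MP_3892ce_static

namespace TWO

theorem len_symm {ι : Type} [DecidableEq ι] (n : ι → E 3) (b : ι → ℝ) (i j : ι) :
    len n b i j = len n b j i := by
  unfold len
  by_cases h : i = j
  · rw [if_pos h, if_pos h.symm]
  · rw [if_neg h, if_neg (fun h' => h h'.symm), inter_comm]

/-- the weights -/
noncomputable def kap {ι : Type} [DecidableEq ι] (M : Finset ι) (w : ℝ) (i j : ι) : ℝ :=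
  if i ∈ M then (if j ∈ M then 1 / 2 else w) else (if j ∈ M then 1 - w else 1 / 2)

theorem kap_add {ι : Type} [DecidableEq ι] (M : Finset ι) (w : ℝ) (i j : ι) :
    kap M w i j + kap M w j i = 1 := by
  unfold kap
  by_cases hi : i ∈ M <;> by_cases hj : j ∈ M
  · rw [if_pos hi, if_pos hj, if_pos hj, if_pos hi]; norm_num
  · rw [if_pos hi, if_neg hj, if_neg hj, if_pos hi]; ring
  · rw [if_neg hi, if_pos hj, if_pos hj, if_neg hi]; ring
  · rw [if_neg hi, if_neg hj, if_neg hj, if_neg hi]; norm_num

end TWO

open TWO in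
theorem blk_TWO (hSTAT : Stmt_STAT) (hSEG : Stmt_SEG) : Stmt_TWO := by
  intro ι _ _ n b U hU hI M w r hw hM hO
  obtain ⟨ν, hν, hst⟩ := hSTAT ι n b U hU hI
  have hterm : ∀ i, 2 * √(area (HP n b) (n i) (U i) (b i) *
      Wd (r i) (if i ∈ M then 1 / 2 else 1 - w) (M.filter (fun j => 0 < len n b i j)).card) ≤
      ∑ j, len n b i j * kap M w i j := by
    intro i
    set s := M.filter (fun j => 0 < len n b i j) with hs
    set d : ℝ := if i ∈ M then 1 / 2 else 1 - w with hd
    have hd0 : 0 ≤ d := by
      rw [hd]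
      split_ifs
      · norm_num
      · linarith
    have hdr : d ≤ r i := by
      rw [hd]
      split_ifs with h
      · exact (hM i h).1
      · exact (hO i h).1
    have hr0 : 0 < r i := by
      by_cases h : i ∈ M
      · linarith [(hM i h).1]
      · exact (hO i h).2.1
    set K : Set (E 2) := {y : E 2 | ‖y‖ ≤ r i ∧ ∀ j ∈ s, inner ℝ (ν i j) y ≤ d} with hK
    have hKc : IsCompact K := by
      have h1 : K = Metric.closedBall 0 (r i) ∩ ⋂ j ∈ s, {y : E 2 | inner ℝ (ν i j) y ≤ d} := by
        ext y
        rw [mem_inter_iff, mem_closedBall_zero_iff, mem_iInter₂]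
        exact Iff.rfl
      rw [h1]
      refine (isCompact_closedBall _ _).inter_right ?_
      refine isClosed_biInter fun j _ => ?_
      exact isClosed_le (continuous_const.inner continuous_id) continuous_const
    have hK0 : K.Nonempty := by
      refine ⟨0, ?_, fun j _ => ?_⟩
      · rw [norm_zero]; exact hr0.le
      · rw [inner_zero_right]; exact hd0
    have hw0 : i ∈ M → 0 ≤ w := fun h => by linarith [(hM i h).1, (hM i h).2]
    have hk0 : ∀ j, 0 ≤ kap M w i j := by
      intro j
      unfold kap
      split_ifs with h1 h2 h2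
      · norm_num
      · exact hw0 h1
      · linarith
      · norm_num
    have hKs : ∀ y ∈ K, ∀ j, 0 < len n b i j → inner ℝ (ν i j) y ≤ kap M w i j := by
      intro y hy j hj
      by_cases hjM : j ∈ M
      · have h1 := hy.2 j (Finset.mem_filter.2 ⟨hjM, hj⟩)
        refine h1.trans (le_of_eq ?_)
        rw [hd]
        unfold kap
        by_cases hi : i ∈ M
        · rw [if_pos hi, if_pos hi, if_pos hjM]
        · rw [if_neg hi, if_neg hi, if_pos hjM]
      · have h1 : inner ℝ (ν i j) y ≤ ‖ν i j‖ * ‖y‖ := real_inner_le_norm _ _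
        rw [hν i j hj, one_mul] at h1
        refine h1.trans (hy.1.trans ?_)
        unfold kap
        by_cases hi : i ∈ M
        · rw [if_pos hi, if_neg hjM]
          exact (hM i hi).2
        · rw [if_neg hi, if_neg hjM]
          exact (hO i hi).2.2
    have h1 := hst i K (kap M w i) hKc hK0 hk0 hKs
    refine le_trans ?_ h1
    have h2 := hSEG ι s (ν i) (r i) d (fun j hj => hν i j (Finset.mem_filter.1 hj).2) hd0 hdr hr0
    refine mul_le_mul_of_nonneg_left (Real.sqrt_le_sqrt ?_) (by norm_num)
    refine mul_le_mul_of_nonneg_left h2 ?_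
    exact ENNReal.toReal_nonneg
  refine (Finset.sum_le_sum fun i _ => hterm i).trans (le_of_eq ?_)
  have h2 : ∑ i, ∑ j, len n b i j * kap M w i j = ∑ i, ∑ j, len n b i j * kap M w j i := by
    rw [Finset.sum_comm]
    refine Finset.sum_congr rfl fun i _ => Finset.sum_congr rfl fun j _ => ?_
    rw [len_symm]
  have h3 : ∑ i, ∑ j, len n b i j * kap M w i j + ∑ i, ∑ j, len n b i j * kap M w j i =
      ∑ i, ∑ j, len n b i j := by
    rw [← Finset.sum_add_distrib]
    refine Finset.sum_congr rfl fun i _ => ?_
    rw [← Finset.sum_add_distrib]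
    refine Finset.sum_congr rfl fun j _ => ?_
    rw [← mul_add, kap_add, mul_one]
  unfold L
  linarith

end Pool.Agent.Work.MP_3892ce_static
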