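import Pool.Agent.Work.MP_3892ce_static.Interface2

/-! # Melzak's problem, static method: block UNB -/

set_option autoImplicit false

open MeasureTheory Set
open scoped ENNReal Pointwise

namespace Pool.Agent.Work.MP_3892ce_static

namespace UNBh

/-- an unbounded polyhedron has a direction in which it is unbounded -/
theorem recDir {ι : Type} (n : ι → E 3) (b : ι → ℝ) (x0 : E 3)
    (hunb : ¬ Bornology.IsBounded (HP n b)) : ∃ d : E 3, ‖d‖ = 1 ∧ ∀ i, inner ℝ (n i) d ≤ 0 := by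
  have h1 : ∀ m : ℕ, ∃ x ∈ HP n b, (m : ℝ) < ‖x - x0‖ := by
    intro m
    by_contra hcon
    push Not at hcon
    apply hunb
    refine (Metric.isBounded_iff_subset_closedBall x0).2 ⟨m, fun x hx => ?_⟩
    rw [Metric.mem_closedBall, dist_eq_norm]
    exact hcon x hx
  choose x hx hxm using h1
  have hpos : ∀ m, 0 < ‖x m - x0‖ := fun m => lt_of_le_of_lt (Nat.cast_nonneg m) (hxm m)
  set u : ℕ → E 3 := fun m => (‖x m - x0‖)⁻¹ • (x m - x0) with hu
  have hun : ∀ m, u m ∈ Metric.sphere (0 : E 3) 1 := by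
    intro m
    rw [mem_sphere_zero_iff_norm, hu]
    simp only
    rw [norm_smul, norm_inv, norm_norm, inv_mul_cancel₀ (hpos m).ne']
  obtain ⟨d, hd, φ, hφ, hlim⟩ := (isCompact_sphere (0 : E 3) 1).tendsto_subseq hun
  refine ⟨d, mem_sphere_zero_iff_norm.1 hd, fun i => ?_⟩
  have h2 : Filter.Tendsto (fun m => inner ℝ (n i) (u (φ m))) Filter.atTop
      (nhds (inner ℝ (n i) d)) := Filter.Tendsto.inner tendsto_const_nhds hlim
  have h3 : Filter.Tendsto (fun m : ℕ => |b i - inner ℝ (n i) x0| / ((φ m : ℕ) : ℝ)) Filter.atTop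
      (nhds 0) :=
    (tendsto_const_div_atTop_nhds_zero_nat (|b i - inner ℝ (n i) x0|)).comp hφ.tendsto_atTop
  refine le_of_tendsto_of_tendsto h2 h3 ?_
  filter_upwards [Filter.eventually_gt_atTop 0] with m hm
  have hφm : 0 < φ m := lt_of_lt_of_le hm (hφ.id_le m)
  have hφr : (0 : ℝ) < (φ m : ℕ) := by exact_mod_cast hφm
  have e1 : inner ℝ (n i) (u (φ m)) =
      (inner ℝ (n i) (x (φ m)) - inner ℝ (n i) x0) / ‖x (φ m) - x0‖ := by
    rw [hu]
    simp only
    rw [inner_smul_right, inner_sub_right]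
    ring
  rw [e1]
  have h4 : inner ℝ (n i) (x (φ m)) ≤ b i := hx (φ m) i
  calc (inner ℝ (n i) (x (φ m)) - inner ℝ (n i) x0) / ‖x (φ m) - x0‖
      ≤ |b i - inner ℝ (n i) x0| / ‖x (φ m) - x0‖ := by
        apply div_le_div_of_nonneg_right _ (hpos _).le
        exact le_trans (by linarith) (le_abs_self _)
    _ ≤ |b i - inner ℝ (n i) x0| / ((φ m : ℕ) : ℝ) :=
        div_le_div_of_nonneg_left (abs_nonneg _) hφr (hxm _).le

end UNBh

open UNBh in
theorem blk_UNB (hMINK : Stmt_MINK) (hPOS : Stmt_POS) (hFR1 : Stmt_FR1) (hFR2 : Stmt_FR2) :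
    Stmt_UNB := by
  intro ι _ _ n b U hU hI M hunb S T hS hT
  obtain ⟨x0, hx0⟩ := hI.int
  obtain ⟨d, hd, hdn⟩ := recDir (fun k : M => n k) (fun k : M => b k) x0 hunb
  have hApos := hPOS ι n b U hU hI
  -- there is a facet which is not named
  obtain ⟨i0, hi0⟩ : ∃ i, i ∉ M := by
    by_contra hcon
    push Not at hcon
    apply hunb
    refine hI.bdd.subset fun x hx i => hx ⟨i, hcon i⟩
  have hTpos : 0 < T := by
    rw [hT]
    exact Finset.sum_pos (fun i _ => hApos i) ⟨i0, by simpa using hi0⟩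
  have hSpos : 0 < S := by
    rw [hS]
    exact Finset.sum_pos (fun i _ => hApos i) ⟨i0, Finset.mem_univ _⟩
  obtain ⟨H, hH⟩ : ∃ H : ℝ, H = S / (2 * T) := ⟨_, rfl⟩
  have hHpos : 0 < H := by rw [hH]; positivity
  -- the cylinder
  obtain ⟨W, hW⟩ := hFR1 2 d hd
  have hmp := (hFR2 2 d W hW).1
  obtain ⟨φ, hφ⟩ : ∃ φ : ℝ × E 2 → E 3, φ = fun p : ℝ × E 2 => p.1 • d + W p.2 := ⟨_, rfl⟩
  rw [← hφ] at hmp
  have hφc : Continuous φ := by
    rw [hφ]
    exact (continuous_fst.smul continuous_const).add (W.continuous.comp continuous_snd)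
  have hφi : Function.Injective φ := by
    intro p q hpq
    rw [hφ] at hpq
    simp only at hpq
    have h1 : ∀ r : ℝ × E 2, inner ℝ d (r.1 • d + W r.2) = r.1 := by
      intro r
      rw [inner_add_right, inner_smul_right, hW.orth, real_inner_self_eq_norm_sq, hd]
      ring
    have h2 : p.1 = q.1 := by rw [← h1 p, hpq, h1 q]
    rw [h2] at hpq
    exact Prod.ext h2 (W.injective (add_left_cancel hpq))
  obtain ⟨K, hK⟩ : ∃ K : Set (E 3), K = φ '' (Icc 0 H ×ˢ Metric.closedBall (0 : E 2) 1) := ⟨_, rfl⟩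
  have hKc : IsCompact K := by
    rw [hK]
    exact (isCompact_Icc.prod (isCompact_closedBall _ _)).image hφc
  have hKn : K.Nonempty := by
    rw [hK]
    exact ⟨φ (0, 0), mem_image_of_mem _ ⟨⟨le_rfl, hHpos.le⟩, by simp⟩⟩
  have hKv : (volume K).toReal = H * Real.pi := by
    rw [← hmp.measure_preimage hKc.measurableSet.nullMeasurableSet, hK, preimage_image_eq _ hφi,
      Measure.prod_prod, ENNReal.toReal_mul, Real.volume_Icc,
      EuclideanSpace.volume_closedBall_fin_two]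
    simp [hHpos.le, Real.pi_pos.le]
  have hsub : K ⊆ HP n (fun i => if i ∈ M then 1 else 1 + H) := by
    rw [hK]
    rintro _ ⟨⟨s, y⟩, ⟨⟨hs0, hsH⟩, hy⟩, rfl⟩ i
    rw [mem_closedBall_zero_iff] at hy
    simp only at hs0 hsH hy
    rw [hφ]
    simp only
    rw [inner_add_right, inner_smul_right]
    have h1 : inner ℝ (n i) (W y) ≤ 1 := by
      refine (real_inner_le_norm _ _).trans ?_
      rw [hI.unit, W.norm_map, one_mul]
      exact hy
    by_cases hiM : i ∈ M
    · rw [if_pos hiM]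
      have h2 : inner ℝ (n i) d ≤ 0 := hdn ⟨i, hiM⟩
      nlinarith
    · rw [if_neg hiM]
      have h2 : inner ℝ (n i) d ≤ 1 := by
        refine (real_inner_le_norm _ _).trans ?_
        rw [hI.unit, hd, one_mul]
      nlinarith
  have hmain := hMINK 2 ι n b U hU hI.int hI.bdd K (fun i => if i ∈ M then 1 else 1 + H) hKc hKn
    (fun i => by split_ifs <;> linarith) hsub
  have hsum : ∑ i, area (HP n b) (n i) (U i) (b i) * (if i ∈ M then 1 else 1 + H) = S + H * T := by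
    rw [hS, hT, Finset.mul_sum, Finset.sum_filter, ← Finset.sum_add_distrib]
    apply Finset.sum_congr rfl
    intro i _
    by_cases hiM : i ∈ M
    · simp [hiM]
    · simp [hiM]
      ring
  rw [hsum, hKv] at hmain
  obtain ⟨V, hV⟩ : ∃ V : ℝ, V = (volume (HP n b)).toReal := ⟨_, rfl⟩
  rw [← hV] at hmain ⊢
  have hV0 : 0 ≤ V := by rw [hV]; exact ENNReal.toReal_nonneg
  have hHT : H * T = S / 2 := by
    rw [hH]
    field_simp
  rw [hHT] at hmain
  have e1 : (V ^ (((2 : ℕ) : ℝ) / (((2 : ℕ) : ℝ) + 1))) ^ 3 = V ^ 2 := by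
    rw [← Real.rpow_natCast (V ^ _) 3, ← Real.rpow_mul hV0, ← Real.rpow_natCast V 2]
    congr 1
    norm_num
  have e2 : ((H * Real.pi) ^ ((1 : ℝ) / (((2 : ℕ) : ℝ) + 1))) ^ 3 = H * Real.pi := by
    have hHp : 0 ≤ H * Real.pi := by positivity
    rw [← Real.rpow_natCast ((H * Real.pi) ^ _) 3, ← Real.rpow_mul hHp]
    norm_num
  have h3 := pow_le_pow_left₀ (by positivity) hmain 3
  rw [mul_pow, mul_pow, e1, e2] at h3
  push_cast at h3
  have h4 : H = S / (2 * T) := hH
  have h5 : (27 : ℝ) * V ^ 2 * (H * Real.pi) ≤ (3 / 2 * S) ^ 3 := by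
    calc (27 : ℝ) * V ^ 2 * (H * Real.pi) = (2 + 1) ^ 3 * V ^ 2 * (H * Real.pi) := by norm_num
      _ ≤ (S + S / 2) ^ 3 := h3
      _ = (3 / 2 * S) ^ 3 := by ring
  have h6 : 27 * V ^ 2 * (S * Real.pi) ≤ (3 / 2 * S) ^ 3 * (2 * T) := by
    have h7 := mul_le_mul_of_nonneg_right h5 (show 0 ≤ 2 * T by positivity)
    have h8 : 27 * V ^ 2 * (H * Real.pi) * (2 * T) = 27 * V ^ 2 * (S * Real.pi) := by
      rw [h4]
      field_simp
    linarith
  have h9 : S * (4 * Real.pi * V ^ 2) ≤ S * (T * S ^ 2) := by nlinarith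
  exact le_of_mul_le_mul_left h9 hSpos

end Pool.Agent.Work.MP_3892ce_static
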