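import Pool.Agent.Work.MP_3892ce_static.Interface2
import Pool.Agent.Work.MP_3892ce_static.ZETA

/-! # Block ZLE: the total edge length is at most the sum over all pairs of facets (helper98) -/

set_option autoImplicit false

open Set
open scoped ENNReal

namespace Pool.Agent.Work.MP_3892ce_static
namespace ZLE

open Pool.Agent.Work.MP_3892ce_gt (IsEdge zeta1)

variable {ι : Type} {n : ι → E 3} {b : ι → ℝ}

lemma exists_orth (a c : E 3) : ∃ v : E 3, v ≠ 0 ∧ inner ℝ a v = 0 ∧ inner ℝ c v = 0 := by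
  let Φ : E 3 →ₗ[ℝ] (Fin 2 → ℝ) := LinearMap.pi
    ![(innerSL ℝ a).toLinearMap, (innerSL ℝ c).toLinearMap]
  have h : LinearMap.ker Φ ≠ ⊥ := LinearMap.ker_ne_bot_of_finrank_lt (by simp)
  obtain ⟨v, hv, hv0⟩ := Submodule.exists_mem_ne_zero_of_ne_bot h
  rw [LinearMap.mem_ker] at hv
  refine ⟨v, hv0, ?_, ?_⟩
  · exact congrFun hv 0
  · exact congrFun hv 1

/-- small perturbations in directions orthogonal to the tight normals stay in `P` -/
lemma perturb [Finite ι] {m v : E 3} (hm : m ∈ HP n b)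
    (hv : ∀ k, inner ℝ (n k) m = b k → inner ℝ (n k) v = 0) :
    ∃ ε : ℝ, 0 < ε ∧ m + ε • v ∈ HP n b ∧ m - ε • v ∈ HP n b := by
  classical
  have hk : ∀ k : ι, ∃ ε : ℝ, 0 < ε ∧ ∀ s : ℝ, |s| ≤ ε → inner ℝ (n k) (m + s • v) ≤ b k := by
    intro k
    by_cases h : inner ℝ (n k) m = b k
    · refine ⟨1, one_pos, fun s _ => ?_⟩
      rw [inner_add_right, inner_smul_right, hv k h, h]
      simp
    · have h1 : 0 < b k - inner ℝ (n k) m := sub_pos.2 (lt_of_le_of_ne (hm k) h)
      refine ⟨(b k - inner ℝ (n k) m) / (|inner ℝ (n k) v| + 1), by positivity, fun s hs => ?_⟩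
      rw [inner_add_right, inner_smul_right]
      have h2 : s * inner ℝ (n k) v ≤ |s| * |inner ℝ (n k) v| := by
        rw [← abs_mul]; exact le_abs_self _
      have h3 : |s| * |inner ℝ (n k) v| ≤
          (b k - inner ℝ (n k) m) / (|inner ℝ (n k) v| + 1) * (|inner ℝ (n k) v| + 1) :=
        mul_le_mul hs (by linarith) (abs_nonneg _) (by positivity)
      rw [div_mul_cancel₀ _ (by positivity)] at h3
      linarith
  choose ε hε hε' using hk
  obtain ⟨δ, hδ, hδ'⟩ : ∃ δ : ℝ, 0 < δ ∧ ∀ k, δ ≤ ε k := by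
    have := Fintype.ofFinite ι
    rcases isEmpty_or_nonempty ι with h | h
    · exact ⟨1, one_pos, fun k => h.elim k⟩
    · obtain ⟨k0, hk0⟩ := Finite.exists_min ε
      exact ⟨ε k0, hε k0, hk0⟩
  refine ⟨δ, hδ, fun k => hε' k δ (by rw [abs_of_pos hδ]; exact hδ' k), fun k => ?_⟩
  have := hε' k (-δ) (by rw [abs_neg, abs_of_pos hδ]; exact hδ' k)
  rwa [neg_smul, ← sub_eq_add_neg] at this

/-- an edge is the common part of two facets -/
theorem edge_eq [Finite ι] [DecidableEq ι] (hI : Irr n b) {F : Set (E 3)}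
    (hF : IsEdge (HP n b) F) : ∃ i j, i ≠ j ∧ F = Face n b i ∩ Face n b j := by
  classical
  obtain ⟨hexp, x, y, hxy, rfl⟩ := hF
  have hxF : x ∈ segment ℝ x y := left_mem_segment ℝ x y
  have hyF : y ∈ segment ℝ x y := right_mem_segment ℝ x y
  obtain ⟨l, hl⟩ := hexp ⟨x, hxF⟩
  set m : E 3 := (1 / 2 : ℝ) • x + (1 / 2 : ℝ) • y with hm
  have hmF : m ∈ segment ℝ x y := ⟨1 / 2, 1 / 2, by norm_num, by norm_num, by norm_num, rfl⟩
  have hmem : ∀ z, z ∈ segment ℝ x y ↔ z ∈ HP n b ∧ ∀ w ∈ HP n b, l w ≤ l z := by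
    intro z
    rw [hl]
    exact Iff.rfl
  have hx := (hmem x).1 hxF
  have hy := (hmem y).1 hyF
  have hmm := (hmem m).1 hmF
  have hlx : l x = l m := le_antisymm (hmm.2 x hx.1) (hx.2 m hmm.1)
  have hly : l y = l m := le_antisymm (hmm.2 y hy.1) (hy.2 m hmm.1)
  have hin : ∀ k, inner ℝ (n k) m = (1 / 2) * inner ℝ (n k) x + (1 / 2) * inner ℝ (n k) y := by
    intro k
    rw [hm, inner_add_right, inner_smul_right, inner_smul_right]
  have htx : ∀ k, inner ℝ (n k) m = b k → inner ℝ (n k) x = b k := by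
    intro k hk
    have h1 := hx.1 k
    have h2 := hy.1 k
    have h3 := hin k
    linarith
  have hty : ∀ k, inner ℝ (n k) m = b k → inner ℝ (n k) y = b k := by
    intro k hk
    have h1 := hx.1 k
    have h2 := hy.1 k
    have h3 := hin k
    linarith
  have hu : y - x ≠ 0 := sub_ne_zero.2 hxy.symm
  -- two tight facets
  obtain ⟨i, j, hij, hi, hj⟩ : ∃ i j, i ≠ j ∧ inner ℝ (n i) m = b i ∧ inner ℝ (n j) m = b j := by
    by_contra hcon
    push Not at hcon
    obtain ⟨a, ha⟩ : ∃ a : E 3, ∀ k, inner ℝ (n k) m = b k → n k = a := by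
      by_cases h : ∃ k0, inner ℝ (n k0) m = b k0
      · obtain ⟨k0, hk0⟩ := h
        refine ⟨n k0, fun k hk => ?_⟩
        by_contra hne
        exact hcon k k0 (fun h' => hne (by rw [h'])) hk hk0
      · exact ⟨0, fun k hk => absurd ⟨k, hk⟩ h⟩
    obtain ⟨v, hv0, hva, hvu⟩ := exists_orth a (y - x)
    obtain ⟨ε, hε, hp, hq⟩ := perturb (v := v) hmm.1 (fun k hk => by rw [ha k hk]; exact hva)
    have h1 := hmm.2 _ hp
    have h2 := hmm.2 _ hq
    rw [map_add, map_smul] at h1
    rw [map_sub, map_smul] at h2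
    have h3 : l (m + ε • v) = l m := by
      rw [map_add, map_smul]
      linarith
    have h4 : m + ε • v ∈ segment ℝ x y := by
      rw [hmem]
      exact ⟨hp, fun w hw => by rw [h3]; exact hmm.2 w hw⟩
    rw [segment_eq_image'] at h4
    obtain ⟨θ, _, hθ⟩ := h4
    have hθ' : x + θ • (y - x) = m + ε • v := hθ
    have h5 : ε • v = (θ - 1 / 2) • (y - x) := by
      have : ε • v = x + θ • (y - x) - m := by rw [hθ']; abel
      rw [this, hm, sub_smul]
      module
    have h6 : inner ℝ (y - x) (ε • v) = 0 := by rw [inner_smul_right, hvu, mul_zero]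
    rw [h5, inner_smul_right, real_inner_self_eq_norm_sq] at h6
    have h7 : θ - 1 / 2 = 0 := by
      rcases mul_eq_zero.1 h6 with h | h
      · exact h
      · exact absurd h (pow_ne_zero 2 (norm_ne_zero_iff.2 hu))
    rw [h7, zero_smul] at h5
    rcases smul_eq_zero.1 h5 with h | h
    · exact hε.ne' h
    · exact hv0 h
  refine ⟨i, j, hij, ?_⟩
  have hmij : m ∈ Face n b i ∩ Face n b j := ⟨⟨hmm.1, hi⟩, ⟨hmm.1, hj⟩⟩
  obtain ⟨e1, e2⟩ := ZETA.ne_of_face hI hij hmij
  apply Subset.antisymm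
  · intro z hz
    have hzP := ((hmem z).1 hz).1
    have hseg : segment ℝ x y ⊆ Face n b i ∩ Face n b j :=
      ((ZETA.convex_Face n b i).inter (ZETA.convex_Face n b j)).segment_subset
        ⟨⟨hx.1, htx i hi⟩, ⟨hx.1, htx j hj⟩⟩ ⟨⟨hy.1, hty i hi⟩, ⟨hy.1, hty j hj⟩⟩
    exact hseg hz
  · intro z hz
    obtain ⟨t, ht⟩ := ZETA.line (n i) (n j) (ZETA.indep hI e1 e2) (y - x) (z - m) hu
      (by rw [inner_sub_right, htx i hi, hty i hi, sub_self])
      (by rw [inner_sub_right, htx j hj, hty j hj, sub_self])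
      (by rw [inner_sub_right, hz.1.2, hi, sub_self])
      (by rw [inner_sub_right, hz.2.2, hj, sub_self])
    rw [hmem]
    refine ⟨hz.1.1, fun w hw => ?_⟩
    have h1 : l z = l m := by
      have h2 : l (z - m) = l (t • (y - x)) := by rw [ht]
      rw [map_sub, map_smul, map_sub, hlx, hly, sub_self, smul_zero] at h2
      linarith
    rw [h1]
    exact hmm.2 w hw

end ZLE

open ZLE in
open Pool.Agent.Work.MP_3892ce_gt (IsEdge zeta1) in
theorem blk_ZLE : Stmt_ZLE := by
  classical
  intro ι _ _ n b hI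
  have hch : ∀ F : {F : Set (E 3) // IsEdge (HP n b) F}, ∃ p : ι × ι, p.1 ≠ p.2 ∧
      F.1 = Face n b p.1 ∩ Face n b p.2 := by
    intro F
    obtain ⟨i, j, h1, h2⟩ := edge_eq hI F.2
    exact ⟨(i, j), h1, h2⟩
  choose c hc1 hc2 using hch
  set g : {F : Set (E 3) // IsEdge (HP n b) F} × Bool → ι × ι :=
    fun q => if q.2 then (c q.1).swap else c q.1 with hg
  have hgF : ∀ q, q.1.1 = Face n b (g q).1 ∩ Face n b (g q).2 := by
    intro q
    rw [hc2 q.1]
    simp only [hg]
    split_ifs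
    · rw [Prod.fst_swap, Prod.snd_swap, inter_comm]
    · rfl
  have hgne : ∀ q, (g q).1 ≠ (g q).2 := by
    intro q
    simp only [hg]
    split_ifs
    · exact (hc1 q.1).symm
    · exact hc1 q.1
  have hinj : Function.Injective g := by
    intro q q' h
    have h1 : q.1 = q'.1 := by
      apply Subtype.ext
      rw [hgF q, hgF q', h]
    refine Prod.ext h1 ?_
    by_contra h2
    have h3 : c q.1 = (c q.1).swap := by
      simp only [hg] at h
      rw [← h1] at h
      rcases Bool.eq_false_or_eq_true q.2 with e | e <;>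
        rcases Bool.eq_false_or_eq_true q'.2 with e' | e'
      · exact absurd (e.trans e'.symm) h2
      · rw [e, e'] at h; simpa using h.symm
      · rw [e, e'] at h; simpa using h
      · exact absurd (e.trans e'.symm) h2
    exact hc1 q.1 (congrArg Prod.fst h3)
  set f : ι × ι → ℝ≥0∞ := fun p => ENNReal.ofReal (len n b p.1 p.2) with hf
  have h1 := ENNReal.tsum_comp_le_tsum_of_injective hinj f
  have hfg : ∀ q, f (g q) = Metric.ediam q.1.1 := by
    intro q
    simp only [hf]
    unfold len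
    rw [if_neg (hgne q), ← hgF q]
    unfold Metric.diam
    refine ENNReal.ofReal_toReal ?_
    have hb : Bornology.IsBounded q.1.1 := by
      rw [hgF q]
      exact hI.bdd.subset fun x hx => hx.1.1
    exact hb.ediam_ne_top
  have h2 : ∑' q, f (g q) = 2 * zeta1 (HP n b) := by
    have h3 := ENNReal.tsum_prod (f := fun (F : {F : Set (E 3) // IsEdge (HP n b) F})
      (_ : Bool) => Metric.ediam F.1)
    refine ((tsum_congr fun q => hfg q).trans h3).trans ?_
    unfold zeta1
    rw [← ENNReal.tsum_mul_left]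
    refine tsum_congr fun F => ?_
    rw [tsum_bool, two_mul]
  have h4 : ∑' p, f p = 2 * ENNReal.ofReal (L n b) := by
    rw [tsum_fintype]
    simp only [hf]
    rw [← ENNReal.ofReal_sum_of_nonneg]
    · rw [← Finset.univ_product_univ, Finset.sum_product]
      unfold L
      rw [← ENNReal.ofReal_ofNat 2, ← ENNReal.ofReal_mul (by norm_num)]
      congr 1
      ring
    · intro p _
      unfold len
      split_ifs
      · exact le_rfl
      · exact Metric.diam_nonneg
  rw [h2, h4] at h1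
  exact (ENNReal.mul_le_mul_iff_right (by norm_num) (by norm_num)).1 h1

end Pool.Agent.Work.MP_3892ce_static
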